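import Pool.Agent.Lib.MP_efc3dd_lc.Defs

set_option autoImplicit false

/-!
# Back-and-forth relations between sets of lists ordered by the prefix relation
-/

namespace Pool.Agent.Lib.MP_efc3dd_lc

open Set

variable {ι κ μ : Type}

theorem prefix_antisymm {l m : List ι} (h : l <+: m) (h' : m <+: l) : l = m :=
  h.eq_of_length (le_antisymm h.length_le h'.length_le)

/-- Agreement of the atomic facts. -/
def Atom (p : Set (List ι × List κ)) : Prop :=
  ∀ a ∈ p, ∀ b ∈ p, (a.1 <+: b.1 ↔ a.2 <+: b.2)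

/-- The reversed position. -/
def sw (p : Set (List ι × List κ)) : Set (List κ × List ι) := {z | (z.2, z.1) ∈ p}

@[simp] theorem mem_sw {p : Set (List ι × List κ)} {x : List κ} {y : List ι} :
    (x, y) ∈ sw p ↔ (y, x) ∈ p := Iff.rfl

theorem mem_sw' {p : Set (List ι × List κ)} {z : List κ × List ι} :
    z ∈ sw p ↔ (z.2, z.1) ∈ p := Iff.rfl

@[simp] theorem sw_sw (p : Set (List ι × List κ)) : sw (sw p) = p := rfl

theorem sw_subset {p q : Set (List ι × List κ)} : sw p ⊆ sw q ↔ p ⊆ q :=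
  ⟨fun h a ha => h (a := (a.2, a.1)) ha, fun h _ ha => h ha⟩

theorem sw_finite {p : Set (List ι × List κ)} : (sw p).Finite ↔ p.Finite := by
  have h : ∀ {α β : Type} {p : Set (List α × List β)}, p.Finite → (sw p).Finite := by
    intro α β p hp
    refine (hp.image Prod.swap).subset ?_
    rintro ⟨x, y⟩ h
    exact ⟨(y, x), h, rfl⟩
  exact ⟨fun hp => h hp, h⟩

theorem Atom.sw {p : Set (List ι × List κ)} (h : Atom p) : Atom (sw p) :=
  fun a ha b hb => (h (a.2, a.1) ha (b.2, b.1) hb).symm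

theorem Atom.mono {p q : Set (List ι × List κ)} (h : Atom q) (hpq : p ⊆ q) : Atom p :=
  fun a ha b hb => h a (hpq ha) b (hpq hb)

theorem Atom.eq_iff {p : Set (List ι × List κ)} (h : Atom p) {a b : List ι × List κ}
    (ha : a ∈ p) (hb : b ∈ p) : a.1 = b.1 ↔ a.2 = b.2 := by
  constructor
  · intro e
    exact prefix_antisymm ((h a ha b hb).1 (e ▸ List.prefix_rfl))
      ((h b hb a ha).1 (e ▸ List.prefix_rfl))
  · intro e
    exact prefix_antisymm ((h a ha b hb).2 (e ▸ List.prefix_rfl))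
      ((h b hb a ha).2 (e ▸ List.prefix_rfl))

/-- `BF β S T p`: the back-and-forth relation `(S, p₁) ≤_β (T, p₂)`, where the position `p` is
a finite set of pairs. -/
def BF (β : Ordinal.{0}) {ι κ : Type} (S : Set (List ι)) (T : Set (List κ))
    (p : Set (List ι × List κ)) : Prop :=
  p.Finite ∧ (∀ a ∈ p, a.1 ∈ S ∧ a.2 ∈ T) ∧ Atom p ∧
  ∀ β' < β, ∀ D ⊆ T, D.Finite → ∃ q, p ⊆ q ∧ (∀ d ∈ D, ∃ a, (a, d) ∈ q) ∧ BF β' T S (sw q)
termination_by β

theorem BF_iff {β : Ordinal.{0}} {S : Set (List ι)} {T : Set (List κ)}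
    {p : Set (List ι × List κ)} : BF β S T p ↔ p.Finite ∧ (∀ a ∈ p, a.1 ∈ S ∧ a.2 ∈ T) ∧ Atom p ∧
      ∀ β' < β, ∀ D ⊆ T, D.Finite →
        ∃ q, p ⊆ q ∧ (∀ d ∈ D, ∃ a, (a, d) ∈ q) ∧ BF β' T S (sw q) := by
  rw [BF]

namespace BF

variable {β β' : Ordinal.{0}} {S : Set (List ι)} {T : Set (List κ)} {U : Set (List μ)}
  {p p' : Set (List ι × List κ)} {q : Set (List κ × List μ)}

theorem finite (h : BF β S T p) : p.Finite := (BF_iff.1 h).1

theorem mem (h : BF β S T p) {a : List ι × List κ} (ha : a ∈ p) : a.1 ∈ S ∧ a.2 ∈ T :=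
  (BF_iff.1 h).2.1 a ha

theorem atom (h : BF β S T p) : Atom p := (BF_iff.1 h).2.2.1

theorem step (h : BF β S T p) (hβ : β' < β) {D : Set (List κ)} (hD : D ⊆ T) (hf : D.Finite) :
    ∃ q, p ⊆ q ∧ (∀ d ∈ D, ∃ a, (a, d) ∈ q) ∧ BF β' T S (sw q) :=
  (BF_iff.1 h).2.2.2 β' hβ D hD hf

theorem mono (h : BF β S T p) (hβ : β' ≤ β) : BF β' S T p := by
  rw [BF_iff] at h ⊢
  exact ⟨h.1, h.2.1, h.2.2.1, fun γ hγ => h.2.2.2 γ (hγ.trans_le hβ)⟩

theorem pos (h : BF β S T p) (hp : p' ⊆ p) : BF β S T p' := by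
  rw [BF_iff] at h ⊢
  refine ⟨h.1.subset hp, fun a ha => h.2.1 a (hp ha), h.2.2.1.mono hp, fun γ hγ D hD hf => ?_⟩
  obtain ⟨q, h1, h2, h3⟩ := h.2.2.2 γ hγ D hD hf
  exact ⟨q, hp.trans h1, h2, h3⟩

theorem symm_lt (h : BF β S T p) (hβ : β' < β) : BF β' T S (sw p) := by
  obtain ⟨q, h1, _, h3⟩ := h.step hβ (empty_subset _) finite_empty
  exact h3.pos (sw_subset.2 h1)

/-- The same with the opponent playing on the other side. -/
theorem step' (h : BF β S T p) (hβ : β' < β) {D : Set (List κ)} (hD : D ⊆ T) (hf : D.Finite) :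
    ∃ q : Set (List κ × List ι), sw p ⊆ q ∧ (∀ d ∈ D, ∃ a, (d, a) ∈ q) ∧ BF β' T S q := by
  obtain ⟨q, h1, h2, h3⟩ := h.step hβ hD hf
  exact ⟨sw q, sw_subset.2 h1, h2, h3⟩

end BF

/-- Composition of positions. -/
def cmp (p : Set (List ι × List κ)) (q : Set (List κ × List μ)) : Set (List ι × List μ) :=
  {z | ∃ y, (z.1, y) ∈ p ∧ (y, z.2) ∈ q}

theorem mem_cmp {p : Set (List ι × List κ)} {q : Set (List κ × List μ)} {x : List ι}
    {z : List μ} : (x, z) ∈ cmp p q ↔ ∃ y, (x, y) ∈ p ∧ (y, z) ∈ q := Iff.rfl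

theorem cmp_finite {p : Set (List ι × List κ)} {q : Set (List κ × List μ)} (hp : p.Finite)
    (hq : q.Finite) : (cmp p q).Finite := by
  refine ((hp.prod hq).image fun x => (x.1.1, x.2.2)).subset ?_
  rintro ⟨x, z⟩ ⟨y, h1, h2⟩
  exact ⟨((x, y), (y, z)), ⟨h1, h2⟩, rfl⟩

theorem sw_cmp (p : Set (List ι × List κ)) (q : Set (List κ × List μ)) :
    sw (cmp p q) = cmp (sw q) (sw p) := by
  ext ⟨x, z⟩
  constructor
  · rintro ⟨y, h1, h2⟩; exact ⟨y, h2, h1⟩
  · rintro ⟨y, h1, h2⟩; exact ⟨y, h2, h1⟩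

theorem BF.comp : ∀ {β : Ordinal.{0}} {ι κ μ : Type} {S : Set (List ι)} {T : Set (List κ)}
    {U : Set (List μ)} {p : Set (List ι × List κ)} {q : Set (List κ × List μ)},
    BF β S T p → BF β T U q → BF β S U (cmp p q) := by
  intro β
  induction β using WellFoundedLT.induction with
  | ind β ih =>
    intro ι κ μ S T U p q hp hq
    rw [BF_iff]
    refine ⟨cmp_finite hp.finite hq.finite, ?_, ?_, ?_⟩
    · rintro ⟨x, z⟩ ⟨y, h1, h2⟩
      exact ⟨(hp.mem h1).1, (hq.mem h2).2⟩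
    · rintro ⟨x, z⟩ ⟨y, h1, h2⟩ ⟨x', z'⟩ ⟨y', h1', h2'⟩
      exact (hp.atom _ h1 _ h1').trans (hq.atom _ h2 _ h2')
    · intro β' hβ D hD hf
      obtain ⟨q', hq1, hq2, hq3⟩ := hq.step hβ hD hf
      have hE : {y | ∃ z, (y, z) ∈ q'}.Finite := by
        refine ((sw_finite.1 hq3.finite).image Prod.fst).subset ?_
        rintro y ⟨z, hz⟩
        exact ⟨(y, z), hz, rfl⟩
      obtain ⟨p', hp1, hp2, hp3⟩ := hp.step hβ (D := {y | ∃ z, (y, z) ∈ q'})
        (fun y ⟨z, hz⟩ => (hq3.mem (a := (z, y)) hz).2) hE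
      refine ⟨cmp p' q', ?_, ?_, ?_⟩
      · rintro ⟨x, z⟩ ⟨y, h1, h2⟩
        exact ⟨y, hp1 h1, hq1 h2⟩
      · intro d hd
        obtain ⟨y, hy⟩ := hq2 d hd
        obtain ⟨x, hx⟩ := hp2 y ⟨d, hy⟩
        exact ⟨x, y, hx, hy⟩
      · rw [sw_cmp]
        exact ih β' hβ hq3 hp3

/-- The identity position on a set. -/
def idp (F : Set (List ι)) : Set (List ι × List ι) := {z | z.1 = z.2 ∧ z.1 ∈ F}

theorem mem_idp {F : Set (List ι)} {x : List ι} : (x, x) ∈ idp F ↔ x ∈ F := by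
  simp [idp]

theorem idp_finite {F : Set (List ι)} (hF : F.Finite) : (idp F).Finite := by
  refine (hF.image fun x => (x, x)).subset ?_
  rintro ⟨x, y⟩ ⟨h1, h2⟩
  simp only at h1 h2
  subst h1
  exact ⟨x, h2, rfl⟩

theorem sw_idp (F : Set (List ι)) : sw (idp F) = idp F := by
  ext ⟨x, y⟩
  constructor
  · rintro ⟨h1, h2⟩; simp only at h1 h2; subst h1; exact ⟨rfl, h2⟩
  · rintro ⟨h1, h2⟩; simp only at h1 h2; subst h1; exact ⟨rfl, h2⟩

theorem BF.refl : ∀ (β : Ordinal.{0}) {ι : Type} {S F : Set (List ι)}, F ⊆ S → F.Finite →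
    BF β S S (idp F) := by
  intro β
  induction β using WellFoundedLT.induction with
  | ind β ih =>
    intro ι S F hFS hF
    rw [BF_iff]
    refine ⟨idp_finite hF, ?_, ?_, ?_⟩
    · rintro ⟨x, y⟩ ⟨h1, h2⟩
      simp only at h1 h2; subst h1
      exact ⟨hFS h2, hFS h2⟩
    · rintro ⟨x, y⟩ ⟨h1, h2⟩ ⟨x', y'⟩ ⟨h1', h2'⟩
      simp only at h1 h2 h1' h2'; subst h1; subst h1'
      exact Iff.rfl
    · intro β' hβ D hD hf
      refine ⟨idp (F ∪ D), ?_, ?_, ?_⟩
      · rintro ⟨x, y⟩ ⟨h1, h2⟩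
        exact ⟨h1, Or.inl h2⟩
      · intro d hd
        exact ⟨d, rfl, Or.inr hd⟩
      · rw [sw_idp]
        exact ih β' hβ (union_subset hFS hD) (hF.union hf)

/-- The position in which only the roots are matched. -/
def rt (ι κ : Type) : Set (List ι × List κ) := {([], [])}

theorem sw_rt : sw (rt ι κ) = rt κ ι := by
  ext ⟨x, y⟩
  simp [rt, sw, and_comm]

theorem mem_rt : (([], []) : List ι × List κ) ∈ rt ι κ := rfl

/-- Prefix-closed nonempty sets of lists, i.e. trees. -/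
structure IsT (S : Set (List ι)) : Prop where
  nil : [] ∈ S
  pre : ∀ l m, l ++ m ∈ S → l ∈ S

theorem IsT.of_prefix {S : Set (List ι)} (h : IsT S) {l m : List ι} (hlm : l <+: m)
    (hm : m ∈ S) : l ∈ S := by
  obtain ⟨t, rfl⟩ := hlm
  exact h.pre _ _ hm

/-- `S ≤_β T`, the roots being matched. -/
def LE (β : Ordinal.{0}) (S : Set (List ι)) (T : Set (List κ)) : Prop := BF β S T (rt ι κ)

theorem LE.refl {β : Ordinal.{0}} {S : Set (List ι)} (h : [] ∈ S) : LE β S S := by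
  have h1 := BF.refl β (S := S) (F := {[]}) (by simpa using h) (finite_singleton _)
  refine h1.pos ?_
  rintro _ rfl
  exact ⟨rfl, rfl⟩

theorem LE.trans {β : Ordinal.{0}} {S : Set (List ι)} {T : Set (List κ)} {U : Set (List μ)}
    (h : LE β S T) (h' : LE β T U) : LE β S U := by
  refine (BF.comp h h').pos ?_
  rintro _ rfl
  exact ⟨[], rfl, rfl⟩

theorem LE.mono {β β' : Ordinal.{0}} {S : Set (List ι)} {T : Set (List κ)} (h : LE β S T)
    (hβ : β' ≤ β) : LE β' S T := BF.mono h hβ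

theorem LE.symm_lt {β β' : Ordinal.{0}} {S : Set (List ι)} {T : Set (List κ)} (h : LE β S T)
    (hβ : β' < β) : LE β' T S := by
  have := BF.symm_lt h hβ
  rwa [sw_rt] at this

theorem card_inits [DecidableEq ι] (l : List ι) : l.inits.toFinset.card = l.length + 1 := by
  rw [List.toFinset_card_of_nodup, List.length_inits]
  induction l with
  | nil => simp
  | cons x l ih =>
    rw [List.inits_cons, List.nodup_cons]
    refine ⟨by simp, ih.map fun _ _ h => List.tail_eq_of_cons_eq h⟩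

theorem card_inits_le [DecidableEq ι] [DecidableEq κ] {a : List ι} {b : List κ}
    {q : Set (List ι × List κ)} (hq : Atom q) (hab : (a, b) ∈ q)
    (hcl : ∀ c, c <+: a → ∃ d, (c, d) ∈ q) : a.length ≤ b.length := by
  choose f hf using hcl
  have hcard : (a.inits.toFinset).card ≤ (b.inits.toFinset).card := by
    refine Finset.card_le_card_of_injOn
      (fun c => if hc : c <+: a then f c hc else []) ?_ ?_
    · intro c hc
      have hc' : c <+: a := by simpa using hc
      have : f c hc' <+: b := (hq _ (hf c hc') _ hab).1 hc'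
      simpa [hc'] using this
    · intro c hc c' hc' e
      have hca : c <+: a := by simpa using hc
      have hca' : c' <+: a := by simpa using hc'
      simp only [hca, hca', dite_true] at e
      exact (hq.eq_iff (hf c hca) (hf c' hca')).2 e
  rw [card_inits, card_inits] at hcard
  omega

/-- In a position of level at least one, the partner of a node all of whose predecessors are
matched has the same length. -/
theorem BF.length_eq {β : Ordinal.{0}} {S : Set (List ι)} {T : Set (List κ)}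
    {p : Set (List ι × List κ)} (h : BF β S T p) (hβ : 1 ≤ β) (hT : IsT T)
    {b : List κ} {a : List ι} (hab : (a, b) ∈ p)
    (hcl : ∀ c, c <+: a → ∃ d, (c, d) ∈ p) : a.length = b.length := by
  classical
  have hβ0 : 0 < β := zero_lt_one.trans_le hβ
  have hbT := (h.mem hab).2
  have hfin : {d : List κ | d <+: b}.Finite := by
    refine (List.finite_toSet b.inits).subset ?_
    intro d hd
    exact (List.mem_inits _ _).2 hd
  obtain ⟨q, h1, h2, h3⟩ := h.step hβ0 (D := {d | d <+: b})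
    (fun d hd => hT.of_prefix hd hbT) hfin
  have hat : Atom q := h3.atom.sw
  refine le_antisymm (card_inits_le hat (h1 hab) fun c hc => ?_)
    (card_inits_le hat.sw (h1 hab) fun c hc => h2 c hc)
  obtain ⟨d, hd⟩ := hcl c hc
  exact ⟨d, h1 hd⟩

/-- Partners of closed nodes are closed. -/
theorem BF.pre_mem {β : Ordinal.{0}} {S : Set (List ι)} {T : Set (List κ)}
    {p : Set (List ι × List κ)} (h : BF β S T p) (hβ : 1 ≤ β) (hT : IsT T)
    {b : List κ} {a : List ι} (hab : (a, b) ∈ p)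
    (hcl : ∀ c, c <+: a → ∃ d, (c, d) ∈ p) {b' : List κ} (hb : b' <+: b) :
    ∃ a', a' <+: a ∧ (a', b') ∈ p := by
  have hlen := h.length_eq hβ hT hab hcl
  have hle : b'.length ≤ a.length := hlen ▸ hb.length_le
  obtain ⟨d, hd⟩ := hcl (a.take b'.length) (List.take_prefix _ _)
  have h1 : (a.take b'.length).length = d.length := by
    refine h.length_eq hβ hT hd fun c hc => hcl c (hc.trans (List.take_prefix _ _))
  have h2 : d <+: b := (h.atom _ hd _ hab).1 (List.take_prefix _ _)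
  have h3 : d = b' := by
    rw [List.length_take, min_eq_left hle] at h1
    exact (List.prefix_of_prefix_length_le h2 hb h1.ge).eq_of_length h1.symm
  exact ⟨_, List.take_prefix _ _, h3 ▸ hd⟩

end Pool.Agent.Lib.MP_efc3dd_lc
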