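import Pool.Agent.Lib.MP_efc3dd_lc.BF

set_option autoImplicit false

/-!
# Trees composed of a root and subtrees; composition of back-and-forth positions
-/

namespace Pool.Agent.Lib.MP_efc3dd_lc

open Set

variable {ι κ : Type}

/-- The tree with the subtrees `A i`, `i ∈ K`, above its root. -/
def node (K : Set ι) (A : ι → Set (List ι)) : Set (List ι) :=
  {l | l = [] ∨ ∃ i m, l = i :: m ∧ i ∈ K ∧ m ∈ A i}

@[simp] theorem nil_mem_node {K : Set ι} {A : ι → Set (List ι)} : [] ∈ node K A := Or.inl rfl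

@[simp] theorem cons_mem_node {K : Set ι} {A : ι → Set (List ι)} {i : ι} {l : List ι} :
    i :: l ∈ node K A ↔ i ∈ K ∧ l ∈ A i := by
  constructor
  · rintro (h | ⟨j, m, h, h1, h2⟩)
    · cases h
    · cases h; exact ⟨h1, h2⟩
  · rintro ⟨h1, h2⟩; exact Or.inr ⟨i, l, rfl, h1, h2⟩

theorem isT_node {K : Set ι} {A : ι → Set (List ι)} (h : ∀ i ∈ K, IsT (A i)) :
    IsT (node K A) := by
  refine ⟨nil_mem_node, ?_⟩
  intro l m hlm
  cases l with
  | nil => exact nil_mem_node
  | cons i l =>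
    rw [List.cons_append, cons_mem_node] at hlm
    rw [cons_mem_node]
    exact ⟨hlm.1, (h i hlm.1).pre _ _ hlm.2⟩

/-- A position composed of positions in subtrees. -/
def lift (m : Set (ι × κ)) (P : ι × κ → Set (List ι × List κ)) : Set (List ι × List κ) :=
  {z | z = ([], []) ∨ ∃ x ∈ m, ∃ y ∈ P x, z = (x.1 :: y.1, x.2 :: y.2)}

theorem nil_mem_lift {m : Set (ι × κ)} {P : ι × κ → Set (List ι × List κ)} :
    (([], []) : List ι × List κ) ∈ lift m P := Or.inl rfl

theorem cons_mem_lift {m : Set (ι × κ)} {P : ι × κ → Set (List ι × List κ)} {i : ι} {k : κ}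
    {l : List ι} {l' : List κ} :
    (i :: l, k :: l') ∈ lift m P ↔ (i, k) ∈ m ∧ (l, l') ∈ P (i, k) := by
  constructor
  · rintro (h | ⟨x, hx, y, hy, h⟩)
    · simp at h
    · simp only [Prod.mk.injEq, List.cons.injEq] at h
      obtain ⟨⟨rfl, rfl⟩, rfl, rfl⟩ := h
      exact ⟨hx, hy⟩
  · rintro ⟨h1, h2⟩
    exact Or.inr ⟨_, h1, _, h2, rfl⟩

theorem sw_lift {m : Set (ι × κ)} {P : ι × κ → Set (List ι × List κ)} :
    sw (lift m P) = lift (Prod.swap ⁻¹' m) (fun x => sw (P x.swap)) := by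
  ext ⟨a, b⟩
  constructor
  · rintro (h | ⟨x, hx, y, hy, h⟩)
    · simp only [Prod.mk.injEq] at h
      exact Or.inl (by simp [h.1, h.2])
    · simp only [Prod.mk.injEq] at h
      exact Or.inr ⟨x.swap, by simpa using hx, y.swap, by simpa [sw] using hy,
        by simp [h.1, h.2]⟩
  · rintro (h | ⟨x, hx, y, hy, h⟩)
    · simp only [Prod.mk.injEq] at h
      exact Or.inl (by simp [h.1, h.2])
    · simp only [Prod.mk.injEq] at h
      exact Or.inr ⟨x.swap, hx, y.swap, hy, by simp [h.1, h.2]⟩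

theorem lift_mono {m m' : Set (ι × κ)} {P P' : ι × κ → Set (List ι × List κ)} (h : m ⊆ m')
    (h' : ∀ x ∈ m, P x ⊆ P' x) : lift m P ⊆ lift m' P' := by
  rintro z (h1 | ⟨x, hx, y, hy, h1⟩)
  · exact Or.inl h1
  · exact Or.inr ⟨x, h hx, y, h' x hx hy, h1⟩

theorem lift_finite {m : Set (ι × κ)} {P : ι × κ → Set (List ι × List κ)} (hm : m.Finite)
    (hP : ∀ x ∈ m, (P x).Finite) : (lift m P).Finite := by
  have h1 : (⋃ x ∈ m, (fun y : List ι × List κ => (x.1 :: y.1, x.2 :: y.2)) '' P x).Finite :=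
    hm.biUnion fun x hx => (hP x hx).image _
  refine ((finite_singleton (([], []) : List ι × List κ)).union h1).subset ?_
  rintro z (h | ⟨x, hx, y, hy, rfl⟩)
  · exact Or.inl h
  · refine Or.inr ?_
    simp only [mem_iUnion]
    exact ⟨x, hx, y, hy, rfl⟩

/-- A finite partial matching between two index sets. -/
structure Mat (m : Set (ι × κ)) (K : Set ι) (L : Set κ) : Prop where
  fin : m.Finite
  sub : ∀ x ∈ m, x.1 ∈ K ∧ x.2 ∈ L
  inj : ∀ x ∈ m, ∀ y ∈ m, x.1 = y.1 ↔ x.2 = y.2

theorem Mat.swap {m : Set (ι × κ)} {K : Set ι} {L : Set κ} (h : Mat m K L) :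
    Mat (Prod.swap ⁻¹' m) L K := by
  refine ⟨?_, fun x hx => (h.sub _ hx).symm, fun x hx y hy => (h.inj _ hx _ hy).symm⟩
  refine (h.fin.image Prod.swap).subset ?_
  rintro ⟨x, y⟩ h
  exact ⟨(y, x), h, rfl⟩

/-- Back-and-forth relation between families of trees, from which finitely many members are
taken away at each step. -/
def Rest (β : Ordinal.{0}) {ι κ : Type} (K : Set ι) (A : ι → Set (List ι)) (L : Set κ)
    (B : κ → Set (List κ)) : Prop :=
  ∀ β' < β, ∀ E ⊆ L, E.Finite → ∀ D : κ → Set (List κ), (∀ k ∈ E, (D k).Finite ∧ D k ⊆ B k) →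
    ∃ (f : κ → ι) (q : κ → Set (List ι × List κ)), InjOn f E ∧ MapsTo f E K ∧
      (∀ k ∈ E, (([], []) : List ι × List κ) ∈ q k ∧ (∀ d ∈ D k, ∃ a, (a, d) ∈ q k) ∧
        BF β' (B k) (A (f k)) (sw (q k))) ∧ Rest β' (L \ E) B (K \ f '' E) A
termination_by β

theorem Rest_iff {β : Ordinal.{0}} {K : Set ι} {A : ι → Set (List ι)} {L : Set κ}
    {B : κ → Set (List κ)} : Rest β K A L B ↔
  ∀ β' < β, ∀ E ⊆ L, E.Finite → ∀ D : κ → Set (List κ), (∀ k ∈ E, (D k).Finite ∧ D k ⊆ B k) →
    ∃ (f : κ → ι) (q : κ → Set (List ι × List κ)), InjOn f E ∧ MapsTo f E K ∧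
      (∀ k ∈ E, (([], []) : List ι × List κ) ∈ q k ∧ (∀ d ∈ D k, ∃ a, (a, d) ∈ q k) ∧
        BF β' (B k) (A (f k)) (sw (q k))) ∧ Rest β' (L \ E) B (K \ f '' E) A := by
  rw [Rest]

theorem tails_finite {D : Set (List κ)} (hD : D.Finite) (k : κ) : {l | k :: l ∈ D}.Finite := by
  refine (hD.image List.tail).subset ?_
  intro l hl
  exact ⟨_, hl, rfl⟩

theorem heads_finite {D : Set (List κ)} (hD : D.Finite) : {k | ∃ l, k :: l ∈ D}.Finite := by
  refine Set.Finite.subset (s := ⋃ d ∈ D, {k | ∃ l, d = k :: l}) (hD.biUnion fun d _ => ?_) ?_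
  · cases d with
    | nil => simp
    | cons k l =>
      refine (finite_singleton k).subset ?_
      rintro k' ⟨l', h⟩
      exact (List.cons.inj h).1.symm
  · rintro k ⟨l, hl⟩
    simp only [mem_iUnion]
    exact ⟨_, hl, l, rfl⟩

/-- Composition of back-and-forth positions in subtrees. -/
theorem node_BF : ∀ (β : Ordinal.{0}) {ι κ : Type} {K : Set ι} {A : ι → Set (List ι)}
    {L : Set κ} {B : κ → Set (List κ)} {m : Set (ι × κ)} {P : ι × κ → Set (List ι × List κ)},
    Mat m K L → (∀ x ∈ m, (([], []) : List ι × List κ) ∈ P x) →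
    (∀ x ∈ m, BF β (A x.1) (B x.2) (P x)) →
    Rest β (K \ Prod.fst '' m) A (L \ Prod.snd '' m) B →
    BF β (node K A) (node L B) (lift m P) := by
  intro β
  induction β using WellFoundedLT.induction with
  | ind β ih =>
    intro ι κ K A L B m P hm hnil hP hR
    rw [BF_iff]
    refine ⟨lift_finite hm.fin fun x hx => (hP x hx).finite, ?_, ?_, ?_⟩
    · rintro z (rfl | ⟨x, hx, y, hy, rfl⟩)
      · exact ⟨nil_mem_node, nil_mem_node⟩
      · exact ⟨cons_mem_node.2 ⟨(hm.sub x hx).1, ((hP x hx).mem hy).1⟩,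
          cons_mem_node.2 ⟨(hm.sub x hx).2, ((hP x hx).mem hy).2⟩⟩
    · rintro z (rfl | ⟨x, hx, y, hy, rfl⟩) z' (rfl | ⟨x', hx', y', hy', rfl⟩)
      · simp
      · simp
      · simp
      · simp only [List.cons_prefix_cons]
        constructor
        · rintro ⟨h1, h2⟩
          have h3 := (hm.inj x hx x' hx').1 h1
          obtain rfl : x = x' := Prod.ext h1 h3
          exact ⟨rfl, ((hP x hx).atom y hy y' hy').1 h2⟩
        · rintro ⟨h1, h2⟩
          have h3 := (hm.inj x hx x' hx').2 h1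
          obtain rfl : x = x' := Prod.ext h3 h1
          exact ⟨rfl, ((hP x hx).atom y hy y' hy').2 h2⟩
    · intro β' hβ D hD hf
      -- matched subtrees
      have h1 : ∀ x : ι × κ, ∃ q : Set (List ι × List κ), x ∈ m → P x ⊆ q ∧
          (∀ d, x.2 :: d ∈ D → ∃ a, (a, d) ∈ q) ∧ BF β' (B x.2) (A x.1) (sw q) := by
        intro x
        by_cases hx : x ∈ m
        · obtain ⟨q, h1, h2, h3⟩ := (hP x hx).step hβ (D := {d | x.2 :: d ∈ D})
            (fun d hd => (cons_mem_node.1 (hD hd)).2) (tails_finite hf _)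
          exact ⟨q, fun _ => ⟨h1, h2, h3⟩⟩
        · exact ⟨∅, fun h => absurd h hx⟩
      choose Q hQ using h1
      -- unmatched subtrees
      rw [Rest_iff] at hR
      obtain ⟨f, q, hf1, hf2, hf3, hf4⟩ := hR β' hβ
        {k | (∃ l, k :: l ∈ D) ∧ k ∉ Prod.snd '' m}
        (by
          rintro k ⟨⟨l, hl⟩, hk⟩
          exact ⟨(cons_mem_node.1 (hD hl)).1, hk⟩)
        ((heads_finite hf).subset fun k hk => hk.1) (fun k => {l | k :: l ∈ D})
        (fun k _ => ⟨tails_finite hf k, fun l hl => (cons_mem_node.1 (hD hl)).2⟩)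
      set E : Set κ := {k | (∃ l, k :: l ∈ D) ∧ k ∉ Prod.snd '' m} with hE
      have hEf : E.Finite := (heads_finite hf).subset fun k hk => hk.1
      classical
      let m' : Set (ι × κ) := m ∪ (fun k => (f k, k)) '' E
      let P' : ι × κ → Set (List ι × List κ) := fun x => if x ∈ m then Q x else q x.2
      have hnm : ∀ k ∈ E, (f k, k) ∉ m := fun k hk h => hk.2 ⟨_, h, rfl⟩
      have hP'1 : ∀ x ∈ m, P' x = Q x := fun x hx => if_pos hx
      have hP'2 : ∀ k ∈ E, P' (f k, k) = q k := fun k hk => if_neg (hnm k hk)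
      have hm' : Mat m' K L := by
        refine ⟨hm.fin.union (hEf.image _), ?_, ?_⟩
        · rintro x (hx | ⟨k, hk, rfl⟩)
          · exact hm.sub x hx
          · refine ⟨(hf2 hk).1, ?_⟩
            obtain ⟨l, hl⟩ := hk.1
            exact (cons_mem_node.1 (hD hl)).1
        · rintro x (hx | ⟨k, hk, rfl⟩) y (hy | ⟨k', hk', rfl⟩)
          · exact hm.inj x hx y hy
          · constructor
            · intro h
              exact absurd ⟨x, hx, h⟩ (hf2 hk').2
            · intro h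
              exact absurd ⟨x, hx, h⟩ hk'.2
          · constructor
            · intro h
              exact absurd ⟨y, hy, h.symm⟩ (hf2 hk).2
            · intro h
              exact absurd ⟨y, hy, h.symm⟩ hk.2
          · exact ⟨fun h => hf1 hk hk' h, fun h => congrArg f h⟩
      refine ⟨lift m' P', ?_, ?_, ?_⟩
      · refine lift_mono subset_union_left fun x hx => ?_
        rw [hP'1 x hx]
        exact (hQ x hx).1
      · intro d hd
        cases d with
        | nil => exact ⟨[], nil_mem_lift⟩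
        | cons k l =>
          by_cases hk : k ∈ Prod.snd '' m
          · obtain ⟨x, hx, rfl⟩ := hk
            obtain ⟨a, ha⟩ := (hQ x hx).2.1 l hd
            refine ⟨x.1 :: a, cons_mem_lift.2 ⟨Or.inl hx, ?_⟩⟩
            rw [hP'1 _ hx]
            exact ha
          · have hkE : k ∈ E := ⟨⟨l, hd⟩, hk⟩
            obtain ⟨a, ha⟩ := (hf3 k hkE).2.1 l hd
            refine ⟨f k :: a, cons_mem_lift.2 ⟨Or.inr ⟨k, hkE, rfl⟩, ?_⟩⟩
            rw [hP'2 k hkE]
            exact ha
      · rw [sw_lift]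
        refine ih β' hβ hm'.swap ?_ ?_ ?_
        · rintro ⟨k, i⟩ (hx | ⟨k', hk', hx⟩)
          · change (([], []) : List ι × List κ) ∈ P' (i, k)
            rw [hP'1 (i, k) hx]
            exact (hQ (i, k) hx).1 (hnil (i, k) hx)
          · simp only [Prod.swap_prod_mk, Prod.mk.injEq] at hx
            obtain ⟨rfl, rfl⟩ := hx
            change (([], []) : List ι × List κ) ∈ P' (f k', k')
            rw [hP'2 _ hk']
            exact (hf3 _ hk').1
        · rintro ⟨k, i⟩ (hx | ⟨k', hk', hx⟩)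
          · change BF β' (B k) (A i) (sw (P' (i, k)))
            rw [hP'1 (i, k) hx]
            exact (hQ (i, k) hx).2.2
          · simp only [Prod.swap_prod_mk, Prod.mk.injEq] at hx
            obtain ⟨rfl, rfl⟩ := hx
            change BF β' (B k') (A (f k')) (sw (P' (f k', k')))
            rw [hP'2 _ hk']
            exact (hf3 _ hk').2.2
        · have e1 : Prod.fst '' (Prod.swap ⁻¹' m' : Set (κ × ι)) = Prod.snd '' m ∪ E := by
            ext k
            constructor
            · rintro ⟨⟨k, i⟩, (hx | ⟨k', hk', hx⟩), rfl⟩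
              · exact Or.inl ⟨_, hx, rfl⟩
              · simp only [Prod.swap_prod_mk, Prod.mk.injEq] at hx
                obtain ⟨rfl, rfl⟩ := hx
                exact Or.inr hk'
            · rintro (⟨⟨i, k⟩, hx, rfl⟩ | hk)
              · exact ⟨(k, i), Or.inl hx, rfl⟩
              · exact ⟨(k, f k), Or.inr ⟨k, hk, rfl⟩, rfl⟩
          have e2 : Prod.snd '' (Prod.swap ⁻¹' m' : Set (κ × ι)) = Prod.fst '' m ∪ f '' E := by
            ext i
            constructor
            · rintro ⟨⟨k, i⟩, (hx | ⟨k', hk', hx⟩), rfl⟩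
              · exact Or.inl ⟨_, hx, rfl⟩
              · simp only [Prod.swap_prod_mk, Prod.mk.injEq] at hx
                obtain ⟨rfl, rfl⟩ := hx
                exact Or.inr ⟨k', hk', rfl⟩
            · rintro (⟨⟨i, k⟩, hx, rfl⟩ | ⟨k, hk, rfl⟩)
              · exact ⟨(k, i), Or.inl hx, rfl⟩
              · exact ⟨(k, f k), Or.inr ⟨k, hk, rfl⟩, rfl⟩
          rw [e1, e2, ← Set.sdiff_sdiff, ← Set.sdiff_sdiff]
          exact hf4

theorem Rest_same : ∀ (β : Ordinal.{0}) {κ : Type} {K : Set κ} {A B : κ → Set (List κ)},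
    (∀ k ∈ K, LE β (A k) (B k)) → Rest β K A K B := by
  intro β
  induction β using WellFoundedLT.induction with
  | ind β ih =>
    intro κ K A B h
    rw [Rest_iff]
    intro β' hβ E hE hEf D hD
    have h1 : ∀ k, ∃ q : Set (List κ × List κ), k ∈ E → (([], []) : List κ × List κ) ∈ q ∧
        (∀ d ∈ D k, ∃ a, (a, d) ∈ q) ∧ BF β' (B k) (A k) (sw q) := by
      intro k
      by_cases hk : k ∈ E
      · obtain ⟨q, h1, h2, h3⟩ := BF.step (h k (hE hk)) hβ (hD k hk).2 (hD k hk).1
        exact ⟨q, fun _ => ⟨h1 mem_rt, h2, h3⟩⟩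
      · exact ⟨∅, fun h => absurd h hk⟩
    choose q hq using h1
    refine ⟨id, q, injOn_id _, hE, fun k hk => hq k hk, ?_⟩
    rw [image_id]
    exact ih β' hβ fun k hk => (h k hk.1).symm_lt hβ

/-- Composition with the same index set on both sides. -/
theorem node_same {β : Ordinal.{0}} {K F : Set κ} {A B : κ → Set (List κ)}
    {P : κ → Set (List κ × List κ)} (hF : F.Finite) (hFK : F ⊆ K)
    (hnil : ∀ k ∈ F, (([], []) : List κ × List κ) ∈ P k)
    (hP : ∀ k ∈ F, BF β (A k) (B k) (P k)) (hR : ∀ k ∈ K, k ∉ F → LE β (A k) (B k)) :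
    BF β (node K A) (node K B) (lift ((fun k => (k, k)) '' F) fun x => P x.1) := by
  refine node_BF β ⟨hF.image _, ?_, ?_⟩ ?_ ?_ ?_
  · rintro _ ⟨k, hk, rfl⟩; exact ⟨hFK hk, hFK hk⟩
  · rintro _ ⟨k, hk, rfl⟩ _ ⟨k', hk', rfl⟩; exact Iff.rfl
  · rintro _ ⟨k, hk, rfl⟩; exact hnil k hk
  · rintro _ ⟨k, hk, rfl⟩; exact hP k hk
  · have e1 : Prod.fst '' ((fun k : κ => (k, k)) '' F) = F := by
      rw [image_image]; simp
    have e2 : Prod.snd '' ((fun k : κ => (k, k)) '' F) = F := by
      rw [image_image]; simp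
    rw [e1, e2]
    exact Rest_same β fun k hk => hR k hk.1 hk.2

end Pool.Agent.Lib.MP_efc3dd_lc
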