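import Mathlib

set_option autoImplicit false

/-!
# Infinitary logic in the signature of one binary relation, trees, Scott sentences
-/

namespace Pool.Agent.Lib.MP_efc3dd_lc

/-- Formulas of the infinitary logic `L_{ω₁ω}` in the signature with one binary relation symbol
`≤` (and equality), whose free variables are among `x_0, …, x_{n-1}`. In `all φ` and `ex φ` the
quantified variable is `x_n`. -/
inductive Fm : ℕ → Type
  | bot {n : ℕ} : Fm n
  | le {n : ℕ} (i j : Fin n) : Fm n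
  | eq {n : ℕ} (i j : Fin n) : Fm n
  | not {n : ℕ} (φ : Fm n) : Fm n
  | and {n : ℕ} (φ ψ : Fm n) : Fm n
  | or {n : ℕ} (φ ψ : Fm n) : Fm n
  | conj {n : ℕ} (φ : ℕ → Fm n) : Fm n
  | disj {n : ℕ} (φ : ℕ → Fm n) : Fm n
  | all {n : ℕ} (φ : Fm (n + 1)) : Fm n
  | ex {n : ℕ} (φ : Fm (n + 1)) : Fm n

/-- Satisfaction of a formula in the structure `(M, r)` (the symbol `≤` is interpreted as `r`)
under an assignment of its free variables. -/
def Fm.Realize {M : Type} (r : M → M → Prop) : ∀ {n : ℕ}, Fm n → (Fin n → M) → Prop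
  | _, .bot, _ => False
  | _, .le i j, v => r (v i) (v j)
  | _, .eq i j, v => v i = v j
  | _, .not φ, v => ¬ φ.Realize r v
  | _, .and φ ψ, v => φ.Realize r v ∧ ψ.Realize r v
  | _, .or φ ψ, v => φ.Realize r v ∨ ψ.Realize r v
  | _, .conj φ, v => ∀ i, (φ i).Realize r v
  | _, .disj φ, v => ∃ i, (φ i).Realize r v
  | _, .all φ, v => ∀ a, φ.Realize r (Fin.snoc v a)
  | _, .ex φ, v => ∃ a, φ.Realize r (Fin.snoc v a)

/-- Quantifier-free formulas. -/
inductive Fm.QF : ∀ {n : ℕ}, Fm n → Prop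
  | bot {n : ℕ} : Fm.QF (Fm.bot (n := n))
  | le {n : ℕ} (i j : Fin n) : Fm.QF (Fm.le i j)
  | eq {n : ℕ} (i j : Fin n) : Fm.QF (Fm.eq i j)
  | not {n : ℕ} {φ : Fm n} : Fm.QF φ → Fm.QF (.not φ)
  | and {n : ℕ} {φ ψ : Fm n} : Fm.QF φ → Fm.QF ψ → Fm.QF (.and φ ψ)
  | or {n : ℕ} {φ ψ : Fm n} : Fm.QF φ → Fm.QF ψ → Fm.QF (.or φ ψ)
  | conj {n : ℕ} {φ : ℕ → Fm n} : (∀ i, Fm.QF (φ i)) → Fm.QF (.conj φ)
  | disj {n : ℕ} {φ : ℕ → Fm n} : (∀ i, Fm.QF (φ i)) → Fm.QF (.disj φ)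

/-- The hierarchy of infinitary formulas: `Lvl true α φ` says that `φ` is a `Σ_α` formula and
`Lvl false α φ` says that `φ` is a `Π_α` formula. -/
inductive Lvl : Bool → Ordinal.{0} → ∀ {n : ℕ}, Fm n → Prop
  | qf {b : Bool} {α : Ordinal.{0}} {n : ℕ} {φ : Fm n} : φ.QF → Lvl b α φ
  | up {b b' : Bool} {α β : Ordinal.{0}} {n : ℕ} {φ : Fm n} : β < α → Lvl b' β φ → Lvl b α φ
  | not {b : Bool} {α : Ordinal.{0}} {n : ℕ} {φ : Fm n} : Lvl (!b) α φ → Lvl b α (.not φ)
  | and {b : Bool} {α : Ordinal.{0}} {n : ℕ} {φ ψ : Fm n} :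
      Lvl b α φ → Lvl b α ψ → Lvl b α (.and φ ψ)
  | or {b : Bool} {α : Ordinal.{0}} {n : ℕ} {φ ψ : Fm n} :
      Lvl b α φ → Lvl b α ψ → Lvl b α (.or φ ψ)
  | disj {α : Ordinal.{0}} {n : ℕ} {φ : ℕ → Fm n} :
      0 < α → (∀ i, Lvl true α (φ i)) → Lvl true α (.disj φ)
  | ex {α : Ordinal.{0}} {n : ℕ} {φ : Fm (n + 1)} :
      0 < α → Lvl true α φ → Lvl true α (.ex φ)
  | conj {α : Ordinal.{0}} {n : ℕ} {φ : ℕ → Fm n} :
      0 < α → (∀ i, Lvl false α (φ i)) → Lvl false α (.conj φ)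
  | all {α : Ordinal.{0}} {n : ℕ} {φ : Fm (n + 1)} :
      0 < α → Lvl false α φ → Lvl false α (.all φ)

/-- The structure `(M, r)` is a tree: `r` is a partial order with a least element (the root), and
the predecessors of each element are finite in number and linearly ordered. -/
structure IsTree {M : Type} (r : M → M → Prop) : Prop where
  refl : ∀ x, r x x
  antisymm : ∀ x y, r x y → r y x → x = y
  trans : ∀ x y z, r x y → r y z → r x z
  root : ∃ w, ∀ x, r w x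
  finite : ∀ x, {y | r y x}.Finite
  linear : ∀ x y z, r y x → r z x → r y z ∨ r z y

/-- The sentence `ψ` is a Scott sentence of the structure `(M, r)`: its countable models are
exactly the structures isomorphic to `(M, r)`. -/
def IsScottSentence {M : Type} (r : M → M → Prop) (ψ : Fm 0) : Prop :=
  ∀ (N : Type) (s : N → N → Prop), Countable N →
    (ψ.Realize s ![] ↔ Nonempty (r ≃r s))

end Pool.Agent.Lib.MP_efc3dd_lc
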