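import Pool.Agent.Lib.MP_efc3dd_lc.GoodScott

set_option autoImplicit false

/-!
# Every countable tree is isomorphic to a prefix-closed set of lists
-/

namespace Pool.Agent.Lib.MP_efc3dd_lc

open Set

variable {M : Type} {r : M → M → Prop}

/-- `y` is an immediate successor of `x`. -/
def Cov (r : M → M → Prop) (x y : M) : Prop :=
  r x y ∧ x ≠ y ∧ ∀ z, r x z → r z y → z = x ∨ z = y

/-- `l` is the list of names of the elements on the path from the root to `x`. -/
inductive Pth (r : M → M → Prop) (f : M → ℕ) (w : M) : List ℕ → M → Prop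
  | nil : Pth r f w [] w
  | snoc {l : List ℕ} {x y : M} : Pth r f w l x → Cov r x y → Pth r f w (l ++ [f y]) y

theorem Pth.inv {f : M → ℕ} {w : M} {l : List ℕ} {k : ℕ} {y : M}
    (h : Pth r f w (l ++ [k]) y) : ∃ x, Pth r f w l x ∧ Cov r x y ∧ k = f y := by
  generalize hl : l ++ [k] = l' at h
  cases h with
  | nil => simp at hl
  | @snoc l1 x y h1 h2 =>
    have h3 := List.append_inj' hl rfl
    rw [h3.1]
    refine ⟨x, h1, h2, ?_⟩
    simpa using h3.2

theorem Pth.inv_nil {f : M → ℕ} {w : M} {y : M} (h : Pth r f w [] y) : y = w := by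
  generalize hl : ([] : List ℕ) = l' at h
  cases h with
  | nil => rfl
  | snoc h1 h2 => simp at hl

theorem Pth.root_le (hr : IsTree r) {f : M → ℕ} {w : M} {l : List ℕ} {x : M}
    (h : Pth r f w l x) : r w x := by
  induction h with
  | nil => exact hr.refl _
  | snoc _ h2 ih => exact hr.trans _ _ _ ih h2.1

theorem exists_pth (hr : IsTree r) {f : M → ℕ} {w : M} (hw : ∀ x, r w x) (y : M) :
    ∃ l, Pth r f w l y := by
  generalize hn : {z | r z y}.ncard = n
  induction n using Nat.strong_induction_on generalizing y with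
  | _ n ih =>
    by_cases hy : y = w
    · rw [hy]; exact ⟨[], .nil⟩
    · -- a maximal proper predecessor
      have hfin : {z | r z y ∧ z ≠ y}.Finite := (hr.finite y).subset fun z hz => hz.1
      have hne : {z | r z y ∧ z ≠ y}.Nonempty := ⟨w, hw y, fun h => hy h.symm⟩
      obtain ⟨x, ⟨hxy, hxne⟩, hmax⟩ := Set.Finite.exists_maximalFor
        (fun z => {t | r t z}.ncard) _ hfin hne
      have hcov : Cov r x y := by
        refine ⟨hxy, hxne, fun z hxz hzy => ?_⟩
        by_contra hc
        push Not at hc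
        have h1 : {t | r t x} ⊆ {t | r t z} := fun t ht => hr.trans _ _ _ ht hxz
        have h2 : {t | r t z}.ncard ≤ {t | r t x}.ncard :=
          hmax ⟨hzy, hc.2⟩ (ncard_le_ncard h1 (hr.finite z))
        have h3 := Set.eq_of_subset_of_ncard_le h1 h2 (hr.finite z)
        have h4 : z ∈ {t | r t x} := by rw [h3]; exact hr.refl z
        exact hc.1 (hr.antisymm _ _ h4 hxz)
      have hlt : {z | r z x}.ncard < n := by
        rw [← hn]
        refine ncard_lt_ncard ⟨fun t ht => hr.trans _ _ _ ht hxy, fun h => ?_⟩ (hr.finite y)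
        exact hxne (hr.antisymm _ _ hxy (h (hr.refl y)))
      obtain ⟨l, hl⟩ := ih _ hlt x rfl
      exact ⟨_, .snoc hl hcov⟩

theorem cov_unique (hr : IsTree r) {x x' y : M} (h : Cov r x y) (h' : Cov r x' y) : x = x' := by
  rcases hr.linear y x x' h.1 h'.1 with h1 | h1
  · rcases h.2.2 x' h1 h'.1 with h2 | h2
    · exact h2.symm
    · exact absurd h2 h'.2.1
  · rcases h'.2.2 x h1 h.1 with h2 | h2
    · exact h2
    · exact absurd h2 h.2.1

theorem pth_unique (hr : IsTree r) {f : M → ℕ} {w : M} {l : List ℕ} : ∀ {l' : List ℕ} {y : M},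
    Pth r f w l y → Pth r f w l' y → l = l' := by
  intro l' y h
  induction h generalizing l' with
  | nil =>
    intro h'
    cases h' with
    | nil => rfl
    | snoc h1 h2 => exact absurd (hr.antisymm _ _ h2.1 (h1.root_le hr)) h2.2.1
  | @snoc l x y h1 h2 ih =>
    intro h'
    cases h' with
    | nil => exact absurd (hr.antisymm _ _ h2.1 (h1.root_le hr)) h2.2.1
    | @snoc l1 x1 _ h3 h4 =>
      obtain rfl := cov_unique hr h2 h4
      rw [ih h3]

theorem pth_le_of_prefix (hr : IsTree r) {f : M → ℕ} (hf : Function.Injective f) {w : M}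
    {l : List ℕ} {x : M} (hx : Pth r f w l x) (t : List ℕ) :
    ∀ y, Pth r f w (l ++ t) y → r x y := by
  induction t using List.reverseRecOn with
  | nil =>
    intro y hy
    rw [List.append_nil] at hy
    rcases List.eq_nil_or_concat' l with rfl | ⟨l', k, rfl⟩
    · rw [hx.inv_nil, hy.inv_nil]
      exact hr.refl _
    · obtain ⟨_, _, _, h1⟩ := hx.inv
      obtain ⟨_, _, _, h2⟩ := hy.inv
      rw [hf (h1.symm.trans h2)]
      exact hr.refl _
  | append_singleton t k ih =>
    intro y hy
    rw [← List.append_assoc] at hy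
    obtain ⟨y', h1, h2, _⟩ := hy.inv
    exact hr.trans _ _ _ (ih y' h1) h2.1

theorem pth_prefix_of_le (hr : IsTree r) {f : M → ℕ} {w : M} {l : List ℕ} {x : M}
    (hx : Pth r f w l x) {l' : List ℕ} {y : M} (hy : Pth r f w l' y) (hxy : r x y) :
    l <+: l' := by
  induction hy with
  | nil =>
    have : x = w := hr.antisymm _ _ hxy (hx.root_le hr)
    rw [this] at hx
    rw [pth_unique hr hx .nil]
  | @snoc l' y' y h1 h2 ih =>
    by_cases h : x = y
    · rw [h] at hx
      rw [pth_unique hr hx (.snoc h1 h2)]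
    · have hxy' : r x y' := by
        rcases hr.linear y x y' hxy h2.1 with h3 | h3
        · exact h3
        · rcases h2.2.2 x h3 hxy with h4 | h4
          · rw [h4]; exact hr.refl _
          · exact absurd h4 h
      exact (ih hxy').trans (List.prefix_append _ _)

theorem exists_listTree [Countable M] (hr : IsTree r) :
    ∃ T : Set (List ℕ), IsT T ∧ Nonempty (r ≃r pr T) := by
  obtain ⟨f, hf⟩ := Countable.exists_injective_nat M
  obtain ⟨w, hw⟩ := hr.root
  refine ⟨{l | ∃ x, Pth r f w l x}, ⟨⟨w, .nil⟩, ?_⟩, ?_⟩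
  · intro l m
    induction m using List.reverseRecOn with
    | nil => intro h; rwa [List.append_nil] at h
    | append_singleton m k ih =>
      rintro ⟨x, hx⟩
      rw [← List.append_assoc] at hx
      obtain ⟨y, hy, _⟩ := hx.inv
      exact ih ⟨y, hy⟩
  · refine iso_of_rel (fun x l => Pth r f w l x) ?_ ?_ ?_
    · intro x
      obtain ⟨l, hl⟩ := exists_pth hr hw x
      exact ⟨⟨l, x, hl⟩, hl⟩
    · rintro ⟨l, x, hl⟩
      exact ⟨x, hl⟩
    · rintro x ⟨l, hl⟩ y ⟨l', hl'⟩ h h'
      simp only at h h'
      refine ⟨⟨fun hxy => pth_prefix_of_le hr h h' hxy, ?_⟩, ?_, ?_⟩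
      · rintro ⟨t, ht⟩
        simp only at ht
        rw [← ht] at h'
        exact pth_le_of_prefix hr hf h t y h'
      · rintro rfl
        exact Subtype.ext (pth_unique hr h h')
      · intro e
        have e' : l = l' := congrArg Subtype.val e
        subst e'
        refine hr.antisymm _ _ ?_ ?_
        · exact pth_le_of_prefix hr hf h [] y (by rwa [List.append_nil])
        · exact pth_le_of_prefix hr hf h' [] x (by rwa [List.append_nil])

theorem isTree_pr {κ : Type} {T : Set (List κ)} (hT : IsT T) : IsTree (pr T) where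
  refl _ := List.prefix_rfl
  antisymm _ _ h h' := Subtype.ext (prefix_antisymm h h')
  trans _ _ _ h h' := List.IsPrefix.trans h h'
  root := ⟨⟨[], hT.nil⟩, fun _ => List.nil_prefix⟩
  finite x := by
    refine Set.Finite.of_finite_image (f := Subtype.val) ?_ Subtype.val_injective.injOn
    refine (List.finite_toSet (x : List κ).inits).subset ?_
    rintro _ ⟨l, hl, rfl⟩
    exact (List.mem_inits _ _).2 hl
  linear _ _ _ h h' := List.prefix_or_prefix_of_prefix h h'

end Pool.Agent.Lib.MP_efc3dd_lc
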