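import Pool.Agent.Lib.MP_efc3dd_lc.Local

set_option autoImplicit false

/-!
# The first pass, for successor levels `γ + 1` with `γ ≥ 1`
-/

namespace Pool.Agent.Lib.MP_efc3dd_lc

open Set

section Sec

variable (T : Set (List ℕ)) (γ : Ordinal.{0})

/-- Indices of the children of the node `v`. -/
def cI (v : List ℕ) : Set ℕ := {i | v ++ [i] ∈ T}

/-- Subtrees above the children of the node `v`. -/
def cC (v : List ℕ) (i : ℕ) : Set (List ℕ) := sub T (v ++ [i])

/-- The limit siblings in the same `≡_γ` class. -/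
def lcls (v : List ℕ) (i : ℕ) : Set ℕ :=
  {j | j ∈ cI T v ∧ ¬ Alg γ (cI T v) (cC T v) j ∧ Eqv γ (cC T v i) (cC T v j)}

open Classical in
/-- The chosen representative of the class. -/
noncomputable def rl (v : List ℕ) (i : ℕ) : ℕ :=
  if h : (lcls T γ v i).Nonempty then h.some else i

variable {T γ}

theorem rl_spec {v : List ℕ} {i : ℕ} (hi : i ∈ cI T v) (hl : ¬ Alg γ (cI T v) (cC T v) i) :
    rl T γ v i ∈ lcls T γ v i := by
  have h : (lcls T γ v i).Nonempty := ⟨i, hi, hl, Eqv.refl nil_mem_sub⟩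
  rw [rl, dif_pos h]
  exact h.some_mem

theorem rl_eq {v : List ℕ} {i j : ℕ} (hi : i ∈ cI T v) (hl : ¬ Alg γ (cI T v) (cC T v) i)
    (h : Eqv γ (cC T v i) (cC T v j)) : rl T γ v i = rl T γ v j := by
  have e : lcls T γ v i = lcls T γ v j := by
    ext k
    exact ⟨fun hk => ⟨hk.1, hk.2.1, h.symm.trans hk.2.2⟩,
      fun hk => ⟨hk.1, hk.2.1, h.trans hk.2.2⟩⟩
  have h1 : (lcls T γ v i).Nonempty := ⟨i, hi, hl, Eqv.refl nil_mem_sub⟩
  have h2 : (lcls T γ v j).Nonempty := e ▸ h1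
  rw [rl, dif_pos h1, rl, dif_pos h2]
  congr 1

theorem prefix_closure_finite {D : Set (List ℕ)} (hD : D.Finite) :
    {l | ∃ d ∈ D, l <+: d}.Finite := by
  refine Set.Finite.subset (s := ⋃ d ∈ D, {l | l <+: d}) (hD.biUnion fun d _ => ?_) ?_
  · refine (List.finite_toSet d.inits).subset ?_
    intro l hl
    exact (List.mem_inits _ _).2 hl
  · rintro l ⟨d, hd, hl⟩
    simp only [mem_iUnion]
    exact ⟨d, hd, hl⟩

theorem exists_Y (hT : IsT T) {v : List ℕ} {i : ℕ} (h : Alg γ (cI T v) (cC T v) i) :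
    ∃ Y : Set (List ℕ), IsT Y ∧ Y.Finite ∧ Y ⊆ cC T v i ∧
      {j | j ∈ cI T v ∧ Ext γ (cC T v i) Y (cC T v j)}.Finite := by
  obtain ⟨Y, h1, h2, h3⟩ := h
  refine ⟨insert [] {l | ∃ d ∈ Y, l <+: d}, ⟨mem_insert _ _, ?_⟩,
    (prefix_closure_finite h1).insert _, ?_, ?_⟩
  · rintro l m (h | ⟨d, hd, hl⟩)
    · rw [List.append_eq_nil_iff] at h
      exact Or.inl h.1
    · exact Or.inr ⟨d, hd, (List.prefix_append l m).trans hl⟩
  · refine insert_subset nil_mem_sub ?_
    rintro l ⟨d, hd, hl⟩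
    exact (isT_sub hT _).of_prefix hl (h2 hd)
  · refine h3.subset ?_
    rintro j ⟨hj, hE⟩
    exact ⟨hj, hE.mono fun y hy => Or.inr ⟨y, hy, List.prefix_rfl⟩⟩

open Classical in
/-- The witness of algebraicity. -/
noncomputable def Yc (hT : IsT T) (γ : Ordinal.{0}) (v : List ℕ) (i : ℕ) : Set (List ℕ) :=
  if h : Alg γ (cI T v) (cC T v) i then (exists_Y hT h).choose else {[]}

theorem isT_nil : IsT ({[]} : Set (List ℕ)) := ⟨rfl, fun l m h => by
  rw [mem_singleton_iff, List.append_eq_nil_iff] at h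
  exact h.1⟩

theorem Yc_spec (hT : IsT T) (γ : Ordinal.{0}) (v : List ℕ) (i : ℕ) :
    IsT (Yc hT γ v i) ∧ (Yc hT γ v i).Finite ∧ Yc hT γ v i ⊆ cC T v i := by
  unfold Yc
  split_ifs with h
  · have := (exists_Y hT h).choose_spec
    exact ⟨this.1, this.2.1, this.2.2.1⟩
  · refine ⟨isT_nil, finite_singleton _, ?_⟩
    rintro _ rfl
    exact nil_mem_sub

theorem Yc_fin (hT : IsT T) {v : List ℕ} {i : ℕ} (h : Alg γ (cI T v) (cC T v) i) :
    {j | j ∈ cI T v ∧ Ext γ (cC T v i) (Yc hT γ v i) (cC T v j)}.Finite := by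
  unfold Yc
  rw [dif_pos h]
  exact (exists_Y hT h).choose_spec.2.2.2

/-- States: a node together with a finite protected part of the subtree above it. -/
def State (T : Set (List ℕ)) : Type :=
  {p : List ℕ × Set (List ℕ) // IsT p.2 ∧ p.2.Finite ∧ p.2 ⊆ sub T p.1}

theorem state_aux (hT : IsT T) (γ : Ordinal.{0}) (s : State T) (i : ℕ) :
    IsT (Yc hT γ s.1.1 i ∪ {l | i :: l ∈ s.1.2}) ∧
      (Yc hT γ s.1.1 i ∪ {l | i :: l ∈ s.1.2}).Finite ∧
      Yc hT γ s.1.1 i ∪ {l | i :: l ∈ s.1.2} ⊆ sub T (s.1.1 ++ [i]) := by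
  obtain ⟨h1, h2, h3⟩ := Yc_spec hT γ s.1.1 i
  refine ⟨⟨Or.inl h1.nil, ?_⟩, h2.union (tails_finite s.2.2.1 i), union_subset h3 ?_⟩
  · rintro l m (h | h)
    · exact Or.inl (h1.pre _ _ h)
    · exact Or.inr (s.2.1.pre (i :: l) m h)
  · intro l hl
    rcases s.2.2.2 hl with h | h
    · cases h
    · exact Or.inr (by simpa using h)

/-- The transition function. -/
noncomputable def cst (hT : IsT T) (γ : Ordinal.{0}) (s : State T) (k : ℕ) : State T :=
  if (Nat.unpair k).2 = 0 then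
    ⟨(s.1.1 ++ [(Nat.unpair k).1], Yc hT γ s.1.1 (Nat.unpair k).1 ∪
      {l | (Nat.unpair k).1 :: l ∈ s.1.2}), state_aux hT γ s _⟩
  else ⟨(s.1.1 ++ [(Nat.unpair k).1], {[]}), isT_nil, finite_singleton _, by
    rintro _ rfl
    exact nil_mem_sub⟩

theorem cst_node (hT : IsT T) (γ : Ordinal.{0}) (s : State T) (k : ℕ) :
    (cst hT γ s k).1.1 = s.1.1 ++ [(Nat.unpair k).1] := by
  unfold cst
  split_ifs <;> rfl

theorem cst_prot (hT : IsT T) (γ : Ordinal.{0}) (s : State T) {k : ℕ}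
    (hk : (Nat.unpair k).2 = 0) : (cst hT γ s k).1.2 =
      Yc hT γ s.1.1 (Nat.unpair k).1 ∪ {l | (Nat.unpair k).1 :: l ∈ s.1.2} := by
  unfold cst
  rw [if_pos hk]

theorem cst_free (hT : IsT T) (γ : Ordinal.{0}) (s : State T) {k k' : ℕ}
    (hk : (Nat.unpair k).2 ≠ 0) (hk' : (Nat.unpair k').2 ≠ 0)
    (h : (Nat.unpair k).1 = (Nat.unpair k').1) : cst hT γ s k = cst hT γ s k' := by
  unfold cst
  rw [if_neg hk, if_neg hk']
  refine Subtype.ext ?_
  change (s.1.1 ++ [(Nat.unpair k).1], ({[]} : Set (List ℕ)))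
    = (s.1.1 ++ [(Nat.unpair k').1], ({[]} : Set (List ℕ)))
  rw [h]

/-- Protected children. -/
def F1 (s : State T) : Set ℕ := {i | [i] ∈ s.1.2}

/-- The machine of the first pass. -/
noncomputable def fM (hT : IsT T) (γ : Ordinal.{0}) : Machine (State T) ℕ where
  K s := newK γ (cI T s.1.1) (cC T s.1.1) (rl T γ s.1.1) (F1 s)
  c s k := cst hT γ s k
  V s := sub T s.1.1
  F s := s.1.2
  g i := Nat.pair i 0
  hg i j h := by
    have := congrArg Nat.unpair h
    simp only [Nat.unpair_pair, Prod.mk.injEq] at this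
    exact this.1
  hV s := isT_sub hT _
  hF s := s.2.1
  hFf s := s.2.2.1
  hFV s := s.2.2.2
  hc s i l h := by
    refine ⟨⟨?_, Or.inl ⟨?_, Or.inr ?_⟩⟩, ?_⟩
    · rw [Nat.unpair_pair]
      rcases s.2.2.2 h with h' | h'
      · cases h'
      · have : s.1.1 ++ [i] ++ l ∈ T := by simpa using h'
        exact hT.pre _ _ this
    · rw [Nat.unpair_pair]
    · rw [Nat.unpair_pair]
      exact s.2.1.pre [i] l h
    · rw [cst_prot hT γ s (by rw [Nat.unpair_pair]), Nat.unpair_pair]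
      exact Or.inr h

theorem loc (_ : IsT T) (s : State T) :
    Loc γ (cI T s.1.1) (cC T s.1.1) (rl T γ s.1.1) (F1 s) := by
  refine ⟨fun _ _ => nil_mem_sub, ?_, ?_, ?_, ?_⟩
  · intro i hi hl
    have h := rl_spec hi hl
    exact ⟨h.1, h.2.1, (rl_eq hi hl h.2.2).symm⟩
  · intro i hi hl
    exact (rl_spec hi hl).2.2
  · exact (heads_finite s.2.2.1).subset fun i hi => ⟨[], hi⟩
  · intro i hi
    rcases s.2.2.2 hi with h | h
    · cases h
    · exact h

theorem fM_W (hT : IsT T) (s : State T) : (fM hT γ).W s =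
    node (newK γ (cI T s.1.1) (cC T s.1.1) (rl T γ s.1.1) (F1 s)) (newC (cC T s.1.1)) := by
  unfold Machine.W
  congr 1
  funext k
  change sub T (cst hT γ s k).1.1 = _
  rw [cst_node]
  rfl

theorem fM_hA (hT : IsT T) (s : State T) : BF (γ + 1) ((fM hT γ).V s) ((fM hT γ).W s)
    (piF1 (fM hT γ).g ((fM hT γ).F s)) := by
  have hL := loc (γ := γ) hT s
  have e : (fM hT γ).V s = node (cI T s.1.1) (cC T s.1.1) := sub_eq_node hT s.1.1
  rw [fM_W, e]
  have h : BF (γ + 1) (node (cI T s.1.1) (cC T s.1.1))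
      (node (newK γ (cI T s.1.1) (cC T s.1.1) (rl T γ s.1.1) (F1 s)) (newC (cC T s.1.1)))
      (lift ((fun i => (i, Nat.pair i 0)) '' F1 s)
        fun x => idp {l | x.1 :: l ∈ s.1.2}) := by
    refine node_BF (γ + 1) ⟨hL.F_fin.image _, ?_, ?_⟩ ?_ ?_ ?_
    · rintro _ ⟨i, hi, rfl⟩
      refine ⟨hL.F_sub hi, ?_, Or.inl ⟨?_, Or.inr ?_⟩⟩
      · simp only [Nat.unpair_pair]; exact hL.F_sub hi
      · simp only [Nat.unpair_pair]
      · simp only [Nat.unpair_pair]; exact hi
    · rintro _ ⟨i, hi, rfl⟩ _ ⟨j, hj, rfl⟩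
      exact ⟨fun h => by simp only at h ⊢; rw [h], fun h => (fM hT γ).hg h⟩
    · rintro _ ⟨i, hi, rfl⟩
      exact ⟨rfl, hi⟩
    · rintro _ ⟨i, hi, rfl⟩
      simp only [newC, Nat.unpair_pair]
      refine BF.refl _ ?_ (tails_finite s.2.2.1 i)
      intro l hl
      rcases s.2.2.2 hl with h | h
      · cases h
      · exact Or.inr (by simpa using h)
    · have e1 : Prod.fst '' ((fun i => (i, Nat.pair i 0)) '' F1 s) = F1 s := by
        rw [image_image]; simp
      have e2 : Prod.snd '' ((fun i => (i, Nat.pair i 0)) '' F1 s)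
          = (fun i => Nat.pair i 0) '' F1 s := by
        rw [image_image]
      rw [e1, e2]
      exact local_step hL
  refine h.pos ?_
  rintro ⟨l, l'⟩ ⟨h1, h2⟩
  simp only at h1 h2
  subst h2
  cases l with
  | nil => exact nil_mem_lift
  | cons i l =>
    exact cons_mem_lift.2 ⟨⟨i, s.2.1.pre [i] l h1, rfl⟩, rfl, h1⟩

/-- Positions glued from blocks are atomic. -/
theorem block_atom {B : Set (ℕ × List ℕ)} {kk : ℕ × List ℕ → ℕ}
    {R : ℕ × List ℕ → Set (List ℕ × List ℕ)} (hk : InjOn kk B) (hR : ∀ b ∈ B, Atom (R b))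
    (hx : ∀ b ∈ B, ∀ b' ∈ B, b ≠ b' → b.1 = b'.1 → ∀ z ∈ R b, ∀ z' ∈ R b', ¬ z.2 <+: z'.2) :
    Atom ({z | z = ([], []) ∨ ∃ b ∈ B, ∃ y ∈ R b, z = (kk b :: y.1, b.1 :: y.2)} :
      Set (List ℕ × List ℕ)) := by
  rintro z (rfl | ⟨b, hb, y, hy, rfl⟩) z' (rfl | ⟨b', hb', y', hy', rfl⟩)
  · simp
  · simp
  · simp
  · simp only [List.cons_prefix_cons]
    by_cases e : b = b'
    · subst e
      simp only [true_and]
      exact hR b hb y hy y' hy'
    · constructor
      · rintro ⟨h1, _⟩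
        exact absurd (hk hb hb' h1) e
      · rintro ⟨h1, h2⟩
        exact absurd h2 (hx b hb b' hb' e h1 y hy y' hy')

theorem exists_min_prefix {D : Set (List ℕ)} {l : List ℕ} (hl : l ∈ D) :
    ∃ m ∈ D, m <+: l ∧ ∀ m' ∈ D, m' <+: m → m' = m := by
  generalize hn : l.length = n
  induction n using Nat.strong_induction_on generalizing l with
  | _ n ih =>
    by_cases h : ∀ m' ∈ D, m' <+: l → m' = l
    · exact ⟨l, hl, List.prefix_rfl, h⟩
    · push Not at h
      obtain ⟨m', h1, h2, h3⟩ := h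
      have h4 : m'.length < n := by
        rw [← hn]
        refine lt_of_le_of_ne h2.length_le fun e => h3 (h2.eq_of_length e)
      obtain ⟨m, g1, g2, g3⟩ := ih _ h4 h1 rfl
      exact ⟨m, g1, g2.trans h2, g3⟩

theorem emb1 (hT : IsT T) (hγ : 1 ≤ γ) : ∀ (n N : ℕ) (s : State T) (D : Set (List ℕ)),
    D ⊆ sub T s.1.1 → D.Finite → D.ncard ≤ n → (∀ d ∈ D, d.length ≤ N) →
    ∃ q : Set (List ℕ × List ℕ), q.Finite ∧
      (∀ z ∈ q, z.1 ∈ (fM hT γ).U s ∧ z.2 ∈ sub T s.1.1) ∧ Atom q ∧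
      sw (piF (fM hT γ).g ((fM hT γ).F s)) ⊆ q ∧ ∀ d ∈ D, ∃ x, (x, d) ∈ q := by
  have base : ∀ (s : State T) (D : Set (List ℕ)), D ⊆ {[]} →
      ∃ q : Set (List ℕ × List ℕ), q.Finite ∧
      (∀ z ∈ q, z.1 ∈ (fM hT γ).U s ∧ z.2 ∈ sub T s.1.1) ∧ Atom q ∧
      sw (piF (fM hT γ).g ((fM hT γ).F s)) ⊆ q ∧ ∀ d ∈ D, ∃ x, (x, d) ∈ q := by
    intro s D hD
    refine ⟨sw (piF (fM hT γ).g ((fM hT γ).F s)),
      sw_finite.2 (piF_finite ((fM hT γ).hFf s)), ?_, ((fM hT γ).atom_pi s).sw, subset_rfl, ?_⟩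
    · rintro ⟨x, y⟩ ⟨h1, h2⟩
      simp only at h1 h2; subst h2
      exact ⟨(fM hT γ).map_mem_U h1, (fM hT γ).hFV s h1⟩
    · intro d hd
      have : d = [] := hD hd
      subst this
      exact ⟨[], ((fM hT γ).hF s).nil, rfl⟩
  intro n
  induction n with
  | zero =>
    intro N s D _ hf hc _
    refine base s D ?_
    rw [Nat.le_zero, ncard_eq_zero hf] at hc
    rw [hc]
    exact empty_subset _
  | succ n ihn =>
    intro N
    induction N with
    | zero =>
      intro s D _ _ _ hl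
      refine base s D fun d hd => ?_
      have := hl d hd
      rwa [Nat.le_zero, List.length_eq_zero_iff] at this
    | succ N ihN =>
      intro s D hD hf hc hl
      classical
      have hL := loc (γ := γ) hT s
      set M := fM hT γ with hM
      set Dj : ℕ → Set (List ℕ) := fun j => {l | j :: l ∈ D} with hDj
      have hDjf : ∀ j, (Dj j).Finite := fun j => tails_finite hf j
      have hDjc : ∀ j, (Dj j).ncard ≤ n + 1 := fun j =>
        (ncard_le_ncard_of_injOn (fun l => j :: l) (fun l hl => hl)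
          (fun _ _ _ _ h => List.tail_eq_of_cons_eq h) hf).trans hc
      have hDjI : ∀ j l, l ∈ Dj j → j ∈ cI T s.1.1 ∧ l ∈ cC T s.1.1 j := by
        intro j l hl
        rcases hD hl with h | h
        · cases h
        · have h' : s.1.1 ++ [j] ++ l ∈ T := by simpa using h
          exact ⟨hT.pre _ _ h', Or.inr h'⟩
      -- protected or algebraic children
      let prot : ℕ → Prop := fun j => Alg γ (cI T s.1.1) (cC T s.1.1) j ∨ j ∈ F1 s
      have hQ : ∀ j, ∃ q : Set (List ℕ × List ℕ), q.Finite ∧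
          (∀ z ∈ q, z.1 ∈ M.U (M.c s (Nat.pair j 0)) ∧ z.2 ∈ cC T s.1.1 j) ∧ Atom q ∧
          sw (piF M.g (M.F (M.c s (Nat.pair j 0)))) ⊆ q ∧ ∀ d ∈ Dj j, ∃ x, (x, d) ∈ q := by
        intro j
        have e : sub T (M.c s (Nat.pair j 0)).1.1 = cC T s.1.1 j := by
          change sub T (cst hT γ s (Nat.pair j 0)).1.1 = _
          rw [cst_node, Nat.unpair_pair]
          rfl
        have h1 := ihN (M.c s (Nat.pair j 0)) (Dj j)
          (by rw [e]; exact fun l hl => (hDjI j l hl).2) (hDjf j) (hDjc j)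
          (fun d hd => by have := hl _ hd; simpa using this)
        rwa [e] at h1
      choose Q hQ1 hQ2 hQ3 hQ4 hQ5 using hQ
      -- limit children
      let kk : ℕ × List ℕ → ℕ := fun b => if prot b.1 then Nat.pair b.1 0 else
        Nat.pair (rl T γ s.1.1 b.1) (Encodable.encode b + 1)
      let Cm : ℕ × List ℕ → Set (List ℕ) := fun b => {d | d ∈ Dj b.1 ∧ b.2 <+: d ∧ d ≠ b.2}
      have hX : ∀ b : ℕ × List ℕ, ∃ (X : List ℕ → List ℕ) (q1 : Set (List ℕ × List ℕ)),
          ¬ prot b.1 → b.1 ∈ cI T s.1.1 → b.2 ∈ Dj b.1 →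
          (∀ d ∈ Cm b, ∀ d' ∈ Cm b, (X d <+: X d' ↔ d <+: d')) ∧ (∀ d ∈ Cm b, X d ≠ []) ∧
          q1.Finite ∧ (∀ z ∈ q1, z.1 ∈ M.U (M.c s (kk b))) ∧ Atom q1 ∧
          (([], []) : List ℕ × List ℕ) ∈ q1 ∧ ∀ d ∈ Cm b, ∃ u, (u, X d) ∈ q1 := by
        rintro ⟨j, m⟩
        by_cases hb : ¬ prot j ∧ j ∈ cI T s.1.1 ∧ m ∈ Dj j
        swap
        · exact ⟨id, ∅, fun h1 h2 h3 => absurd ⟨h1, h2, h3⟩ hb⟩
        obtain ⟨hb1, hb2, hb3⟩ := hb
        have hlim : ¬ Alg γ (cI T s.1.1) (cC T s.1.1) j := fun h => hb1 (Or.inl h)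
        have hCf : (Cm (j, m)).Finite := (hDjf j).subset fun d hd => hd.1
        have hCc : (Cm (j, m)).ncard ≤ n := by
          have h1 : (Cm (j, m)).ncard < (Dj j).ncard := by
            refine ncard_lt_ncard ⟨fun d hd => hd.1, fun h => ?_⟩ (hDjf j)
            exact (h hb3).2.2 rfl
          have := hDjc j
          omega
        obtain ⟨q0, e1, e2, e3⟩ := BF.step (hL.rl_eqv j hb2 hlim).2
          (Order.one_le_iff_pos.1 hγ) (D := Cm (j, m)) (fun d hd => (hDjI j d hd.1).2) hCf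
        choose! X hX using e2
        have hat : Atom q0 := e3.atom.sw
        have hkk : kk (j, m) = Nat.pair (rl T γ s.1.1 j) (Encodable.encode (j, m) + 1) :=
          if_neg hb1
        have enode : sub T (M.c s (kk (j, m))).1.1 = cC T s.1.1 (rl T γ s.1.1 j) := by
          change sub T (cst hT γ s (kk (j, m))).1.1 = _
          rw [cst_node, hkk, Nat.unpair_pair]
          rfl
        obtain ⟨N', hN'⟩ : ∃ N', ∀ d ∈ X '' Cm (j, m), d.length ≤ N' := by
          obtain ⟨N', hN'⟩ := ((hCf.image X).image List.length).bddAbove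
          exact ⟨N', fun d hd => hN' ⟨d, hd, rfl⟩⟩
        obtain ⟨q1, f1, f2, f3, f4, f5⟩ := ihn N' (M.c s (kk (j, m))) (X '' Cm (j, m))
          (by
            rw [enode]
            rintro _ ⟨d, hd, rfl⟩
            exact (e3.mem (a := (d, X d)) (hX d hd)).2)
          (hCf.image X) ((ncard_image_le hCf).trans hCc) hN'
        refine ⟨X, q1, fun _ _ _ => ⟨?_, ?_, f1, fun z hz => (f2 z hz).1, f3, ?_, ?_⟩⟩
        · intro d hd d' hd'
          exact hat _ (hX d hd) _ (hX d' hd')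
        · intro d hd h
          have h1 := hX d hd
          have h2 := (hat.eq_iff h1 (e1 mem_rt)).1 h
          simp only at h2
          have h3 := hd.2.1
          have h4 := hd.2.2
          simp only at h3 h4
          rw [h2] at h3 h4
          exact h4 (List.prefix_nil.1 h3).symm
        · exact f4 ⟨(M.hF _).nil, rfl⟩
        · intro d hd
          exact f5 _ ⟨d, hd, rfl⟩
      choose X q1 hX using hX
      let R : ℕ × List ℕ → Set (List ℕ × List ℕ) := fun b => if prot b.1 then Q b.1 else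
        {z | z = ([], b.2) ∨ (z.2 ∈ Cm b ∧ (z.1, X b z.2) ∈ q1 b)}
      let B : Set (ℕ × List ℕ) := {b | b.1 ∈ cI T s.1.1 ∧
        ((prot b.1 ∧ b.2 = [] ∧ ((∃ l, b.1 :: l ∈ D) ∨ b.1 ∈ F1 s)) ∨
        (¬ prot b.1 ∧ b.2 ∈ Dj b.1 ∧ ∀ m' ∈ Dj b.1, m' <+: b.2 → m' = b.2))}
      have hBf : B.Finite := by
        have h1 : ((fun j => (j, ([] : List ℕ))) '' ({j | ∃ l, j :: l ∈ D} ∪ F1 s)).Finite :=
          ((heads_finite hf).union hL.F_fin).image _
        have h2 : ((fun l : List ℕ => (l.headD 0, l.tail)) '' D).Finite := hf.image _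
        refine (h1.union h2).subset ?_
        rintro ⟨j, m⟩ ⟨_, ⟨_, h3, h4⟩ | ⟨_, h3, _⟩⟩
        · simp only at h3 h4
          subst h3
          exact Or.inl ⟨j, h4, rfl⟩
        · exact Or.inr ⟨j :: m, h3, rfl⟩
      have hRp : ∀ b, prot b.1 → R b = Q b.1 := fun b hb => if_pos hb
      have hRl : ∀ b, ¬ prot b.1 → R b =
        {z | z = ([], b.2) ∨ (z.2 ∈ Cm b ∧ (z.1, X b z.2) ∈ q1 b)} := fun b hb => if_neg hb
      have hkkp : ∀ b, prot b.1 → kk b = Nat.pair b.1 0 := fun b hb => if_pos hb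
      have hkkl : ∀ b, ¬ prot b.1 → kk b =
        Nat.pair (rl T γ s.1.1 b.1) (Encodable.encode b + 1) := fun b hb => if_neg hb
      have hBl : ∀ b ∈ B, ¬ prot b.1 → b.2 ∈ Dj b.1 ∧ ∀ m' ∈ Dj b.1, m' <+: b.2 → m' = b.2 := by
        rintro b ⟨_, h | h⟩ hn
        · exact absurd h.1 hn
        · exact h.2
      have hkinj : InjOn kk B := by
        intro b hb b' hb' e
        by_cases h1 : prot b.1 <;> by_cases h2 : prot b'.1
        · rw [hkkp b h1, hkkp b' h2] at e
          have e' := congrArg Nat.unpair e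
          simp only [Nat.unpair_pair, Prod.mk.injEq] at e'
          have h3 : b.2 = [] := by
            rcases hb.2 with h | h
            · exact h.2.1
            · exact absurd h1 h.1
          have h4 : b'.2 = [] := by
            rcases hb'.2 with h | h
            · exact h.2.1
            · exact absurd h2 h.1
          exact Prod.ext e'.1 (h3.trans h4.symm)
        · rw [hkkp b h1, hkkl b' h2] at e
          have e' := congrArg Nat.unpair e
          simp only [Nat.unpair_pair, Prod.mk.injEq] at e'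
          omega
        · rw [hkkl b h1, hkkp b' h2] at e
          have e' := congrArg Nat.unpair e
          simp only [Nat.unpair_pair, Prod.mk.injEq] at e'
          omega
        · rw [hkkl b h1, hkkl b' h2] at e
          have e' := congrArg Nat.unpair e
          simp only [Nat.unpair_pair, Prod.mk.injEq, Nat.add_right_cancel_iff] at e'
          exact Encodable.encode_injective e'.2
      have hRat : ∀ b ∈ B, Atom (R b) := by
        intro b hb
        by_cases h1 : prot b.1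
        · rw [hRp b h1]; exact hQ3 _
        · rw [hRl b h1]
          obtain ⟨g1, g2⟩ := hBl b hb h1
          obtain ⟨x1, x2, x3, x4, x5, x6, x7⟩ := hX b h1 hb.1 g1
          have hne : ∀ u d, d ∈ Cm b → (u, X b d) ∈ q1 b → u ≠ [] := by
            rintro u d hd hu rfl
            exact x2 d hd ((x5.eq_iff hu x6).1 rfl)
          rintro ⟨u, d⟩ (h | ⟨hd, hu⟩) ⟨u', d'⟩ (h' | ⟨hd', hu'⟩)
          · simp only [Prod.mk.injEq] at h h'
            rw [h.1, h.2, h'.1, h'.2]
            simp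
          · simp only [Prod.mk.injEq] at h
            simp only at hd' hu' ⊢
            rw [h.1, h.2]
            exact ⟨fun _ => hd'.2.1, fun _ => List.nil_prefix⟩
          · simp only [Prod.mk.injEq] at h'
            simp only at hd hu ⊢
            rw [h'.1, h'.2]
            constructor
            · intro h3
              exact absurd (List.prefix_nil.1 h3) (hne u d hd hu)
            · intro h3
              exact absurd (prefix_antisymm h3 hd.2.1) hd.2.2
          · simp only at hd hu hd' hu' ⊢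
            rw [← x1 d hd d' hd']
            exact x5 _ hu _ hu'
      have hRpre : ∀ b ∈ B, ¬ prot b.1 → ∀ z ∈ R b, b.2 <+: z.2 := by
        intro b hb h1 z hz
        rw [hRl b h1] at hz
        rcases hz with rfl | hz
        · exact List.prefix_rfl
        · exact hz.1.2.1
      refine ⟨{z | z = ([], []) ∨ ∃ b ∈ B, ∃ y ∈ R b, z = (kk b :: y.1, b.1 :: y.2)},
        ?_, ?_, block_atom hkinj hRat ?_, ?_, ?_⟩
      · -- finite
        have h1 : ∀ b ∈ B, (R b).Finite := by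
          intro b hb
          by_cases h1 : prot b.1
          · rw [hRp b h1]; exact hQ1 _
          · rw [hRl b h1]
            obtain ⟨g1, g2⟩ := hBl b hb h1
            obtain ⟨x1, x2, x3, x4, x5, x6, x7⟩ := hX b h1 hb.1 g1
            have hCf : (Cm b).Finite := (hDjf b.1).subset fun d hd => hd.1
            refine ((finite_singleton (([], b.2) : List ℕ × List ℕ)).union
              ((x3.image Prod.fst).prod hCf)).subset ?_
            rintro z (h | ⟨h2, h3⟩)
            · exact Or.inl h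
            · exact Or.inr ⟨⟨_, h3, rfl⟩, h2⟩
        have h2 : (⋃ b ∈ B, (fun y : List ℕ × List ℕ => (kk b :: y.1, b.1 :: y.2)) '' R b).Finite :=
          hBf.biUnion fun b hb => (h1 b hb).image _
        refine ((finite_singleton (([], []) : List ℕ × List ℕ)).union h2).subset ?_
        rintro z (h | ⟨b, hb, y, hy, rfl⟩)
        · exact Or.inl h
        · refine Or.inr ?_
          simp only [mem_iUnion]
          exact ⟨b, hb, y, hy, rfl⟩
      · -- membership
        rintro z (rfl | ⟨b, hb, y, hy, rfl⟩)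
        · exact ⟨nil_mem_unf, nil_mem_sub⟩
        · have hVmem : ∀ l, l ∈ cC T s.1.1 b.1 → b.1 :: l ∈ sub T s.1.1 := by
            intro l hl
            rw [sub_eq_node hT, cons_mem_node]
            exact ⟨hb.1, hl⟩
          by_cases h1 : prot b.1
          · rw [hRp b h1] at hy
            have h2 := hQ2 _ _ hy
            refine ⟨?_, hVmem _ h2.2⟩
            rw [hkkp b h1]
            refine cons_mem_unf.2 ⟨⟨?_, Or.inl ⟨?_, ?_⟩⟩, h2.1⟩
            · rw [Nat.unpair_pair]; exact hb.1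
            · rw [Nat.unpair_pair]
            · rw [Nat.unpair_pair]; exact h1
          · rw [hRl b h1] at hy
            obtain ⟨g1, g2⟩ := hBl b hb h1
            obtain ⟨x1, x2, x3, x4, x5, x6, x7⟩ := hX b h1 hb.1 g1
            have hlim : ¬ Alg γ (cI T s.1.1) (cC T s.1.1) b.1 := fun h => h1 (Or.inl h)
            have hK : kk b ∈ M.K s := by
              rw [hkkl b h1]
              have h3 := hL.rl_mem b.1 hb.1 hlim
              refine ⟨?_, Or.inr ⟨?_, ?_, ?_⟩⟩
              · rw [Nat.unpair_pair]; exact h3.1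
              · rw [Nat.unpair_pair]; exact Nat.succ_ne_zero _
              · rw [Nat.unpair_pair]; exact h3.2.1
              · rw [Nat.unpair_pair]; exact h3.2.2
            rcases hy with rfl | hy
            · exact ⟨cons_mem_unf.2 ⟨hK, nil_mem_unf⟩, hVmem _ (hDjI _ _ g1).2⟩
            · exact ⟨cons_mem_unf.2 ⟨hK, x4 (y.1, X b y.2) hy.2⟩, hVmem _ (hDjI _ _ hy.1.1).2⟩
      · -- different blocks
        intro b hb b' hb' hne e z hz z' hz' hzz
        by_cases h1 : prot b.1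
        · have h2 : prot b'.1 := e ▸ h1
          have h3 : b.2 = [] := by
            rcases hb.2 with h | h
            · exact h.2.1
            · exact absurd h1 h.1
          have h4 : b'.2 = [] := by
            rcases hb'.2 with h | h
            · exact h.2.1
            · exact absurd h2 h.1
          exact hne (Prod.ext e (h3.trans h4.symm))
        · have h2 : ¬ prot b'.1 := e ▸ h1
          have h3 := (hRpre b hb h1 z hz).trans hzz
          have h4 := hRpre b' hb' h2 z' hz'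
          have g := hBl b hb h1
          have g' := hBl b' hb' h2
          rcases List.prefix_or_prefix_of_prefix h3 h4 with h5 | h5
          · exact hne (Prod.ext e (g'.2 _ (e ▸ g.1) h5))
          · exact hne (Prod.ext e (g.2 _ (e ▸ g'.1) h5).symm)
      · -- the protected part
        rintro ⟨l', l⟩ ⟨h1, h2⟩
        simp only at h1 h2
        subst h2
        cases l with
        | nil => exact Or.inl rfl
        | cons i l =>
          have hF1 : i ∈ F1 s := s.2.1.pre [i] l h1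
          have hp : prot i := Or.inr hF1
          refine Or.inr ⟨(i, []), ⟨hL.F_sub hF1, Or.inl ⟨hp, rfl, Or.inr hF1⟩⟩,
            (l.map M.g, l), ?_, ?_⟩
          · rw [hRp _ hp]
            exact hQ4 i ⟨(M.hc s i l h1).2, rfl⟩
          · rw [hkkp _ hp]
            rfl
      · -- covering
        intro d hd
        cases d with
        | nil => exact ⟨[], Or.inl rfl⟩
        | cons j l =>
          have hjl := hDjI j l hd
          by_cases hp : prot j
          · obtain ⟨x, hx⟩ := hQ5 j l hd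
            refine ⟨_, Or.inr ⟨(j, []), ⟨hjl.1, Or.inl ⟨hp, rfl, Or.inl ⟨l, hd⟩⟩⟩, (x, l), ?_, rfl⟩⟩
            rw [hRp _ hp]
            exact hx
          · obtain ⟨m, h1, h2, h3⟩ := exists_min_prefix (D := Dj j) (l := l) hd
            have hb : (j, m) ∈ B := ⟨hjl.1, Or.inr ⟨hp, h1, h3⟩⟩
            obtain ⟨x1, x2, x3, x4, x5, x6, x7⟩ := hX (j, m) hp hjl.1 h1
            by_cases hm : l = m
            · subst hm
              refine ⟨_, Or.inr ⟨(j, l), hb, ([], l), ?_, rfl⟩⟩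
              rw [hRl _ hp]
              exact Or.inl rfl
            · have hC : l ∈ Cm (j, m) := ⟨hd, h2, hm⟩
              obtain ⟨u, hu⟩ := x7 l hC
              refine ⟨_, Or.inr ⟨(j, m), hb, (u, l), ?_, rfl⟩⟩
              rw [hRl _ hp]
              exact Or.inr ⟨hC, hu⟩

/-- The unfolding of a state is `≤_1` the tree of the state. -/
theorem down_one (hT : IsT T) (hγ : 1 ≤ γ) (s : State T) :
    BF 1 ((fM hT γ).U s) ((fM hT γ).V s) (sw (piF (fM hT γ).g ((fM hT γ).F s))) := by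
  rw [BF_iff]
  refine ⟨sw_finite.2 (piF_finite ((fM hT γ).hFf s)), ?_, ((fM hT γ).atom_pi s).sw, ?_⟩
  · rintro ⟨x, y⟩ ⟨h1, h2⟩
    simp only at h1 h2; subst h2
    exact ⟨(fM hT γ).map_mem_U h1, (fM hT γ).hFV s h1⟩
  · intro β hβ D hD hf
    obtain rfl : β = 0 := Order.lt_one_iff.1 hβ
    obtain ⟨N, hN⟩ : ∃ N, ∀ d ∈ D, d.length ≤ N := by
      obtain ⟨N, hN⟩ := (hf.image List.length).bddAbove
      exact ⟨N, fun d hd => hN ⟨d, hd, rfl⟩⟩
    obtain ⟨q, h1, h2, h3, h4, h5⟩ := emb1 hT hγ D.ncard N s D hD hf le_rfl hN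
    refine ⟨q, h4, h5, ?_⟩
    rw [BF_iff]
    refine ⟨sw_finite.2 h1, fun z hz => (h2 _ hz).symm, h3.sw, fun β' hβ' => ?_⟩
    exact absurd hβ' (not_lt.2 zero_le)

theorem fM_up (hT : IsT T) (hγ : 1 ≤ γ) (s : State T) :
    BF (γ + 1) ((fM hT γ).V s) ((fM hT γ).U s) (piF (fM hT γ).g ((fM hT γ).F s)) ∧
    BF γ ((fM hT γ).U s) ((fM hT γ).V s) (sw (piF (fM hT γ).g ((fM hT γ).F s))) := by
  rcases hγ.eq_or_lt with h1 | h1
  · subst h1
    refine ⟨Machine.up_of_down (fM_hA hT) le_rfl (fun β hβ s => ?_) s, down_one hT le_rfl s⟩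
    exact (down_one hT le_rfl s).mono (Order.lt_add_one_iff.1 hβ)
  · have h2 : 2 ≤ γ := by
      have := Order.add_one_le_iff.2 h1
      rwa [one_add_one_eq_two] at this
    have h := fun β => Machine.unfolding (M := fM hT γ) (a := γ + 1) (b := γ) le_rfl
      (Order.lt_add_one_iff.2 le_rfl).le h2 (fM_hA hT)
      (fun s => (fM_hA hT s).symm_lt (Order.lt_add_one_iff.2 le_rfl)) β
    exact ⟨(h (γ + 1)).1 le_rfl s, (h γ).2 le_rfl s⟩

/-- A `Σ_{γ+1}` formula expressing `Ext γ A Y`. -/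
theorem ext_formula {A : Set (List ℕ)} {Y : Set (List ℕ)} (hA : [] ∈ A) (hY : Y.Finite)
    (hYA : Y ⊆ A) (B : ℕ → Set (List ℕ)) (hB : ∀ j, [] ∈ B j) :
    ∃ φ : Fm 1, Lvl true (γ + 1) φ ∧ Sat1 A φ ∧ ∀ j, Sat1 (B j) φ → Ext γ A Y (B j) := by
  obtain ⟨m, y, hy⟩ : ∃ m, ∃ d : Fin m → A, ∀ x ∈ Y, ∃ i, (d i : List ℕ) = x := by
    obtain ⟨m, e, -, he⟩ := hY.fin_param
    refine ⟨m, fun i => ⟨e i, hYA (he ▸ mem_range_self i)⟩, fun x hx => ?_⟩
    rw [← he] at hx
    exact hx
  have h1 : ∀ jz : (Σ j : ℕ, Fin m → B j), ∃ ψ : Fm (1 + m), Lvl false γ ψ ∧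
      ψ.Realize (pr A) (Fin.append (fun _ : Fin 1 => (⟨[], hA⟩ : A)) y) ∧
      (ψ.Realize (pr (B jz.1)) (Fin.append (fun _ : Fin 1 => (⟨[], hB jz.1⟩ : B jz.1)) jz.2) →
        BF γ A (B jz.1) (pos2 (Fin.append (fun _ : Fin 1 => (⟨[], hA⟩ : A)) y)
          (Fin.append (fun _ : Fin 1 => (⟨[], hB jz.1⟩ : B jz.1)) jz.2))) := by
    rintro ⟨j, z⟩
    by_cases h : BF γ A (B j) (pos2 (Fin.append (fun _ : Fin 1 => (⟨[], hA⟩ : A)) y)
          (Fin.append (fun _ : Fin 1 => (⟨[], hB j⟩ : B j)) z))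
    · exact ⟨.not .bot, .qf (.not .bot), id, fun _ => h⟩
    · obtain ⟨ψ, g1, g2, g3⟩ := separation γ _ _ A.to_countable (B j).to_countable h
      exact ⟨ψ, g1, g2, fun h => absurd h g3⟩
  choose ψ h2 h3 h4 using h1
  refine ⟨Fm.exs m (Fm.iconj ψ), ?_, ?_, ?_⟩
  · refine Lvl.exs (zero_le.trans_lt (Order.lt_add_one_iff.2 le_rfl : γ < γ + 1)) m ?_
    exact .up (Order.lt_add_one_iff.2 le_rfl) (Lvl.iconj h2)
  · intro _
    rw [Fm.realize_exs]
    exact ⟨y, Fm.realize_iconj.2 h3⟩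
  · intro j hj
    have h5 := hj (hB j)
    rw [Fm.realize_exs] at h5
    obtain ⟨z, hz⟩ := h5
    have h6 := h4 ⟨j, z⟩ (Fm.realize_iconj.1 hz ⟨j, z⟩)
    refine ⟨_, h6, ⟨Fin.castAdd m 0, by simp [Fin.append_left]⟩, fun x hx => ?_⟩
    obtain ⟨i, hi⟩ := hy x hx
    exact ⟨z i, Fin.natAdd 1 i, by simp [Fin.append_right, hi]⟩

/-- A `Π_α` formula expressing `LE α A`. -/
theorem le_formula {α : Ordinal.{0}} {A : Set (List ℕ)} (hA : [] ∈ A)
    (B : ℕ → Set (List ℕ)) (hB : ∀ j, [] ∈ B j) :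
    ∃ φ : Fm 1, Lvl false α φ ∧ Sat1 A φ ∧ ∀ j, Sat1 (B j) φ → LE α A (B j) := by
  have h1 : ∀ j, ∃ φ : Fm 1, Lvl false α φ ∧ Sat1 A φ ∧ (Sat1 (B j) φ → LE α A (B j)) := by
    intro j
    by_cases hj : LE α A (B j)
    · exact ⟨.not .bot, .qf (.not .bot), fun _ => id, fun _ => hj⟩
    · obtain ⟨φ, g1, g2, g3⟩ := exists_sep hA (hB j) hj
      exact ⟨φ, g1, g2, fun h => absurd h g3⟩
  choose φ hφ1 hφ2 hφ3 using h1
  exact ⟨Fm.iconj φ, Lvl.iconj hφ1, fun h => Fm.realize_iconj.2 fun j => hφ2 j h,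
    fun j hj => hφ3 j fun h => Fm.realize_iconj.1 (hj h) j⟩

theorem nil_pi (hT : IsT T) (s : State T) :
    (([], []) : List ℕ × List ℕ) ∈ piF (fM hT γ).g ((fM hT γ).F s) :=
  ⟨((fM hT γ).hF s).nil, rfl⟩

/-- Transfer of an extension between unfoldings back to the original trees. -/
theorem ext_back (hT : IsT T) (hγ : 1 ≤ γ) (s s' : State T) {Y : Set (List ℕ)}
    (hY : Y ⊆ s.1.2)
    (h : Ext γ ((fM hT γ).U s) (List.map (fM hT γ).g '' Y) ((fM hT γ).U s')) :
    Ext γ (sub T s.1.1) Y (sub T s'.1.1) := by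
  obtain ⟨q1, a1, a2, a3⟩ := h
  have h1 : BF γ ((fM hT γ).V s) ((fM hT γ).U s)
    (piF (fM hT γ).g ((fM hT γ).F s)) :=
    (fM_up hT hγ s).1.mono (Order.lt_add_one_iff.2 le_rfl).le
  have h2 := BF.comp h1 a1
  set q2 := cmp (piF (fM hT γ).g ((fM hT γ).F s)) q1 with hq2
  have hZ : {z | ∃ x, (x, z) ∈ q2}.Finite := by
    refine (h2.finite.image Prod.snd).subset ?_
    rintro w ⟨u, hu⟩
    exact ⟨_, hu, rfl⟩
  obtain ⟨q3, b1, b2, b3⟩ := (fM_up hT hγ s').1.step (Order.lt_add_one_iff.2 le_rfl)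
    (D := {z | ∃ x, (x, z) ∈ q2}) (fun z ⟨x, hx⟩ => (h2.mem hx).2) hZ
  refine ⟨cmp q2 (sw q3), BF.comp h2 b3, ?_, ?_⟩
  · exact ⟨[], ⟨[], nil_pi hT s, a2⟩, b1 (nil_pi hT s')⟩
  · intro y hy
    obtain ⟨z, hz⟩ := a3 _ ⟨y, hy, rfl⟩
    have h3 : (y, z) ∈ q2 := ⟨y.map (fM hT γ).g, ⟨hY hy, rfl⟩, hz⟩
    obtain ⟨w, hw⟩ := b2 z ⟨y, h3⟩
    exact ⟨w, z, h3, hw⟩

theorem Ext.trans_of {S : Set (List ℕ)} {Y : Set (List ℕ)} {S' : Set (List ℕ)}
    {q : Set (List ℕ × List ℕ)} (h : BF γ S S' q) (hn : (([], []) : List ℕ × List ℕ) ∈ q)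
    (hY : ∀ y ∈ Y, ∃ z, (y, z) ∈ q) {S'' : Set (List ℕ)}
    (h' : Ext γ S' {z | ∃ y, (y, z) ∈ q} S'') : Ext γ S Y S'' := by
  obtain ⟨q', h1, h2, h3⟩ := h'
  refine ⟨cmp q q', BF.comp h h1, ⟨[], hn, h2⟩, fun y hy => ?_⟩
  obtain ⟨z, hz⟩ := hY y hy
  obtain ⟨w, hw⟩ := h3 z ⟨y, hz⟩
  exact ⟨w, z, hz, hw⟩

/-- The first pass. -/
theorem exists_fine (hT : IsT T) (hγ : 1 ≤ γ) :
    ∃ T' : Set (List ℕ), IsT T' ∧ LE (γ + 1) T T' ∧ Fine (γ + 1) T' := by
  set M := fM hT γ with hM
  let s0 : State T := ⟨([], {[]}), isT_nil, finite_singleton _, by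
    rintro _ rfl
    exact nil_mem_sub⟩
  refine ⟨M.U s0, isT_unf _, ?_, ?_⟩
  · have h := (fM_up hT hγ s0).1
    have e : (fM hT γ).V s0 = T := sub_nil hT
    rw [e] at h
    refine h.pos ?_
    rintro _ rfl
    exact nil_pi hT s0
  · intro v i hvi
    have hv := (append_mem_unf.1 hvi).1
    set s := st M.c s0 v with hs
    have hsub : ∀ j, v ++ [j] ∈ M.U s0 → sub (M.U s0) (v ++ [j]) = M.U (M.c s j) := by
      intro j hj
      rw [Machine.U, sub_unf hj, st_append]
      rfl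
    have hK : ∀ j, v ++ [j] ∈ M.U s0 → j ∈ M.K s := by
      intro j hj
      exact (cons_mem_unf.1 (append_mem_unf.1 hj).2).1
    have hK' : ∀ j, j ∈ M.K s → v ++ [j] ∈ M.U s0 := by
      intro j hj
      exact append_mem_unf.2 ⟨hv, cons_mem_unf.2 ⟨hj, nil_mem_unf⟩⟩
    have hV : ∀ j, sub T (M.c s j).1.1 = cC T s.1.1 (Nat.unpair j).1 := by
      intro j
      change sub T (cst hT γ s j).1.1 = _
      rw [cst_node]
      rfl
    have hiK := hK i hvi
    by_cases hal : Alg γ (cI T s.1.1) (cC T s.1.1) (Nat.unpair i).1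
    · -- algebraic child
      have hi0 : (Nat.unpair i).2 = 0 := by
        rcases hiK.2 with h | h
        · exact h.1
        · exact absurd hal h.2.1
      have hYF : Yc hT γ s.1.1 (Nat.unpair i).1 ⊆ (M.c s i).1.2 := by
        change _ ⊆ (cst hT γ s i).1.2
        rw [cst_prot hT γ s hi0]
        exact subset_union_left
      obtain ⟨φ, h1, h2, h3⟩ := ext_formula (γ := γ) (A := M.U (M.c s i))
        (Y := List.map M.g '' Yc hT γ s.1.1 (Nat.unpair i).1) nil_mem_unf
        ((Yc_spec hT γ _ _).2.1.image _)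
        (by
          rintro _ ⟨l, hl, rfl⟩
          exact M.map_mem_U (hYF hl))
        (fun j => M.U (M.c s j)) (fun j => nil_mem_unf)
      refine ⟨true, φ, h1, by rw [hsub i hvi]; exact h2,
        (fun j => Nat.pair j 0) '' {j | j ∈ cI T s.1.1 ∧ Ext γ
          (cC T s.1.1 (Nat.unpair i).1) (Yc hT γ s.1.1 (Nat.unpair i).1) (cC T s.1.1 j)} ∪
        (fun j => Nat.pair j 1) '' {j | j ∈ cI T s.1.1 ∧ Ext γ
          (cC T s.1.1 (Nat.unpair i).1) (Yc hT γ s.1.1 (Nat.unpair i).1) (cC T s.1.1 j)},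
        ((Yc_fin hT hal).image _).union ((Yc_fin hT hal).image _), ?_⟩
      intro j hj hsat
      rw [hsub j hj] at hsat
      have h4 := ext_back hT hγ (M.c s i) (M.c s j) hYF (h3 j hsat)
      rw [hV, hV] at h4
      have hjK := hK j hj
      by_cases hn : (Nat.unpair j).2 = 0
      · have e : Nat.pair (Nat.unpair j).1 0 = j := by
          conv_rhs => rw [← Nat.pair_unpair j]
          rw [hn]
        refine ⟨j, Or.inl ⟨(Nat.unpair j).1, ⟨hjK.1, h4⟩, e⟩, Eqv.refl nil_mem_sub⟩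
      · have hj1 : Nat.pair (Nat.unpair j).1 1 ∈ M.K s := by
          rcases hjK.2 with h | h
          · exact absurd h.1 hn
          · refine ⟨?_, Or.inr ⟨?_, ?_, ?_⟩⟩
            · rw [Nat.unpair_pair]; exact hjK.1
            · rw [Nat.unpair_pair]; exact one_ne_zero
            · rw [Nat.unpair_pair]; exact h.2.1
            · rw [Nat.unpair_pair]; exact h.2.2
        refine ⟨_, Or.inr ⟨(Nat.unpair j).1, ⟨hjK.1, h4⟩, rfl⟩, ?_⟩
        rw [hsub j hj, hsub _ (hK' _ hj1)]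
        have e : M.c s j = M.c s (Nat.pair (Nat.unpair j).1 1) :=
          cst_free hT γ s hn (by rw [Nat.unpair_pair]; exact one_ne_zero)
            (by rw [Nat.unpair_pair])
        rw [e]
        exact Eqv.refl nil_mem_unf
    · -- limit child
      obtain ⟨φ, h1, h2, h3⟩ := le_formula (α := γ + 1) (A := M.U (M.c s i)) nil_mem_unf
        (fun j => M.U (M.c s j)) (fun j => nil_mem_unf)
      have hUV : ∀ s', Eqv γ (M.V s') (M.U s') := by
        intro s'
        have h := fM_up hT hγ s'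
        refine ⟨(h.1.mono (Order.lt_add_one_iff.2 le_rfl).le).pos ?_, h.2.pos ?_⟩
        · rintro _ rfl; exact nil_pi hT s'
        · rintro _ rfl; exact nil_pi hT s'
      have hrl := rl_spec hiK.1 hal
      refine ⟨false, φ, h1, by rw [hsub i hvi]; exact h2,
        (fun j => Nat.pair j 0) '' F1 s ∪ {Nat.pair (rl T γ s.1.1 (Nat.unpair i).1) 1},
        ((loc (γ := γ) hT s).F_fin.image _).union (finite_singleton _), ?_⟩
      intro j hj hsat
      rw [hsub j hj] at hsat
      have hjK := hK j hj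
      have h4 : LE (γ + 1) (M.U (M.c s i)) (M.U (M.c s j)) := h3 j hsat
      have h5 : Eqv γ (cC T s.1.1 (Nat.unpair i).1) (cC T s.1.1 (Nat.unpair j).1) := by
        have h6 : Eqv γ (M.U (M.c s i)) (M.U (M.c s j)) :=
          ⟨h4.mono (Order.lt_add_one_iff.2 le_rfl).le,
            h4.symm_lt (Order.lt_add_one_iff.2 le_rfl)⟩
        have h7 := (hUV (M.c s i)).trans (h6.trans (hUV (M.c s j)).symm)
        change Eqv γ (sub T (M.c s i).1.1) (sub T (M.c s j).1.1) at h7
        rwa [hV, hV] at h7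
      have hjal : ¬ Alg γ (cI T s.1.1) (cC T s.1.1) (Nat.unpair j).1 := by
        intro hjal
        have hj0 : (Nat.unpair j).2 = 0 := by
          rcases hjK.2 with h | h
          · exact h.1
          · exact absurd hjal h.2.1
        have hYF : Yc hT γ s.1.1 (Nat.unpair j).1 ⊆ (M.c s j).1.2 := by
          change _ ⊆ (cst hT γ s j).1.2
          rw [cst_prot hT γ s hj0]
          exact subset_union_left
        obtain ⟨q, b1, b2, b3⟩ := BF.step h4 (Order.lt_add_one_iff.2 le_rfl)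
          (D := List.map M.g '' Yc hT γ s.1.1 (Nat.unpair j).1)
          (by
            rintro _ ⟨l, hl, rfl⟩
            exact M.map_mem_U (hYF hl))
          ((Yc_spec hT γ _ _).2.1.image _)
        have h8 : Ext γ (M.U (M.c s j)) (List.map M.g '' Yc hT γ s.1.1 (Nat.unpair j).1)
            (M.U (M.c s i)) := ⟨sw q, b3, b1 mem_rt, b2⟩
        have h9 := ext_back hT hγ (M.c s j) (M.c s i) hYF h8
        rw [hV, hV] at h9
        obtain ⟨q4, d1, d2, d3⟩ := h9
        have hZ : {z | ∃ x, (x, z) ∈ q4}.Finite := by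
          refine (d1.finite.image Prod.snd).subset ?_
          rintro w ⟨u, hu⟩
          exact ⟨_, hu, rfl⟩
        have h10 := infinite_of_not_alg hal hZ (fun z ⟨x, hx⟩ => (d1.mem hx).2)
        refine h10 ((Yc_fin hT hjal).subset ?_)
        rintro j' ⟨hj', h11⟩
        exact ⟨hj', Ext.trans_of d1 d2 d3 h11⟩
      by_cases hn : (Nat.unpair j).2 = 0
      · have e : Nat.pair (Nat.unpair j).1 0 = j := by
          conv_rhs => rw [← Nat.pair_unpair j]
          rw [hn]
        have hF : (Nat.unpair j).1 ∈ F1 s := by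
          rcases hjK.2 with h | h
          · rcases h.2 with h | h
            · exact absurd h hjal
            · exact h
          · exact absurd hn h.1
        exact ⟨j, Or.inl ⟨(Nat.unpair j).1, hF, e⟩, Eqv.refl nil_mem_sub⟩
      · have hrj : rl T γ s.1.1 (Nat.unpair j).1 = (Nat.unpair j).1 := by
          rcases hjK.2 with h | h
          · exact absurd h.1 hn
          · exact h.2.2
        have hij : rl T γ s.1.1 (Nat.unpair i).1 = (Nat.unpair j).1 := by
          rw [← hrj]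
          exact rl_eq hiK.1 hal h5
        have hj1 : Nat.pair (rl T γ s.1.1 (Nat.unpair i).1) 1 ∈ M.K s := by
          rw [hij]
          refine ⟨?_, Or.inr ⟨?_, ?_, ?_⟩⟩
          · rw [Nat.unpair_pair]; exact hjK.1
          · rw [Nat.unpair_pair]; exact one_ne_zero
          · rw [Nat.unpair_pair]; exact hjal
          · rw [Nat.unpair_pair]; exact hrj
        refine ⟨_, Or.inr rfl, ?_⟩
        rw [hsub j hj, hsub _ (hK' _ hj1)]
        have e : M.c s j = M.c s (Nat.pair (rl T γ s.1.1 (Nat.unpair i).1) 1) :=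
          cst_free hT γ s hn (by rw [Nat.unpair_pair]; exact one_ne_zero)
            (by rw [Nat.unpair_pair]; exact hij.symm)
        rw [e]
        exact Eqv.refl nil_mem_unf

end Sec

end Pool.Agent.Lib.MP_efc3dd_lc
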