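import Pool.Agent.Lib.MP_efc3dd_lc.Scott

set_option autoImplicit false

/-!
# Trees with definable children have simple Scott sentences
-/

namespace Pool.Agent.Lib.MP_efc3dd_lc

open Set

variable {κ : Type} {T : Set (List κ)}

/-- A finite partial isomorphism between initial parts of `T` that respects subtrees. -/
structure GoodRel (T : Set (List κ)) (g : Set (List κ × List κ)) : Prop where
  fin : g.Finite
  nil : (([], []) : List κ × List κ) ∈ g
  mem : ∀ z ∈ g, z.1 ∈ T ∧ z.2 ∈ T ∧ sub T z.1 = sub T z.2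
  p1 : ∀ v k w, (v ++ [k], w) ∈ g → ∃ w' j, w = w' ++ [j] ∧ (v, w') ∈ g
  p2 : ∀ v w j, (v, w ++ [j]) ∈ g → ∃ v' k, v = v' ++ [k] ∧ (v', w) ∈ g
  u1 : ∀ v w w', (v, w) ∈ g → (v, w') ∈ g → w = w'
  u2 : ∀ v v' w, (v, w) ∈ g → (v', w) ∈ g → v = v'

theorem GoodRel.swap {g : Set (List κ × List κ)} (h : GoodRel T g) : GoodRel T (sw g) :=
  ⟨sw_finite.2 h.fin, h.nil, fun _ hz => ⟨(h.mem _ hz).2.1, (h.mem _ hz).1,
    (h.mem _ hz).2.2.symm⟩, fun v k w hz => h.p2 w v k hz,
    fun v w j hz => h.p1 w j v hz, fun v w w' h1 h2 => h.u2 w w' v h1 h2,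
    fun v v' w h1 h2 => h.u1 w v v' h1 h2⟩

theorem GoodRel.take {g : Set (List κ × List κ)} (h : GoodRel T g) (v t : List κ) :
    ∀ w, (v ++ t, w) ∈ g → ∃ w' t', w = w' ++ t' ∧ (v, w') ∈ g := by
  induction t using List.reverseRecOn with
  | nil => intro w hw; exact ⟨w, [], by simp, by simpa using hw⟩
  | append_singleton t k ih =>
    intro w hw
    rw [← List.append_assoc] at hw
    obtain ⟨w1, j, rfl, h1⟩ := h.p1 _ _ _ hw
    obtain ⟨w', t', rfl, h2⟩ := ih w1 h1
    exact ⟨w', t' ++ [j], by simp, h2⟩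

theorem GoodRel.atom {g : Set (List κ × List κ)} (h : GoodRel T g) : Atom g := by
  have key : ∀ {g : Set (List κ × List κ)}, GoodRel T g → ∀ a ∈ g, ∀ b ∈ g,
      a.1 <+: b.1 → a.2 <+: b.2 := by
    rintro g h ⟨v, w⟩ ha ⟨v', w'⟩ hb ⟨t, ht⟩
    simp only at ht ⊢
    rw [← ht] at hb
    obtain ⟨w1, t', rfl, h1⟩ := h.take v t w' hb
    rw [h.u1 _ _ _ ha h1]
    exact List.prefix_append _ _
  intro a ha b hb
  exact ⟨key h a ha b hb, key h.swap (a.2, a.1) ha (b.2, b.1) hb⟩

theorem GoodRel.extend (hT : IsT T) {g : Set (List κ × List κ)} (h : GoodRel T g)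
    (b : List κ) (hb : b ∈ T) : ∃ g', g ⊆ g' ∧ GoodRel T g' ∧ ∃ d, (b, d) ∈ g' := by
  induction b using List.reverseRecOn with
  | nil => exact ⟨g, subset_rfl, h, [], h.nil⟩
  | append_singleton b k ih =>
    obtain ⟨g1, h1, h2, d, hd⟩ := ih (hT.pre _ _ hb)
    by_cases hdom : ∃ w, (b ++ [k], w) ∈ g1
    · exact ⟨g1, h1, h2, hdom⟩
    · have hbd := h2.mem _ hd
      simp only at hbd
      have hchild : ∀ j, (b ++ [j] ∈ T ↔ d ++ [j] ∈ T) ∧
          (b ++ [j] ∈ T → sub T (b ++ [j]) = sub T (d ++ [j])) := by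
        intro j
        have e1 : b ++ [j] ∈ T ↔ d ++ [j] ∈ T := by
          rw [← mem_sub hbd.1, ← mem_sub hbd.2.1, hbd.2.2]
        refine ⟨e1, fun hj => ?_⟩
        rw [← sub_sub hT b [j] hj, ← sub_sub hT d [j] (e1.1 hj), hbd.2.2]
      set C0 : Set κ := {j | b ++ [j] ∈ T ∧ sub T (b ++ [j]) = sub T (b ++ [k])} with hC0
      set A : Set κ := {j | j ∈ C0 ∧ ∃ w, (b ++ [j], w) ∈ g1} with hA
      set B : Set κ := {j | j ∈ C0 ∧ ∃ v, (v, d ++ [j]) ∈ g1} with hB
      have hlast : ∀ (S : Set (List κ)), S.Finite → ∀ v : List κ, {j | v ++ [j] ∈ S}.Finite := by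
        intro S hS v
        refine Set.Finite.of_finite_image (f := fun j => v ++ [j]) (hS.subset ?_) ?_
        · rintro _ ⟨j, hj, rfl⟩; exact hj
        · intro i _ j _ e; simpa using e
      have hAf : A.Finite := by
        refine (hlast _ (dom_fin' h2.fin) b).subset ?_
        rintro j ⟨_, w, hw⟩
        exact ⟨w, hw⟩
      have hBf : B.Finite := by
        refine (hlast _ (dom_fin' (sw_finite.2 h2.fin)) d).subset ?_
        rintro j ⟨_, v, hv⟩
        exact ⟨v, hv⟩
      have hkC : k ∈ C0 := ⟨hb, rfl⟩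
      have hkA : k ∉ A := fun hk => hdom hk.2
      -- an injection from `B` to `A`
      have hBA : ∀ j ∈ B, ∃ i ∈ A, (b ++ [i], d ++ [j]) ∈ g1 := by
        rintro j ⟨hj, v, hv⟩
        obtain ⟨v', i, rfl, h3⟩ := h2.p2 _ _ _ hv
        obtain rfl : v' = b := h2.u2 _ _ _ h3 hd
        have h4 := h2.mem _ hv
        simp only at h4
        refine ⟨i, ⟨⟨h4.1, ?_⟩, _, hv⟩, hv⟩
        rw [h4.2.2, ← (hchild j).2 hj.1, hj.2]
      choose! f hf1 hf2 using hBA
      have hcard : B.ncard ≤ A.ncard := by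
        refine ncard_le_ncard_of_injOn f hf1 ?_ hAf
        intro i hi j hj e
        have h5 := hf2 i hi
        rw [e] at h5
        have := h2.u1 _ _ _ h5 (hf2 j hj)
        simpa using this
      obtain ⟨j, hjC, hjB⟩ : ∃ j ∈ C0, j ∉ B := by
        by_contra hc
        push Not at hc
        have hCB : C0 = B := Subset.antisymm hc fun j hj => hj.1
        have hAC : A ⊆ C0 := fun j hj => hj.1
        have hA' : A = C0 := by
          refine Set.eq_of_subset_of_ncard_le hAC ?_ (hCB ▸ hBf)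
          rw [hCB]
          exact hcard
        exact hkA (hA' ▸ hkC)
      have hjr : ∀ v, (v, d ++ [j]) ∉ g1 := fun v hv => hjB ⟨hjC, v, hv⟩
      refine ⟨insert (b ++ [k], d ++ [j]) g1, h1.trans (subset_insert _ _), ?_,
        d ++ [j], mem_insert _ _⟩
      refine ⟨h2.fin.insert _, Or.inr h2.nil, ?_, ?_, ?_, ?_, ?_⟩
      · rintro z (rfl | hz)
        · refine ⟨hb, ((hchild j).1).1 hjC.1, ?_⟩
          rw [← (hchild j).2 hjC.1, hjC.2]
        · exact h2.mem z hz
      · rintro v k' w (hz | hz)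
        · simp only [Prod.mk.injEq] at hz
          obtain ⟨hz1, rfl⟩ := hz
          rw [List.append_inj_left' hz1 rfl]
          exact ⟨d, j, rfl, Or.inr hd⟩
        · obtain ⟨w', j', rfl, h3⟩ := h2.p1 _ _ _ hz
          exact ⟨w', j', rfl, Or.inr h3⟩
      · rintro v w j' (hz | hz)
        · simp only [Prod.mk.injEq] at hz
          obtain ⟨rfl, hz1⟩ := hz
          rw [List.append_inj_left' hz1 rfl]
          exact ⟨b, k, rfl, Or.inr hd⟩
        · obtain ⟨v', k', rfl, h3⟩ := h2.p2 _ _ _ hz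
          exact ⟨v', k', rfl, Or.inr h3⟩
      · rintro v w w' (hz | hz) (hz' | hz')
        · simp only [Prod.mk.injEq] at hz hz'
          rw [hz.2, hz'.2]
        · simp only [Prod.mk.injEq] at hz
          obtain ⟨rfl, rfl⟩ := hz
          exact absurd ⟨w', hz'⟩ hdom
        · simp only [Prod.mk.injEq] at hz'
          obtain ⟨rfl, rfl⟩ := hz'
          exact absurd ⟨w, hz⟩ hdom
        · exact h2.u1 _ _ _ hz hz'
      · rintro v v' w (hz | hz) (hz' | hz')
        · simp only [Prod.mk.injEq] at hz hz'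
          rw [hz.1, hz'.1]
        · simp only [Prod.mk.injEq] at hz
          obtain ⟨rfl, rfl⟩ := hz
          exact absurd hz' (hjr _)
        · simp only [Prod.mk.injEq] at hz'
          obtain ⟨rfl, rfl⟩ := hz'
          exact absurd hz (hjr _)
        · exact h2.u2 _ _ _ hz hz'
where
  dom_fin' {p : Set (List κ × List κ)} (hp : p.Finite) : {x | ∃ y, (x, y) ∈ p}.Finite := by
    refine (hp.image Prod.fst).subset ?_
    rintro w ⟨u, hu⟩
    exact ⟨_, hu, rfl⟩

open Classical in
/-- The formula describing the position of a tuple. -/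
noncomputable def gF (T : Set (List κ)) (θ : List κ → κ → Fm 1) {n : ℕ} (a : Fin n → T) {m : ℕ}
    (e : Fin m → T) : Fm n :=
  Fm.exs m (.and
    (Fm.fconj fun x : Fin n × Fin m => if a x.1 = e x.2 then
      .eq (Fin.castAdd m x.1) (Fin.natAdd n x.2) else .not .bot)
    (.and (Fm.fconj fun p : Fin m => if (e p : List κ) = [] then
      .all (.le (Fin.natAdd n p).castSucc (Fin.last _)) else .not .bot)
    (.and (Fm.fconj fun x : Fin m × Fin m => if h : ∃ k, (e x.2 : List κ) = (e x.1 : List κ) ++ [k] then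
      .and (childF (Fin.natAdd n x.1) (Fin.natAdd n x.2))
        ((θ (e x.1) h.choose).relAt (fun _ => Fin.natAdd n x.2) (Fin.natAdd n x.2))
      else .not .bot)
    (Fm.fconj fun x : Fin m × Fin m => if x.1 = x.2 then .not .bot else
      .not (.eq (Fin.natAdd n x.1) (Fin.natAdd n x.2))))))

theorem lvl_gF {θ : List κ → κ → Fm 1} {α : Ordinal.{0}} (hα : 0 < α)
    (hθ : ∀ v k, Lvl true (α + 1) (θ v k)) {n m : ℕ} (a : Fin n → T) (e : Fin m → T) :
    Lvl true (α + 1) (gF T θ a e) := by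
  have h1 : α < α + 1 := Order.lt_add_one_iff.2 le_rfl
  have h0 : 0 < α + 1 := zero_le.trans_lt h1
  refine Lvl.exs h0 m (.and (Lvl.fconj fun x => ?_) (.and (Lvl.fconj fun x => ?_)
    (.and (Lvl.fconj fun x => ?_) (Lvl.fconj fun x => ?_))))
  · split_ifs
    · exact .qf (.eq _ _)
    · exact .qf (.not .bot)
  · split_ifs
    · exact .up h1 (.all hα (.qf (.le _ _)))
    · exact .qf (.not .bot)
  · split_ifs
    · exact .and (.up h1 (lvl_childF hα)) ((hθ _ _).relAt _ _)
    · exact .qf (.not .bot)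
  · split_ifs
    · exact .qf (.not .bot)
    · exact .qf (.not (.eq _ _))

theorem realize_gF (hT : IsT T) {θ : List κ → κ → Fm 1} {n m : ℕ} {a : Fin n → T}
    {e : Fin m → T} {c : Fin n → T} : (gF T θ a e).Realize (pr T) c ↔
      ∃ z : Fin m → T, (∀ i p, a i = e p → c i = z p) ∧
        (∀ p, (e p : List κ) = [] → ∀ x : T, (z p : List κ) <+: x) ∧
        (∀ p q k, (e q : List κ) = (e p : List κ) ++ [k] → (∃ j, (z q : List κ) = (z p : List κ) ++ [j]) ∧
          Sat1 (sub T (z q)) (θ (e p) k)) ∧ (∀ p q, p ≠ q → z p ≠ z q) := by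
  rw [gF, Fm.realize_exs]
  refine exists_congr fun z => ?_
  simp only [Fm.Realize, Fm.realize_fconj, Prod.forall]
  refine and_congr ?_ (and_congr ?_ (and_congr ?_ ?_))
  · refine forall_congr' fun i => forall_congr' fun p => ?_
    split_ifs with h
    · simp [Fm.Realize, h]
    · simp [Fm.Realize, h]
  · refine forall_congr' fun p => ?_
    split_ifs with h
    · simp only [Fm.Realize, h, forall_const, Fin.snoc_castSucc, Fin.snoc_last,
        Fin.append_right, pr]
    · simp [Fm.Realize, h]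
  · refine forall_congr' fun p => forall_congr' fun q => ?_
    split_ifs with h
    · simp only [Fm.Realize, realize_childF hT, realize_relAt_one, Fin.append_right]
      have hk := h.choose_spec
      constructor
      · intro h1 k hk'
        have : k = h.choose := by
          rw [hk] at hk'
          simpa using hk'.symm
        rw [this]
        exact h1
      · intro h1
        exact h1 _ hk
    · simp only [Fm.Realize, not_false_eq_true, true_iff]
      intro k hk
      exact absurd ⟨k, hk⟩ h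
  · refine forall_congr' fun p => forall_congr' fun q => ?_
    split_ifs with h
    · simp [Fm.Realize, h]
    · simp [Fm.Realize, h]

/-- The closed set generated by a tuple. -/
def clo {n : ℕ} (a : Fin n → T) : Set (List κ) := {l | l = [] ∨ ∃ i, l <+: (a i : List κ)}

theorem exists_enum (hT : IsT T) {n : ℕ} (a : Fin n → T) :
    ∃ (m : ℕ) (e : Fin m → T), Function.Injective e ∧
      range (fun i => (e i : List κ)) = clo a := by
  have hf : (clo a).Finite := by
    have h1 : (⋃ i : Fin n, {l | l <+: (a i : List κ)}).Finite := by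
      refine Set.finite_iUnion fun i => ?_
      refine (List.finite_toSet (a i : List κ).inits).subset ?_
      intro l hl
      exact (List.mem_inits _ _).2 hl
    refine ((finite_singleton []).union h1).subset ?_
    rintro l (h | ⟨i, h⟩)
    · exact Or.inl h
    · refine Or.inr ?_
      rw [mem_iUnion]
      exact ⟨i, h⟩
  have hs : clo a ⊆ T := by
    rintro l (h | ⟨i, h⟩)
    · rw [h]; exact hT.nil
    · exact hT.of_prefix h (a i).2
  obtain ⟨m, e, h1, h2⟩ := hf.fin_param
  refine ⟨m, fun i => ⟨e i, hs (h2 ▸ mem_range_self i)⟩, ?_, h2⟩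
  intro i j h
  exact h1 (congrArg Subtype.val h)

theorem gF_iff (hT : IsT T) {θ : List κ → κ → Fm 1}
    (hθ1 : ∀ v k, v ++ [k] ∈ T → Sat1 (sub T (v ++ [k])) (θ v k))
    (hθ2 : ∀ v k j, v ++ [k] ∈ T → v ++ [j] ∈ T → Sat1 (sub T (v ++ [j])) (θ v k) →
      sub T (v ++ [j]) = sub T (v ++ [k]))
    {n m : ℕ} {a : Fin n → T} {e : Fin m → T} (he : Function.Injective e)
    (he' : range (fun i => (e i : List κ)) = clo a) {c : Fin n → T} :
    (gF T θ a e).Realize (pr T) c ↔ ∃ g, GoodRel T g ∧ ∀ i, ((a i : List κ), (c i : List κ)) ∈ g := by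
  rw [realize_gF hT]
  have hmem : ∀ l, l ∈ clo a → ∃ p, (e p : List κ) = l := by
    intro l hl
    rw [← he'] at hl
    exact hl
  have hclo : ∀ p, (e p : List κ) ∈ clo a := fun p => he' ▸ mem_range_self p
  have hclo' : ∀ v t, v ++ t ∈ clo a → v ∈ clo a := by
    rintro v t (h | ⟨i, h⟩)
    · rw [List.append_eq_nil_iff] at h
      exact Or.inl h.1
    · exact Or.inr ⟨i, (List.prefix_append v t).trans h⟩
  constructor
  · rintro ⟨z, h1, h2, h3, h4⟩
    have hz0 : ∀ p, (e p : List κ) = [] → (z p : List κ) = [] := by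
      intro p hp
      have := h2 p hp ⟨[], hT.nil⟩
      exact List.prefix_nil.1 this
    have hsub : ∀ (l : List κ) (p : Fin m), (e p : List κ) = l →
        sub T (z p) = sub T (e p) := by
      intro l
      induction l using List.reverseRecOn with
      | nil => intro p hp; rw [hp, hz0 p hp]
      | append_singleton l k ih =>
        intro q hq
        obtain ⟨p, hp⟩ := hmem l (hclo' l [k] (hq ▸ hclo q))
        have hqp : (e q : List κ) = (e p : List κ) ++ [k] := by rw [hq, hp]
        obtain ⟨⟨j, hj⟩, h5⟩ := h3 p q k hqp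
        have h6 := ih p hp
        have hzj : (z p : List κ) ++ [j] ∈ T := hj ▸ (z q).2
        have hek : (e p : List κ) ++ [k] ∈ T := hqp ▸ (e q).2
        have hej : (e p : List κ) ++ [j] ∈ T := by
          rw [← mem_sub (e p).2, ← h6, mem_sub (z p).2]
          exact hzj
        have h7 : sub T ((z p : List κ) ++ [j]) = sub T ((e p : List κ) ++ [j]) := by
          rw [← sub_sub hT _ _ hzj, ← sub_sub hT _ _ hej, h6]
        rw [hj, h7] at h5
        rw [hj, h7, hqp]
        exact hθ2 _ _ _ hek hej h5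
    refine ⟨range fun p => ((e p : List κ), (z p : List κ)), ?_, ?_⟩
    · refine ⟨finite_range _, ?_, ?_, ?_, ?_, ?_, ?_⟩
      · obtain ⟨p, hp⟩ := hmem [] (Or.inl rfl)
        exact ⟨p, by simp only [hp, hz0 p hp]⟩
      · rintro _ ⟨p, rfl⟩
        exact ⟨(e p).2, (z p).2, (hsub _ p rfl).symm⟩
      · rintro v k w ⟨q, hq⟩
        simp only [Prod.mk.injEq] at hq
        obtain ⟨p, hp⟩ := hmem v (hclo' v [k] (hq.1 ▸ hclo q))
        obtain ⟨⟨j, hj⟩, _⟩ := h3 p q k (by rw [hq.1, hp])
        exact ⟨z p, j, by rw [← hq.2, hj], p, by simp only [hp]⟩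
      · rintro v w j ⟨q, hq⟩
        simp only [Prod.mk.injEq] at hq
        rcases List.eq_nil_or_concat' (e q : List κ) with h | ⟨v', k, h⟩
        · have := hz0 q h
          rw [hq.2] at this
          simp at this
        · obtain ⟨p, hp⟩ := hmem v' (hclo' v' [k] (h ▸ hclo q))
          obtain ⟨⟨j', hj'⟩, _⟩ := h3 p q k (by rw [h, hp])
          refine ⟨v', k, by rw [← hq.1, h], p, ?_⟩
          simp only [Prod.mk.injEq]
          refine ⟨hp, ?_⟩
          rw [hq.2] at hj'
          exact (List.append_inj_left' hj' rfl).symm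
      · rintro v w w' ⟨p, hp⟩ ⟨q, hq⟩
        simp only [Prod.mk.injEq] at hp hq
        have : p = q := he (Subtype.ext (by rw [hp.1, hq.1]))
        rw [← hp.2, ← hq.2, this]
      · rintro v v' w ⟨p, hp⟩ ⟨q, hq⟩
        simp only [Prod.mk.injEq] at hp hq
        have : p = q := by
          by_contra hne
          exact h4 p q hne (Subtype.ext (by rw [hp.2, hq.2]))
        rw [← hp.1, ← hq.1, this]
    · intro i
      obtain ⟨p, hp⟩ := hmem (a i) (Or.inr ⟨i, List.prefix_rfl⟩)
      refine ⟨p, ?_⟩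
      simp only [Prod.mk.injEq]
      refine ⟨hp, ?_⟩
      rw [h1 i p (Subtype.ext hp.symm)]
  · rintro ⟨g, hg, hac⟩
    have hz : ∀ p, ∃ w, ((e p : List κ), w) ∈ g := by
      intro p
      rcases hclo p with h | ⟨i, t, ht⟩
      · exact ⟨[], by rw [h]; exact hg.nil⟩
      · have h1 := hac i
        rw [← ht] at h1
        obtain ⟨w', t', _, h2⟩ := hg.take _ _ _ h1
        exact ⟨w', h2⟩
    choose z hz using hz
    refine ⟨fun p => ⟨z p, (hg.mem _ (hz p)).2.1⟩, ?_, ?_, ?_, ?_⟩
    · intro i p h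
      refine Subtype.ext ?_
      have := hac i
      rw [h] at this
      exact hg.u1 _ _ _ this (hz p)
    · intro p hp x
      have := hz p
      rw [hp] at this
      change z p <+: _
      rw [hg.u1 _ _ _ this hg.nil]
      exact List.nil_prefix
    · intro p q k hq
      have h1 := hz q
      rw [hq] at h1
      obtain ⟨w', j, h2, h3⟩ := hg.p1 _ _ _ h1
      rw [hg.u1 _ _ _ h3 (hz p)] at h2
      refine ⟨⟨j, h2⟩, ?_⟩
      have h4 := (hg.mem _ h1).2.2
      simp only at h4
      change Sat1 (sub T (z q)) _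
      rw [← h4]
      exact hθ1 _ _ (hq ▸ (e q).2)
    · intro p q hne h
      have h1 : z p = z q := congrArg Subtype.val h
      have h2 := hz p
      rw [h1] at h2
      exact hne (he (Subtype.ext (hg.u2 _ _ _ h2 (hz q))))

/-- Trees with definable children have a `Π_{α+2}` Scott sentence. -/
theorem good_scott [Countable κ] (hT : IsT T) {α : Ordinal.{0}} (hα : 0 < α) (hG : Good α T) :
    ∃ ψ : Fm 0, Lvl false (α + 1 + 1) ψ ∧ IsScottSentence (pr T) ψ := by
  classical
  have h1 : ∀ v k, ∃ φ : Fm 1, Lvl true (α + 1) φ ∧ (v ++ [k] ∈ T → Sat1 (sub T (v ++ [k])) φ) ∧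
      ∀ j, v ++ [k] ∈ T → v ++ [j] ∈ T → Sat1 (sub T (v ++ [j])) φ →
        sub T (v ++ [j]) = sub T (v ++ [k]) := by
    intro v k
    by_cases h : v ++ [k] ∈ T
    · obtain ⟨φ, g1, g2, g3⟩ := hG v k h
      exact ⟨φ, g1, fun _ => g2, fun j _ hj hs => g3 j hj hs⟩
    · exact ⟨.not .bot, .qf (.not .bot), fun h' => absurd h' h, fun j h' => absurd h' h⟩
  choose θ hθ0 hθ1 hθ2 using h1
  choose m e he he' using fun (n : ℕ) (a : Fin n → T) => exists_enum hT a
  have : Countable T := T.to_countable.to_subtype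
  have hiff : ∀ (n : ℕ) (a c : Fin n → T), (gF T θ a (e n a)).Realize (pr T) c ↔
      ∃ g, GoodRel T g ∧ ∀ i, ((a i : List κ), (c i : List κ)) ∈ g :=
    fun n a c => gF_iff hT hθ1 hθ2 (he n a) (he' n a)
  have hsnoc : ∀ {n : ℕ} {a c : Fin n → T} {b d : T} {g : Set (List κ × List κ)},
      (∀ i, ((a i : List κ), (c i : List κ)) ∈ g) → ((b : List κ), (d : List κ)) ∈ g →
      ∀ i : Fin (n + 1), (((Fin.snoc a b : Fin (n + 1) → T) i : List κ),
        ((Fin.snoc c d : Fin (n + 1) → T) i : List κ)) ∈ g := by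
    intro n a c b d g h1 h2 i
    refine Fin.lastCases ?_ (fun i => ?_) i
    · simpa using h2
    · simpa using h1 i
  refine exists_scott (zero_le.trans_lt (Order.lt_add_one_iff.2 le_rfl : α < α + 1))
    (fun n a => gF T θ a (e n a))
    (fun n a => lvl_gF hα hθ0 a (e n a)) ?_ ?_ ?_ ?_
  · rw [hiff]
    refine ⟨{([], [])}, ⟨finite_singleton _, rfl, ?_, ?_, ?_, ?_, ?_⟩, fun i => i.elim0⟩
    · rintro _ rfl
      exact ⟨hT.nil, hT.nil, rfl⟩
    · intro v k w h; simp at h
    · intro v w j h; simp at h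
    · intro v w w' h h'
      simp only [mem_singleton_iff, Prod.mk.injEq] at h h'
      rw [h.2, h'.2]
    · intro v w w' h h'
      simp only [mem_singleton_iff, Prod.mk.injEq] at h h'
      rw [h.1, h'.1]
  · intro n a c hc i j
    obtain ⟨g, hg, hac⟩ := (hiff n a c).1 hc
    refine ⟨hg.atom _ (hac i) _ (hac j), ?_⟩
    rw [Subtype.ext_iff, Subtype.ext_iff]
    exact hg.atom.eq_iff (hac i) (hac j)
  · intro n a c hc b
    obtain ⟨g, hg, hac⟩ := (hiff n a c).1 hc
    obtain ⟨g', h1, h2, d, hd⟩ := hg.extend hT b b.2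
    refine ⟨⟨d, (h2.mem _ hd).2.1⟩, (hiff _ _ _).2 ⟨g', h2, ?_⟩⟩
    exact hsnoc (fun i => h1 (hac i)) hd
  · intro n a c hc d
    obtain ⟨g, hg, hac⟩ := (hiff n a c).1 hc
    obtain ⟨g', h1, h2, b, hb⟩ := hg.swap.extend hT d d.2
    refine ⟨⟨b, (h2.mem _ hb).2.1⟩, (hiff _ _ _).2 ⟨sw g', h2.swap, ?_⟩⟩
    exact hsnoc (fun i => h1 (hac i)) hb

end Pool.Agent.Lib.MP_efc3dd_lc
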