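import Pool.Agent.Lib.MP_efc3dd_lc.Rep

set_option autoImplicit false

/-!
# The local modification step

The children of a node are divided into algebraic ones, which are kept, and limit ones, of which
infinitely many copies of one representative in each `≡_γ` class are taken.
-/

namespace Pool.Agent.Lib.MP_efc3dd_lc

open Set

variable {ι κ : Type}

/-- `(S, Y) ≤_γ (S', Y')` for some tuple `Y'` of `S'`. -/
def Ext (γ : Ordinal.{0}) (S : Set (List ι)) (Y : Set (List ι)) (S' : Set (List κ)) : Prop :=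
  ∃ q, BF γ S S' q ∧ (([], []) : List ι × List κ) ∈ q ∧ ∀ y ∈ Y, ∃ z, (y, z) ∈ q

theorem Ext.mono {γ : Ordinal.{0}} {S : Set (List ι)} {Y Y' : Set (List ι)}
    {S' : Set (List κ)} (h : Ext γ S Y' S') (hY : Y ⊆ Y') : Ext γ S Y S' := by
  obtain ⟨q, h1, h2, h3⟩ := h
  exact ⟨q, h1, h2, fun y hy => h3 y (hY hy)⟩

theorem Ext.le {γ : Ordinal.{0}} {S : Set (List ι)} {Y : Set (List ι)}
    {S' : Set (List κ)} (h : Ext γ S Y S') : LE γ S S' := by
  obtain ⟨q, h1, h2, h3⟩ := h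
  refine h1.pos ?_
  rintro _ rfl
  exact h2

theorem infinite_choice {α : Type} {E : Set α} (hE : E.Finite) {S : α → Set ℕ}
    (hS : ∀ k ∈ E, (S k).Infinite) {Z : Set ℕ} (hZ : Z.Finite) :
    ∃ f : α → ℕ, InjOn f E ∧ ∀ k ∈ E, f k ∈ S k ∧ f k ∉ Z := by
  classical
  induction E, hE using Set.Finite.induction_on with
  | empty => exact ⟨fun _ => 0, by simp, by simp⟩
  | @insert a E ha hE ih =>
    obtain ⟨f, h1, h2⟩ := ih fun k hk => hS k (mem_insert_of_mem _ hk)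
    obtain ⟨b, hb1, hb2⟩ := (hS a (mem_insert _ _)).exists_notMem_finite
      (hZ.union (hE.image f))
    refine ⟨Function.update f a b, ?_, ?_⟩
    · intro x hx y hy e
      rcases hx with rfl | hx
      · rcases hy with rfl | hy
        · rfl
        · have : y ≠ x := fun h => ha (h ▸ hy)
          rw [Function.update_self, Function.update_of_ne this] at e
          exact absurd (Or.inr ⟨y, hy, e.symm⟩) hb2
      · have hxa : x ≠ a := fun h => ha (h ▸ hx)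
        rcases hy with rfl | hy
        · rw [Function.update_self, Function.update_of_ne hxa] at e
          exact absurd (Or.inr ⟨x, hx, e⟩) hb2
        · have hya : y ≠ a := fun h => ha (h ▸ hy)
          rw [Function.update_of_ne hxa, Function.update_of_ne hya] at e
          exact h1 hx hy e
    · rintro k (rfl | hk)
      · rw [Function.update_self]
        exact ⟨hb1, fun h => hb2 (Or.inl h)⟩
      · have hka : k ≠ a := fun h => ha (h ▸ hk)
        rw [Function.update_of_ne hka]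
        exact h2 k hk

/-- `i` is algebraic: some finite part of `C i` occurs up to `≤_γ` in only finitely many of the
`C j`, `j ∈ I`. -/
def Alg (γ : Ordinal.{0}) (I : Set ℕ) (C : ℕ → Set (List ℕ)) (i : ℕ) : Prop :=
  ∃ Y : Set (List ℕ), Y.Finite ∧ Y ⊆ C i ∧ {j | j ∈ I ∧ Ext γ (C i) Y (C j)}.Finite

theorem infinite_of_not_alg {γ : Ordinal.{0}} {I : Set ℕ} {C : ℕ → Set (List ℕ)} {i : ℕ}
    (h : ¬ Alg γ I C i) {Y : Set (List ℕ)} (hY : Y.Finite) (hYC : Y ⊆ C i) :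
    {j | j ∈ I ∧ Ext γ (C i) Y (C j)}.Infinite := fun h' => h ⟨Y, hY, hYC, h'⟩

/-- The setting of the local step: `rl i` is the representative of the class of the limit
child `i`, and `F` is the finite set of protected children. -/
structure Loc (γ : Ordinal.{0}) (I : Set ℕ) (C : ℕ → Set (List ℕ)) (rl : ℕ → ℕ) (F : Set ℕ) :
    Prop where
  nil : ∀ i ∈ I, [] ∈ C i
  rl_mem : ∀ i ∈ I, ¬ Alg γ I C i → rl i ∈ I ∧ ¬ Alg γ I C (rl i) ∧ rl (rl i) = rl i
  rl_eqv : ∀ i ∈ I, ¬ Alg γ I C i → Eqv γ (C i) (C (rl i))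
  F_fin : F.Finite
  F_sub : F ⊆ I

/-- The new index set. -/
def newK (γ : Ordinal.{0}) (I : Set ℕ) (C : ℕ → Set (List ℕ)) (rl : ℕ → ℕ) (F : Set ℕ) :
    Set ℕ :=
  {k | (Nat.unpair k).1 ∈ I ∧ (((Nat.unpair k).2 = 0 ∧
      (Alg γ I C (Nat.unpair k).1 ∨ (Nat.unpair k).1 ∈ F)) ∨
    ((Nat.unpair k).2 ≠ 0 ∧ ¬ Alg γ I C (Nat.unpair k).1 ∧
      rl (Nat.unpair k).1 = (Nat.unpair k).1))}

/-- The new family. -/
def newC (C : ℕ → Set (List ℕ)) (k : ℕ) : Set (List ℕ) := C (Nat.unpair k).1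

/-- The invariant: `u`, `us` are the used indices on the two sides. -/
structure Inv (γ : Ordinal.{0}) (I : Set ℕ) (C : ℕ → Set (List ℕ)) (F : Set ℕ)
    (u us : Set ℕ) : Prop where
  fu : u.Finite
  fus : us.Finite
  i1 : ∀ i ∈ F, i ∈ u ∧ Nat.pair i 0 ∈ us
  i2 : ∀ j, Alg γ I C j → Nat.pair j 0 ∈ us → j ∈ u
  i3 : ∀ j ∈ I, Alg γ I C j → j ∈ u → Nat.pair j 0 ∉ us →
    ∃ q ∈ I, ¬ Alg γ I C q ∧ LE γ (C q) (C j)

section

variable {γ : Ordinal.{0}} {I : Set ℕ} {C : ℕ → Set (List ℕ)} {rl : ℕ → ℕ} {F : Set ℕ}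

theorem dom_finite {p : Set (List ι × List κ)} (hp : p.Finite) : {x | ∃ y, (x, y) ∈ p}.Finite := by
  refine (hp.image Prod.fst).subset ?_
  rintro w ⟨u, hu⟩
  exact ⟨_, hu, rfl⟩

theorem RA_step (hL : Loc γ I C rl F) {u us : Set ℕ} (hI : Inv γ I C F u us) {β : Ordinal.{0}}
    (hβ : β ≤ γ)
    (hd : β < γ ∨ ∀ j ∈ I, Alg γ I C j → j ∈ u → Nat.pair j 0 ∈ us)
    {E : Set ℕ} (hE : E ⊆ newK γ I C rl F \ us) (hEf : E.Finite) {D : ℕ → Set (List ℕ)}
    (hD : ∀ k ∈ E, (D k).Finite ∧ D k ⊆ newC C k) :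
    ∃ (f : ℕ → ℕ) (q : ℕ → Set (List ℕ × List ℕ)), InjOn f E ∧ MapsTo f E (I \ u) ∧
      (∀ k ∈ E, (([], []) : List ℕ × List ℕ) ∈ q k ∧ (∀ d ∈ D k, ∃ a, (a, d) ∈ q k) ∧
        BF β (newC C k) (C (f k)) (sw (q k))) ∧ Inv γ I C F (u ∪ f '' E) (us ∪ E) := by
  classical
  -- the candidates
  let Cand : ℕ → Set ℕ := fun k => {j | j ∈ I ∧ (∃ q : Set (List ℕ × List ℕ),
    (([], []) : List ℕ × List ℕ) ∈ q ∧ (∀ d ∈ D k, ∃ a, (a, d) ∈ q) ∧
      BF β (newC C k) (C j) (sw q)) ∧ ∃ q ∈ I, ¬ Alg γ I C q ∧ LE γ (C q) (C j)}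
  set E1 : Set ℕ := {k | k ∈ E ∧ (Nat.unpair k).2 = 0 ∧ Alg γ I C (Nat.unpair k).1 ∧
    (Nat.unpair k).1 ∉ u} with hE1
  have hcand : ∀ k ∈ E, k ∉ E1 → (Cand k).Infinite := by
    intro k hk hk1
    obtain ⟨⟨hkI, hk2⟩, hkus⟩ := hE hk
    rcases hk2 with ⟨h0, h1⟩ | ⟨h0, h1, _⟩
    · have hpair : Nat.pair (Nat.unpair k).1 0 = k := by
        conv_rhs => rw [← Nat.pair_unpair k]
        rw [h0]
      rcases h1 with h1 | h1
      swap
      · exact absurd (hI.i1 _ h1).2 (by rw [hpair]; exact hkus)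
      have hu : (Nat.unpair k).1 ∈ u := by
        by_contra hc
        exact hk1 ⟨hk, h0, h1, hc⟩
      have hβ' : β < γ := by
        rcases hd with h | h
        · exact h
        · exact absurd (h _ hkI h1 hu) (by rw [hpair]; exact hkus)
      obtain ⟨q0, hq0I, hq0, hq0le⟩ := hI.i3 _ hkI h1 hu (by rw [hpair]; exact hkus)
      obtain ⟨q1, g1, g2, g3⟩ := BF.step hq0le hβ' (hD k hk).2 (hD k hk).1
      have hYf : {x | ∃ y, (x, y) ∈ q1}.Finite := dom_finite (sw_finite.1 g3.finite)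
      refine (infinite_of_not_alg hq0 hYf ?_).mono ?_
      · rintro x ⟨y, hxy⟩
        exact (g3.mem (a := (y, x)) hxy).2
      · rintro j ⟨hjI, q2, e1, e2, e3⟩
        refine ⟨hjI, ⟨sw (cmp (sw q1) q2), ?_, ?_, ?_⟩, q0, hq0I, hq0, ?_⟩
        · exact ⟨[], g1 mem_rt, e2⟩
        · intro d hd'
          obtain ⟨a, ha⟩ := g2 d hd'
          obtain ⟨z, hz⟩ := e3 a ⟨d, ha⟩
          exact ⟨z, a, ha, hz⟩
        · rw [sw_sw]
          exact BF.comp g3 (e1.mono hβ'.le)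
        · refine e1.pos ?_
          rintro _ rfl
          exact e2
    · refine (infinite_of_not_alg h1 (hD k hk).1 (hD k hk).2).mono ?_
      rintro j ⟨hjI, q, e1, e2, e3⟩
      refine ⟨hjI, ⟨sw q, e2, fun d hd' => e3 d hd', ?_⟩, _, hkI, h1, ?_⟩
      · rw [sw_sw]
        exact e1.mono hβ
      · refine e1.pos ?_
        rintro _ rfl
        exact e2
  obtain ⟨f2, hf2, hf2'⟩ := infinite_choice (E := E \ E1) (S := Cand)
    (hEf.subset fun k hk => hk.1) (fun k hk => hcand k hk.1 hk.2)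
    (Z := u ∪ (fun k => (Nat.unpair k).1) '' E1)
    (hI.fu.union ((hEf.subset fun k hk => hk.1).image _))
  have hq2 : ∀ k, ∃ q : Set (List ℕ × List ℕ), k ∈ E \ E1 →
      (([], []) : List ℕ × List ℕ) ∈ q ∧ (∀ d ∈ D k, ∃ a, (a, d) ∈ q) ∧
      BF β (newC C k) (C (f2 k)) (sw q) := by
    intro k
    by_cases hk : k ∈ E \ E1
    · obtain ⟨q, hq⟩ := (hf2' k hk).1.2.1
      exact ⟨q, fun _ => hq⟩
    · exact ⟨∅, fun h => absurd h hk⟩
  choose q2 hq2 using hq2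
  let f : ℕ → ℕ := fun k => if k ∈ E1 then (Nat.unpair k).1 else f2 k
  have hfE1 : ∀ k ∈ E1, f k = (Nat.unpair k).1 := fun k hk => if_pos hk
  have hfE2 : ∀ k ∉ E1, f k = f2 k := fun k hk => if_neg hk
  have hpairE1 : ∀ k ∈ E1, Nat.pair (Nat.unpair k).1 0 = k := by
    intro k hk
    conv_rhs => rw [← Nat.pair_unpair k]
    rw [hk.2.1]
  refine ⟨f, fun k => if k ∈ E1 then idp (insert [] (D k)) else q2 k, ?_, ?_, ?_, ?_⟩
  · intro k hk k' hk' e
    by_cases h1 : k ∈ E1 <;> by_cases h2 : k' ∈ E1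
    · rw [hfE1 k h1, hfE1 k' h2] at e
      rw [← hpairE1 k h1, ← hpairE1 k' h2, e]
    · rw [hfE1 k h1, hfE2 k' h2] at e
      exact absurd (Or.inr ⟨k, h1, e⟩) (hf2' k' ⟨hk', h2⟩).2
    · rw [hfE2 k h1, hfE1 k' h2] at e
      exact absurd (Or.inr ⟨k', h2, e.symm⟩) (hf2' k ⟨hk, h1⟩).2
    · rw [hfE2 k h1, hfE2 k' h2] at e
      exact hf2 ⟨hk, h1⟩ ⟨hk', h2⟩ e
  · intro k hk
    by_cases h1 : k ∈ E1
    · rw [hfE1 k h1]
      exact ⟨(hE hk).1.1, h1.2.2.2⟩
    · rw [hfE2 k h1]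
      have := hf2' k ⟨hk, h1⟩
      exact ⟨this.1.1, fun h => this.2 (Or.inl h)⟩
  · intro k hk
    by_cases h1 : k ∈ E1
    · simp only [h1, if_true]
      rw [hfE1 k h1]
      refine ⟨⟨rfl, mem_insert _ _⟩, fun d hd' => ⟨d, rfl, mem_insert_of_mem _ hd'⟩, ?_⟩
      rw [sw_idp]
      refine BF.refl β ?_ ((hD k hk).1.insert _)
      exact insert_subset (hL.nil _ (hE hk).1.1) (hD k hk).2
    · simp only [h1, if_false]
      rw [hfE2 k h1]
      exact hq2 k ⟨hk, h1⟩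
  · refine ⟨hI.fu.union (hEf.image _), hI.fus.union hEf, ?_, ?_, ?_⟩
    · intro i hi
      exact ⟨Or.inl (hI.i1 i hi).1, Or.inl (hI.i1 i hi).2⟩
    · rintro j hj (h | h)
      · exact Or.inl (hI.i2 j hj h)
      · by_cases hu : j ∈ u
        · exact Or.inl hu
        · have h1 : Nat.pair j 0 ∈ E1 := by
            refine ⟨h, ?_, ?_, ?_⟩
            · rw [Nat.unpair_pair]
            · rw [Nat.unpair_pair]; exact hj
            · rw [Nat.unpair_pair]; exact hu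
          refine Or.inr ⟨_, h, ?_⟩
          rw [hfE1 _ h1, Nat.unpair_pair]
    · rintro j hjI hj (h | ⟨k, hk, rfl⟩) hn
      · exact hI.i3 j hjI hj h fun h' => hn (Or.inl h')
      · by_cases h1 : k ∈ E1
        · rw [hfE1 k h1, hpairE1 k h1] at hn
          exact absurd (Or.inr hk) hn
        · rw [hfE2 k h1]
          exact (hf2' k ⟨hk, h1⟩).1.2.2

theorem RB_step (hL : Loc γ I C rl F) {u us : Set ℕ} (hI : Inv γ I C F u us) {β : Ordinal.{0}}
    (hβ : β < γ) {E : Set ℕ} (hE : E ⊆ I \ u) (hEf : E.Finite) {D : ℕ → Set (List ℕ)}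
    (hD : ∀ k ∈ E, (D k).Finite ∧ D k ⊆ C k) :
    ∃ (f : ℕ → ℕ) (q : ℕ → Set (List ℕ × List ℕ)), InjOn f E ∧
      MapsTo f E (newK γ I C rl F \ us) ∧
      (∀ k ∈ E, (([], []) : List ℕ × List ℕ) ∈ q k ∧ (∀ d ∈ D k, ∃ a, (a, d) ∈ q k) ∧
        BF β (C k) (newC C (f k)) (sw (q k))) ∧ Inv γ I C F (u ∪ E) (us ∪ f '' E) := by
  classical
  set E1 : Set ℕ := {k | k ∈ E ∧ Alg γ I C k} with hE1
  obtain ⟨f2, hf2, hf2'⟩ := infinite_choice (E := E \ E1)
    (S := fun i => range fun n => Nat.pair (rl i) (n + 1))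
    (hEf.subset fun k hk => hk.1)
    (fun k _ => infinite_range_of_injective fun n m h => by
      have := congrArg Nat.unpair h
      simp only [Nat.unpair_pair, Prod.mk.injEq] at this
      omega)
    (Z := us) hI.fus
  have hq2 : ∀ k, ∃ q : Set (List ℕ × List ℕ), k ∈ E \ E1 →
      (([], []) : List ℕ × List ℕ) ∈ q ∧ (∀ d ∈ D k, ∃ a, (a, d) ∈ q) ∧
      BF β (C k) (newC C (f2 k)) (sw q) := by
    intro k
    by_cases hk : k ∈ E \ E1
    · obtain ⟨n, hn⟩ := (hf2' k hk).1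
      have hlim : ¬ Alg γ I C k := fun h => hk.2 ⟨hk.1, h⟩
      obtain ⟨q, h1, h2, h3⟩ := BF.step (hL.rl_eqv k (hE hk.1).1 hlim).2 hβ (hD k hk.1).2
        (hD k hk.1).1
      refine ⟨q, fun _ => ⟨h1 mem_rt, h2, ?_⟩⟩
      have e : newC C (f2 k) = C (rl k) := by
        rw [newC, ← hn]
        simp
      rw [e]
      exact h3
    · exact ⟨∅, fun h => absurd h hk⟩
  choose q2 hq2 using hq2
  let f : ℕ → ℕ := fun k => if k ∈ E1 then Nat.pair k 0 else f2 k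
  have hfE1 : ∀ k ∈ E1, f k = Nat.pair k 0 := fun k hk => if_pos hk
  have hfE2 : ∀ k ∉ E1, f k = f2 k := fun k hk => if_neg hk
  have hne : ∀ k ∈ E, k ∉ E1 → (Nat.unpair (f2 k)).2 ≠ 0 := by
    intro k hk h1
    obtain ⟨n, hn⟩ := (hf2' k ⟨hk, h1⟩).1
    rw [← hn]
    simp
  refine ⟨f, fun k => if k ∈ E1 then idp (insert [] (D k)) else q2 k, ?_, ?_, ?_, ?_⟩
  · intro k hk k' hk' e
    by_cases h1 : k ∈ E1 <;> by_cases h2 : k' ∈ E1
    · rw [hfE1 k h1, hfE1 k' h2] at e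
      have := congrArg Nat.unpair e
      simp only [Nat.unpair_pair, Prod.mk.injEq] at this
      exact this.1
    · rw [hfE1 k h1, hfE2 k' h2] at e
      have := hne k' hk' h2
      rw [← e, Nat.unpair_pair] at this
      exact absurd rfl this
    · rw [hfE2 k h1, hfE1 k' h2] at e
      have := hne k hk h1
      rw [e, Nat.unpair_pair] at this
      exact absurd rfl this
    · rw [hfE2 k h1, hfE2 k' h2] at e
      exact hf2 ⟨hk, h1⟩ ⟨hk', h2⟩ e
  · intro k hk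
    by_cases h1 : k ∈ E1
    · rw [hfE1 k h1]
      refine ⟨⟨?_, ?_⟩, fun h => (hE hk).2 (hI.i2 k h1.2 h)⟩
      · rw [Nat.unpair_pair]; exact (hE hk).1
      · rw [Nat.unpair_pair]; exact Or.inl ⟨rfl, Or.inl h1.2⟩
    · rw [hfE2 k h1]
      obtain ⟨n, hn⟩ := (hf2' k ⟨hk, h1⟩).1
      have hlim : ¬ Alg γ I C k := fun h => h1 ⟨hk, h⟩
      have h3 := hL.rl_mem k (hE hk).1 hlim
      refine ⟨?_, (hf2' k ⟨hk, h1⟩).2⟩
      rw [← hn]
      refine ⟨?_, Or.inr ⟨?_, ?_, ?_⟩⟩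
      · rw [Nat.unpair_pair]; exact h3.1
      · rw [Nat.unpair_pair]; exact Nat.succ_ne_zero n
      · rw [Nat.unpair_pair]; exact h3.2.1
      · rw [Nat.unpair_pair]; exact h3.2.2
  · intro k hk
    by_cases h1 : k ∈ E1
    · simp only [h1, if_true]
      rw [hfE1 k h1]
      refine ⟨⟨rfl, mem_insert _ _⟩, fun d hd' => ⟨d, rfl, mem_insert_of_mem _ hd'⟩, ?_⟩
      rw [sw_idp, newC, Nat.unpair_pair]
      refine BF.refl β ?_ ((hD k hk).1.insert _)
      exact insert_subset (hL.nil _ (hE hk).1) (hD k hk).2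
    · simp only [h1, if_false]
      rw [hfE2 k h1]
      exact hq2 k ⟨hk, h1⟩
  · refine ⟨hI.fu.union hEf, hI.fus.union (hEf.image _), ?_, ?_, ?_⟩
    · intro i hi
      exact ⟨Or.inl (hI.i1 i hi).1, Or.inl (hI.i1 i hi).2⟩
    · rintro j hj (h | ⟨k, hk, h⟩)
      · exact Or.inl (hI.i2 j hj h)
      · by_cases h1 : k ∈ E1
        · rw [hfE1 k h1] at h
          have := congrArg Nat.unpair h
          simp only [Nat.unpair_pair, Prod.mk.injEq] at this
          exact Or.inr (this.1 ▸ hk)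
        · rw [hfE2 k h1] at h
          have := hne k hk h1
          rw [h, Nat.unpair_pair] at this
          exact absurd rfl this
    · rintro j hjI hj (h | h) hn
      · exact hI.i3 j hjI hj h fun h' => hn (Or.inl h')
      · have h1 : j ∈ E1 := ⟨h, hj⟩
        exact absurd (Or.inr ⟨j, h, hfE1 j h1⟩) hn

theorem RAB (hL : Loc γ I C rl F) : ∀ β : Ordinal.{0}, β ≤ γ → ∀ u us : Set ℕ,
    Inv γ I C F u us → Rest β (I \ u) C (newK γ I C rl F \ us) (newC C) ∧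
      Rest β (newK γ I C rl F \ us) (newC C) (I \ u) C := by
  intro β
  induction β using WellFoundedLT.induction with
  | ind β ih =>
    intro hβ u us hI
    constructor
    · rw [Rest_iff]
      intro β' hβ' E hE hEf D hD
      obtain ⟨f, q, h1, h2, h3, h4⟩ := RA_step hL hI (hβ'.le.trans hβ)
        (Or.inl (hβ'.trans_le hβ)) hE hEf hD
      refine ⟨f, q, h1, h2, h3, ?_⟩
      rw [Set.sdiff_sdiff, Set.sdiff_sdiff]
      exact (ih β' hβ' (hβ'.le.trans hβ) _ _ h4).2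
    · rw [Rest_iff]
      intro β' hβ' E hE hEf D hD
      obtain ⟨f, q, h1, h2, h3, h4⟩ := RB_step hL hI (hβ'.trans_le hβ) hE hEf hD
      refine ⟨f, q, h1, h2, h3, ?_⟩
      rw [Set.sdiff_sdiff, Set.sdiff_sdiff]
      exact (ih β' hβ' (hβ'.le.trans hβ) _ _ h4).1

/-- The local step at level `γ + 1`. -/
theorem local_step (hL : Loc γ I C rl F) :
    Rest (γ + 1) (I \ F) C (newK γ I C rl F \ (fun i => Nat.pair i 0) '' F) (newC C) := by
  have hI : Inv γ I C F F ((fun i => Nat.pair i 0) '' F) := by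
    refine ⟨hL.F_fin, hL.F_fin.image _, fun i hi => ⟨hi, i, hi, rfl⟩, ?_, ?_⟩
    · rintro j _ ⟨i, hi, h⟩
      have := congrArg Nat.unpair h
      simp only [Nat.unpair_pair, Prod.mk.injEq] at this
      exact this.1 ▸ hi
    · intro j _ _ h hn
      exact absurd ⟨j, h, rfl⟩ hn
  rw [Rest_iff]
  intro β' hβ' E hE hEf D hD
  have hβγ : β' ≤ γ := Order.lt_add_one_iff.1 hβ'
  obtain ⟨f, q, h1, h2, h3, h4⟩ := RA_step hL hI hβγ
    (Or.inr fun j _ _ h => ⟨j, h, rfl⟩) hE hEf hD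
  refine ⟨f, q, h1, h2, h3, ?_⟩
  rw [Set.sdiff_sdiff, Set.sdiff_sdiff]
  exact (RAB hL β' hβγ _ _ h4).2

end

end Pool.Agent.Lib.MP_efc3dd_lc
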