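import Pool.Agent.Lib.MP_efc3dd_lc.First
import Pool.Agent.Lib.MP_efc3dd_lc.Embed

set_option autoImplicit false

/-!
# Every nonempty `Π_α` class of countable trees has a member with a `Π_{α+2}` Scott sentence
-/

namespace Pool.Agent.Lib.MP_efc3dd_lc

open Set

/-- For trees of lists. -/
theorem exists_simple {α : Ordinal.{0}} (hα : 1 ≤ α) {T : Set (List ℕ)} (hT : IsT T) :
    ∃ T' : Set (List ℕ), IsT T' ∧ LE α T T' ∧ Good α T' := by
  rcases hα.eq_or_lt with h1 | h1
  · -- `α = 1`: the tree with one element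
    subst h1
    refine ⟨{[]}, isT_nil, ?_, ?_⟩
    · rw [LE, BF_iff]
      refine ⟨finite_singleton _, ?_, ?_, ?_⟩
      · rintro _ rfl; exact ⟨hT.nil, rfl⟩
      · rintro _ rfl _ rfl; simp
      · intro β hβ D hD hf
        obtain rfl : β = 0 := Order.lt_one_iff.1 hβ
        refine ⟨rt ℕ ℕ, subset_rfl, fun d hd => ?_, ?_⟩
        · have : d = [] := hD hd
          subst this
          exact ⟨[], rfl⟩
        · rw [sw_rt, BF_iff]
          refine ⟨finite_singleton _, ?_, ?_, fun β' hβ' => absurd hβ' (not_lt.2 zero_le)⟩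
          · rintro _ rfl; exact ⟨rfl, hT.nil⟩
          · rintro _ rfl _ rfl; simp
    · intro v i h
      have : v ++ [i] = [] := h
      simp at this
  · have h2 : 2 ≤ α := by
      have := Order.add_one_le_iff.2 h1
      rwa [one_add_one_eq_two] at this
    have key : ∃ T' : Set (List ℕ), IsT T' ∧ LE α T T' ∧ Fine α T' := by
      rcases Ordinal.zero_or_succ_or_isSuccLimit α with h0 | ⟨γ, rfl⟩ | hlim
      · rw [h0] at h1
        exact absurd h1 (not_lt.2 zero_le)
      · have hγ : 1 ≤ γ := Order.lt_succ_iff.1 h1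
        exact exists_fine hT hγ
      · refine ⟨T, hT, LE.refl hT.nil, fine_of_limit (fun β hβ => ?_) T⟩
        exact hlim.succ_lt hβ
    obtain ⟨T1, g1, g2, g3⟩ := key
    obtain ⟨T2, e1, e2, e3⟩ := exists_good g1 h2 g3
    exact ⟨T2, e1, g2.trans e2.1, e3⟩

/-- The general statement. -/
theorem main {α : Ordinal.{0}} (hα : 1 ≤ α) {φ : Fm 0} (hφ : Lvl false α φ) {M : Type}
    {r : M → M → Prop} [Countable M] (hr : IsTree r) (hM : φ.Realize r ![]) :
    ∃ (N : Type) (s : N → N → Prop), Countable N ∧ IsTree s ∧ φ.Realize s ![] ∧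
      ∃ ψ : Fm 0, Lvl false (α + 1 + 1) ψ ∧ IsScottSentence s ψ := by
  obtain ⟨T, hT, ⟨e⟩⟩ := exists_listTree hr
  obtain ⟨T', hT', hle, hG⟩ := exists_simple hα hT
  refine ⟨T', pr T', T'.to_countable.to_subtype, isTree_pr hT', ?_,
    good_scott hT' (zero_lt_one.trans_le hα) hG⟩
  have h1 := (realize_iso e φ ![]).1 hM
  exact BF.pres hle hφ (fun i => i.elim0) h1

end Pool.Agent.Lib.MP_efc3dd_lc
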