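import Pool.Agent.Lib.MP_efc3dd_lc.BF

set_option autoImplicit false

/-!
# Preservation and separation of formulas
-/

namespace Pool.Agent.Lib.MP_efc3dd_lc

open Set

variable {ι κ : Type}

/-- The prefix order on a set of lists. -/
def pr (S : Set (List ι)) : S → S → Prop := fun a b => (a : List ι) <+: b

theorem Lvl.qf_of_zero {b : Bool} {α : Ordinal.{0}} {n : ℕ} {φ : Fm n} (h : Lvl b α φ)
    (hα : α = 0) : φ.QF := by
  induction h with
  | qf h => exact h
  | up h => subst hα; exact absurd h (not_lt.2 zero_le)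
  | not _ ih => exact .not (ih hα)
  | and _ _ ih ih' => exact .and (ih hα) (ih' hα)
  | or _ _ ih ih' => exact .or (ih hα) (ih' hα)
  | disj h => subst hα; exact absurd h (lt_irrefl _)
  | ex h => subst hα; exact absurd h (lt_irrefl _)
  | conj h => subst hα; exact absurd h (lt_irrefl _)
  | all h => subst hα; exact absurd h (lt_irrefl _)

theorem Lvl.mono {b : Bool} {α β : Ordinal.{0}} {n : ℕ} {φ : Fm n} (h : Lvl b α φ)
    (hα : α ≤ β) : Lvl b β φ := by
  rcases hα.eq_or_lt with rfl | h'
  · exact h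
  · exact .up h' h

theorem QF_iff {n : ℕ} {φ : Fm n} (h : φ.QF) {M N : Type} {r : M → M → Prop}
    {s : N → N → Prop} {v : Fin n → M} {w : Fin n → N}
    (h1 : ∀ i j, r (v i) (v j) ↔ s (w i) (w j)) (h2 : ∀ i j, v i = v j ↔ w i = w j) :
    φ.Realize r v ↔ φ.Realize s w := by
  induction h with
  | bot => exact Iff.rfl
  | le i j => exact h1 i j
  | eq i j => exact h2 i j
  | not _ ih => exact not_congr ih
  | and _ _ ih ih' => exact and_congr ih ih'
  | or _ _ ih ih' => exact or_congr ih ih'
  | conj _ ih => exact forall_congr' fun i => ih i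
  | disj _ ih => exact exists_congr fun i => ih i

theorem QF_iff' {n : ℕ} {φ : Fm n} (h : φ.QF) {S : Set (List ι)} {T : Set (List κ)}
    {v : Fin n → S} {w : Fin n → T} {p : Set (List ι × List κ)} (hp : Atom p)
    (hvw : ∀ i, ((v i : List ι), (w i : List κ)) ∈ p) :
    φ.Realize (pr S) v ↔ φ.Realize (pr T) w := by
  refine QF_iff h (fun i j => hp _ (hvw i) _ (hvw j)) fun i j => ?_
  rw [Subtype.ext_iff, Subtype.ext_iff]
  exact hp.eq_iff (hvw i) (hvw j)

/-- The truth value `b` of `φ` survives in back-and-forth positions of lower levels. -/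
def Keeps (b : Bool) (α : Ordinal.{0}) {n : ℕ} (φ : Fm n) : Prop :=
  ∀ (κ : Type) (T : Set (List κ)) (w : Fin n → T), (φ.Realize (pr T) w ↔ b = true) →
    ∃ β' < α, ∃ D ⊆ T, D.Finite ∧
      ∀ (ι : Type) (S : Set (List ι)) (p : Set (List κ × List ι)) (v : Fin n → S),
        BF β' T S p → (∀ i, ((w i : List κ), (v i : List ι)) ∈ p) →
        (∀ d ∈ D, ∃ a, (d, a) ∈ p) → (φ.Realize (pr S) v ↔ b = true)

theorem snoc_mem {n : ℕ} {T : Set (List κ)} {S : Set (List ι)} {p : Set (List κ × List ι)}
    {w : Fin n → T} {v : Fin n → S} (h : ∀ i, ((w i : List κ), (v i : List ι)) ∈ p) {a : T}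
    {a' : S} (ha : ((a : List κ), (a' : List ι)) ∈ p) (i : Fin (n + 1)) :
    ((Fin.snoc (α := fun _ => T) w a i : List κ), (Fin.snoc (α := fun _ => S) v a' i : List ι))
      ∈ p := by
  refine Fin.lastCases ?_ (fun i => ?_) i
  · simpa using ha
  · simpa using h i

theorem Lvl.keeps {b : Bool} {α : Ordinal.{0}} {n : ℕ} {φ : Fm n} (h : Lvl b α φ)
    (hα : 0 < α) : Keeps b α φ := by
  induction h with
  | qf h =>
    intro κ T w hw
    refine ⟨0, hα, ∅, empty_subset _, finite_empty, fun ι S p v hp hvw _ => ?_⟩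
    rw [← QF_iff' h hp.atom hvw]; exact hw
  | @up b b' α β n φ hβ h ih =>
    rcases eq_zero_or_pos β with rfl | hβ0
    · intro κ T w hw
      refine ⟨0, hα, ∅, empty_subset _, finite_empty, fun ι S p v hp hvw _ => ?_⟩
      rw [← QF_iff' (h.qf_of_zero rfl) hp.atom hvw]; exact hw
    · rcases Bool.eq_or_eq_not b' b with rfl | rfl
      · intro κ T w hw
        obtain ⟨β', h1, h2⟩ := ih hβ0 κ T w hw
        exact ⟨β', h1.trans hβ, h2⟩
      · intro κ T w hw
        refine ⟨β, hβ, ∅, empty_subset _, finite_empty, fun ι S p v hp hvw _ => ?_⟩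
        by_contra hc
        have hc' : φ.Realize (pr S) v ↔ (!b) = true := by
          cases b <;> simp_all
        obtain ⟨β', h1, D, h2, h3, h4⟩ := ih hβ0 ι S v hc'
        obtain ⟨q, hq1, hq2, hq3⟩ := hp.step h1 h2 h3
        have := h4 κ T (sw q) w hq3 (fun i => hq1 (hvw i)) hq2
        cases b <;> simp_all
  | @not b α n φ _ ih =>
    intro κ T w hw
    have hw' : φ.Realize (pr T) w ↔ (!b) = true := by
      simp only [Fm.Realize] at hw
      cases b <;> simp_all
    obtain ⟨β', h1, D, h2, h3, h4⟩ := ih hα κ T w hw'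
    refine ⟨β', h1, D, h2, h3, fun ι S p v hp hvw hD => ?_⟩
    have := h4 ι S p v hp hvw hD
    simp only [Fm.Realize]
    cases b <;> simp_all
  | @and b α n φ ψ _ _ ih ih' =>
    intro κ T w hw
    simp only [Fm.Realize] at hw
    cases b with
    | true =>
      obtain ⟨β1, h1, D1, h2, h3, h4⟩ := ih hα κ T w (by simp_all)
      obtain ⟨β2, g1, D2, g2, g3, g4⟩ := ih' hα κ T w (by simp_all)
      refine ⟨max β1 β2, max_lt h1 g1, D1 ∪ D2, union_subset h2 g2, h3.union g3,
        fun ι S p v hp hvw hD => ?_⟩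
      have e1 := h4 ι S p v (hp.mono (le_max_left _ _)) hvw fun d hd => hD d (Or.inl hd)
      have e2 := g4 ι S p v (hp.mono (le_max_right _ _)) hvw fun d hd => hD d (Or.inr hd)
      simp only [Fm.Realize]
      simp_all
    | false =>
      by_cases hφ : φ.Realize (pr T) w
      · obtain ⟨β2, g1, D2, g2, g3, g4⟩ := ih' hα κ T w (by simp_all)
        refine ⟨β2, g1, D2, g2, g3, fun ι S p v hp hvw hD => ?_⟩
        have := g4 ι S p v hp hvw hD
        simp only [Fm.Realize]
        simp_all
      · obtain ⟨β2, g1, D2, g2, g3, g4⟩ := ih hα κ T w (by simp_all)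
        refine ⟨β2, g1, D2, g2, g3, fun ι S p v hp hvw hD => ?_⟩
        have := g4 ι S p v hp hvw hD
        simp only [Fm.Realize]
        simp_all
  | @or b α n φ ψ _ _ ih ih' =>
    intro κ T w hw
    simp only [Fm.Realize] at hw
    cases b with
    | false =>
      obtain ⟨β1, h1, D1, h2, h3, h4⟩ := ih hα κ T w (by simp_all)
      obtain ⟨β2, g1, D2, g2, g3, g4⟩ := ih' hα κ T w (by simp_all)
      refine ⟨max β1 β2, max_lt h1 g1, D1 ∪ D2, union_subset h2 g2, h3.union g3,
        fun ι S p v hp hvw hD => ?_⟩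
      have e1 := h4 ι S p v (hp.mono (le_max_left _ _)) hvw fun d hd => hD d (Or.inl hd)
      have e2 := g4 ι S p v (hp.mono (le_max_right _ _)) hvw fun d hd => hD d (Or.inr hd)
      simp only [Fm.Realize]
      simp_all
    | true =>
      by_cases hφ : φ.Realize (pr T) w
      · obtain ⟨β2, g1, D2, g2, g3, g4⟩ := ih hα κ T w (by simp_all)
        refine ⟨β2, g1, D2, g2, g3, fun ι S p v hp hvw hD => ?_⟩
        have := g4 ι S p v hp hvw hD
        simp only [Fm.Realize]
        simp_all
      · obtain ⟨β2, g1, D2, g2, g3, g4⟩ := ih' hα κ T w (by simp_all)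
        refine ⟨β2, g1, D2, g2, g3, fun ι S p v hp hvw hD => ?_⟩
        have := g4 ι S p v hp hvw hD
        simp only [Fm.Realize]
        simp_all
  | @disj α n φ _ _ ih =>
    intro κ T w hw
    simp only [Fm.Realize, iff_true] at hw
    obtain ⟨i, hi⟩ := hw
    obtain ⟨β', h1, D, h2, h3, h4⟩ := ih i hα κ T w (by simp [hi])
    refine ⟨β', h1, D, h2, h3, fun ι S p v hp hvw hD => ?_⟩
    have := h4 ι S p v hp hvw hD
    simp only [Fm.Realize, iff_true] at this ⊢
    exact ⟨i, this⟩
  | @conj α n φ _ _ ih =>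
    intro κ T w hw
    simp only [Fm.Realize, Bool.false_eq_true, iff_false, not_forall] at hw
    obtain ⟨i, hi⟩ := hw
    obtain ⟨β', h1, D, h2, h3, h4⟩ := ih i hα κ T w (by simp [hi])
    refine ⟨β', h1, D, h2, h3, fun ι S p v hp hvw hD => ?_⟩
    have := h4 ι S p v hp hvw hD
    simp only [Fm.Realize, Bool.false_eq_true, iff_false, not_forall] at this ⊢
    exact ⟨i, this⟩
  | @ex α n φ _ _ ih =>
    intro κ T w hw
    simp only [Fm.Realize, iff_true] at hw
    obtain ⟨a, ha⟩ := hw
    obtain ⟨β', h1, D, h2, h3, h4⟩ := ih hα κ T _ (by simpa using ha)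
    refine ⟨β', h1, insert (a : List κ) D, insert_subset a.2 h2, h3.insert _,
      fun ι S p v hp hvw hD => ?_⟩
    obtain ⟨a', ha'⟩ := hD a (mem_insert _ _)
    have := h4 ι S p (Fin.snoc v ⟨a', (hp.mem ha').2⟩) hp (snoc_mem hvw ha')
      fun d hd => hD d (mem_insert_of_mem _ hd)
    simp only [Fm.Realize, iff_true] at this ⊢
    exact ⟨_, this⟩
  | @all α n φ _ _ ih =>
    intro κ T w hw
    simp only [Fm.Realize, Bool.false_eq_true, iff_false, not_forall] at hw
    obtain ⟨a, ha⟩ := hw
    obtain ⟨β', h1, D, h2, h3, h4⟩ := ih hα κ T _ (by simpa using ha)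
    refine ⟨β', h1, insert (a : List κ) D, insert_subset a.2 h2, h3.insert _,
      fun ι S p v hp hvw hD => ?_⟩
    obtain ⟨a', ha'⟩ := hD a (mem_insert _ _)
    have := h4 ι S p (Fin.snoc v ⟨a', (hp.mem ha').2⟩) hp (snoc_mem hvw ha')
      fun d hd => hD d (mem_insert_of_mem _ hd)
    simp only [Fm.Realize, Bool.false_eq_true, iff_false, not_forall] at this ⊢
    exact ⟨_, this⟩

/-- `Π_α` formulas are preserved from left to right. -/
theorem BF.pres {α : Ordinal.{0}} {S : Set (List ι)} {T : Set (List κ)}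
    {p : Set (List ι × List κ)} (h : BF α S T p) {n : ℕ} {φ : Fm n} (hφ : Lvl false α φ)
    {v : Fin n → S} {w : Fin n → T} (hvw : ∀ i, ((v i : List ι), (w i : List κ)) ∈ p)
    (hv : φ.Realize (pr S) v) : φ.Realize (pr T) w := by
  rcases eq_zero_or_pos α with h0 | h0
  · exact (QF_iff' (hφ.qf_of_zero h0) h.atom hvw).1 hv
  · by_contra hc
    obtain ⟨β', h1, D, h2, h3, h4⟩ := hφ.keeps h0 κ T w (by simp [hc])
    obtain ⟨q, g1, g2, g3⟩ := h.step h1 h2 h3
    have := h4 ι S (sw q) v g3 (fun i => g1 (hvw i)) g2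
    simp_all

/-- `Σ_α` formulas are preserved from right to left. -/
theorem BF.pres' {α : Ordinal.{0}} {S : Set (List ι)} {T : Set (List κ)}
    {p : Set (List ι × List κ)} (h : BF α S T p) {n : ℕ} {φ : Fm n} (hφ : Lvl true α φ)
    {v : Fin n → S} {w : Fin n → T} (hvw : ∀ i, ((v i : List ι), (w i : List κ)) ∈ p)
    (hw : φ.Realize (pr T) w) : φ.Realize (pr S) v := by
  by_contra hc
  exact h.pres (.not (b := false) hφ) hvw hc hw

/-! ### Countable conjunctions and blocks of quantifiers -/

/-- The disjunction of a countable family. -/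
noncomputable def Fm.idisj {J : Type} [Countable J] {n : ℕ} (f : J → Fm n) : Fm n :=
  .disj fun k => (((Encodable.ofCountable J).decode k).map f).getD .bot

/-- The conjunction of a countable family. -/
noncomputable def Fm.iconj {J : Type} [Countable J] {n : ℕ} (f : J → Fm n) : Fm n :=
  .conj fun k => (((Encodable.ofCountable J).decode k).map f).getD (.not .bot)

theorem Fm.realize_idisj {J : Type} [Countable J] {n : ℕ} {f : J → Fm n} {M : Type}
    {r : M → M → Prop} {v : Fin n → M} :
    (Fm.idisj f).Realize r v ↔ ∃ j, (f j).Realize r v := by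
  simp only [Fm.idisj, Fm.Realize]
  constructor
  · rintro ⟨k, hk⟩
    cases h : (Encodable.ofCountable J).decode k with
    | none => simp [h, Fm.Realize] at hk
    | some j => exact ⟨j, by simpa [h] using hk⟩
  · rintro ⟨j, hj⟩
    refine ⟨(Encodable.ofCountable J).encode j, ?_⟩
    rw [(Encodable.ofCountable J).encodek]
    simpa using hj

theorem Fm.realize_iconj {J : Type} [Countable J] {n : ℕ} {f : J → Fm n} {M : Type}
    {r : M → M → Prop} {v : Fin n → M} :
    (Fm.iconj f).Realize r v ↔ ∀ j, (f j).Realize r v := by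
  simp only [Fm.iconj, Fm.Realize]
  constructor
  · intro h j
    have := h ((Encodable.ofCountable J).encode j)
    rw [(Encodable.ofCountable J).encodek] at this
    simpa using this
  · intro h k
    cases h' : (Encodable.ofCountable J).decode k with
    | none => simp [Fm.Realize]
    | some j => simpa [h'] using h j

theorem Lvl.idisj {J : Type} [Countable J] {n : ℕ} {f : J → Fm n} {β : Ordinal.{0}}
    (h : ∀ j, Lvl true β (f j)) : Lvl true β (Fm.idisj f) := by
  rcases eq_zero_or_pos β with rfl | h0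
  · refine .qf (.disj fun k => ?_)
    cases h' : (Encodable.ofCountable J).decode k with
    | none => simpa [h'] using Fm.QF.bot
    | some j => simpa [h'] using (h j).qf_of_zero rfl
  · refine .disj h0 fun k => ?_
    cases h' : (Encodable.ofCountable J).decode k with
    | none => simpa [h'] using Lvl.qf Fm.QF.bot
    | some j => simpa [h'] using h j

theorem Lvl.iconj {J : Type} [Countable J] {n : ℕ} {f : J → Fm n} {β : Ordinal.{0}}
    (h : ∀ j, Lvl false β (f j)) : Lvl false β (Fm.iconj f) := by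
  rcases eq_zero_or_pos β with rfl | h0
  · refine .qf (.conj fun k => ?_)
    cases h' : (Encodable.ofCountable J).decode k with
    | none => simpa [h'] using Fm.QF.not Fm.QF.bot
    | some j => simpa [h'] using (h j).qf_of_zero rfl
  · refine .conj h0 fun k => ?_
    cases h' : (Encodable.ofCountable J).decode k with
    | none => simpa [h'] using Lvl.qf (Fm.QF.not Fm.QF.bot)
    | some j => simpa [h'] using h j

/-- A block of universal quantifiers. -/
def Fm.alls {n : ℕ} : ∀ m : ℕ, Fm (n + m) → Fm n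
  | 0, φ => φ
  | m + 1, φ => Fm.alls m (.all φ)

theorem Lvl.alls {n : ℕ} {α : Ordinal.{0}} (h0 : 0 < α) :
    ∀ (m : ℕ) {φ : Fm (n + m)}, Lvl false α φ → Lvl false α (Fm.alls m φ)
  | 0, _, h => h
  | m + 1, _, h => Lvl.alls h0 m (.all h0 h)

theorem append_snoc' {M : Type} {n m : ℕ} (v : Fin n → M) (c : Fin m → M) (a : M) :
    Fin.append v (Fin.snoc c a : Fin (m + 1) → M)
      = (Fin.snoc (Fin.append v c) a : Fin (n + m + 1) → M) := by
  funext i
  refine Fin.addCases (fun i => ?_) (fun i => ?_) i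
  · rw [Fin.append_left]
    have : (Fin.castAdd (m + 1) i : Fin (n + (m + 1))) = (Fin.castAdd m i).castSucc := rfl
    rw [this, Fin.snoc_castSucc, Fin.append_left]
  · rw [Fin.append_right]
    refine Fin.lastCases ?_ (fun i => ?_) i
    · have : (Fin.natAdd n (Fin.last m) : Fin (n + (m + 1))) = Fin.last (n + m) := rfl
      rw [this, Fin.snoc_last, Fin.snoc_last]
    · have : (Fin.natAdd n i.castSucc : Fin (n + (m + 1))) = (Fin.natAdd n i).castSucc := rfl
      rw [this, Fin.snoc_castSucc, Fin.snoc_castSucc, Fin.append_right]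

theorem Fm.realize_alls {M : Type} {r : M → M → Prop} {n : ℕ} {v : Fin n → M} :
    ∀ (m : ℕ) {φ : Fm (n + m)},
      (Fm.alls m φ).Realize r v ↔ ∀ c : Fin m → M, φ.Realize r (Fin.append v c)
  | 0, φ => by
    constructor
    · intro h c
      have : Fin.append v c = v := by
        funext i
        exact Fin.append_left v c i
      rw [this]
      exact h
    · intro h
      have := h Fin.elim0
      have e : Fin.append v Fin.elim0 = v := by
        funext i
        exact Fin.append_left v (Fin.elim0 : Fin 0 → M) i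
      rwa [e] at this
  | m + 1, φ => by
    have := Fm.realize_alls (r := r) (v := v) m (φ := .all φ)
    rw [Fm.alls, this]
    simp only [Fm.Realize]
    constructor
    · intro h c
      have h1 := h (Fin.init c) (c (Fin.last m))
      rwa [← append_snoc', Fin.snoc_init_self] at h1
    · intro h c a
      rw [← append_snoc']
      exact h _

/-- A block of existential quantifiers. -/
def Fm.exs {n : ℕ} (m : ℕ) (φ : Fm (n + m)) : Fm n := .not (Fm.alls m (.not φ))

theorem Lvl.exs {n : ℕ} {α : Ordinal.{0}} (h0 : 0 < α) (m : ℕ) {φ : Fm (n + m)}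
    (h : Lvl true α φ) : Lvl true α (Fm.exs m φ) :=
  .not (b := true) (Lvl.alls h0 m (.not (b := false) h))

theorem Fm.realize_exs {M : Type} {r : M → M → Prop} {n : ℕ} {v : Fin n → M} (m : ℕ)
    {φ : Fm (n + m)} :
    (Fm.exs m φ).Realize r v ↔ ∃ c : Fin m → M, φ.Realize r (Fin.append v c) := by
  simp only [Fm.exs, Fm.Realize, Fm.realize_alls]
  push Not
  rfl

/-! ### Separation -/

/-- The position given by two tuples. -/
def pos2 {n : ℕ} {S : Set (List ι)} {T : Set (List κ)} (v : Fin n → S) (w : Fin n → T) :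
    Set (List ι × List κ) := range fun i => ((v i : List ι), (w i : List κ))

theorem sw_pos2 {n : ℕ} {S : Set (List ι)} {T : Set (List κ)} (v : Fin n → S) (w : Fin n → T) :
    sw (pos2 v w) = pos2 w v := by
  ext ⟨x, y⟩
  constructor
  · rintro ⟨i, hi⟩
    refine ⟨i, ?_⟩
    simp only [Prod.mk.injEq] at hi ⊢
    exact hi.symm
  · rintro ⟨i, hi⟩
    refine ⟨i, ?_⟩
    simp only [Prod.mk.injEq] at hi ⊢
    exact hi.symm

theorem separation : ∀ (α : Ordinal.{0}) {ι κ : Type} {S : Set (List ι)} {T : Set (List κ)}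
    {n : ℕ} (v : Fin n → S) (w : Fin n → T), S.Countable → T.Countable →
    ¬ BF α S T (pos2 v w) → ∃ φ : Fm n, Lvl false α φ ∧ φ.Realize (pr S) v ∧
      ¬ φ.Realize (pr T) w := by
  intro α
  induction α using WellFoundedLT.induction with
  | ind α ih =>
    intro ι κ S T n v w hS hT hn
    by_cases hA : Atom (pos2 v w)
    · rw [BF_iff] at hn
      push Not at hn
      obtain ⟨β, hβ, D, hD, hf, h1⟩ := hn (finite_range _)
        (by rintro _ ⟨i, rfl⟩; exact ⟨(v i).2, (w i).2⟩) hA
      obtain ⟨m, d, hd⟩ : ∃ m, ∃ d : Fin m → T, ∀ x ∈ D, ∃ i, (d i : List κ) = x := by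
        obtain ⟨m, e, -, he⟩ := hf.fin_param
        refine ⟨m, fun i => ⟨e i, hD (he ▸ mem_range_self i)⟩, fun x hx => ?_⟩
        rw [← he] at hx
        exact hx
      have h2 : ∀ c : Fin m → S, ∃ ψ : Fm (n + m), Lvl false β ψ ∧
          ψ.Realize (pr T) (Fin.append w d) ∧ ¬ ψ.Realize (pr S) (Fin.append v c) := by
        intro c
        refine ih β hβ _ _ hT hS ?_
        rw [← sw_pos2]
        refine h1 _ ?_ ?_
        · rintro _ ⟨i, rfl⟩
          exact ⟨Fin.castAdd m i, by simp [Fin.append_left]⟩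
        · intro x hx
          obtain ⟨i, hi⟩ := hd x hx
          refine ⟨c i, Fin.natAdd n i, ?_⟩
          simp [Fin.append_right, hi]
      choose ψ hψ using h2
      have : Countable S := hS.to_subtype
      refine ⟨Fm.alls m (Fm.idisj fun c => .not (ψ c)), ?_, ?_, ?_⟩
      · have hα : 0 < α := zero_le.trans_lt hβ
        refine Lvl.alls hα m (.up hβ (Lvl.idisj fun c => ?_))
        exact .not (b := true) (hψ c).1
      · rw [Fm.realize_alls]
        intro c
        rw [Fm.realize_idisj]
        exact ⟨c, (hψ c).2.2⟩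
      · rw [Fm.realize_alls]
        intro h
        have := h d
        rw [Fm.realize_idisj] at this
        obtain ⟨c, hc⟩ := this
        exact hc (hψ c).2.1
    · simp only [Atom] at hA
      push Not at hA
      obtain ⟨_, ⟨i, rfl⟩, _, ⟨j, rfl⟩, h1⟩ := hA
      rcases h1 with ⟨h1, h2⟩ | ⟨h1, h2⟩
      · exact ⟨.le i j, .qf (.le i j), h1, h2⟩
      · exact ⟨.not (.le i j), .qf (.not (.le i j)), h1, not_not.2 h2⟩

end Pool.Agent.Lib.MP_efc3dd_lc
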