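import Pool.Agent.Lib.MP_efc3dd_lc.Unf
import Pool.Agent.Lib.MP_efc3dd_lc.Pres

set_option autoImplicit false

/-!
# Subtrees, equivalence of subtrees, and the choice of representatives
-/

namespace Pool.Agent.Lib.MP_efc3dd_lc

open Set

variable {κ ι : Type}

/-- The subtree above the node `v`. -/
def sub (T : Set (List κ)) (v : List κ) : Set (List κ) := {l | l = [] ∨ v ++ l ∈ T}

@[simp] theorem nil_mem_sub {T : Set (List κ)} {v : List κ} : [] ∈ sub T v := Or.inl rfl

theorem mem_sub {T : Set (List κ)} {v l : List κ} (hv : v ∈ T) : l ∈ sub T v ↔ v ++ l ∈ T := by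
  constructor
  · rintro (rfl | h)
    · simpa using hv
    · exact h
  · exact Or.inr

theorem isT_sub {T : Set (List κ)} (hT : IsT T) (v : List κ) : IsT (sub T v) := by
  refine ⟨nil_mem_sub, ?_⟩
  rintro l m (h | h)
  · rw [List.append_eq_nil_iff] at h
    exact Or.inl h.1
  · rw [← List.append_assoc] at h
    exact Or.inr (hT.pre _ _ h)

theorem sub_nil {T : Set (List κ)} (hT : IsT T) : sub T [] = T := by
  ext l
  rw [mem_sub hT.nil, List.nil_append]

theorem sub_sub {T : Set (List κ)} (hT : IsT T) (v w : List κ) (hw : v ++ w ∈ T) :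
    sub (sub T v) w = sub T (v ++ w) := by
  ext l
  have hv : v ∈ T := hT.pre _ _ hw
  rw [mem_sub ((mem_sub hv).2 hw), mem_sub hv, mem_sub hw, List.append_assoc]

theorem sub_eq_node {T : Set (List κ)} (hT : IsT T) (v : List κ) :
    sub T v = node {k | v ++ [k] ∈ T} fun k => sub T (v ++ [k]) := by
  ext l
  cases l with
  | nil => simp
  | cons k l =>
    rw [cons_mem_node, mem_ofPred_eq]
    constructor
    · rintro (h | h)
      · cases h
      · have h' : v ++ [k] ++ l ∈ T := by simpa using h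
        exact ⟨hT.pre _ _ h', Or.inr h'⟩
    · rintro ⟨h1, h2⟩
      have := (mem_sub h1).1 h2
      exact Or.inr (by simpa using this)

/-- `S ≡_α T`. -/
def Eqv (α : Ordinal.{0}) (S : Set (List ι)) (T : Set (List κ)) : Prop := LE α S T ∧ LE α T S

theorem Eqv.symm {α : Ordinal.{0}} {S : Set (List ι)} {T : Set (List κ)} (h : Eqv α S T) :
    Eqv α T S := ⟨h.2, h.1⟩

theorem Eqv.trans {μ : Type} {α : Ordinal.{0}} {S : Set (List ι)} {T : Set (List κ)}
    {U : Set (List μ)} (h : Eqv α S T) (h' : Eqv α T U) : Eqv α S U :=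
  ⟨h.1.trans h'.1, h'.2.trans h.2⟩

theorem Eqv.refl {α : Ordinal.{0}} {S : Set (List ι)} (h : [] ∈ S) : Eqv α S S :=
  ⟨LE.refl h, LE.refl h⟩

/-- `φ` holds of the root of `S`. -/
def Sat1 (S : Set (List κ)) (φ : Fm 1) : Prop :=
  ∀ h : [] ∈ S, φ.Realize (pr S) fun _ => ⟨[], h⟩

theorem LE.sat {α : Ordinal.{0}} {S : Set (List ι)} {T : Set (List κ)} (h : LE α S T)
    {φ : Fm 1} (hφ : Lvl false α φ) (hS : [] ∈ S) (hs : Sat1 S φ) : Sat1 T φ :=
  fun h' => BF.pres h hφ (v := fun _ => ⟨[], hS⟩) (w := fun _ => ⟨[], h'⟩)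
    (fun _ => mem_rt) (hs hS)

theorem LE.sat' {α : Ordinal.{0}} {S : Set (List ι)} {T : Set (List κ)} (h : LE α S T)
    {φ : Fm 1} (hφ : Lvl true α φ) (hT : [] ∈ T) (hs : Sat1 T φ) : Sat1 S φ :=
  fun h' => BF.pres' h hφ (v := fun _ => ⟨[], h'⟩) (w := fun _ => ⟨[], hT⟩)
    (fun _ => mem_rt) (hs hT)

theorem Eqv.sat {α : Ordinal.{0}} {S : Set (List ι)} {T : Set (List κ)} (h : Eqv α S T)
    {φ : Fm 1} {b : Bool} (hφ : Lvl b α φ) (hS : [] ∈ S) (hs : Sat1 S φ) : Sat1 T φ := by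
  cases b with
  | true => exact h.2.sat' hφ hS hs
  | false => exact h.1.sat hφ hS hs

theorem pos2_root {S : Set (List ι)} {T : Set (List κ)} (hS : [] ∈ S) (hT : [] ∈ T) :
    pos2 (n := 1) (fun _ => (⟨[], hS⟩ : S)) (fun _ => (⟨[], hT⟩ : T)) = rt ι κ := by
  ext z
  simp only [pos2, mem_range, rt, mem_singleton_iff]
  constructor
  · rintro ⟨_, h⟩; exact h.symm
  · intro h; exact ⟨0, h.symm⟩

/-- Structures that are not `≤_α` are separated by a `Π_α` formula. -/
theorem exists_sep [Countable ι] [Countable κ] {α : Ordinal.{0}} {S : Set (List ι)}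
    {T : Set (List κ)} (hS : [] ∈ S) (hT : [] ∈ T) (h : ¬ LE α S T) :
    ∃ φ : Fm 1, Lvl false α φ ∧ Sat1 S φ ∧ ¬ Sat1 T φ := by
  obtain ⟨φ, h1, h2, h3⟩ := separation α (n := 1) (fun _ => (⟨[], hS⟩ : S))
    (fun _ => (⟨[], hT⟩ : T)) S.to_countable T.to_countable (by rwa [pos2_root])
  exact ⟨φ, h1, fun _ => h2, fun h => h3 (h hT)⟩

theorem exists_sep' [Countable ι] [Countable κ] {α : Ordinal.{0}} {S : Set (List ι)}
    {T : Set (List κ)} (hS : [] ∈ S) (hT : [] ∈ T) (h : ¬ Eqv α S T) :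
    ∃ (b : Bool) (φ : Fm 1), Lvl b α φ ∧ Sat1 S φ ∧ ¬ Sat1 T φ := by
  by_cases h1 : LE α S T
  · obtain ⟨φ, g1, g2, g3⟩ := exists_sep hT hS fun h2 => h ⟨h1, h2⟩
    refine ⟨true, .not φ, .not (b := true) g1, fun hS' => ?_, fun h4 => ?_⟩
    · simp only [Fm.Realize]
      intro h5
      exact g3 fun _ => h5
    · exact h4 hT (g2 hT)
  · obtain ⟨φ, g1, g2, g3⟩ := exists_sep hS hT h1
    exact ⟨false, φ, g1, g2, g3⟩

/-- Conjunction of a list of formulas. -/
def Fm.lconj {n : ℕ} : List (Fm n) → Fm n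
  | [] => .not .bot
  | φ :: l => .and φ (Fm.lconj l)

theorem Fm.realize_lconj {n : ℕ} {M : Type} {r : M → M → Prop} {v : Fin n → M}
    {l : List (Fm n)} : (Fm.lconj l).Realize r v ↔ ∀ φ ∈ l, φ.Realize r v := by
  induction l with
  | nil => simp [Fm.lconj, Fm.Realize]
  | cons φ l ih => simp [Fm.lconj, Fm.Realize, ih]

theorem Lvl.lconj {n : ℕ} {b : Bool} {α : Ordinal.{0}} {l : List (Fm n)}
    (h : ∀ φ ∈ l, Lvl b α φ) : Lvl b α (Fm.lconj l) := by
  induction l with
  | nil => exact .qf (.not .bot)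
  | cons φ l ih =>
    exact .and (h φ (by simp)) (ih fun ψ hψ => h ψ (by simp [hψ]))

theorem sat1_lconj {S : Set (List κ)} {l : List (Fm 1)} (_ : [] ∈ S) :
    Sat1 S (Fm.lconj l) ↔ ∀ φ ∈ l, Sat1 S φ := by
  constructor
  · intro h φ hφ h'
    exact Fm.realize_lconj.1 (h h') φ hφ
  · intro h h'
    exact Fm.realize_lconj.2 fun φ hφ => h φ hφ h'

/-- Every child of every node of `T` is singled out, up to finitely many `≡_α` classes of its
siblings, by a `Σ_α` or `Π_α` property. -/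
def Fine (α : Ordinal.{0}) (T : Set (List κ)) : Prop :=
  ∀ v i, v ++ [i] ∈ T → ∃ (b : Bool) (φ : Fm 1), Lvl b α φ ∧ Sat1 (sub T (v ++ [i])) φ ∧
    ∃ J : Set κ, J.Finite ∧ ∀ j, v ++ [j] ∈ T → Sat1 (sub T (v ++ [j])) φ →
      ∃ j' ∈ J, Eqv α (sub T (v ++ [j])) (sub T (v ++ [j']))

/-- Every child of every node of `T` is singled out, up to siblings with the same subtree, by a
`Σ_{α+1}` property. -/
def Good (α : Ordinal.{0}) (T : Set (List κ)) : Prop :=
  ∀ v i, v ++ [i] ∈ T → ∃ φ : Fm 1, Lvl true (α + 1) φ ∧ Sat1 (sub T (v ++ [i])) φ ∧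
    ∀ j, v ++ [j] ∈ T → Sat1 (sub T (v ++ [j])) φ → sub T (v ++ [j]) = sub T (v ++ [i])

/-- The state reached from `s` along a list of indices. -/
def st {σ : Type} (c : σ → κ → σ) : σ → List κ → σ
  | s, [] => s
  | s, k :: l => st c (c s k) l

theorem st_append {σ : Type} {c : σ → κ → σ} {l m : List κ} {s : σ} :
    st c s (l ++ m) = st c (st c s l) m := by
  induction l generalizing s with
  | nil => rfl
  | cons k l ih => exact ih

theorem append_mem_unf {σ : Type} {K : σ → Set κ} {c : σ → κ → σ} {l m : List κ} {s : σ} :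
    l ++ m ∈ unf K c s ↔ l ∈ unf K c s ∧ m ∈ unf K c (st c s l) := by
  induction l generalizing s with
  | nil => simp [st]
  | cons k l ih => rw [List.cons_append, cons_mem_unf, cons_mem_unf, ih, and_assoc]; rfl

theorem sub_unf {σ : Type} {K : σ → Set κ} {c : σ → κ → σ} {l : List κ} {s : σ}
    (hl : l ∈ unf K c s) : sub (unf K c s) l = unf K c (st c s l) := by
  ext m
  rw [mem_sub hl, append_mem_unf]
  exact ⟨fun h => h.2, fun h => ⟨hl, h⟩⟩

section RepSection

variable (T : Set (List κ)) (α : Ordinal.{0})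

/-- The siblings of `v ++ [k]` with an `≡_α` subtree. -/
def cls (v : List κ) (k : κ) : Set κ :=
  {j | v ++ [j] ∈ T ∧ Eqv α (sub T (v ++ [k])) (sub T (v ++ [j]))}

open Classical in
/-- The chosen representative of the class of `k`. -/
noncomputable def rep (v : List κ) (k : κ) : κ :=
  if h : (cls T α v k).Nonempty then h.some else k

variable {T α}

theorem rep_spec {v : List κ} {k : κ} (hk : v ++ [k] ∈ T) :
    v ++ [rep T α v k] ∈ T ∧ Eqv α (sub T (v ++ [k])) (sub T (v ++ [rep T α v k])) := by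
  have h : (cls T α v k).Nonempty := ⟨k, hk, Eqv.refl nil_mem_sub⟩
  have := h.some_mem
  rw [rep, dif_pos h]
  exact this

theorem rep_eq {v : List κ} {k j : κ} (h : Eqv α (sub T (v ++ [k])) (sub T (v ++ [j])))
    (hk : v ++ [k] ∈ T) : rep T α v k = rep T α v j := by
  have e : cls T α v k = cls T α v j := by
    ext i
    exact ⟨fun hi => ⟨hi.1, h.symm.trans hi.2⟩, fun hi => ⟨hi.1, h.trans hi.2⟩⟩
  have h1 : (cls T α v k).Nonempty := ⟨k, hk, Eqv.refl nil_mem_sub⟩
  have h2 : (cls T α v j).Nonempty := e ▸ h1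
  rw [rep, dif_pos h1, rep, dif_pos h2]
  congr 1

/-- The machine of representatives. -/
noncomputable def repM (hT : IsT T) (α : Ordinal.{0}) : Machine (List κ) κ where
  K v := {k | v ++ [k] ∈ T}
  c v k := v ++ [rep T α v k]
  V v := sub T v
  F _ := {[]}
  g := id
  hg := Function.injective_id
  hV := isT_sub hT
  hF _ := ⟨rfl, fun l m h => by
    rw [mem_singleton_iff, List.append_eq_nil_iff] at h
    exact h.1⟩
  hFf _ := finite_singleton _
  hFV _ := by
    rintro _ rfl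
    exact nil_mem_sub
  hc := by
    intro s i l h
    simp at h

theorem piF1_nil {g : κ → κ} : piF1 g {[]} = rt κ κ := by
  ext ⟨x, y⟩
  simp only [piF1, mem_ofPred_eq, mem_singleton_iff, rt, Prod.mk.injEq]
  constructor
  · rintro ⟨rfl, h⟩; exact ⟨rfl, h⟩
  · rintro ⟨rfl, h⟩; exact ⟨rfl, h⟩

theorem piF_nil {g : κ → κ} : piF g {[]} = rt κ κ := by
  ext ⟨x, y⟩
  simp only [piF, mem_ofPred_eq, mem_singleton_iff, rt, Prod.mk.injEq]
  constructor
  · rintro ⟨rfl, h⟩; exact ⟨rfl, by simpa using h⟩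
  · rintro ⟨rfl, h⟩; exact ⟨rfl, by simpa using h⟩

theorem rt_subset_lift {m : Set (ι × κ)} {P : ι × κ → Set (List ι × List κ)} :
    rt ι κ ⊆ lift m P := by
  rintro _ rfl
  exact nil_mem_lift

theorem LE_node {β : Ordinal.{0}} {K : Set κ} {A B : κ → Set (List κ)}
    (h : ∀ k ∈ K, LE β (A k) (B k)) : LE β (node K A) (node K B) :=
  (node_same (F := ∅) (P := fun _ => ∅) finite_empty (empty_subset _) (by simp) (by simp)
    fun k hk _ => h k hk).pos rt_subset_lift

theorem repM_eqv (hT : IsT T) (hα : 2 ≤ α) (v : List κ) :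
    Eqv α ((repM hT α).V v) ((repM hT α).U v) := by
  have hA : ∀ s, BF α ((repM hT α).V s) ((repM hT α).W s)
      (piF1 (repM hT α).g ((repM hT α).F s)) := by
    intro s
    change BF α (sub T s) (node {k | s ++ [k] ∈ T} fun k => sub T (s ++ [rep T α s k]))
      (piF1 id {[]})
    rw [piF1_nil, sub_eq_node hT]
    exact LE_node fun k hk => (rep_spec hk).2.1
  have hB : ∀ s, BF α ((repM hT α).W s) ((repM hT α).V s)
      (sw (piF1 (repM hT α).g ((repM hT α).F s))) := by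
    intro s
    change BF α (node {k | s ++ [k] ∈ T} fun k => sub T (s ++ [rep T α s k])) (sub T s)
      (sw (piF1 id {[]}))
    rw [piF1_nil, sw_rt, sub_eq_node hT]
    exact LE_node fun k hk => (rep_spec hk).2.2
  have h := Machine.unfolding (M := repM hT α) (a := α) (b := α)
    (Order.lt_add_one_iff.2 le_rfl).le le_rfl hα hA hB α
  have h1 := h.1 le_rfl v
  have h2 := h.2 le_rfl v
  have e : piF (repM hT α).g ((repM hT α).F v) = rt κ κ := piF_nil
  rw [e] at h1 h2
  rw [sw_rt] at h2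
  exact ⟨h1, h2⟩

/-- The choice of representatives. -/
theorem exists_good [Countable κ] (hT : IsT T) (hα : 2 ≤ α) (hF : Fine α T) :
    ∃ T' : Set (List κ), IsT T' ∧ Eqv α T T' ∧ Good α T' := by
  set M := repM hT α with hM
  refine ⟨M.U [], isT_unf _, ?_, ?_⟩
  · have := repM_eqv hT hα []
    change Eqv α (sub T []) _ at this
    rwa [sub_nil hT] at this
  · intro v i hvi
    have hv := (append_mem_unf.1 hvi).1
    have hi := (append_mem_unf.1 hvi).2
    set s := st M.c [] v with hs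
    have hsub : ∀ j, v ++ [j] ∈ M.U [] → sub (M.U []) (v ++ [j]) = M.U (s ++ [rep T α s j]) := by
      intro j hj
      rw [Machine.U, sub_unf hj, st_append]
      rfl
    have hK : ∀ j, v ++ [j] ∈ M.U [] → s ++ [j] ∈ T := by
      intro j hj
      exact (cons_mem_unf.1 (append_mem_unf.1 hj).2).1
    have hiT := hK i hvi
    set i' := rep T α s i with hi'
    have hi'T : s ++ [i'] ∈ T := (rep_spec hiT).1
    obtain ⟨b, φ, h1, h2, J, h3, h4⟩ := hF s i' hi'T
    -- separating formulas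
    have h5 : ∀ j : κ, ∃ (τ : Fm 1), Lvl true (α + 1) τ ∧ Sat1 (sub T (s ++ [i'])) τ ∧
        ((∃ b, Lvl b α τ) ∧ (¬ Eqv α (sub T (s ++ [i'])) (sub T (s ++ [j])) →
          ¬ Sat1 (sub T (s ++ [j])) τ)) := by
      intro j
      by_cases hj : Eqv α (sub T (s ++ [i'])) (sub T (s ++ [j]))
      · exact ⟨.not .bot, .qf (.not .bot), fun _ => id, ⟨true, .qf (.not .bot)⟩,
          fun h => absurd hj h⟩
      · obtain ⟨b, τ, g1, g2, g3⟩ := exists_sep' nil_mem_sub nil_mem_sub hj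
        exact ⟨τ, .up (Order.lt_add_one_iff.2 le_rfl) g1, g2, ⟨b, g1⟩, fun _ => g3⟩
    choose τ hτ1 hτ2 hτ3 hτ4 using h5
    have hU : ∀ w, Eqv α (sub T w) (M.U w) := repM_eqv hT hα
    refine ⟨.and φ (Fm.lconj (h3.toFinset.toList.map τ)), ?_, ?_, ?_⟩
    · refine .and (.up (Order.lt_add_one_iff.2 le_rfl) h1) (Lvl.lconj ?_)
      intro ψ hψ
      rw [List.mem_map] at hψ
      obtain ⟨j, _, rfl⟩ := hψ
      exact hτ1 j
    · rw [hsub i hvi]
      intro h0
      refine ⟨(hU _).sat h1 nil_mem_sub h2 h0, ?_⟩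
      refine (sat1_lconj h0).2 ?_ h0
      intro ψ hψ
      rw [List.mem_map] at hψ
      obtain ⟨j, _, rfl⟩ := hψ
      obtain ⟨b', hb'⟩ := hτ3 j
      exact (hU _).sat hb' nil_mem_sub (hτ2 j)
    · intro j hj hsat
      rw [hsub j hj] at hsat
      have hjT := hK j hj
      have h0 : [] ∈ M.U (s ++ [rep T α s j]) := nil_mem_unf
      have hφ : Sat1 (M.U (s ++ [rep T α s j])) φ := fun h0 => (hsat h0).1
      have hτ : ∀ j' ∈ J, Sat1 (M.U (s ++ [rep T α s j])) (τ j') := by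
        intro j' hj'
        refine (sat1_lconj h0).1 (fun h0 => (hsat h0).2) _ ?_
        rw [List.mem_map]
        exact ⟨j', by simpa using hj', rfl⟩
      have h6 : Sat1 (sub T (s ++ [rep T α s j])) φ := (hU _).symm.sat h1 h0 hφ
      obtain ⟨j', hj', h7⟩ := h4 _ (rep_spec hjT).1 h6
      have h8 : Eqv α (sub T (s ++ [i'])) (sub T (s ++ [j'])) := by
        by_contra hc
        obtain ⟨b', hb'⟩ := hτ3 j'
        exact hτ4 j' hc (((hU _).symm.trans h7).sat hb' h0 (hτ j' hj'))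
      have h9 : Eqv α (sub T (s ++ [j])) (sub T (s ++ [i])) :=
        (rep_spec hjT).2.trans (h7.trans (h8.symm.trans (rep_spec hiT).2.symm))
      rw [hsub j hj, hsub i hvi, rep_eq h9 hjT]

end RepSection

/-- At limit levels the relations `≤_α` are symmetric. -/
theorem BF.symm_of_limit {α : Ordinal.{0}} (hα : ∀ β < α, β + 1 < α) {S : Set (List ι)}
    {T : Set (List κ)} {p : Set (List ι × List κ)} (h : BF α S T p) : BF α T S (sw p) := by
  rw [BF_iff]
  refine ⟨sw_finite.2 h.finite, fun a ha => (h.mem ha).symm, h.atom.sw, ?_⟩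
  intro β hβ D hD hf
  exact (h.symm_lt (hα β hβ)).step (Order.lt_add_one_iff.2 le_rfl) hD hf

theorem fine_of_limit [Countable κ] {α : Ordinal.{0}} (hα : ∀ β < α, β + 1 < α)
    (T : Set (List κ)) : Fine α T := by
  intro v i _
  have h1 : ∀ j : κ, ∃ φ : Fm 1, Lvl false α φ ∧ Sat1 (sub T (v ++ [i])) φ ∧
      (Sat1 (sub T (v ++ [j])) φ → LE α (sub T (v ++ [i])) (sub T (v ++ [j]))) := by
    intro j
    by_cases hj : LE α (sub T (v ++ [i])) (sub T (v ++ [j]))
    · exact ⟨.not .bot, .qf (.not .bot), fun _ => id, fun _ => hj⟩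
    · obtain ⟨φ, g1, g2, g3⟩ := exists_sep nil_mem_sub nil_mem_sub hj
      exact ⟨φ, g1, g2, fun h => absurd h g3⟩
  choose φ hφ1 hφ2 hφ3 using h1
  refine ⟨false, Fm.iconj φ, Lvl.iconj hφ1, fun h => Fm.realize_iconj.2 fun j => hφ2 j h,
    {i}, finite_singleton _, fun j _ hj => ⟨i, rfl, ?_⟩⟩
  have h2 : LE α (sub T (v ++ [i])) (sub T (v ++ [j])) :=
    hφ3 j fun h => Fm.realize_iconj.1 (hj h) j
  have h3 := BF.symm_of_limit hα h2
  rw [sw_rt] at h3
  exact ⟨h3, h2⟩

end Pool.Agent.Lib.MP_efc3dd_lc
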