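import Pool.Agent.Lib.MP_efc3dd_lc.Rep

set_option autoImplicit false

/-!
# Scott sentences from definable back-and-forth systems
-/

namespace Pool.Agent.Lib.MP_efc3dd_lc

open Set

section General

variable {M N : Type} {r : M → M → Prop} {s : N → N → Prop}

theorem snoc_comp {M N : Type} {n : ℕ} (e : M → N) (v : Fin n → M) (a : M) :
    (fun i => e ((Fin.snoc v a : Fin (n + 1) → M) i)) = (Fin.snoc (fun i => e (v i)) (e a) :
      Fin (n + 1) → N) := by
  funext i
  refine Fin.lastCases ?_ (fun i => ?_) i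
  · simp
  · simp

/-- Satisfaction is invariant under isomorphism. -/
theorem realize_iso (e : r ≃r s) : ∀ {n : ℕ} (φ : Fm n) (v : Fin n → M),
    φ.Realize r v ↔ φ.Realize s fun i => e (v i)
  | _, .bot, _ => Iff.rfl
  | _, .le i j, v => (e.map_rel_iff).symm
  | _, .eq i j, v => by simp [Fm.Realize]
  | _, .not φ, v => not_congr (realize_iso e φ v)
  | _, .and φ ψ, v => and_congr (realize_iso e φ v) (realize_iso e ψ v)
  | _, .or φ ψ, v => or_congr (realize_iso e φ v) (realize_iso e ψ v)
  | _, .conj φ, v => forall_congr' fun i => realize_iso e (φ i) v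
  | _, .disj φ, v => exists_congr fun i => realize_iso e (φ i) v
  | _, .all φ, v => by
    simp only [Fm.Realize]
    rw [← e.toEquiv.forall_congr_right]
    refine forall_congr' fun a => ?_
    rw [realize_iso e φ, snoc_comp]
    rfl
  | _, .ex φ, v => by
    simp only [Fm.Realize]
    rw [← e.toEquiv.exists_congr_right]
    refine exists_congr fun a => ?_
    rw [realize_iso e φ, snoc_comp]
    rfl

/-- Universal closure. -/
def Fm.close : ∀ {n : ℕ}, Fm n → Fm 0
  | 0, φ => φ
  | _ + 1, φ => Fm.close (.all φ)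

theorem Fm.realize_close {v : Fin 0 → M} : ∀ {n : ℕ} {φ : Fm n},
    φ.close.Realize r v ↔ ∀ c : Fin n → M, φ.Realize r c
  | 0, φ => by
    rw [Fm.close]
    exact ⟨fun h c => by rwa [Subsingleton.elim c v], fun h => h v⟩
  | n + 1, φ => by
    rw [Fm.close, Fm.realize_close]
    simp only [Fm.Realize]
    constructor
    · intro h c
      have := h (Fin.init c) (c (Fin.last n))
      rwa [Fin.snoc_init_self] at this
    · intro h c a
      exact h _

theorem Lvl.close {α : Ordinal.{0}} (h0 : 0 < α) : ∀ {n : ℕ} {φ : Fm n}, Lvl false α φ →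
    Lvl false α φ.close
  | 0, _, h => h
  | n + 1, φ, h => Lvl.close (n := n) (φ := .all φ) h0 (.all h0 h)

/-- Finite conjunction. -/
noncomputable def Fm.fconj {J : Type} [Finite J] {n : ℕ} (f : J → Fm n) : Fm n :=
  Fm.lconj ((@Finset.univ J (Fintype.ofFinite J)).toList.map f)

theorem Fm.realize_fconj {J : Type} [Finite J] {n : ℕ} {f : J → Fm n} {v : Fin n → M} :
    (Fm.fconj f).Realize r v ↔ ∀ j, (f j).Realize r v := by
  rw [Fm.fconj, Fm.realize_lconj]
  constructor
  · intro h j
    exact h _ (List.mem_map.2 ⟨j, by simp, rfl⟩)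
  · intro h φ hφ
    obtain ⟨j, _, rfl⟩ := List.mem_map.1 hφ
    exact h j

theorem Lvl.fconj {J : Type} [Finite J] {n : ℕ} {f : J → Fm n} {b : Bool} {α : Ordinal.{0}}
    (h : ∀ j, Lvl b α (f j)) : Lvl b α (Fm.fconj f) := by
  refine Lvl.lconj fun φ hφ => ?_
  obtain ⟨j, _, rfl⟩ := List.mem_map.1 hφ
  exact h j

open Classical in
/-- The atomic type of a tuple. -/
noncomputable def atomF (r : M → M → Prop) {n : ℕ} (a : Fin n → M) : Fm n :=
  Fm.fconj fun x : Fin n × Fin n =>
    .and (if r (a x.1) (a x.2) then .le x.1 x.2 else .not (.le x.1 x.2))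
      (if a x.1 = a x.2 then .eq x.1 x.2 else .not (.eq x.1 x.2))

theorem realize_atomF {n : ℕ} {a : Fin n → M} {c : Fin n → N} :
    (atomF r a).Realize s c ↔ ∀ i j, (r (a i) (a j) ↔ s (c i) (c j)) ∧ (a i = a j ↔ c i = c j) := by
  rw [atomF, Fm.realize_fconj]
  simp only [Fm.Realize, Prod.forall]
  refine forall_congr' fun i => forall_congr' fun j => and_congr ?_ ?_
  · split_ifs with h
    · simp [Fm.Realize, h]
    · simp [Fm.Realize, h]
  · split_ifs with h
    · simp [Fm.Realize, h]
    · simp [Fm.Realize, h]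

theorem lvl_atomF {n : ℕ} {a : Fin n → M} {b : Bool} {α : Ordinal.{0}} :
    Lvl b α (atomF r a) := by
  refine Lvl.fconj fun x => .and ?_ ?_
  · split_ifs
    · exact .qf (.le _ _)
    · exact .qf (.not (.le _ _))
  · split_ifs
    · exact .qf (.eq _ _)
    · exact .qf (.not (.eq _ _))

/-- An isomorphism from a total and surjective relation that preserves atomic facts. -/
theorem iso_of_rel (R : M → N → Prop) (h1 : ∀ m, ∃ n, R m n) (h2 : ∀ n, ∃ m, R m n)
    (h3 : ∀ m n m' n', R m n → R m' n' → (r m m' ↔ s n n') ∧ (m = m' ↔ n = n')) :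
    Nonempty (r ≃r s) := by
  choose f hf using h1
  choose g hg using h2
  refine ⟨⟨⟨f, g, fun m => ?_, fun n => ?_⟩, ?_⟩⟩
  · exact ((h3 _ _ _ _ (hg (f m)) (hf m)).2).2 rfl
  · exact ((h3 _ _ _ _ (hf (g n)) (hg n)).2).1 rfl
  · intro m m'
    exact ((h3 _ _ _ _ (hf m) (hf m')).1).symm

/-- A definable back-and-forth system gives a Scott sentence. -/
theorem exists_scott [Countable M] {β : Ordinal.{0}} (hβ0 : 0 < β)
    (φ : ∀ n : ℕ, (Fin n → M) → Fm n) (hφ : ∀ n a, Lvl true β (φ n a))
    (h1 : (φ 0 ![]).Realize r ![])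
    (h2 : ∀ n a c, (φ n a).Realize r c →
      ∀ i j, (r (a i) (a j) ↔ r (c i) (c j)) ∧ (a i = a j ↔ c i = c j))
    (h3 : ∀ n a c, (φ n a).Realize r c → ∀ b, ∃ d,
      (φ (n + 1) (Fin.snoc a b)).Realize r (Fin.snoc c d))
    (h4 : ∀ n a c, (φ n a).Realize r c → ∀ d, ∃ b,
      (φ (n + 1) (Fin.snoc a b)).Realize r (Fin.snoc c d)) :
    ∃ ψ : Fm 0, Lvl false (β + 1) ψ ∧ IsScottSentence r ψ := by
  have hβ : β < β + 1 := Order.lt_add_one_iff.2 le_rfl
  have h0 : 0 < β + 1 := zero_le.trans_lt hβ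
  let χ : (Σ n : ℕ, (Fin n → M)) → Fm 0 := fun x =>
    Fm.close (.or (.not (φ x.1 x.2)) (.and (atomF r x.2)
      (.and (Fm.iconj fun b : M => .ex (φ (x.1 + 1) (Fin.snoc x.2 b)))
        (.all (Fm.idisj fun b : M => φ (x.1 + 1) (Fin.snoc x.2 b))))))
  let ψ : Fm 0 := .and (φ 0 ![]) (Fm.iconj χ)
  have hψ : ∀ (N : Type) (s : N → N → Prop), ψ.Realize s ![] ↔ (φ 0 ![]).Realize s ![] ∧
      ∀ (n : ℕ) (a : Fin n → M) (c : Fin n → N), (φ n a).Realize s c →
        (∀ i j, (r (a i) (a j) ↔ s (c i) (c j)) ∧ (a i = a j ↔ c i = c j)) ∧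
        (∀ b, ∃ d, (φ (n + 1) (Fin.snoc a b)).Realize s (Fin.snoc c d)) ∧
        (∀ d, ∃ b, (φ (n + 1) (Fin.snoc a b)).Realize s (Fin.snoc c d)) := by
    intro N s
    simp only [ψ, χ, Fm.Realize, Fm.realize_iconj, Fm.realize_close, Fm.realize_idisj,
      realize_atomF]
    refine and_congr Iff.rfl ?_
    constructor
    · intro h n a c hc
      rcases h ⟨n, a⟩ c with h | h
      · exact absurd hc h
      · exact h
    · rintro h ⟨n, a⟩ c
      by_cases hc : (φ n a).Realize s c
      · exact Or.inr (h n a c hc)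
      · exact Or.inl hc
  have hMψ : ψ.Realize r ![] :=
    (hψ M r).2 ⟨h1, fun n a c hc => ⟨h2 n a c hc, h3 n a c hc, h4 n a c hc⟩⟩
  refine ⟨ψ, ?_, ?_⟩
  · refine .and (.up hβ (hφ 0 _)) (Lvl.iconj fun x => Lvl.close h0 (.or ?_ (.and lvl_atomF
      (.and (Lvl.iconj fun b => ?_) (.all h0 ?_)))))
    · exact .up hβ (b' := false) (.not (b := false) (hφ _ _))
    · exact .up hβ (.ex hβ0 (hφ _ _))
    · exact .up hβ (Lvl.idisj fun b => hφ _ _)
  · intro N s hN
    constructor
    · intro hs
      obtain ⟨g1, g2⟩ := (hψ N s).1 hs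
      let P : Type := {x : Σ n : ℕ, (Fin n → M) × (Fin n → N) // (φ x.1 x.2.1).Realize s x.2.2}
      let pairs : P → Set (M × N) := fun x => range fun i => (x.1.2.1 i, x.1.2.2 i)
      let : Preorder P := Preorder.lift pairs
      have hle : ∀ x y : P, x ≤ y ↔ pairs x ⊆ pairs y := fun x y => Iff.rfl
      let 𝒟 : M ⊕ N → Order.Cofinal P := fun z =>
        match z with
        | Sum.inl m => ⟨{x | ∃ n, (m, n) ∈ pairs x}, fun x => by
            obtain ⟨⟨n, a, c⟩, hx⟩ := x
            obtain ⟨d, hd⟩ := (g2 n a c hx).2.1 m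
            refine ⟨⟨⟨n + 1, Fin.snoc a m, Fin.snoc c d⟩, hd⟩, ⟨d, Fin.last n, ?_⟩, ?_⟩
            · simp
            · rintro _ ⟨i, rfl⟩
              exact ⟨i.castSucc, by simp⟩⟩
        | Sum.inr k => ⟨{x | ∃ m, (m, k) ∈ pairs x}, fun x => by
            obtain ⟨⟨n, a, c⟩, hx⟩ := x
            obtain ⟨b, hb⟩ := (g2 n a c hx).2.2 k
            refine ⟨⟨⟨n + 1, Fin.snoc a b, Fin.snoc c k⟩, hb⟩, ⟨b, Fin.last n, ?_⟩, ?_⟩
            · simp
            · rintro _ ⟨i, rfl⟩
              exact ⟨i.castSucc, by simp⟩⟩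
      let : Encodable (M ⊕ N) := Encodable.ofCountable _
      let p0 : P := ⟨⟨0, ![], ![]⟩, g1⟩
      let I : Order.Ideal P := Order.idealOfCofinals p0 𝒟
      refine iso_of_rel (fun m n => ∃ x ∈ I, (m, n) ∈ pairs x) ?_ ?_ ?_
      · intro m
        obtain ⟨x, ⟨n, hn⟩, hx⟩ := Order.cofinal_meets_idealOfCofinals p0 𝒟 (Sum.inl m)
        exact ⟨n, x, hx, hn⟩
      · intro n
        obtain ⟨x, ⟨m, hm⟩, hx⟩ := Order.cofinal_meets_idealOfCofinals p0 𝒟 (Sum.inr n)
        exact ⟨m, x, hx, hm⟩
      · rintro m n m' n' ⟨x, hx, hmn⟩ ⟨y, hy, hmn'⟩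
        obtain ⟨z, hz, hxz, hyz⟩ := I.directed x hx y hy
        obtain ⟨i, hi⟩ := hxz hmn
        obtain ⟨j, hj⟩ := hyz hmn'
        have := (g2 _ _ _ z.2).1 i j
        simp only [Prod.mk.injEq] at hi hj
        rw [← hi.1, ← hi.2, ← hj.1, ← hj.2]
        exact this
    · rintro ⟨e⟩
      have := (realize_iso e ψ ![]).1 hMψ
      rwa [Subsingleton.elim (fun i => e (![] i)) ![]] at this

end General

/-! ### Relativization to a subtree -/

/-- Rename the free variables by `f` and restrict the quantifiers to the elements above the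
variable `c`. -/
def Fm.relAt : ∀ {m : ℕ}, Fm m → ∀ {n : ℕ}, (Fin m → Fin n) → Fin n → Fm n
  | _, .bot, _, _, _ => .bot
  | _, .le i j, _, f, _ => .le (f i) (f j)
  | _, .eq i j, _, f, _ => .eq (f i) (f j)
  | _, .not φ, _, f, c => .not (φ.relAt f c)
  | _, .and φ ψ, _, f, c => .and (φ.relAt f c) (ψ.relAt f c)
  | _, .or φ ψ, _, f, c => .or (φ.relAt f c) (ψ.relAt f c)
  | _, .conj φ, _, f, c => .conj fun i => (φ i).relAt f c
  | _, .disj φ, _, f, c => .disj fun i => (φ i).relAt f c
  | _, .all φ, n, f, c => .all (.or (.not (.le c.castSucc (Fin.last n)))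
      (φ.relAt (Fin.snoc (fun i => (f i).castSucc) (Fin.last n)) c.castSucc))
  | _, .ex φ, n, f, c => .ex (.and (.le c.castSucc (Fin.last n))
      (φ.relAt (Fin.snoc (fun i => (f i).castSucc) (Fin.last n)) c.castSucc))

theorem QF_relAt {m : ℕ} {φ : Fm m} (h : φ.QF) : ∀ {n : ℕ} (f : Fin m → Fin n) (c : Fin n),
    (φ.relAt f c).QF := by
  induction h with
  | bot => intros; exact .bot
  | le i j => intros; exact .le _ _
  | eq i j => intros; exact .eq _ _
  | not _ ih => intro n f c; exact .not (ih f c)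
  | and _ _ ih ih' => intro n f c; exact .and (ih f c) (ih' f c)
  | or _ _ ih ih' => intro n f c; exact .or (ih f c) (ih' f c)
  | conj _ ih => intro n f c; exact .conj fun i => ih i f c
  | disj _ ih => intro n f c; exact .disj fun i => ih i f c

theorem Lvl.relAt {b : Bool} {α : Ordinal.{0}} {m : ℕ} {φ : Fm m} (h : Lvl b α φ) :
    ∀ {n : ℕ} (f : Fin m → Fin n) (c : Fin n), Lvl b α (φ.relAt f c) := by
  induction h with
  | qf h => intro n f c; exact .qf (QF_relAt h f c)
  | up h _ ih => intro n f c; exact .up h (ih f c)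
  | not _ ih => intro n f c; exact .not (ih f c)
  | and _ _ ih ih' => intro n f c; exact .and (ih f c) (ih' f c)
  | or _ _ ih ih' => intro n f c; exact .or (ih f c) (ih' f c)
  | disj h0 _ ih => intro n f c; exact .disj h0 fun i => ih i f c
  | conj h0 _ ih => intro n f c; exact .conj h0 fun i => ih i f c
  | ex h0 _ ih => intro n f c; exact .ex h0 (.and (.qf (.le _ _)) (ih _ _))
  | all h0 _ ih => intro n f c; exact .all h0 (.or (.qf (.not (.le _ _))) (ih _ _))

theorem realize_relAt {κ : Type} {T : Set (List κ)} {w : List κ} (hw : w ∈ T) :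
    ∀ {m : ℕ} (φ : Fm m) {n : ℕ} (f : Fin m → Fin n) (c : Fin n) (u : Fin n → T)
      (v : Fin m → sub T w), (u c : List κ) = w → (∀ i, (u (f i) : List κ) = w ++ (v i)) →
      ((φ.relAt f c).Realize (pr T) u ↔ φ.Realize (pr (sub T w)) v)
  | _, .bot, _, _, _, _, _, _, _ => Iff.rfl
  | _, .le i j, _, f, _, u, v, _, h => by
    change ((u (f i) : List κ) <+: (u (f j) : List κ)) ↔ ((v i : List κ) <+: (v j : List κ))
    rw [h, h, List.prefix_append_right_inj]
  | _, .eq i j, _, f, _, u, v, _, h => by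
    change u (f i) = u (f j) ↔ v i = v j
    rw [Subtype.ext_iff, Subtype.ext_iff, h, h, List.append_cancel_left_eq]
  | _, .not φ, _, f, c, u, v, hc, h => not_congr (realize_relAt hw φ f c u v hc h)
  | _, .and φ ψ, _, f, c, u, v, hc, h =>
    and_congr (realize_relAt hw φ f c u v hc h) (realize_relAt hw ψ f c u v hc h)
  | _, .or φ ψ, _, f, c, u, v, hc, h =>
    or_congr (realize_relAt hw φ f c u v hc h) (realize_relAt hw ψ f c u v hc h)
  | _, .conj φ, _, f, c, u, v, hc, h =>
    forall_congr' fun i => realize_relAt hw (φ i) f c u v hc h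
  | _, .disj φ, _, f, c, u, v, hc, h =>
    exists_congr fun i => realize_relAt hw (φ i) f c u v hc h
  | m, .all φ, n, f, c, u, v, hc, h => by
    have key : ∀ (a : T) (a' : sub T w), (a : List κ) = w ++ a' →
        ((φ.relAt (Fin.snoc (fun i => (f i).castSucc) (Fin.last n)) c.castSucc).Realize (pr T)
          (Fin.snoc u a) ↔ φ.Realize (pr (sub T w)) (Fin.snoc v a')) := by
      intro a a' ha
      refine realize_relAt hw φ _ _ _ _ (by simpa using hc) fun i => ?_
      refine Fin.lastCases ?_ (fun i => ?_) i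
      · simpa using ha
      · simpa using h i
    simp only [Fm.relAt, Fm.Realize, Fin.snoc_castSucc, Fin.snoc_last]
    constructor
    · intro H a'
      have hm : w ++ (a' : List κ) ∈ T := (mem_sub hw).1 a'.2
      rcases H ⟨w ++ a', hm⟩ with h1 | h1
      · exact absurd (by rw [pr, hc]; exact List.prefix_append _ _) h1
      · exact (key _ a' rfl).1 h1
    · intro H a
      by_cases h1 : pr T (u c) a
      · right
        rw [pr, hc] at h1
        obtain ⟨t, ht⟩ := h1
        have hm : t ∈ sub T w := (mem_sub hw).2 (by rw [ht]; exact a.2)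
        exact (key a ⟨t, hm⟩ ht.symm).2 (H _)
      · exact Or.inl h1
  | m, .ex φ, n, f, c, u, v, hc, h => by
    have key : ∀ (a : T) (a' : sub T w), (a : List κ) = w ++ a' →
        ((φ.relAt (Fin.snoc (fun i => (f i).castSucc) (Fin.last n)) c.castSucc).Realize (pr T)
          (Fin.snoc u a) ↔ φ.Realize (pr (sub T w)) (Fin.snoc v a')) := by
      intro a a' ha
      refine realize_relAt hw φ _ _ _ _ (by simpa using hc) fun i => ?_
      refine Fin.lastCases ?_ (fun i => ?_) i
      · simpa using ha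
      · simpa using h i
    simp only [Fm.relAt, Fm.Realize, Fin.snoc_castSucc, Fin.snoc_last]
    constructor
    · rintro ⟨a, h1, h2⟩
      rw [pr, hc] at h1
      obtain ⟨t, ht⟩ := h1
      have hm : t ∈ sub T w := (mem_sub hw).2 (by rw [ht]; exact a.2)
      exact ⟨⟨t, hm⟩, (key a ⟨t, hm⟩ ht.symm).1 h2⟩
    · rintro ⟨a', h2⟩
      have hm : w ++ (a' : List κ) ∈ T := (mem_sub hw).1 a'.2
      exact ⟨⟨w ++ a', hm⟩, by rw [pr, hc]; exact List.prefix_append _ _, (key _ a' rfl).2 h2⟩

theorem realize_relAt_one {κ : Type} {T : Set (List κ)} {φ : Fm 1} {n : ℕ} {c : Fin n}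
    {u : Fin n → T} :
    (φ.relAt (fun _ => c) c).Realize (pr T) u ↔ Sat1 (sub T (u c)) φ := by
  rw [realize_relAt (u c).2 φ (fun _ => c) c u (fun _ => ⟨[], nil_mem_sub⟩) rfl (by simp)]
  exact ⟨fun h _ => h, fun h => h _⟩

/-- `x_q` is a child of `x_p`. -/
def childF {n : ℕ} (p q : Fin n) : Fm n :=
  .and (.and (.le p q) (.not (.eq p q)))
    (.all (.or (.not (.and (.le p.castSucc (Fin.last n)) (.le (Fin.last n) q.castSucc)))
      (.or (.eq (Fin.last n) p.castSucc) (.eq (Fin.last n) q.castSucc))))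

theorem lvl_childF {n : ℕ} {p q : Fin n} {α : Ordinal.{0}} (hα : 0 < α) :
    Lvl false α (childF p q) :=
  .and (.qf (.and (.le _ _) (.not (.eq _ _))))
    (.all hα (.qf (.or (.not (.and (.le _ _) (.le _ _))) (.or (.eq _ _) (.eq _ _)))))

theorem realize_childF {κ : Type} {T : Set (List κ)} (hT : IsT T) {n : ℕ} {p q : Fin n}
    {u : Fin n → T} : (childF p q).Realize (pr T) u ↔
      ∃ k, (u q : List κ) = (u p : List κ) ++ [k] := by
  simp only [childF, Fm.Realize, Fin.snoc_castSucc, Fin.snoc_last, pr]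
  constructor
  · rintro ⟨⟨⟨t, ht⟩, h2⟩, h3⟩
    cases t with
    | nil =>
      rw [List.append_nil] at ht
      exact absurd (Subtype.ext ht) h2
    | cons k t =>
      have hm : (u p : List κ) ++ [k] ∈ T := by
        refine hT.of_prefix (m := (u q : List κ)) ?_ (u q).2
        rw [← ht]
        simp
      rcases h3 ⟨_, hm⟩ with h | h | h
      · refine absurd ⟨List.prefix_append _ _, ?_⟩ h
        change (u p : List κ) ++ [k] <+: (u q : List κ)
        rw [← ht]
        simp
      · have := congrArg (fun x : T => (x : List κ).length) h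
        simp at this
      · exact ⟨k, (congrArg Subtype.val h).symm⟩
  · rintro ⟨k, hk⟩
    refine ⟨⟨⟨[k], hk.symm⟩, ?_⟩, ?_⟩
    · intro h
      have := congrArg (fun x : T => (x : List κ).length) h
      simp [hk] at this
    · intro a
      by_cases h : (u p : List κ) <+: (a : List κ) ∧ (a : List κ) <+: (u q : List κ)
      · right
        have h1 := h.1.length_le
        have h2 := h.2.length_le
        rw [hk, List.length_append, List.length_singleton] at h2
        rcases Nat.lt_or_ge (u p : List κ).length (a : List κ).length with h3 | h3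
        · right
          refine Subtype.ext (h.2.eq_of_length ?_)
          rw [hk, List.length_append, List.length_singleton]
          omega
        · left
          exact Subtype.ext (h.1.eq_of_length (le_antisymm h1 h3)).symm
      · exact Or.inl h

end Pool.Agent.Lib.MP_efc3dd_lc
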