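import Pool.Agent.Lib.MP_efc3dd_lc.Comp

set_option autoImplicit false

/-!
# Unfolding a system of states into a tree
-/

namespace Pool.Agent.Lib.MP_efc3dd_lc

open Set

variable {σ κ : Type}

/-- Membership in the unfolding: the list of indices leads through states. -/
def unfMem (K : σ → Set κ) (c : σ → κ → σ) : σ → List κ → Prop
  | _, [] => True
  | s, k :: l => k ∈ K s ∧ unfMem K c (c s k) l

/-- The unfolding of the state `s`. -/
def unf (K : σ → Set κ) (c : σ → κ → σ) (s : σ) : Set (List κ) := {l | unfMem K c s l}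

@[simp] theorem nil_mem_unf {K : σ → Set κ} {c : σ → κ → σ} {s : σ} : [] ∈ unf K c s := trivial

@[simp] theorem cons_mem_unf {K : σ → Set κ} {c : σ → κ → σ} {s : σ} {k : κ} {l : List κ} :
    k :: l ∈ unf K c s ↔ k ∈ K s ∧ l ∈ unf K c (c s k) := Iff.rfl

theorem unf_eq {K : σ → Set κ} {c : σ → κ → σ} {s : σ} :
    unf K c s = node (K s) fun k => unf K c (c s k) := by
  ext l
  cases l with
  | nil => simp
  | cons k l => simp

theorem isT_unf {K : σ → Set κ} {c : σ → κ → σ} (s : σ) : IsT (unf K c s) := by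
  refine ⟨nil_mem_unf, fun l => ?_⟩
  induction l generalizing s with
  | nil => intros; exact nil_mem_unf
  | cons k l ih =>
    intro m h
    rw [List.cons_append, cons_mem_unf] at h
    exact cons_mem_unf.2 ⟨h.1, ih _ m h.2⟩

/-- Change the first letter of a list. -/
def star1 (g : κ → κ) : List κ → List κ
  | [] => []
  | i :: l => g i :: l

/-- The protected position between `V s` and the unfolding. -/
def piF (g : κ → κ) (F : Set (List κ)) : Set (List κ × List κ) :=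
  {z | z.1 ∈ F ∧ z.2 = z.1.map g}

/-- The protected position between `V s` and its one-step modification. -/
def piF1 (g : κ → κ) (F : Set (List κ)) : Set (List κ × List κ) :=
  {z | z.1 ∈ F ∧ z.2 = star1 g z.1}

theorem piF_finite {g : κ → κ} {F : Set (List κ)} (hF : F.Finite) : (piF g F).Finite := by
  refine (hF.image fun l => (l, l.map g)).subset ?_
  rintro ⟨x, y⟩ ⟨h1, h2⟩
  simp only at h1 h2
  subst h2
  exact ⟨x, h1, rfl⟩

theorem map_prefix_iff {g : κ → κ} (hg : Function.Injective g) {l m : List κ} :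
    l.map g <+: m.map g ↔ l <+: m := by
  induction l generalizing m with
  | nil => simp
  | cons i l ih =>
    cases m with
    | nil => simp
    | cons j m => simp only [List.map_cons, List.cons_prefix_cons, ih, hg.eq_iff]

/-- The data and properties of a machine. -/
structure Machine (σ κ : Type) where
  K : σ → Set κ
  c : σ → κ → σ
  V : σ → Set (List κ)
  F : σ → Set (List κ)
  g : κ → κ
  hg : Function.Injective g
  hV : ∀ s, IsT (V s)
  hF : ∀ s, IsT (F s)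
  hFf : ∀ s, (F s).Finite
  hFV : ∀ s, F s ⊆ V s
  hc : ∀ s i l, i :: l ∈ F s → g i ∈ K s ∧ l ∈ F (c s (g i))

namespace Machine

variable (M : Machine σ κ)

/-- The tree of the state `s` after one modification. -/
def W (s : σ) : Set (List κ) := node (M.K s) fun k => M.V (M.c s k)

/-- The unfolding. -/
def U (s : σ) : Set (List κ) := unf M.K M.c s

theorem map_mem_U {l : List κ} : ∀ {s : σ}, l ∈ M.F s → l.map M.g ∈ M.U s := by
  induction l with
  | nil => intro s _; exact nil_mem_unf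
  | cons i l ih =>
    intro s h
    have := M.hc s i l h
    rw [List.map_cons]
    exact cons_mem_unf.2 ⟨this.1, ih this.2⟩

theorem atom_pi (s : σ) : Atom (piF M.g (M.F s)) := by
  rintro ⟨x, y⟩ ⟨h1, h2⟩ ⟨x', y'⟩ ⟨h1', h2'⟩
  simp only at h1 h2 h1' h2'
  subst h2; subst h2'
  exact (map_prefix_iff M.hg).symm

theorem rt_pi (s : σ) : rt κ κ ⊆ piF M.g (M.F s) := by
  rintro _ rfl
  exact ⟨(M.hF s).nil, rfl⟩

theorem rt_sw_pi (s : σ) : rt κ κ ⊆ sw (piF M.g (M.F s)) := by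
  rintro _ rfl
  exact ⟨(M.hF s).nil, rfl⟩

variable {M}

theorem U_eq (s : σ) : M.U s = node (M.K s) fun k => M.U (M.c s k) := unf_eq

/-- One step upwards. -/
theorem up_aux {a β : Ordinal.{0}} (hβ : β < a)
    (hA : ∀ s, BF a (M.V s) (M.W s) (piF1 M.g (M.F s)))
    (hD : ∀ s, BF β (M.U s) (M.V s) (sw (piF M.g (M.F s)))) :
    ∀ (N : ℕ) (s : σ) (D : Set (List κ)), D ⊆ M.U s → D.Finite → (∀ d ∈ D, d.length ≤ N) →
      ∃ q, piF M.g (M.F s) ⊆ q ∧ (∀ d ∈ D, ∃ x, (x, d) ∈ q) ∧ BF β (M.U s) (M.V s) (sw q) := by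
  intro N
  induction N with
  | zero =>
    intro s D _ _ hl
    refine ⟨_, subset_rfl, fun d hd => ?_, hD s⟩
    have := hl d hd
    rw [Nat.le_zero, List.length_eq_zero_iff] at this
    subst this
    exact ⟨[], (M.hF s).nil, rfl⟩
  | succ N ih =>
    intro s D hDU hDf hl
    set E : Set κ := {k | ∃ l, k :: l ∈ D} ∪ {k | ∃ i l, i :: l ∈ M.F s ∧ k = M.g i} with hE
    have hEf : E.Finite := by
      refine (heads_finite hDf).union ?_
      refine ((heads_finite (M.hFf s)).image M.g).subset ?_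
      rintro k ⟨i, l, h1, rfl⟩
      exact ⟨i, ⟨l, h1⟩, rfl⟩
    have hEK : E ⊆ M.K s := by
      rintro k (⟨l, hl⟩ | ⟨i, l, h1, rfl⟩)
      · exact (cons_mem_unf.1 (hDU hl)).1
      · exact (M.hc s i l h1).1
    have h1 : ∀ k, ∃ q, piF M.g (M.F (M.c s k)) ⊆ q ∧ (∀ d, k :: d ∈ D → ∃ x, (x, d) ∈ q) ∧
        BF β (M.U (M.c s k)) (M.V (M.c s k)) (sw q) := by
      intro k
      exact ih (M.c s k) {l | k :: l ∈ D} (fun l hl => (cons_mem_unf.1 (hDU hl)).2)
        (tails_finite hDf k) (fun l hl' => by have := hl _ hl'; simpa using this)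
    choose q hq using h1
    have h2 : BF β (M.U s) (M.W s)
        (lift ((fun k => (k, k)) '' E) fun x => sw (q x.1)) := by
      rw [U_eq]
      refine node_same (P := fun k => sw (q k)) hEf hEK (fun k _ => ?_) (fun k _ => (hq k).2.2)
        (fun k _ _ => (hD _).pos (M.rt_sw_pi _))
      exact (hq k).1 ⟨(M.hF _).nil, rfl⟩
    set r := lift ((fun k => (k, k)) '' E) fun x : κ × κ => sw (q x.1) with hr
    have hr1 : ∀ k ∈ E, ∀ x y, (x, y) ∈ q k → (k :: y, k :: x) ∈ r := by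
      intro k hk x y hxy
      exact cons_mem_lift.2 ⟨⟨k, hk, rfl⟩, hxy⟩
    have hD'f : {w | ∃ u, (u, w) ∈ r}.Finite := by
      refine (h2.finite.image Prod.snd).subset ?_
      rintro w ⟨u, hu⟩
      exact ⟨_, hu, rfl⟩
    obtain ⟨q', g1, g2, g3⟩ := (hA s).step hβ (D := {w | ∃ u, (u, w) ∈ r})
      (fun w ⟨u, hu⟩ => (h2.mem hu).2) hD'f
    refine ⟨sw (cmp r (sw q')), ?_, ?_, ?_⟩
    · rintro ⟨l, l'⟩ ⟨hl1, hl2⟩
      simp only at hl1 hl2
      subst hl2
      refine ⟨star1 M.g l, ?_, g1 ⟨hl1, rfl⟩⟩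
      cases l with
      | nil => exact nil_mem_lift
      | cons i l =>
        have := M.hc s i l hl1
        refine hr1 (M.g i) (Or.inr ⟨i, l, hl1, rfl⟩) _ _ ?_
        exact (hq _).1 ⟨this.2, rfl⟩
    · intro d hd
      obtain ⟨w, hw⟩ : ∃ w, (d, w) ∈ r := by
        cases d with
        | nil => exact ⟨[], nil_mem_lift⟩
        | cons k l =>
          obtain ⟨x, hx⟩ := (hq k).2.1 l hd
          exact ⟨_, hr1 k (Or.inl ⟨l, hd⟩) _ _ hx⟩
      obtain ⟨x, hx⟩ := g2 w ⟨d, hw⟩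
      exact ⟨x, w, hw, hx⟩
    · exact BF.comp h2 g3

/-- One step downwards. -/
theorem down_aux {b β : Ordinal.{0}} (hβ : β < b) (h1β : 1 ≤ β)
    (hB : ∀ s, BF b (M.W s) (M.V s) (sw (piF1 M.g (M.F s))))
    (hU : ∀ s, BF β (M.V s) (M.U s) (piF M.g (M.F s))) :
    ∀ (N : ℕ) (s : σ) (D : Set (List κ)), D ⊆ M.V s → D.Finite →
      (∀ l m, l ++ m ∈ D → l ∈ D) → (∀ d ∈ D, d.length ≤ N) →
      ∃ q, sw (piF M.g (M.F s)) ⊆ q ∧ (∀ d ∈ D, ∃ x, (x, d) ∈ q) ∧
        BF β (M.V s) (M.U s) (sw q) := by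
  intro N
  induction N with
  | zero =>
    intro s D _ _ _ hl
    refine ⟨_, subset_rfl, fun d hd => ?_, hU s⟩
    have := hl d hd
    rw [Nat.le_zero, List.length_eq_zero_iff] at this
    subst this
    exact ⟨[], (M.hF s).nil, rfl⟩
  | succ N ih =>
    intro s D hDV hDf hDc hl
    have hGf : (D ∪ M.F s).Finite := hDf.union (M.hFf s)
    have hGc : ∀ l m, l ++ m ∈ D ∪ M.F s → l ∈ D ∪ M.F s := by
      rintro l m (h | h)
      · exact Or.inl (hDc l m h)
      · exact Or.inr ((M.hF s).pre l m h)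
    obtain ⟨q0, g1, g2, g3⟩ := (hB s).step hβ (D := D ∪ M.F s)
      (union_subset hDV (M.hFV s)) hGf
    -- keep only the pairs whose second member lies in `D ∪ F s`
    set q' : Set (List κ × List κ) := {z | z ∈ q0 ∧ z.2 ∈ D ∪ M.F s} with hq'
    have g3' : BF β (M.V s) (M.W s) (sw q') := g3.pos (sw_subset.2 fun z hz => hz.1)
    have g1' : sw (piF1 M.g (M.F s)) ⊆ q' := fun z hz => ⟨g1 hz, Or.inr hz.1⟩
    have g2' : ∀ d ∈ D ∪ M.F s, ∃ x, (x, d) ∈ q' := by
      intro d hd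
      obtain ⟨x, hx⟩ := g2 d hd
      exact ⟨x, hx, hd⟩
    have hWT : IsT (M.W s) := isT_node fun k _ => M.hV _
    have hcl : ∀ w d, (w, d) ∈ q' → ∀ e, e <+: d → ∃ x, (e, x) ∈ sw q' := by
      rintro w d hwd e ⟨m, rfl⟩
      exact g2' e (hGc e m hwd.2)
    set E : Set κ := {k | ∃ l, ∃ d, (k :: l, d) ∈ q'} with hE
    have hq'f : q'.Finite := sw_finite.1 g3'.finite
    have hfst : {w | ∃ d, (w, d) ∈ q'}.Finite := by
      refine (hq'f.image Prod.fst).subset ?_
      rintro w ⟨d, hd⟩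
      exact ⟨_, hd, rfl⟩
    have hEf : E.Finite := by
      refine (heads_finite hfst).subset ?_
      rintro k ⟨l, d, h⟩
      exact ⟨l, d, h⟩
    have hEK : E ⊆ M.K s := by
      rintro k ⟨l, d, h⟩
      exact (cons_mem_node.1 (g3'.mem (a := (d, k :: l)) h).2).1
    have h1 : ∀ k, ∃ q, sw (piF M.g (M.F (M.c s k))) ⊆ q ∧
        (∀ l d, d ∈ D → (k :: l, d) ∈ q' → ∃ x, (x, l) ∈ q) ∧
        BF β (M.V (M.c s k)) (M.U (M.c s k)) (sw q) := by
      intro k
      have u1 : {l | ∃ d ∈ D, (k :: l, d) ∈ q'} ⊆ M.V (M.c s k) := by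
        rintro l ⟨d, hd, h⟩
        exact (cons_mem_node.1 (g3'.mem (a := (d, k :: l)) h).2).2
      have u2 : {l | ∃ d ∈ D, (k :: l, d) ∈ q'}.Finite := by
        refine (tails_finite hfst k).subset ?_
        rintro l ⟨d, _, h⟩
        exact ⟨d, h⟩
      have u3 : ∀ l m, l ++ m ∈ {l | ∃ d ∈ D, (k :: l, d) ∈ q'} →
          l ∈ {l | ∃ d ∈ D, (k :: l, d) ∈ q'} := by
        rintro l m ⟨d, hd, h⟩
        obtain ⟨d', ⟨t, rfl⟩, h2⟩ := g3'.pre_mem h1β hWT (a := d) (b := k :: (l ++ m)) h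
          (hcl _ _ h) (b' := k :: l) (by simp)
        exact ⟨d', hDc _ _ hd, h2⟩
      have u4 : ∀ l ∈ {l | ∃ d ∈ D, (k :: l, d) ∈ q'}, l.length ≤ N := by
        rintro l ⟨d, hd, h⟩
        have h3 := g3'.length_eq h1β hWT (a := d) (b := k :: l) h (hcl _ _ h)
        have h4 := hl d hd
        simp only [List.length_cons] at h3
        omega
      obtain ⟨q, e1, e2, e3⟩ := ih (M.c s k) _ u1 u2 u3 u4
      exact ⟨q, e1, fun l d hd h => e2 l ⟨d, hd, h⟩, e3⟩
    choose q hq using h1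
    have h2 : BF β (M.W s) (M.U s)
        (lift ((fun k => (k, k)) '' E) fun x => sw (q x.1)) := by
      rw [U_eq]
      refine node_same (P := fun k => sw (q k)) hEf hEK (fun k _ => ?_) (fun k _ => (hq k).2.2)
        (fun k _ _ => (hU _).pos (M.rt_pi _))
      exact (hq k).1 ⟨(M.hF _).nil, rfl⟩
    set r := lift ((fun k => (k, k)) '' E) fun x : κ × κ => sw (q x.1) with hr
    have hr1 : ∀ k ∈ E, ∀ x y, (x, y) ∈ q k → (k :: y, k :: x) ∈ r := by
      intro k hk x y hxy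
      exact cons_mem_lift.2 ⟨⟨k, hk, rfl⟩, hxy⟩
    refine ⟨sw (cmp (sw q') r), ?_, ?_, ?_⟩
    · rintro ⟨l', l⟩ ⟨hl1, hl2⟩
      simp only at hl1 hl2
      subst hl2
      refine ⟨star1 M.g l, g1' ⟨hl1, rfl⟩, ?_⟩
      cases l with
      | nil => exact nil_mem_lift
      | cons i l =>
        have := M.hc s i l hl1
        refine hr1 (M.g i) ⟨l, i :: l, g1' ⟨hl1, rfl⟩⟩ _ _ ?_
        exact (hq _).1 ⟨this.2, rfl⟩
    · intro d hd
      obtain ⟨w, hw⟩ := g2' d (Or.inl hd)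
      obtain ⟨x, hx⟩ : ∃ x, (w, x) ∈ r := by
        cases w with
        | nil => exact ⟨[], nil_mem_lift⟩
        | cons k l =>
          obtain ⟨x, hx⟩ := (hq k).2.1 l d hd hw
          exact ⟨_, hr1 k ⟨l, d, hw⟩ _ _ hx⟩
      exact ⟨x, w, hw, hx⟩
    · exact BF.comp g3' h2

theorem up_of_down {a : Ordinal.{0}}
    (hA : ∀ s, BF a (M.V s) (M.W s) (piF1 M.g (M.F s))) {β : Ordinal.{0}} (hβa : β ≤ a)
    (hD : ∀ β' < β, ∀ s, BF β' (M.U s) (M.V s) (sw (piF M.g (M.F s)))) (s : σ) :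
    BF β (M.V s) (M.U s) (piF M.g (M.F s)) := by
  rw [BF_iff]
  refine ⟨piF_finite (M.hFf s), ?_, M.atom_pi s, ?_⟩
  · rintro ⟨x, y⟩ ⟨h1, h2⟩
    simp only at h1 h2; subst h2
    exact ⟨M.hFV s h1, M.map_mem_U h1⟩
  · intro β' hβ' D hD' hDf
    obtain ⟨N, hN⟩ : ∃ N, ∀ d ∈ D, d.length ≤ N := by
      obtain ⟨N, hN⟩ := (hDf.image List.length).bddAbove
      exact ⟨N, fun d hd => hN ⟨d, hd, rfl⟩⟩
    exact up_aux (hβ'.trans_le hβa) hA (hD β' hβ') N s D hD' hDf hN

/-- The unfolding lemma. -/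
theorem unfolding {a b : Ordinal.{0}} (hab : a ≤ b + 1) (hba : b ≤ a) (hb : 2 ≤ b)
    (hA : ∀ s, BF a (M.V s) (M.W s) (piF1 M.g (M.F s)))
    (hB : ∀ s, BF b (M.W s) (M.V s) (sw (piF1 M.g (M.F s)))) :
    ∀ β : Ordinal.{0}, (β ≤ a → ∀ s, BF β (M.V s) (M.U s) (piF M.g (M.F s))) ∧
      (β ≤ b → ∀ s, BF β (M.U s) (M.V s) (sw (piF M.g (M.F s)))) := by
  intro β
  induction β using WellFoundedLT.induction with
  | ind β ih =>
    have hup : β ≤ a → ∀ s, BF β (M.V s) (M.U s) (piF M.g (M.F s)) := by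
      intro hβa s
      refine up_of_down hA hβa (fun β' hβ' => (ih β' hβ').2 ?_) s
      exact Order.lt_add_one_iff.1 ((hβ'.trans_le hβa).trans_le hab)
    refine ⟨hup, ?_⟩
    intro hβb s
    rw [BF_iff]
    refine ⟨sw_finite.2 (piF_finite (M.hFf s)), ?_, (M.atom_pi s).sw, ?_⟩
    · rintro ⟨x, y⟩ ⟨h1, h2⟩
      simp only at h1 h2; subst h2
      exact ⟨M.map_mem_U h1, M.hFV s h1⟩
    · intro β' hβ' D hD hDf
      have h1β : (1 : Ordinal.{0}) ≤ β := Order.one_le_iff_pos.2 (zero_le.trans_lt hβ')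
      have h12 : (1 : Ordinal.{0}) < 2 := by norm_num
      have hm : max β' 1 < b := max_lt (hβ'.trans_le hβb) (h12.trans_le hb)
      have hmβ : max β' 1 ≤ β := max_le hβ'.le h1β
      have hU : ∀ s, BF (max β' 1) (M.V s) (M.U s) (piF M.g (M.F s)) := by
        rcases hmβ.eq_or_lt with h | h
        · rw [h]; exact hup (hβb.trans hba)
        · exact (ih _ h).1 ((hmβ.trans hβb).trans hba)
      set D' : Set (List κ) := {l | ∃ d ∈ D, l <+: d} with hD'
      have hD'f : D'.Finite := by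
        refine Set.Finite.subset (s := ⋃ d ∈ D, {l | l <+: d}) (hDf.biUnion fun d _ => ?_) ?_
        · refine (List.finite_toSet d.inits).subset ?_
          intro l hl
          exact (List.mem_inits _ _).2 hl
        · rintro l ⟨d, hd, hl⟩
          simp only [mem_iUnion]
          exact ⟨d, hd, hl⟩
      obtain ⟨N, hN⟩ : ∃ N, ∀ d ∈ D', d.length ≤ N := by
        obtain ⟨N, hN⟩ := (hD'f.image List.length).bddAbove
        exact ⟨N, fun d hd => hN ⟨d, hd, rfl⟩⟩
      have u1 : D' ⊆ M.V s := by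
        rintro l ⟨d, hd, hl⟩
        exact (M.hV s).of_prefix hl (hD hd)
      have u2 : ∀ l m, l ++ m ∈ D' → l ∈ D' := by
        rintro l m ⟨d, hd, hl⟩
        exact ⟨d, hd, (List.prefix_append l m).trans hl⟩
      obtain ⟨q, h1, h2, h3⟩ := down_aux hm (le_max_right _ _) hB hU N s D' u1 hD'f u2 hN
      exact ⟨q, h1, fun d hd => h2 d ⟨d, hd, List.prefix_rfl⟩, h3.mono (le_max_left _ _)⟩

end Machine

end Pool.Agent.Lib.MP_efc3dd_lc
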