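import Pool.Agent.Lib.MP_efc3dd_lc.XDefs

set_option autoImplicit false

/-!
# A counting argument
-/

namespace Pool.Agent.Lib.MP_efc3dd_lc

open Set

theorem count_key {κ : Type} {N : Set κ} {J : κ → Set κ} {h : κ → κ} {E : κ → κ → Prop}
    (hrefl : ∀ k, E k k) (hsymm : ∀ k j, E k j → E j k) (htr : ∀ i j k, E i j → E j k → E i k)
    (hJf : ∀ k ∈ N, (J k).Finite) (hJk : ∀ k ∈ N, k ∉ J k)
    (hJJ : ∀ k ∈ N, ∀ j ∈ J k, j ∈ N ∧ J j ⊆ J k)
    (hJE : ∀ k ∈ N, ∀ j ∈ J k, ∀ j', E j j' → j' ∈ J k)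
    (hh : InjOn h N) (hN : ∀ k ∈ N, E (h k) k ∨ h k ∈ J k) :
    ∀ k ∈ N, E (h k) k := by
  have _ := hrefl
  have _ := htr
  have key : ∀ n : ℕ, ∀ k ∈ N, (J k).ncard = n → E (h k) k := by
    intro n
    induction n using Nat.strong_induction_on with
    | _ n ih =>
      intro k hk hn
      rcases hN k hk with h1 | h1
      · exact h1
      · exfalso
        have hmaps : ∀ j ∈ J k, h j ∈ J k := by
          intro j hj
          obtain ⟨hjN, hjs⟩ := hJJ k hk j hj
          have hlt : (J j).ncard < (J k).ncard := by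
            refine Set.ncard_lt_ncard ⟨hjs, fun hs => ?_⟩ (hJf k hk)
            exact hJk j hjN (hs hj)
          have h2 : E (h j) j := ih _ (hn ▸ hlt) j hjN rfl
          exact hJE k hk j hj _ (hsymm _ _ h2)
        have hinj : InjOn h (J k) := hh.mono fun j hj => (hJJ k hk j hj).1
        have hsurj : SurjOn h (J k) (J k) := by
          have h3 : h '' J k = J k := by
            refine Set.eq_of_subset_of_ncard_le (image_subset_iff.2 hmaps) ?_ (hJf k hk)
            rw [hinj.ncard_image]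
          rw [SurjOn, h3]
        obtain ⟨j, hj, hjk⟩ := hsurj h1
        have : j = k := hh (hJJ k hk j hj).1 hk hjk
        exact hJk k hk (this ▸ hj)
  exact fun k hk => key _ k hk rfl

end Pool.Agent.Lib.MP_efc3dd_lc
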