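import Pool.Agent.Lib.MP_efc3dd_lc.First
import Pool.Agent.Lib.MP_efc3dd_lc.Embed

set_option autoImplicit false

/-!
# Definitions for the exact determination of the levels at which the bound is attained
-/

namespace Pool.Agent.Lib.MP_efc3dd_lc

open Set

/-! ### Successor levels -/

/-- Selection among the members of a family: `Kf` are the members that are kept, `Ai` the ones
that are taken infinitely often, and every other member `i` is absorbed by `ab i ∈ Ai`. -/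
structure Sel (γ : Ordinal.{0}) (I : Set ℕ) (C : ℕ → Set (List ℕ)) (Kf Ai : Set ℕ)
    (ab : ℕ → ℕ) : Prop where
  nil : ∀ i ∈ I, [] ∈ C i
  Kf_sub : Kf ⊆ I
  Ai_sub : Ai ⊆ I
  Ai_lim : ∀ a ∈ Ai, ¬ Alg γ I C a
  ab_mem : ∀ i ∈ I, i ∉ Kf → ab i ∈ Ai ∧ LE γ (C (ab i)) (C i)

/-- The new index set: `pair q 0` for `q ∈ Kf` and `pair a (n+1)` for `a ∈ Ai`. -/
def kIx (Kf Ai : Set ℕ) : Set ℕ :=
  {k | ((Nat.unpair k).2 = 0 ∧ (Nat.unpair k).1 ∈ Kf) ∨
    ((Nat.unpair k).2 ≠ 0 ∧ (Nat.unpair k).1 ∈ Ai)}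

/-- The invariant: `u`, `us` are the used indices on the two sides. -/
structure Inv2 (γ : Ordinal.{0}) (I : Set ℕ) (C : ℕ → Set (List ℕ)) (Kf : Set ℕ)
    (u us : Set ℕ) : Prop where
  fu : u.Finite
  fus : us.Finite
  i2 : ∀ j ∈ Kf, Nat.pair j 0 ∈ us → j ∈ u
  i3 : ∀ j ∈ Kf, j ∈ u → Nat.pair j 0 ∉ us →
    ∃ q ∈ I, ¬ Alg γ I C q ∧ LE γ (C q) (C j)

/-- All the data chosen at one node: `I` are the (indices of the) children, `C i` the subtree above
the child `i`, `G` the finite protected part. `Y k` is the finite part that is protected above the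
new child `k`; the protected child `i` is represented by the new child `g i`, through the position
`η i`. -/
structure Pick (γ : Ordinal.{0}) (I : Set ℕ) (C : ℕ → Set (List ℕ)) (G : Set (List ℕ))
    (Kf Ai : Set ℕ) (ab : ℕ → ℕ) (Y : ℕ → Set (List ℕ)) (g : ℕ → ℕ)
    (η : ℕ → Set (List ℕ × List ℕ)) : Prop where
  sel : Sel γ I C Kf Ai ab
  Yt : ∀ k ∈ kIx Kf Ai, IsT (Y k)
  Yf : ∀ k ∈ kIx Kf Ai, (Y k).Finite
  Ys : ∀ k ∈ kIx Kf Ai, Y k ⊆ C (Nat.unpair k).1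
  Ya : ∀ k ∈ kIx Kf Ai, ∀ k' ∈ kIx Kf Ai, (Nat.unpair k).2 ≠ 0 → (Nat.unpair k').2 ≠ 0 →
    (Nat.unpair k).1 = (Nat.unpair k').1 → Y k = Y k'
  fin0 : ∀ k ∈ kIx Kf Ai, (Nat.unpair k).2 = 0 →
    {j | j ∈ I ∧ Ext γ (C (Nat.unpair k).1) (Y k) (C j)}.Finite
  inf1 : ∀ k ∈ kIx Kf Ai, (Nat.unpair k).2 ≠ 0 →
    {q | q ∈ Kf ∧ Ext γ (C (Nat.unpair k).1) (Y k) (C q)}.Finite
  inf2 : ∀ k ∈ kIx Kf Ai, (Nat.unpair k).2 ≠ 0 →
    ∀ a ∈ Ai, Ext γ (C (Nat.unpair k).1) (Y k) (C a) → a = (Nat.unpair k).1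
  gm : ∀ i, [i] ∈ G → g i ∈ kIx Kf Ai
  gi : ∀ i j, [i] ∈ G → [j] ∈ G → g i = g j → i = j
  g1 : ∀ i, [i] ∈ G → i ∈ Kf → g i = Nat.pair i 0
  g2 : ∀ i, [i] ∈ G → (Nat.unpair (g i)).2 = 0 → i ∈ Kf ∧ g i = Nat.pair i 0
  eb : ∀ i, [i] ∈ G → BF γ (C i) (C (Nat.unpair (g i)).1) (η i)
  en : ∀ i, [i] ∈ G → (([], []) : List ℕ × List ℕ) ∈ η i
  ed : ∀ i l, i :: l ∈ G → ∃ m, (l, m) ∈ η i
  es : ∀ i l m, [i] ∈ G → (l, m) ∈ η i → i :: l ∈ G ∧ m ∈ Y (g i)

/-- The data chosen at all the states. -/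
structure Sys (T : Set (List ℕ)) (γ : Ordinal.{0}) where
  Kf : State T → Set ℕ
  Ai : State T → Set ℕ
  ab : State T → ℕ → ℕ
  Y : State T → ℕ → Set (List ℕ)
  g : State T → ℕ → ℕ
  η : State T → ℕ → Set (List ℕ × List ℕ)
  pick : ∀ s : State T, Pick γ (cI T s.1.1) (cC T s.1.1) s.1.2 (Kf s) (Ai s) (ab s) (Y s) (g s)
    (η s)

namespace Sys

variable {T : Set (List ℕ)} {γ : Ordinal.{0}} (X : Sys T γ)

/-- Indices of the children of a state. -/
def K (s : State T) : Set ℕ := kIx (X.Kf s) (X.Ai s)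

open Classical in
/-- The transition function. -/
noncomputable def c (s : State T) (k : ℕ) : State T :=
  if h : k ∈ X.K s then
    ⟨(s.1.1 ++ [(Nat.unpair k).1], X.Y s k),
      (X.pick s).Yt k h, (X.pick s).Yf k h, (X.pick s).Ys k h⟩
  else ⟨(s.1.1 ++ [(Nat.unpair k).1], {[]}), isT_nil, finite_singleton _, by
    rintro _ rfl
    exact nil_mem_sub⟩

theorem c_node (s : State T) (k : ℕ) : (X.c s k).1.1 = s.1.1 ++ [(Nat.unpair k).1] := by
  unfold c
  split_ifs <;> rfl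

theorem c_prot {s : State T} {k : ℕ} (hk : k ∈ X.K s) : (X.c s k).1.2 = X.Y s k := by
  unfold c
  rw [dif_pos hk]

/-- The tree of the state `s` after one modification. -/
def W (s : State T) : Set (List ℕ) := node (X.K s) (newC (cC T s.1.1))

/-- The unfolding. -/
noncomputable def U (s : State T) : Set (List ℕ) := unf X.K X.c s

theorem U_eq (s : State T) : X.U s = node (X.K s) fun k => X.U (X.c s k) := unf_eq

/-- The protected position: `Pr s l n` says that the protected node `l` of the state `s` is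
represented by the node `n` of the unfolding. -/
inductive Pr : State T → List ℕ → List ℕ → Prop
  | nil (s : State T) : Pr s [] []
  | cons {s : State T} {i : ℕ} {l m n : List ℕ} : i :: l ∈ s.1.2 → (l, m) ∈ X.η s i →
      Pr (X.c s (X.g s i)) m n → Pr s (i :: l) (X.g s i :: n)

end Sys

/-- Every child is singled out by a `Σ_α` property, up to `≡_α` and up to finitely many siblings
which are singled out before it. -/
def FineJ {κ : Type} (α : Ordinal.{0}) (T : Set (List κ)) : Prop :=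
  ∃ J : List κ → κ → Set κ, ∀ v k, v ++ [k] ∈ T →
    (J v k).Finite ∧ k ∉ J v k ∧
    (∀ j ∈ J v k, v ++ [j] ∈ T ∧ J v j ⊆ J v k ∧
      ∀ j', v ++ [j'] ∈ T → Eqv α (sub T (v ++ [j])) (sub T (v ++ [j'])) → j' ∈ J v k) ∧
    ∃ φ : Fm 1, Lvl true α φ ∧ Sat1 (sub T (v ++ [k])) φ ∧
      ∀ j, v ++ [j] ∈ T → Sat1 (sub T (v ++ [j])) φ →
        Eqv α (sub T (v ++ [j])) (sub T (v ++ [k])) ∨ j ∈ J v k

/-- The same up to equality of subtrees. -/
def GoodJ {κ : Type} (α : Ordinal.{0}) (T : Set (List κ)) : Prop :=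
  ∃ J : List κ → κ → Set κ, ∀ v k, v ++ [k] ∈ T →
    (J v k).Finite ∧ k ∉ J v k ∧
    (∀ j ∈ J v k, v ++ [j] ∈ T ∧ J v j ⊆ J v k ∧
      ∀ j', v ++ [j'] ∈ T → sub T (v ++ [j]) = sub T (v ++ [j']) → j' ∈ J v k) ∧
    ∃ φ : Fm 1, Lvl true α φ ∧ Sat1 (sub T (v ++ [k])) φ ∧
      ∀ j, v ++ [j] ∈ T → Sat1 (sub T (v ++ [j])) φ →
        sub T (v ++ [j]) = sub T (v ++ [k]) ∨ j ∈ J v k

/-! ### Limit levels -/

/-- `l` is a list of naturals whose names are decreasing ordinals below `ξ`. -/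
def dec (o : ℕ → Ordinal.{0}) : Ordinal.{0} → List ℕ → Prop
  | _, [] => True
  | ξ, n :: l => o (Nat.unpair n).1 < ξ ∧ dec o (o (Nat.unpair n).1) l

/-- The saturated ranked tree of rank `ξ`. -/
def RT (o : ℕ → Ordinal.{0}) (ξ : Ordinal.{0}) : Set (List ℕ) := {l | dec o ξ l}

theorem RT_eq (o : ℕ → Ordinal.{0}) (ξ : Ordinal.{0}) :
    RT o ξ = node {n | o (Nat.unpair n).1 < ξ} fun n => RT o (o (Nat.unpair n).1) := by
  ext l
  cases l with
  | nil => simp [RT, dec]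
  | cons n l => simp [RT, dec]

theorem isT_RT (o : ℕ → Ordinal.{0}) (ξ : Ordinal.{0}) : IsT (RT o ξ) := by
  refine ⟨trivial, fun l => ?_⟩
  induction l generalizing ξ with
  | nil => intros; trivial
  | cons n l ih =>
    intro m h
    exact ⟨h.1, ih _ m h.2⟩

open Classical in
/-- The tree coding the finite set `F`: above its root there are infinitely many copies of the
ranked trees of rank `ω·β_k` (`k ∉ F`) or `ω·β_k + 1` (`k ∈ F`). -/
noncomputable def TF (o : ℕ → Ordinal.{0}) (b : ℕ → Ordinal.{0}) (F : Finset ℕ) :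
    Set (List ℕ) :=
  node univ fun n => RT o (Ordinal.omega0 * b (Nat.unpair n).1 +
    if (Nat.unpair n).1 ∈ F then 1 else 0)

/-- The tree with infinitely many copies of each `TF F`. -/
noncomputable def M0 (o : ℕ → Ordinal.{0}) (b : ℕ → Ordinal.{0}) : Set (List ℕ) :=
  node univ fun n => TF o b (Denumerable.ofNat (Finset ℕ) (Nat.unpair n).1)

/-- The setting at a limit level `α`. -/
structure LimSet (α : Ordinal.{0}) (o b : ℕ → Ordinal.{0}) : Prop where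
  lim : ∀ β < α, β + 1 < α
  pos : 0 < α
  ctb : α < Ordinal.omega 1
  surj : ∀ ξ < Ordinal.omega0 * α, ∃ n, o n = ξ
  lt : ∀ n, b n < α
  mono : ∀ m n, m < n → b m < b n
  cof : ∀ β < α, ∃ n, β ≤ b n

end Pool.Agent.Lib.MP_efc3dd_lc
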