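import Pool.Agent.Lib.MP_efc3dd_lc.XDefs

set_option autoImplicit false

/-!
# Every finite part of the tree of a state embeds into its unfolding (successor levels)
-/

namespace Pool.Agent.Lib.MP_efc3dd_lc

open Set

variable {T : Set (List ℕ)} {γ : Ordinal.{0}}

private theorem emb2 (X : Sys T γ) (hT : IsT T) (hγ : 1 ≤ γ) : ∀ (n N : ℕ) (s : State T)
    (D : Set (List ℕ)), D ⊆ sub T s.1.1 → D.Finite → D.ncard ≤ n → (∀ d ∈ D, d.length ≤ N) →
    ∃ q : Set (List ℕ × List ℕ), q.Finite ∧
      (∀ z ∈ q, z.1 ∈ X.U s ∧ z.2 ∈ sub T s.1.1) ∧ Atom q ∧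
      (([], []) : List ℕ × List ℕ) ∈ q ∧ ∀ d ∈ D, ∃ x, (x, d) ∈ q := by
  have base : ∀ (s : State T) (D : Set (List ℕ)), D ⊆ {[]} →
      ∃ q : Set (List ℕ × List ℕ), q.Finite ∧
      (∀ z ∈ q, z.1 ∈ X.U s ∧ z.2 ∈ sub T s.1.1) ∧ Atom q ∧
      (([], []) : List ℕ × List ℕ) ∈ q ∧ ∀ d ∈ D, ∃ x, (x, d) ∈ q := by
    intro s D hD
    refine ⟨{([], [])}, finite_singleton _, ?_, ?_, rfl, ?_⟩
    · rintro _ rfl
      exact ⟨nil_mem_unf, nil_mem_sub⟩
    · rintro _ rfl _ rfl
      simp
    · intro d hd
      have : d = [] := hD hd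
      subst this
      exact ⟨[], rfl⟩
  intro n
  induction n with
  | zero =>
    intro N s D _ hf hc _
    refine base s D ?_
    rw [Nat.le_zero, ncard_eq_zero hf] at hc
    rw [hc]
    exact empty_subset _
  | succ n ihn =>
    intro N
    induction N with
    | zero =>
      intro s D _ _ _ hl
      refine base s D fun d hd => ?_
      have := hl d hd
      rwa [Nat.le_zero, List.length_eq_zero_iff] at this
    | succ N ihN =>
      intro s D hD hf hc hl
      classical
      have hP := (X.pick s).sel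
      set Dj : ℕ → Set (List ℕ) := fun j => {l | j :: l ∈ D} with hDj
      have hDjf : ∀ j, (Dj j).Finite := fun j => tails_finite hf j
      have hDjc : ∀ j, (Dj j).ncard ≤ n + 1 := fun j =>
        (ncard_le_ncard_of_injOn (fun l => j :: l) (fun l hl => hl)
          (fun _ _ _ _ h => List.tail_eq_of_cons_eq h) hf).trans hc
      have hDjI : ∀ j l, l ∈ Dj j → j ∈ cI T s.1.1 ∧ l ∈ cC T s.1.1 j := by
        intro j l hl
        rcases hD hl with h | h
        · cases h
        · have h' : s.1.1 ++ [j] ++ l ∈ T := by simpa using h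
          exact ⟨hT.pre _ _ h', Or.inr h'⟩
      -- kept children
      let prot : ℕ → Prop := fun j => j ∈ X.Kf s
      have hQ : ∀ j, ∃ q : Set (List ℕ × List ℕ), q.Finite ∧
          (∀ z ∈ q, z.1 ∈ X.U (X.c s (Nat.pair j 0)) ∧ z.2 ∈ cC T s.1.1 j) ∧ Atom q ∧
          (([], []) : List ℕ × List ℕ) ∈ q ∧ ∀ d ∈ Dj j, ∃ x, (x, d) ∈ q := by
        intro j
        have e : sub T (X.c s (Nat.pair j 0)).1.1 = cC T s.1.1 j := by
          rw [X.c_node, Nat.unpair_pair]
          rfl
        have h1 := ihN (X.c s (Nat.pair j 0)) (Dj j)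
          (by rw [e]; exact fun l hl => (hDjI j l hl).2) (hDjf j) (hDjc j)
          (fun d hd => by have := hl _ hd; simpa using this)
        rwa [e] at h1
      choose Q hQ1 hQ2 hQ3 hQ4 hQ5 using hQ
      -- the other children
      let kk : ℕ × List ℕ → ℕ := fun b => if prot b.1 then Nat.pair b.1 0 else
        Nat.pair (X.ab s b.1) (Encodable.encode b + 1)
      let Cm : ℕ × List ℕ → Set (List ℕ) := fun b => {d | d ∈ Dj b.1 ∧ b.2 <+: d ∧ d ≠ b.2}
      have hX : ∀ b : ℕ × List ℕ, ∃ (Z : List ℕ → List ℕ) (q1 : Set (List ℕ × List ℕ)),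
          ¬ prot b.1 → b.1 ∈ cI T s.1.1 → b.2 ∈ Dj b.1 →
          (∀ d ∈ Cm b, ∀ d' ∈ Cm b, (Z d <+: Z d' ↔ d <+: d')) ∧ (∀ d ∈ Cm b, Z d ≠ []) ∧
          q1.Finite ∧ (∀ z ∈ q1, z.1 ∈ X.U (X.c s (kk b))) ∧ Atom q1 ∧
          (([], []) : List ℕ × List ℕ) ∈ q1 ∧ ∀ d ∈ Cm b, ∃ u, (u, Z d) ∈ q1 := by
        rintro ⟨j, m⟩
        by_cases hb : ¬ prot j ∧ j ∈ cI T s.1.1 ∧ m ∈ Dj j
        swap
        · exact ⟨id, ∅, fun h1 h2 h3 => absurd ⟨h1, h2, h3⟩ hb⟩
        obtain ⟨hb1, hb2, hb3⟩ := hb
        have hCf : (Cm (j, m)).Finite := (hDjf j).subset fun d hd => hd.1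
        have hCc : (Cm (j, m)).ncard ≤ n := by
          have h1 : (Cm (j, m)).ncard < (Dj j).ncard := by
            refine ncard_lt_ncard ⟨fun d hd => hd.1, fun h => ?_⟩ (hDjf j)
            exact (h hb3).2.2 rfl
          have := hDjc j
          omega
        obtain ⟨q0, e1, e2, e3⟩ := BF.step (hP.ab_mem j hb2 hb1).2
          (Order.one_le_iff_pos.1 hγ) (D := Cm (j, m)) (fun d hd => (hDjI j d hd.1).2) hCf
        choose! Z hZ using e2
        have hat : Atom q0 := e3.atom.sw
        have hkk : kk (j, m) = Nat.pair (X.ab s j) (Encodable.encode (j, m) + 1) :=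
          if_neg hb1
        have enode : sub T (X.c s (kk (j, m))).1.1 = cC T s.1.1 (X.ab s j) := by
          rw [X.c_node, hkk, Nat.unpair_pair]
          rfl
        obtain ⟨N', hN'⟩ : ∃ N', ∀ d ∈ Z '' Cm (j, m), d.length ≤ N' := by
          obtain ⟨N', hN'⟩ := ((hCf.image Z).image List.length).bddAbove
          exact ⟨N', fun d hd => hN' ⟨d, hd, rfl⟩⟩
        obtain ⟨q1, f1, f2, f3, f4, f5⟩ := ihn N' (X.c s (kk (j, m))) (Z '' Cm (j, m))
          (by
            rw [enode]
            rintro _ ⟨d, hd, rfl⟩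
            exact (e3.mem (a := (d, Z d)) (hZ d hd)).2)
          (hCf.image Z) ((ncard_image_le hCf).trans hCc) hN'
        refine ⟨Z, q1, fun _ _ _ => ⟨?_, ?_, f1, fun z hz => (f2 z hz).1, f3, f4, ?_⟩⟩
        · intro d hd d' hd'
          exact hat _ (hZ d hd) _ (hZ d' hd')
        · intro d hd h
          have h1 := hZ d hd
          have h2 := (hat.eq_iff h1 (e1 mem_rt)).1 h
          simp only at h2
          have h3 := hd.2.1
          have h4 := hd.2.2
          simp only at h3 h4
          rw [h2] at h3 h4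
          exact h4 (List.prefix_nil.1 h3).symm
        · intro d hd
          exact f5 _ ⟨d, hd, rfl⟩
      choose Z q1 hX using hX
      let R : ℕ × List ℕ → Set (List ℕ × List ℕ) := fun b => if prot b.1 then Q b.1 else
        {z | z = ([], b.2) ∨ (z.2 ∈ Cm b ∧ (z.1, Z b z.2) ∈ q1 b)}
      let B : Set (ℕ × List ℕ) := {b | b.1 ∈ cI T s.1.1 ∧
        ((prot b.1 ∧ b.2 = [] ∧ (∃ l, b.1 :: l ∈ D)) ∨
        (¬ prot b.1 ∧ b.2 ∈ Dj b.1 ∧ ∀ m' ∈ Dj b.1, m' <+: b.2 → m' = b.2))}
      have hBf : B.Finite := by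
        have h1 : ((fun j => (j, ([] : List ℕ))) '' {j | ∃ l, j :: l ∈ D}).Finite :=
          (heads_finite hf).image _
        have h2 : ((fun l : List ℕ => (l.headD 0, l.tail)) '' D).Finite := hf.image _
        refine (h1.union h2).subset ?_
        rintro ⟨j, m⟩ ⟨_, ⟨_, h3, h4⟩ | ⟨_, h3, _⟩⟩
        · simp only at h3 h4
          subst h3
          exact Or.inl ⟨j, h4, rfl⟩
        · exact Or.inr ⟨j :: m, h3, rfl⟩
      have hRp : ∀ b, prot b.1 → R b = Q b.1 := fun b hb => if_pos hb
      have hRl : ∀ b, ¬ prot b.1 → R b =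
        {z | z = ([], b.2) ∨ (z.2 ∈ Cm b ∧ (z.1, Z b z.2) ∈ q1 b)} := fun b hb => if_neg hb
      have hkkp : ∀ b, prot b.1 → kk b = Nat.pair b.1 0 := fun b hb => if_pos hb
      have hkkl : ∀ b, ¬ prot b.1 → kk b =
        Nat.pair (X.ab s b.1) (Encodable.encode b + 1) := fun b hb => if_neg hb
      have hBl : ∀ b ∈ B, ¬ prot b.1 → b.2 ∈ Dj b.1 ∧ ∀ m' ∈ Dj b.1, m' <+: b.2 → m' = b.2 := by
        rintro b ⟨_, h | h⟩ hn
        · exact absurd h.1 hn
        · exact h.2
      have hkinj : InjOn kk B := by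
        intro b hb b' hb' e
        by_cases h1 : prot b.1 <;> by_cases h2 : prot b'.1
        · rw [hkkp b h1, hkkp b' h2] at e
          have e' := congrArg Nat.unpair e
          simp only [Nat.unpair_pair, Prod.mk.injEq] at e'
          have h3 : b.2 = [] := by
            rcases hb.2 with h | h
            · exact h.2.1
            · exact absurd h1 h.1
          have h4 : b'.2 = [] := by
            rcases hb'.2 with h | h
            · exact h.2.1
            · exact absurd h2 h.1
          exact Prod.ext e'.1 (h3.trans h4.symm)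
        · rw [hkkp b h1, hkkl b' h2] at e
          have e' := congrArg Nat.unpair e
          simp only [Nat.unpair_pair, Prod.mk.injEq] at e'
          omega
        · rw [hkkl b h1, hkkp b' h2] at e
          have e' := congrArg Nat.unpair e
          simp only [Nat.unpair_pair, Prod.mk.injEq] at e'
          omega
        · rw [hkkl b h1, hkkl b' h2] at e
          have e' := congrArg Nat.unpair e
          simp only [Nat.unpair_pair, Prod.mk.injEq, Nat.add_right_cancel_iff] at e'
          exact Encodable.encode_injective e'.2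
      have hRat : ∀ b ∈ B, Atom (R b) := by
        intro b hb
        by_cases h1 : prot b.1
        · rw [hRp b h1]; exact hQ3 _
        · rw [hRl b h1]
          obtain ⟨g1, g2⟩ := hBl b hb h1
          obtain ⟨x1, x2, x3, x4, x5, x6, x7⟩ := hX b h1 hb.1 g1
          have hne : ∀ u d, d ∈ Cm b → (u, Z b d) ∈ q1 b → u ≠ [] := by
            rintro u d hd hu rfl
            exact x2 d hd ((x5.eq_iff hu x6).1 rfl)
          rintro ⟨u, d⟩ (h | ⟨hd, hu⟩) ⟨u', d'⟩ (h' | ⟨hd', hu'⟩)
          · simp only [Prod.mk.injEq] at h h'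
            rw [h.1, h.2, h'.1, h'.2]
            simp
          · simp only [Prod.mk.injEq] at h
            simp only at hd' hu' ⊢
            rw [h.1, h.2]
            exact ⟨fun _ => hd'.2.1, fun _ => List.nil_prefix⟩
          · simp only [Prod.mk.injEq] at h'
            simp only at hd hu ⊢
            rw [h'.1, h'.2]
            constructor
            · intro h3
              exact absurd (List.prefix_nil.1 h3) (hne u d hd hu)
            · intro h3
              exact absurd (prefix_antisymm h3 hd.2.1) hd.2.2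
          · simp only at hd hu hd' hu' ⊢
            rw [← x1 d hd d' hd']
            exact x5 _ hu _ hu'
      have hRpre : ∀ b ∈ B, ¬ prot b.1 → ∀ z ∈ R b, b.2 <+: z.2 := by
        intro b hb h1 z hz
        rw [hRl b h1] at hz
        rcases hz with rfl | hz
        · exact List.prefix_rfl
        · exact hz.1.2.1
      refine ⟨{z | z = ([], []) ∨ ∃ b ∈ B, ∃ y ∈ R b, z = (kk b :: y.1, b.1 :: y.2)},
        ?_, ?_, block_atom hkinj hRat ?_, Or.inl rfl, ?_⟩
      · -- finite
        have h1 : ∀ b ∈ B, (R b).Finite := by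
          intro b hb
          by_cases h1 : prot b.1
          · rw [hRp b h1]; exact hQ1 _
          · rw [hRl b h1]
            obtain ⟨g1, g2⟩ := hBl b hb h1
            obtain ⟨x1, x2, x3, x4, x5, x6, x7⟩ := hX b h1 hb.1 g1
            have hCf : (Cm b).Finite := (hDjf b.1).subset fun d hd => hd.1
            refine ((finite_singleton (([], b.2) : List ℕ × List ℕ)).union
              ((x3.image Prod.fst).prod hCf)).subset ?_
            rintro z (h | ⟨h2, h3⟩)
            · exact Or.inl h
            · exact Or.inr ⟨⟨_, h3, rfl⟩, h2⟩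
        have h2 : (⋃ b ∈ B, (fun y : List ℕ × List ℕ => (kk b :: y.1, b.1 :: y.2)) '' R b).Finite :=
          hBf.biUnion fun b hb => (h1 b hb).image _
        refine ((finite_singleton (([], []) : List ℕ × List ℕ)).union h2).subset ?_
        rintro z (h | ⟨b, hb, y, hy, rfl⟩)
        · exact Or.inl h
        · refine Or.inr ?_
          simp only [mem_iUnion]
          exact ⟨b, hb, y, hy, rfl⟩
      · -- membership
        rintro z (rfl | ⟨b, hb, y, hy, rfl⟩)
        · exact ⟨nil_mem_unf, nil_mem_sub⟩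
        · have hVmem : ∀ l, l ∈ cC T s.1.1 b.1 → b.1 :: l ∈ sub T s.1.1 := by
            intro l hl
            rw [sub_eq_node hT, cons_mem_node]
            exact ⟨hb.1, hl⟩
          by_cases h1 : prot b.1
          · rw [hRp b h1] at hy
            have h2 := hQ2 _ _ hy
            refine ⟨?_, hVmem _ h2.2⟩
            rw [hkkp b h1]
            refine cons_mem_unf.2 ⟨Or.inl ⟨?_, ?_⟩, h2.1⟩
            · rw [Nat.unpair_pair]
            · rw [Nat.unpair_pair]; exact h1
          · rw [hRl b h1] at hy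
            obtain ⟨g1, g2⟩ := hBl b hb h1
            obtain ⟨x1, x2, x3, x4, x5, x6, x7⟩ := hX b h1 hb.1 g1
            have hK : kk b ∈ X.K s := by
              rw [hkkl b h1]
              refine Or.inr ⟨?_, ?_⟩
              · rw [Nat.unpair_pair]; exact Nat.succ_ne_zero _
              · rw [Nat.unpair_pair]; exact (hP.ab_mem b.1 hb.1 h1).1
            rcases hy with rfl | hy
            · exact ⟨cons_mem_unf.2 ⟨hK, nil_mem_unf⟩, hVmem _ (hDjI _ _ g1).2⟩
            · exact ⟨cons_mem_unf.2 ⟨hK, x4 (y.1, Z b y.2) hy.2⟩, hVmem _ (hDjI _ _ hy.1.1).2⟩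
      · -- different blocks
        intro b hb b' hb' hne e z hz z' hz' hzz
        by_cases h1 : prot b.1
        · have h2 : prot b'.1 := e ▸ h1
          have h3 : b.2 = [] := by
            rcases hb.2 with h | h
            · exact h.2.1
            · exact absurd h1 h.1
          have h4 : b'.2 = [] := by
            rcases hb'.2 with h | h
            · exact h.2.1
            · exact absurd h2 h.1
          exact hne (Prod.ext e (h3.trans h4.symm))
        · have h2 : ¬ prot b'.1 := e ▸ h1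
          have h3 := (hRpre b hb h1 z hz).trans hzz
          have h4 := hRpre b' hb' h2 z' hz'
          have g := hBl b hb h1
          have g' := hBl b' hb' h2
          rcases List.prefix_or_prefix_of_prefix h3 h4 with h5 | h5
          · exact hne (Prod.ext e (g'.2 _ (e ▸ g.1) h5))
          · exact hne (Prod.ext e (g.2 _ (e ▸ g'.1) h5).symm)
      · -- covering
        intro d hd
        cases d with
        | nil => exact ⟨[], Or.inl rfl⟩
        | cons j l =>
          have hjl := hDjI j l hd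
          by_cases hp : prot j
          · obtain ⟨x, hx⟩ := hQ5 j l hd
            refine ⟨_, Or.inr ⟨(j, []), ⟨hjl.1, Or.inl ⟨hp, rfl, l, hd⟩⟩, (x, l), ?_, rfl⟩⟩
            rw [hRp _ hp]
            exact hx
          · obtain ⟨m, h1, h2, h3⟩ := exists_min_prefix (D := Dj j) (l := l) hd
            have hb : (j, m) ∈ B := ⟨hjl.1, Or.inr ⟨hp, h1, h3⟩⟩
            obtain ⟨x1, x2, x3, x4, x5, x6, x7⟩ := hX (j, m) hp hjl.1 h1
            by_cases hm : l = m
            · subst hm
              refine ⟨_, Or.inr ⟨(j, l), hb, ([], l), ?_, rfl⟩⟩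
              rw [hRl _ hp]
              exact Or.inl rfl
            · have hC : l ∈ Cm (j, m) := ⟨hd, h2, hm⟩
              obtain ⟨u, hu⟩ := x7 l hC
              refine ⟨_, Or.inr ⟨(j, m), hb, (u, l), ?_, rfl⟩⟩
              rw [hRl _ hp]
              exact Or.inr ⟨hC, hu⟩

theorem Sys.down_one (X : Sys T γ) (hT : IsT T) (hγ : 1 ≤ γ) (s : State T) :
    LE 1 (X.U s) (sub T s.1.1) := by
  rw [LE, BF_iff]
  refine ⟨finite_singleton _, ?_, ?_, ?_⟩
  · rintro _ rfl
    exact ⟨nil_mem_unf, nil_mem_sub⟩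
  · rintro _ rfl _ rfl
    simp
  · intro β hβ D hD hf
    obtain rfl : β = 0 := Order.lt_one_iff.1 hβ
    obtain ⟨N, hN⟩ : ∃ N, ∀ d ∈ D, d.length ≤ N := by
      obtain ⟨N, hN⟩ := (hf.image List.length).bddAbove
      exact ⟨N, fun d hd => hN ⟨d, hd, rfl⟩⟩
    obtain ⟨q, h1, h2, h3, h4, h5⟩ := emb2 X hT hγ D.ncard N s D hD hf le_rfl hN
    refine ⟨q, ?_, h5, ?_⟩
    · rintro _ rfl
      exact h4
    · rw [BF_iff]
      refine ⟨sw_finite.2 h1, fun z hz => (h2 _ hz).symm, h3.sw, fun β' hβ' => ?_⟩
      exact absurd hβ' (not_lt.2 zero_le)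

end Pool.Agent.Lib.MP_efc3dd_lc
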