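import Pool.Agent.Lib.MP_efc3dd_lc.XLocal

set_option autoImplicit false

/-!
# The protected position between the tree of a state and its unfolding
-/

namespace Pool.Agent.Lib.MP_efc3dd_lc

open Set

namespace Sys

variable {T : Set (List ℕ)} {γ : Ordinal.{0}} (X : Sys T γ)

theorem prot_rest (s : State T) {E : Set ℕ} (hE : ∀ i ∈ E, [i] ∈ s.1.2) :
    Rest γ (cI T s.1.1 \ E) (cC T s.1.1) (X.K s \ X.g s '' E) (newC (cC T s.1.1)) := by
  have hp := X.pick s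
  have hEf : E.Finite := (heads_finite s.2.2.1).subset fun i hi => ⟨[], hE i hi⟩
  refine (hp.sel.RAB γ le_rfl E (X.g s '' E) ⟨hEf, hEf.image _, ?_, ?_⟩).1
  · rintro j hj ⟨i, hi, h⟩
    have h0 : (Nat.unpair (X.g s i)).2 = 0 := by rw [h, Nat.unpair_pair]
    obtain ⟨_, h2⟩ := hp.g2 i (hE i hi) h0
    rw [h2] at h
    have := congrArg Nat.unpair h
    simp only [Nat.unpair_pair, Prod.mk.injEq] at this
    exact this.1 ▸ hi
  · intro j hj hjE hn
    exact absurd ⟨j, hjE, hp.g1 j (hE j hjE) hj⟩ hn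

theorem Pr_nil {s : State T} {n : List ℕ} (h : X.Pr s [] n) : n = [] := by
  cases h; rfl

theorem prot_aux (hT : IsT T) (hγ : 1 ≤ γ)
    (hle : ∀ s : State T, LE γ (sub T s.1.1) (X.U s)) :
    ∀ (N : ℕ) (s : State T) (H : Set (List ℕ)), IsT H → H.Finite → H ⊆ s.1.2 →
      (∀ l ∈ H, l.length ≤ N) →
      BF γ (sub T s.1.1) (X.U s) {z | z.1 ∈ H ∧ X.Pr s z.1 z.2} ∧
        ∀ l ∈ H, ∃ n, X.Pr s l n := by
  intro N
  induction N with
  | zero =>
    intro s H hH hHf hHs hl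
    have h0 : ∀ l ∈ H, l = [] := fun l h => List.length_eq_zero_iff.1 (Nat.le_zero.1 (hl l h))
    refine ⟨(hle s).pos ?_, ?_⟩
    · rintro ⟨l, n⟩ ⟨h1, h2⟩
      simp only at h1 h2
      obtain rfl := h0 l h1
      rw [X.Pr_nil h2]
      rfl
    · intro l h
      obtain rfl := h0 l h
      exact ⟨[], .nil s⟩
  | succ N ih =>
    intro s H hH hHf hHs hl
    have hp := X.pick s
    set E : Set ℕ := {i | [i] ∈ H} with hE
    have hEG : ∀ i ∈ E, [i] ∈ s.1.2 := fun i hi => hHs hi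
    have hEf : E.Finite := (heads_finite hHf).subset fun i hi => ⟨[], hi⟩
    have hEI : ∀ i ∈ E, i ∈ cI T s.1.1 := by
      intro i hi
      rcases s.2.2.2 (hEG i hi) with h | h
      · cases h
      · exact h
    let η' : ℕ → Set (List ℕ × List ℕ) := fun i => {z | z ∈ X.η s i ∧ i :: z.1 ∈ H}
    let Mi : ℕ → Set (List ℕ) := fun i => {m | ∃ l, (l, m) ∈ η' i}
    have hη' : ∀ i ∈ E, BF γ (cC T s.1.1 i) (cC T s.1.1 (Nat.unpair (X.g s i)).1) (η' i) :=
      fun i hi => (hp.eb i (hEG i hi)).pos fun z hz => hz.1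
    have hηn : ∀ i ∈ E, (([], []) : List ℕ × List ℕ) ∈ η' i := fun i hi =>
      ⟨hp.en i (hEG i hi), hi⟩
    have hηd : ∀ i ∈ E, ∀ l, i :: l ∈ H → ∃ m, (l, m) ∈ η' i := by
      intro i hi l h
      obtain ⟨m, hm⟩ := hp.ed i l (hHs h)
      exact ⟨m, hm, h⟩
    have hcl : ∀ i ∈ E, ∀ l m, (l, m) ∈ η' i → ∀ c, c <+: l → ∃ d, (c, d) ∈ η' i := by
      intro i hi l m h c hc
      refine hηd i hi c (hH.of_prefix (m := i :: l) ?_ h.2)
      simpa using hc
    have hMt : ∀ i ∈ E, IsT (Mi i) := by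
      intro i hi
      refine ⟨⟨[], hηn i hi⟩, ?_⟩
      rintro m1 m2 ⟨l, hlm⟩
      obtain ⟨a', _, h2⟩ := (hη' i hi).pre_mem hγ (isT_sub hT _) hlm (hcl i hi _ _ hlm)
        (List.prefix_append m1 m2)
      exact ⟨a', h2⟩
    have hMf : ∀ i ∈ E, (Mi i).Finite := by
      intro i hi
      refine ((hη' i hi).finite.image Prod.snd).subset ?_
      rintro m ⟨l, h⟩
      exact ⟨_, h, rfl⟩
    have hMl : ∀ i ∈ E, ∀ m ∈ Mi i, m.length ≤ N := by
      rintro i hi m ⟨l, h⟩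
      have h1 := (hη' i hi).length_eq hγ (isT_sub hT _) h (hcl i hi _ _ h)
      have h2 := hl _ h.2
      simp only [List.length_cons] at h2
      omega
    have hMs : ∀ i ∈ E, Mi i ⊆ (X.c s (X.g s i)).1.2 := by
      rintro i hi m ⟨l, h⟩
      rw [X.c_prot (hp.gm i (hEG i hi))]
      exact (hp.es i l m (hEG i hi) h.1).2
    have IH := fun i (hi : i ∈ E) => ih (X.c s (X.g s i)) (Mi i) (hMt i hi) (hMf i hi)
      (hMs i hi) (hMl i hi)
    -- first step
    have e0 : sub T s.1.1 = node (cI T s.1.1) (cC T s.1.1) := sub_eq_node hT s.1.1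
    have h1 : BF γ (sub T s.1.1) (X.W s)
        (lift ((fun i => (i, X.g s i)) '' E) fun x => η' x.1) := by
      rw [e0]
      refine node_BF γ ⟨hEf.image _, ?_, ?_⟩ ?_ ?_ ?_
      · rintro _ ⟨i, hi, rfl⟩
        exact ⟨hEI i hi, hp.gm i (hEG i hi)⟩
      · rintro _ ⟨i, hi, rfl⟩ _ ⟨j, hj, rfl⟩
        exact ⟨fun h => by simp only at h ⊢; rw [h], fun h => hp.gi i j (hEG i hi) (hEG j hj) h⟩
      · rintro _ ⟨i, hi, rfl⟩
        exact hηn i hi
      · rintro _ ⟨i, hi, rfl⟩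
        exact hη' i hi
      · have e1 : Prod.fst '' ((fun i => (i, X.g s i)) '' E) = E := by
          rw [image_image]; simp
        have e2 : Prod.snd '' ((fun i => (i, X.g s i)) '' E) = X.g s '' E := by
          rw [image_image]
        rw [e1, e2]
        exact X.prot_rest s hEG
    -- second step
    let Q : ℕ → Set (List ℕ × List ℕ) := fun k =>
      {z | (∃ i ∈ E, X.g s i = k ∧ z.1 ∈ Mi i) ∧ X.Pr (X.c s k) z.1 z.2}
    have hsub : ∀ k, sub T (X.c s k).1.1 = newC (cC T s.1.1) k := by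
      intro k
      rw [X.c_node]
      rfl
    have h2 : BF γ (X.W s) (X.U s)
        (lift ((fun k => (k, k)) '' (X.g s '' E)) fun x => Q x.1) := by
      rw [X.U_eq]
      refine node_same (P := Q) (hEf.image _) ?_ ?_ ?_ ?_
      · rintro _ ⟨i, hi, rfl⟩
        exact hp.gm i (hEG i hi)
      · rintro _ ⟨i, hi, rfl⟩
        exact ⟨⟨i, hi, rfl, [], hηn i hi⟩, .nil _⟩
      · rintro _ ⟨i, hi, rfl⟩
        rw [← hsub]
        refine (IH i hi).1.pos ?_
        rintro ⟨m, n⟩ ⟨⟨j, hj, e, hm⟩, hn⟩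
        obtain rfl := hp.gi j i (hEG j hj) (hEG i hi) e
        exact ⟨hm, hn⟩
      · intro k _ _
        rw [← hsub]
        exact hle _
    refine ⟨(BF.comp h1 h2).pos ?_, ?_⟩
    · rintro ⟨l, n⟩ ⟨hlH, hn⟩
      simp only at hlH hn
      cases hn with
      | nil => exact ⟨[], nil_mem_lift, nil_mem_lift⟩
      | @cons _ i l m n hil hlm hmn =>
        have hi : i ∈ E := hH.pre [i] l hlH
        refine ⟨X.g s i :: m, ?_, ?_⟩
        · exact cons_mem_lift.2 ⟨⟨i, hi, rfl⟩, hlm, hlH⟩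
        · exact cons_mem_lift.2 ⟨⟨X.g s i, ⟨i, hi, rfl⟩, rfl⟩, ⟨i, hi, rfl, l, hlm, hlH⟩, hmn⟩
    · intro l hlH
      cases l with
      | nil => exact ⟨[], .nil s⟩
      | cons i l =>
        have hi : i ∈ E := hH.pre [i] l hlH
        obtain ⟨m, hm⟩ := hηd i hi l hlH
        obtain ⟨n, hn⟩ := (IH i hi).2 m ⟨l, hm⟩
        exact ⟨X.g s i :: n, .cons (hHs hlH) hm.1 hn⟩

theorem prot (hT : IsT T) (hγ : 1 ≤ γ)
    (hle : ∀ s : State T, LE γ (sub T s.1.1) (X.U s)) (s : State T) :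
    BF γ (sub T s.1.1) (X.U s) {z | z.1 ∈ s.1.2 ∧ X.Pr s z.1 z.2} ∧
      ∀ l ∈ s.1.2, ∃ n, X.Pr s l n := by
  obtain ⟨N, hN⟩ : ∃ N, ∀ d ∈ s.1.2, d.length ≤ N := by
    obtain ⟨N, hN⟩ := (s.2.2.1.image List.length).bddAbove
    exact ⟨N, fun d hd => hN ⟨d, hd, rfl⟩⟩
  exact X.prot_aux hT hγ hle N s s.1.2 s.2.1 s.2.2.1 subset_rfl hN

end Sys

end Pool.Agent.Lib.MP_efc3dd_lc
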