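import Pool.Agent.Lib.MP_efc3dd_lc.XLocal
import Pool.Agent.Lib.MP_efc3dd_lc.XEmb

set_option autoImplicit false

/-!
# The unfolding of a system lies above the tree at level `γ + 1`
-/

namespace Pool.Agent.Lib.MP_efc3dd_lc

open Set

section Succ

variable {γ : Ordinal.{0}} {T : Set (List ℕ)}

/-- The machine of a system. -/
noncomputable def Sys.M (X : Sys T γ) (hT : IsT T) : Machine (State T) ℕ where
  K := X.K
  c := X.c
  V s := sub T s.1.1
  F _ := {[]}
  g := id
  hg := Function.injective_id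
  hV s := isT_sub hT _
  hF _ := isT_nil
  hFf _ := finite_singleton _
  hFV _ := by
    rintro _ rfl
    exact nil_mem_sub
  hc := by
    intro s i l h
    simp at h

theorem Sys.M_up (X : Sys T γ) (hT : IsT T) (s : State T) :
    BF (γ + 1) ((X.M hT).V s) ((X.M hT).W s) (piF1 (X.M hT).g ((X.M hT).F s)) := by
  change BF (γ + 1) (sub T s.1.1) (node (X.K s) fun k => sub T (X.c s k).1.1) (piF1 id {[]})
  have e : (fun k => sub T (X.c s k).1.1) = newC (cC T s.1.1) := by
    funext k
    rw [X.c_node]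
    rfl
  rw [piF1_nil, e, sub_eq_node hT]
  have h := node_BF (γ + 1) (K := cI T s.1.1) (A := cC T s.1.1) (L := X.K s)
    (B := newC (cC T s.1.1)) (m := ∅) (P := fun _ => ∅)
    ⟨finite_empty, fun x hx => absurd hx (notMem_empty _),
      fun x hx => absurd hx (notMem_empty _)⟩
    (fun x hx => absurd hx (notMem_empty _)) (fun x hx => absurd hx (notMem_empty _))
    (by
      rw [image_empty, image_empty, Set.sdiff_empty, Set.sdiff_empty]
      exact (X.pick s).sel.local2)
  exact h.pos rt_subset_lift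

theorem Sys.up (X : Sys T γ) (hT : IsT T) (hγ : 1 ≤ γ) (s : State T) :
    LE (γ + 1) (sub T s.1.1) (X.U s) ∧ LE γ (X.U s) (sub T s.1.1) := by
  have hA := X.M_up hT
  have e : ∀ s, piF (X.M hT).g ((X.M hT).F s) = rt ℕ ℕ := fun s => piF_nil
  by_cases h2 : 2 ≤ γ
  · have hB : ∀ s, BF γ ((X.M hT).W s) ((X.M hT).V s)
        (sw (piF1 (X.M hT).g ((X.M hT).F s))) :=
      fun s => (hA s).symm_lt (Order.lt_add_one_iff.2 le_rfl)
    have h := Machine.unfolding (M := X.M hT) (a := γ + 1) (b := γ) le_rfl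
      (Order.lt_add_one_iff.2 le_rfl).le h2 hA hB
    have h3 := (h (γ + 1)).1 le_rfl s
    have h4 := (h γ).2 le_rfl s
    rw [e] at h3 h4
    rw [sw_rt] at h4
    exact ⟨h3, h4⟩
  · have h1 : γ = 1 := by
      refine le_antisymm ?_ hγ
      rw [not_le] at h2
      have : (2 : Ordinal.{0}) = 1 + 1 := by norm_num
      rw [this] at h2
      exact Order.lt_add_one_iff.1 h2
    subst h1
    refine ⟨?_, X.down_one hT le_rfl s⟩
    have h := Machine.up_of_down (M := X.M hT) (a := 1 + 1) hA (β := 1 + 1) le_rfl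
      (fun β' hβ' s => by
        rw [e, sw_rt]
        exact (X.down_one hT le_rfl s).mono (Order.lt_add_one_iff.1 hβ')) s
    rw [e] at h
    exact h

end Succ

end Pool.Agent.Lib.MP_efc3dd_lc
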