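import Pool.Agent.Lib.MP_efc3dd_lc.XSelect
import Pool.Agent.Lib.MP_efc3dd_lc.XProt
import Pool.Agent.Lib.MP_efc3dd_lc.XUp

set_option autoImplicit false

/-!
# The first pass: children are singled out by `Σ_{γ+1}` properties
-/

namespace Pool.Agent.Lib.MP_efc3dd_lc

open Set

variable {T : Set (List ℕ)} {γ : Ordinal.{0}}

theorem alg_of_ext {I : Set ℕ} {C : ℕ → Set (List ℕ)} {i p : ℕ} {Y : Set (List ℕ)}
    (hf : {j | j ∈ I ∧ Ext γ (C i) Y (C j)}.Finite) (h : Ext γ (C i) Y (C p)) :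
    Alg γ I C p := by
  obtain ⟨q, h1, h2, h3⟩ := h
  refine ⟨{z | ∃ y, (y, z) ∈ q}, ?_, ?_, ?_⟩
  · refine (h1.finite.image Prod.snd).subset ?_
    rintro w ⟨u, hu⟩
    exact ⟨_, hu, rfl⟩
  · rintro z ⟨y, hy⟩
    exact (h1.mem hy).2
  · refine hf.subset ?_
    rintro j ⟨hj, hE⟩
    exact ⟨hj, Ext.trans_of h1 h2 h3 hE⟩

namespace Sys

variable (X : Sys T γ)

/-- The representatives of the protected nodes. -/
def Z (s : State T) : Set (List ℕ) := {n | ∃ l ∈ s.1.2, X.Pr s l n}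

theorem up_lt (hT : IsT T) (hγ : 1 ≤ γ) (s : State T) : LE γ (sub T s.1.1) (X.U s) :=
  (X.up hT hγ s).1.mono (Order.lt_add_one_iff.2 le_rfl).le

theorem Z_finite (hT : IsT T) (hγ : 1 ≤ γ) (s : State T) : (X.Z s).Finite := by
  refine ((X.prot hT hγ (X.up_lt hT hγ) s).1.finite.image Prod.snd).subset ?_
  rintro n ⟨l, hl, h⟩
  exact ⟨(l, n), ⟨hl, h⟩, rfl⟩

theorem Z_sub (hT : IsT T) (hγ : 1 ≤ γ) (s : State T) : X.Z s ⊆ X.U s := by
  rintro n ⟨l, hl, h⟩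
  exact ((X.prot hT hγ (X.up_lt hT hγ) s).1.mem (a := (l, n)) ⟨hl, h⟩).2

/-- Transfer of an extension between unfoldings back to the original trees. -/
theorem ext_back2 (hT : IsT T) (hγ : 1 ≤ γ) (s s' : State T)
    (h : Ext γ (X.U s) (X.Z s) (X.U s')) : Ext γ (sub T s.1.1) s.1.2 (sub T s'.1.1) := by
  obtain ⟨q1, a1, a2, a3⟩ := h
  obtain ⟨p1, p2⟩ := X.prot hT hγ (X.up_lt hT hγ) s
  have h2 := BF.comp p1 a1
  set q2 := cmp {z : List ℕ × List ℕ | z.1 ∈ s.1.2 ∧ X.Pr s z.1 z.2} q1 with hq2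
  have hZ : {z | ∃ x, (x, z) ∈ q2}.Finite := by
    refine (h2.finite.image Prod.snd).subset ?_
    rintro w ⟨u, hu⟩
    exact ⟨_, hu, rfl⟩
  obtain ⟨q3, b1, b2, b3⟩ := BF.step (X.up hT hγ s').1 (Order.lt_add_one_iff.2 le_rfl)
    (D := {z | ∃ x, (x, z) ∈ q2}) (fun z ⟨x, hx⟩ => (h2.mem hx).2) hZ
  refine ⟨cmp q2 (sw q3), BF.comp h2 b3, ?_, ?_⟩
  · exact ⟨[], ⟨[], ⟨s.2.1.nil, .nil s⟩, a2⟩, b1 mem_rt⟩
  · intro y hy
    obtain ⟨n, hn⟩ := p2 y hy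
    obtain ⟨z, hz⟩ := a3 n ⟨y, hy, hn⟩
    have h3 : (y, z) ∈ q2 := ⟨n, ⟨hy, hn⟩, hz⟩
    obtain ⟨w, hw⟩ := b2 z ⟨y, h3⟩
    exact ⟨w, z, h3, hw⟩

theorem ext_child (hT : IsT T) (hγ : 1 ≤ γ) {s : State T} {k j : ℕ} (hk : k ∈ X.K s)
    (h : Ext γ (X.U (X.c s k)) (X.Z (X.c s k)) (X.U (X.c s j))) :
    Ext γ (cC T s.1.1 (Nat.unpair k).1) (X.Y s k) (cC T s.1.1 (Nat.unpair j).1) := by
  have h1 := X.ext_back2 hT hγ _ _ h
  rw [X.c_prot hk, X.c_node, X.c_node] at h1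
  exact h1

theorem ext_of_le (hT : IsT T) (hγ : 1 ≤ γ) {s : State T} {k j : ℕ} (hk : k ∈ X.K s)
    (h : LE (γ + 1) (X.U (X.c s j)) (X.U (X.c s k))) :
    Ext γ (cC T s.1.1 (Nat.unpair k).1) (X.Y s k) (cC T s.1.1 (Nat.unpair j).1) := by
  obtain ⟨q, h1, h2, h3⟩ := BF.step h (Order.lt_add_one_iff.2 le_rfl) (D := X.Z (X.c s k))
    (X.Z_sub hT hγ _) (X.Z_finite hT hγ _)
  exact X.ext_child hT hγ hk ⟨sw q, h3, h1 mem_rt, h2⟩

/-- The kept siblings that are `≤_{γ+1}`. -/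
def Nk (s : State T) (k : ℕ) : Set ℕ :=
  {j | j ∈ X.K s ∧ (Nat.unpair j).2 = 0 ∧ LE (γ + 1) (X.U (X.c s j)) (X.U (X.c s k))}

/-- The ones among them that are not equivalent. -/
def Jk (s : State T) (k : ℕ) : Set ℕ :=
  {j | j ∈ X.Nk s k ∧ ¬ Eqv (γ + 1) (X.U (X.c s j)) (X.U (X.c s k))}

theorem mem_Kf {s : State T} {j : ℕ} (hj : j ∈ X.K s) (h0 : (Nat.unpair j).2 = 0) :
    (Nat.unpair j).1 ∈ X.Kf s := by
  rcases hj with h | h
  · exact h.2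
  · exact absurd h0 h.1

theorem pair_eq {j : ℕ} (h0 : (Nat.unpair j).2 = 0) : Nat.pair (Nat.unpair j).1 0 = j := by
  conv_rhs => rw [← Nat.pair_unpair j]
  rw [h0]

/-- The kept new children whose name is in the extension set of `k`. -/
theorem bad_finite {s : State T} {k : ℕ} (hk : k ∈ X.K s) :
    {j | j ∈ X.K s ∧ (Nat.unpair j).2 = 0 ∧ Ext γ (cC T s.1.1 (Nat.unpair k).1) (X.Y s k)
      (cC T s.1.1 (Nat.unpair j).1)}.Finite := by
  have hp := X.pick s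
  have h1 : {q | q ∈ X.Kf s ∧ Ext γ (cC T s.1.1 (Nat.unpair k).1) (X.Y s k)
      (cC T s.1.1 q)}.Finite := by
    by_cases h0 : (Nat.unpair k).2 = 0
    · refine (hp.fin0 k hk h0).subset ?_
      rintro q ⟨h1, h2⟩
      exact ⟨hp.sel.Kf_sub h1, h2⟩
    · exact hp.inf1 k hk h0
  refine (h1.image fun q => Nat.pair q 0).subset ?_
  rintro j ⟨h2, h3, h4⟩
  exact ⟨_, ⟨X.mem_Kf h2 h3, h4⟩, pair_eq h3⟩

theorem Nk_finite (hT : IsT T) (hγ : 1 ≤ γ) {s : State T} {k : ℕ} (hk : k ∈ X.K s) :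
    (X.Nk s k).Finite := by
  refine (X.bad_finite hk).subset ?_
  rintro j ⟨h1, h2, h3⟩
  exact ⟨h1, h2, X.ext_of_le hT hγ hk h3⟩

/-- A new child in the extension set of a kept one is kept. -/
theorem kept_of_ext {s : State T} {k j : ℕ} (hk : k ∈ X.K s) (hj : j ∈ X.K s)
    (h0 : (Nat.unpair k).2 = 0) (h : Ext γ (cC T s.1.1 (Nat.unpair k).1) (X.Y s k)
      (cC T s.1.1 (Nat.unpair j).1)) : (Nat.unpair j).2 = 0 := by
  have hp := X.pick s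
  rcases hj with h1 | h1
  · exact h1.1
  · exact absurd (alg_of_ext (hp.fin0 k hk h0) h) (hp.sel.Ai_lim _ h1.2)

theorem Jk_trans {s : State T} {k j : ℕ}
    (hj : j ∈ X.Jk s k) : X.Jk s j ⊆ X.Jk s k := by
  rintro j' ⟨⟨h1, h2, h3⟩, h4⟩
  refine ⟨⟨h1, h2, LE.trans h3 hj.1.2.2⟩, fun h => hj.2 ?_⟩
  exact ⟨hj.1.2.2, LE.trans h.2 h3⟩

theorem Jk_class (hT : IsT T) (hγ : 1 ≤ γ) {s : State T} {k j j' : ℕ}
    (hj : j ∈ X.Jk s k) (hj' : j' ∈ X.K s)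
    (h : Eqv (γ + 1) (X.U (X.c s j)) (X.U (X.c s j'))) : j' ∈ X.Jk s k := by
  refine ⟨⟨hj', ?_, LE.trans h.2 hj.1.2.2⟩, fun h' => hj.2 (h.trans h')⟩
  exact X.kept_of_ext hj.1.1 hj' hj.1.2.1 (X.ext_of_le hT hγ hj.1.1 h.2)

theorem exists_phi (hT : IsT T) (hγ : 1 ≤ γ) {s : State T} {k : ℕ} (hk : k ∈ X.K s) :
    ∃ φ : Fm 1, Lvl true (γ + 1) φ ∧ Sat1 (X.U (X.c s k)) φ ∧
      ∀ j ∈ X.K s, Sat1 (X.U (X.c s j)) φ →
        Eqv (γ + 1) (X.U (X.c s j)) (X.U (X.c s k)) ∨ j ∈ X.Jk s k := by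
  have hp := X.pick s
  obtain ⟨φ, h1, h2, h3⟩ := ext_formula (γ := γ) (A := X.U (X.c s k)) (Y := X.Z (X.c s k))
    nil_mem_unf (X.Z_finite hT hγ _) (X.Z_sub hT hγ _) (fun j => X.U (X.c s j))
    (fun j => nil_mem_unf)
  -- separating formulas
  have h5 : ∀ j : ℕ, ∃ τ : Fm 1, Lvl true (γ + 1) τ ∧ Sat1 (X.U (X.c s k)) τ ∧
      (¬ LE (γ + 1) (X.U (X.c s j)) (X.U (X.c s k)) → ¬ Sat1 (X.U (X.c s j)) τ) := by
    intro j
    by_cases hj : LE (γ + 1) (X.U (X.c s j)) (X.U (X.c s k))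
    · exact ⟨.not .bot, .qf (.not .bot), fun _ => id, fun h => absurd hj h⟩
    · obtain ⟨τ, g1, g2, g3⟩ := exists_sep nil_mem_unf nil_mem_unf hj
      refine ⟨.not τ, .not (b := true) g1, fun h => ?_, fun _ h => ?_⟩
      · simp only [Fm.Realize]
        intro h'
        exact g3 fun _ => h'
      · exact h nil_mem_unf (g2 nil_mem_unf)
  choose τ hτ1 hτ2 hτ3 using h5
  have hB := X.bad_finite hk
  refine ⟨.and φ (Fm.lconj (hB.toFinset.toList.map τ)), .and h1 (Lvl.lconj ?_), ?_, ?_⟩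
  · intro ψ hψ
    rw [List.mem_map] at hψ
    obtain ⟨j, _, rfl⟩ := hψ
    exact hτ1 j
  · intro h0
    refine ⟨h2 h0, (sat1_lconj h0).2 ?_ h0⟩
    intro ψ hψ
    rw [List.mem_map] at hψ
    obtain ⟨j, _, rfl⟩ := hψ
    exact hτ2 j
  · intro j hj hs
    have h0 : [] ∈ X.U (X.c s j) := nil_mem_unf
    have hE : Ext γ (cC T s.1.1 (Nat.unpair k).1) (X.Y s k) (cC T s.1.1 (Nat.unpair j).1) :=
      X.ext_child hT hγ hk (h3 j fun h0 => (hs h0).1)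
    by_cases hj0 : (Nat.unpair j).2 = 0
    · have hbad : j ∈ {j | j ∈ X.K s ∧ (Nat.unpair j).2 = 0 ∧
          Ext γ (cC T s.1.1 (Nat.unpair k).1) (X.Y s k) (cC T s.1.1 (Nat.unpair j).1)} :=
        ⟨hj, hj0, hE⟩
      have hle : LE (γ + 1) (X.U (X.c s j)) (X.U (X.c s k)) := by
        by_contra hc
        refine hτ3 j hc ((sat1_lconj h0).1 (fun h0 => (hs h0).2) _ ?_)
        rw [List.mem_map]
        exact ⟨j, by simpa using hbad, rfl⟩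
      by_cases he : Eqv (γ + 1) (X.U (X.c s j)) (X.U (X.c s k))
      · exact Or.inl he
      · exact Or.inr ⟨⟨hj, hj0, hle⟩, he⟩
    · left
      have hk0 : (Nat.unpair k).2 ≠ 0 := fun hk0 => hj0 (X.kept_of_ext hk hj hk0 hE)
      have hjA : (Nat.unpair j).1 ∈ X.Ai s := by
        rcases hj with h | h
        · exact absurd h.1 hj0
        · exact h.2
      have he := hp.inf2 k hk hk0 _ hjA hE
      have hc : X.c s j = X.c s k := by
        refine Subtype.ext (Prod.ext ?_ ?_)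
        · rw [X.c_node, X.c_node, he]
        · rw [X.c_prot hj, X.c_prot hk]
          exact hp.Ya j hj k hk hj0 hk0 he
      rw [hc]
      exact Eqv.refl nil_mem_unf

end Sys

/-- The first pass. -/
theorem exists_fineJ (hT : IsT T) (hγ : 1 ≤ γ) :
    ∃ T' : Set (List ℕ), IsT T' ∧ LE (γ + 1) T T' ∧ FineJ (γ + 1) T' := by
  obtain ⟨X⟩ := exists_sys hT γ
  let s0 : State T := ⟨([], {[]}), isT_nil, finite_singleton _, by
    rintro _ rfl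
    exact nil_mem_sub⟩
  refine ⟨X.U s0, isT_unf _, ?_, fun v k => X.Jk (st X.c s0 v) k, ?_⟩
  · have h := (X.up hT hγ s0).1
    have e : sub T s0.1.1 = T := sub_nil hT
    rwa [e] at h
  · intro v k hvk
    have hv := (append_mem_unf.1 hvk).1
    set s := st X.c s0 v with hs
    have hsub : ∀ j, v ++ [j] ∈ X.U s0 → sub (X.U s0) (v ++ [j]) = X.U (X.c s j) := by
      intro j hj
      rw [Sys.U, sub_unf hj, st_append]
      rfl
    have hK : ∀ j, v ++ [j] ∈ X.U s0 → j ∈ X.K s := by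
      intro j hj
      exact (cons_mem_unf.1 (append_mem_unf.1 hj).2).1
    have hK' : ∀ j, j ∈ X.K s → v ++ [j] ∈ X.U s0 := by
      intro j hj
      exact append_mem_unf.2 ⟨hv, cons_mem_unf.2 ⟨hj, nil_mem_unf⟩⟩
    have hk := hK k hvk
    refine ⟨(X.Nk_finite hT hγ hk).subset fun j hj => hj.1, fun h => h.2 (Eqv.refl nil_mem_unf),
      ?_, ?_⟩
    · intro j hj
      refine ⟨hK' j hj.1.1, X.Jk_trans hj, ?_⟩
      intro j' hj' he
      rw [hsub j (hK' j hj.1.1), hsub j' hj'] at he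
      exact X.Jk_class hT hγ hj (hK j' hj') he
    · obtain ⟨φ, h1, h2, h3⟩ := X.exists_phi hT hγ hk
      refine ⟨φ, h1, by rw [hsub k hvk]; exact h2, fun j hj hsat => ?_⟩
      rw [hsub j hj] at hsat
      rw [hsub j hj, hsub k hvk]
      exact h3 j (hK j hj) hsat

end Pool.Agent.Lib.MP_efc3dd_lc
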