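import Pool.Agent.Lib.MP_efc3dd_lc.XDefs

set_option autoImplicit false

/-!
# The local modification step, with a selection of the children
-/

namespace Pool.Agent.Lib.MP_efc3dd_lc

open Set

section Succ

variable {γ : Ordinal.{0}} {I : Set ℕ} {C : ℕ → Set (List ℕ)} {Kf Ai : Set ℕ} {ab : ℕ → ℕ}

theorem Sel.RA_step (hS : Sel γ I C Kf Ai ab) {u us : Set ℕ} (hI : Inv2 γ I C Kf u us)
    {β : Ordinal.{0}} (hβ : β ≤ γ)
    (hd : β < γ ∨ ∀ j ∈ Kf, j ∈ u → Nat.pair j 0 ∈ us)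
    {E : Set ℕ} (hE : E ⊆ kIx Kf Ai \ us) (hEf : E.Finite) {D : ℕ → Set (List ℕ)}
    (hD : ∀ k ∈ E, (D k).Finite ∧ D k ⊆ newC C k) :
    ∃ (f : ℕ → ℕ) (q : ℕ → Set (List ℕ × List ℕ)), InjOn f E ∧ MapsTo f E (I \ u) ∧
      (∀ k ∈ E, (([], []) : List ℕ × List ℕ) ∈ q k ∧ (∀ d ∈ D k, ∃ a, (a, d) ∈ q k) ∧
        BF β (newC C k) (C (f k)) (sw (q k))) ∧ Inv2 γ I C Kf (u ∪ f '' E) (us ∪ E) := by
  classical
  -- the candidates
  let Cand : ℕ → Set ℕ := fun k => {j | j ∈ I ∧ (∃ q : Set (List ℕ × List ℕ),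
    (([], []) : List ℕ × List ℕ) ∈ q ∧ (∀ d ∈ D k, ∃ a, (a, d) ∈ q) ∧
      BF β (newC C k) (C j) (sw q)) ∧ ∃ q ∈ I, ¬ Alg γ I C q ∧ LE γ (C q) (C j)}
  set E1 : Set ℕ := {k | k ∈ E ∧ (Nat.unpair k).2 = 0 ∧ (Nat.unpair k).1 ∈ Kf ∧
    (Nat.unpair k).1 ∉ u} with hE1
  have hcand : ∀ k ∈ E, k ∉ E1 → (Cand k).Infinite := by
    intro k hk hk1
    obtain ⟨hk2, hkus⟩ := hE hk
    rcases hk2 with ⟨h0, h1⟩ | ⟨h0, h1⟩
    · have hpair : Nat.pair (Nat.unpair k).1 0 = k := by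
        conv_rhs => rw [← Nat.pair_unpair k]
        rw [h0]
      have hu : (Nat.unpair k).1 ∈ u := by
        by_contra hc
        exact hk1 ⟨hk, h0, h1, hc⟩
      have hβ' : β < γ := by
        rcases hd with h | h
        · exact h
        · exact absurd (h _ h1 hu) (by rw [hpair]; exact hkus)
      obtain ⟨q0, hq0I, hq0, hq0le⟩ := hI.i3 _ h1 hu (by rw [hpair]; exact hkus)
      obtain ⟨q1, g1, g2, g3⟩ := BF.step hq0le hβ' (hD k hk).2 (hD k hk).1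
      have hYf : {x | ∃ y, (x, y) ∈ q1}.Finite := dom_finite (sw_finite.1 g3.finite)
      refine (infinite_of_not_alg hq0 hYf ?_).mono ?_
      · rintro x ⟨y, hxy⟩
        exact (g3.mem (a := (y, x)) hxy).2
      · rintro j ⟨hjI, q2, e1, e2, e3⟩
        refine ⟨hjI, ⟨sw (cmp (sw q1) q2), ?_, ?_, ?_⟩, q0, hq0I, hq0, ?_⟩
        · exact ⟨[], g1 mem_rt, e2⟩
        · intro d hd'
          obtain ⟨a, ha⟩ := g2 d hd'
          obtain ⟨z, hz⟩ := e3 a ⟨d, ha⟩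
          exact ⟨z, a, ha, hz⟩
        · rw [sw_sw]
          exact BF.comp g3 (e1.mono hβ'.le)
        · refine e1.pos ?_
          rintro _ rfl
          exact e2
    · have hlim : ¬ Alg γ I C (Nat.unpair k).1 := hS.Ai_lim _ h1
      refine (infinite_of_not_alg hlim (hD k hk).1 (hD k hk).2).mono ?_
      rintro j ⟨hjI, q, e1, e2, e3⟩
      refine ⟨hjI, ⟨sw q, e2, fun d hd' => e3 d hd', ?_⟩, _, hS.Ai_sub h1, hlim, ?_⟩
      · rw [sw_sw]
        exact e1.mono hβ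
      · refine e1.pos ?_
        rintro _ rfl
        exact e2
  obtain ⟨f2, hf2, hf2'⟩ := infinite_choice (E := E \ E1) (S := Cand)
    (hEf.subset fun k hk => hk.1) (fun k hk => hcand k hk.1 hk.2)
    (Z := u ∪ (fun k => (Nat.unpair k).1) '' E1)
    (hI.fu.union ((hEf.subset fun k hk => hk.1).image _))
  have hq2 : ∀ k, ∃ q : Set (List ℕ × List ℕ), k ∈ E \ E1 →
      (([], []) : List ℕ × List ℕ) ∈ q ∧ (∀ d ∈ D k, ∃ a, (a, d) ∈ q) ∧
      BF β (newC C k) (C (f2 k)) (sw q) := by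
    intro k
    by_cases hk : k ∈ E \ E1
    · obtain ⟨q, hq⟩ := (hf2' k hk).1.2.1
      exact ⟨q, fun _ => hq⟩
    · exact ⟨∅, fun h => absurd h hk⟩
  choose q2 hq2 using hq2
  let f : ℕ → ℕ := fun k => if k ∈ E1 then (Nat.unpair k).1 else f2 k
  have hfE1 : ∀ k ∈ E1, f k = (Nat.unpair k).1 := fun k hk => if_pos hk
  have hfE2 : ∀ k ∉ E1, f k = f2 k := fun k hk => if_neg hk
  have hpairE1 : ∀ k ∈ E1, Nat.pair (Nat.unpair k).1 0 = k := by
    intro k hk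
    conv_rhs => rw [← Nat.pair_unpair k]
    rw [hk.2.1]
  refine ⟨f, fun k => if k ∈ E1 then idp (insert [] (D k)) else q2 k, ?_, ?_, ?_, ?_⟩
  · intro k hk k' hk' e
    by_cases h1 : k ∈ E1 <;> by_cases h2 : k' ∈ E1
    · rw [hfE1 k h1, hfE1 k' h2] at e
      rw [← hpairE1 k h1, ← hpairE1 k' h2, e]
    · rw [hfE1 k h1, hfE2 k' h2] at e
      exact absurd (Or.inr ⟨k, h1, e⟩) (hf2' k' ⟨hk', h2⟩).2
    · rw [hfE2 k h1, hfE1 k' h2] at e
      exact absurd (Or.inr ⟨k', h2, e.symm⟩) (hf2' k ⟨hk, h1⟩).2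
    · rw [hfE2 k h1, hfE2 k' h2] at e
      exact hf2 ⟨hk, h1⟩ ⟨hk', h2⟩ e
  · intro k hk
    by_cases h1 : k ∈ E1
    · rw [hfE1 k h1]
      exact ⟨hS.Kf_sub h1.2.2.1, h1.2.2.2⟩
    · rw [hfE2 k h1]
      have := hf2' k ⟨hk, h1⟩
      exact ⟨this.1.1, fun h => this.2 (Or.inl h)⟩
  · intro k hk
    by_cases h1 : k ∈ E1
    · simp only [h1, if_true]
      rw [hfE1 k h1]
      refine ⟨⟨rfl, mem_insert _ _⟩, fun d hd' => ⟨d, rfl, mem_insert_of_mem _ hd'⟩, ?_⟩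
      rw [sw_idp]
      refine BF.refl β ?_ ((hD k hk).1.insert _)
      exact insert_subset (hS.nil _ (hS.Kf_sub h1.2.2.1)) (hD k hk).2
    · simp only [h1, if_false]
      rw [hfE2 k h1]
      exact hq2 k ⟨hk, h1⟩
  · refine ⟨hI.fu.union (hEf.image _), hI.fus.union hEf, ?_, ?_⟩
    · rintro j hj (h | h)
      · exact Or.inl (hI.i2 j hj h)
      · by_cases hu : j ∈ u
        · exact Or.inl hu
        · have h1 : Nat.pair j 0 ∈ E1 := by
            refine ⟨h, ?_, ?_, ?_⟩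
            · rw [Nat.unpair_pair]
            · rw [Nat.unpair_pair]; exact hj
            · rw [Nat.unpair_pair]; exact hu
          refine Or.inr ⟨_, h, ?_⟩
          rw [hfE1 _ h1, Nat.unpair_pair]
    · rintro j hj (h | ⟨k, hk, rfl⟩) hn
      · exact hI.i3 j hj h fun h' => hn (Or.inl h')
      · by_cases h1 : k ∈ E1
        · rw [hfE1 k h1, hpairE1 k h1] at hn
          exact absurd (Or.inr hk) hn
        · rw [hfE2 k h1]
          exact (hf2' k ⟨hk, h1⟩).1.2.2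

theorem Sel.RB_step (hS : Sel γ I C Kf Ai ab) {u us : Set ℕ} (hI : Inv2 γ I C Kf u us)
    {β : Ordinal.{0}} (hβ : β < γ) {E : Set ℕ} (hE : E ⊆ I \ u) (hEf : E.Finite)
    {D : ℕ → Set (List ℕ)} (hD : ∀ k ∈ E, (D k).Finite ∧ D k ⊆ C k) :
    ∃ (f : ℕ → ℕ) (q : ℕ → Set (List ℕ × List ℕ)), InjOn f E ∧
      MapsTo f E (kIx Kf Ai \ us) ∧
      (∀ k ∈ E, (([], []) : List ℕ × List ℕ) ∈ q k ∧ (∀ d ∈ D k, ∃ a, (a, d) ∈ q k) ∧
        BF β (C k) (newC C (f k)) (sw (q k))) ∧ Inv2 γ I C Kf (u ∪ E) (us ∪ f '' E) := by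
  classical
  set E1 : Set ℕ := {k | k ∈ E ∧ k ∈ Kf} with hE1
  obtain ⟨f2, hf2, hf2'⟩ := infinite_choice (E := E \ E1)
    (S := fun i => range fun n => Nat.pair (ab i) (n + 1))
    (hEf.subset fun k hk => hk.1)
    (fun k _ => infinite_range_of_injective fun n m h => by
      have := congrArg Nat.unpair h
      simp only [Nat.unpair_pair, Prod.mk.injEq] at this
      omega)
    (Z := us) hI.fus
  have hq2 : ∀ k, ∃ q : Set (List ℕ × List ℕ), k ∈ E \ E1 →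
      (([], []) : List ℕ × List ℕ) ∈ q ∧ (∀ d ∈ D k, ∃ a, (a, d) ∈ q) ∧
      BF β (C k) (newC C (f2 k)) (sw q) := by
    intro k
    by_cases hk : k ∈ E \ E1
    · obtain ⟨n, hn⟩ := (hf2' k hk).1
      have hnk : k ∉ Kf := fun h => hk.2 ⟨hk.1, h⟩
      obtain ⟨q, h1, h2, h3⟩ := BF.step (hS.ab_mem k (hE hk.1).1 hnk).2 hβ (hD k hk.1).2
        (hD k hk.1).1
      refine ⟨q, fun _ => ⟨h1 mem_rt, h2, ?_⟩⟩
      have e : newC C (f2 k) = C (ab k) := by
        rw [newC, ← hn]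
        simp
      rw [e]
      exact h3
    · exact ⟨∅, fun h => absurd h hk⟩
  choose q2 hq2 using hq2
  let f : ℕ → ℕ := fun k => if k ∈ E1 then Nat.pair k 0 else f2 k
  have hfE1 : ∀ k ∈ E1, f k = Nat.pair k 0 := fun k hk => if_pos hk
  have hfE2 : ∀ k ∉ E1, f k = f2 k := fun k hk => if_neg hk
  have hne : ∀ k ∈ E, k ∉ E1 → (Nat.unpair (f2 k)).2 ≠ 0 := by
    intro k hk h1
    obtain ⟨n, hn⟩ := (hf2' k ⟨hk, h1⟩).1
    rw [← hn]
    simp
  refine ⟨f, fun k => if k ∈ E1 then idp (insert [] (D k)) else q2 k, ?_, ?_, ?_, ?_⟩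
  · intro k hk k' hk' e
    by_cases h1 : k ∈ E1 <;> by_cases h2 : k' ∈ E1
    · rw [hfE1 k h1, hfE1 k' h2] at e
      have := congrArg Nat.unpair e
      simp only [Nat.unpair_pair, Prod.mk.injEq] at this
      exact this.1
    · rw [hfE1 k h1, hfE2 k' h2] at e
      have := hne k' hk' h2
      rw [← e, Nat.unpair_pair] at this
      exact absurd rfl this
    · rw [hfE2 k h1, hfE1 k' h2] at e
      have := hne k hk h1
      rw [e, Nat.unpair_pair] at this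
      exact absurd rfl this
    · rw [hfE2 k h1, hfE2 k' h2] at e
      exact hf2 ⟨hk, h1⟩ ⟨hk', h2⟩ e
  · intro k hk
    by_cases h1 : k ∈ E1
    · rw [hfE1 k h1]
      refine ⟨Or.inl ⟨?_, ?_⟩, fun h => (hE hk).2 (hI.i2 k h1.2 h)⟩
      · rw [Nat.unpair_pair]
      · rw [Nat.unpair_pair]; exact h1.2
    · rw [hfE2 k h1]
      obtain ⟨n, hn⟩ := (hf2' k ⟨hk, h1⟩).1
      have hnk : k ∉ Kf := fun h => h1 ⟨hk, h⟩
      refine ⟨?_, (hf2' k ⟨hk, h1⟩).2⟩
      rw [← hn]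
      refine Or.inr ⟨?_, ?_⟩
      · rw [Nat.unpair_pair]; exact Nat.succ_ne_zero n
      · rw [Nat.unpair_pair]; exact (hS.ab_mem k (hE hk).1 hnk).1
  · intro k hk
    by_cases h1 : k ∈ E1
    · simp only [h1, if_true]
      rw [hfE1 k h1]
      refine ⟨⟨rfl, mem_insert _ _⟩, fun d hd' => ⟨d, rfl, mem_insert_of_mem _ hd'⟩, ?_⟩
      rw [sw_idp, newC, Nat.unpair_pair]
      refine BF.refl β ?_ ((hD k hk).1.insert _)
      exact insert_subset (hS.nil _ (hE hk).1) (hD k hk).2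
    · simp only [h1, if_false]
      rw [hfE2 k h1]
      exact hq2 k ⟨hk, h1⟩
  · refine ⟨hI.fu.union hEf, hI.fus.union (hEf.image _), ?_, ?_⟩
    · rintro j hj (h | ⟨k, hk, h⟩)
      · exact Or.inl (hI.i2 j hj h)
      · by_cases h1 : k ∈ E1
        · rw [hfE1 k h1] at h
          have := congrArg Nat.unpair h
          simp only [Nat.unpair_pair, Prod.mk.injEq] at this
          exact Or.inr (this.1 ▸ hk)
        · rw [hfE2 k h1] at h
          have := hne k hk h1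
          rw [h, Nat.unpair_pair] at this
          exact absurd rfl this
    · rintro j hj (h | h) hn
      · exact hI.i3 j hj h fun h' => hn (Or.inl h')
      · have h1 : j ∈ E1 := ⟨h, hj⟩
        exact absurd (Or.inr ⟨j, h, hfE1 j h1⟩) hn

theorem Sel.RAB (hS : Sel γ I C Kf Ai ab) : ∀ β : Ordinal.{0}, β ≤ γ → ∀ u us : Set ℕ,
    Inv2 γ I C Kf u us → Rest β (I \ u) C (kIx Kf Ai \ us) (newC C) ∧
      Rest β (kIx Kf Ai \ us) (newC C) (I \ u) C := by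
  intro β
  induction β using WellFoundedLT.induction with
  | ind β ih =>
    intro hβ u us hI
    constructor
    · rw [Rest_iff]
      intro β' hβ' E hE hEf D hD
      obtain ⟨f, q, h1, h2, h3, h4⟩ := Sel.RA_step hS hI (hβ'.le.trans hβ)
        (Or.inl (hβ'.trans_le hβ)) hE hEf hD
      refine ⟨f, q, h1, h2, h3, ?_⟩
      rw [Set.sdiff_sdiff, Set.sdiff_sdiff]
      exact (ih β' hβ' (hβ'.le.trans hβ) _ _ h4).2
    · rw [Rest_iff]
      intro β' hβ' E hE hEf D hD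
      obtain ⟨f, q, h1, h2, h3, h4⟩ := Sel.RB_step hS hI (hβ'.trans_le hβ) hE hEf hD
      refine ⟨f, q, h1, h2, h3, ?_⟩
      rw [Set.sdiff_sdiff, Set.sdiff_sdiff]
      exact (ih β' hβ' (hβ'.le.trans hβ) _ _ h4).1

/-- The local step at level `γ + 1`. -/
theorem Sel.local2 (hS : Sel γ I C Kf Ai ab) : Rest (γ + 1) I C (kIx Kf Ai) (newC C) := by
  have hI : Inv2 γ I C Kf ∅ ∅ := by
    refine ⟨finite_empty, finite_empty, ?_, ?_⟩
    · rintro j _ h
      exact absurd h (notMem_empty _)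
    · intro j _ h _
      exact absurd h (notMem_empty _)
  rw [Rest_iff]
  intro β' hβ' E hE hEf D hD
  have hβγ : β' ≤ γ := Order.lt_add_one_iff.1 hβ'
  obtain ⟨f, q, h1, h2, h3, h4⟩ := Sel.RA_step hS hI hβγ
    (Or.inr fun j _ h => absurd h (notMem_empty _)) (by rwa [Set.sdiff_empty]) hEf hD
  refine ⟨f, q, h1, ?_, h3, ?_⟩
  · rwa [Set.sdiff_empty] at h2
  · rw [empty_union, empty_union] at h4
    exact (Sel.RAB hS β' hβγ _ _ h4).2

end Succ

end Pool.Agent.Lib.MP_efc3dd_lc
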