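import Pool.Agent.Lib.MP_efc3dd_lc.XDefs

set_option autoImplicit false

/-!
# The tree with one element (level 1)
-/

namespace Pool.Agent.Lib.MP_efc3dd_lc

open Set

theorem one_case {T : Set (List ℕ)} (hT : IsT T) : LE 1 T ({[]} : Set (List ℕ)) ∧
    ∃ ψ : Fm 0, Lvl false (1 + 1) ψ ∧ IsScottSentence (pr ({[]} : Set (List ℕ))) ψ := by
  refine ⟨?_, ?_⟩
  · rw [LE, BF_iff]
    refine ⟨finite_singleton _, ?_, ?_, ?_⟩
    · rintro _ rfl; exact ⟨hT.nil, rfl⟩
    · rintro _ rfl _ rfl; simp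
    · intro β hβ D hD hf
      obtain rfl : β = 0 := Order.lt_one_iff.1 hβ
      refine ⟨rt ℕ ℕ, subset_rfl, fun d hd => ?_, ?_⟩
      · have : d = [] := hD hd
        subst this
        exact ⟨[], rfl⟩
      · rw [sw_rt, BF_iff]
        refine ⟨finite_singleton _, ?_, ?_, fun β' hβ' => absurd hβ' (not_lt.2 zero_le)⟩
        · rintro _ rfl; exact ⟨rfl, hT.nil⟩
        · rintro _ rfl _ rfl; simp
  · have h01 : (0 : Ordinal.{0}) < 1 + 1 := by
      rw [one_add_one_eq_two]; exact zero_lt_two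
    have h11 : (1 : Ordinal.{0}) < 1 + 1 := Order.lt_add_one_iff.2 le_rfl
    refine ⟨.and (.ex (.eq 0 0)) (.all (.all (.and (.eq 0 1) (.le 0 1)))), ?_, ?_⟩
    · refine .and (.up h11 (.ex zero_lt_one (.qf (.eq _ _)))) ?_
      exact .all h01 (.all h01 (.qf (.and (.eq _ _) (.le _ _))))
    · intro N s _
      have key : (Fm.Realize s (.and (.ex (.eq 0 0)) (.all (.all (.and (.eq 0 1) (.le 0 1)))))
          ![] : Prop) ↔ (∃ _ : N, True) ∧ ∀ x y : N, x = y ∧ s x y := by
        simp only [Fm.Realize]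
        constructor
        · rintro ⟨⟨x, -⟩, h⟩
          refine ⟨⟨x, trivial⟩, fun x y => ?_⟩
          have := h x y
          simpa [Fin.snoc] using this
        · rintro ⟨⟨x, -⟩, h⟩
          refine ⟨⟨x, by trivial⟩, fun x y => ?_⟩
          have := h x y
          simpa [Fin.snoc] using this
      rw [key]
      constructor
      · rintro ⟨⟨x, -⟩, h⟩
        refine ⟨⟨⟨fun _ => x, fun _ => ⟨[], rfl⟩, ?_, ?_⟩, ?_⟩⟩
        · rintro ⟨l, hl⟩
          exact Subtype.ext (show ([] : List ℕ) = l from (mem_singleton_iff.1 hl).symm)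
        · intro y
          exact (h _ _).1
        · rintro ⟨l, hl⟩ ⟨l', hl'⟩
          rw [mem_singleton_iff] at hl hl'
          subst hl; subst hl'
          exact ⟨fun _ => List.prefix_rfl, fun _ => (h _ _).2⟩
      · rintro ⟨e⟩
        have hsub : ∀ z : ({[]} : Set (List ℕ)), z = ⟨[], rfl⟩ := by
          rintro ⟨l, hl⟩
          exact Subtype.ext (mem_singleton_iff.1 hl)
        refine ⟨⟨e ⟨[], rfl⟩, trivial⟩, fun x y => ?_⟩
        have hx := hsub (e.symm x)
        have hy := hsub (e.symm y)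
        have hxy : e.symm x = e.symm y := hx.trans hy.symm
        refine ⟨e.symm.injective hxy, ?_⟩
        rw [← e.apply_symm_apply x, ← e.apply_symm_apply y, e.map_rel_iff, hxy]
        exact List.prefix_rfl

end Pool.Agent.Lib.MP_efc3dd_lc
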