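import Pool.Agent.Lib.MP_efc3dd_lc.XDefs

set_option autoImplicit false

/-!
# The choice of representatives, with finite exceptional sets
-/

namespace Pool.Agent.Lib.MP_efc3dd_lc

open Set

theorem exists_goodJ {κ : Type} [Countable κ] {T : Set (List κ)} (hT : IsT T)
    {α : Ordinal.{0}} (hα : 2 ≤ α) (hF : FineJ α T) :
    ∃ T' : Set (List κ), IsT T' ∧ Eqv α T T' ∧ GoodJ α T' := by
  set M := repM hT α with hM
  refine ⟨M.U [], isT_unf _, ?_, ?_⟩
  · have := repM_eqv hT hα []
    change Eqv α (sub T []) _ at this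
    rwa [sub_nil hT] at this
  · obtain ⟨J, hJ⟩ := hF
    have hU : ∀ w, Eqv α (sub T w) (M.U w) := repM_eqv hT hα
    refine ⟨fun v k => {j | v ++ [j] ∈ M.U [] ∧ j ∈ J (st M.c [] v) (rep T α (st M.c [] v) k)},
      ?_⟩
    intro v k hvk
    set s := st M.c [] v with hs
    have hsub : ∀ j, v ++ [j] ∈ M.U [] → sub (M.U []) (v ++ [j]) = M.U (s ++ [rep T α s j]) := by
      intro j hj
      rw [Machine.U, sub_unf hj, st_append]
      rfl
    have hK : ∀ j, v ++ [j] ∈ M.U [] → s ++ [j] ∈ T := by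
      intro j hj
      exact (cons_mem_unf.1 (append_mem_unf.1 hj).2).1
    have hkT := hK k hvk
    set k' := rep T α s k with hk'
    have hk'T : s ++ [k'] ∈ T := (rep_spec hkT).1
    obtain ⟨h1, h2, h3, φ, h4, h5, h6⟩ := hJ s k' hk'T
    -- closure under equivalence
    have hcl : ∀ i j, s ++ [i] ∈ T → s ++ [j] ∈ T → i ∈ J s k' →
        Eqv α (sub T (s ++ [i])) (sub T (s ++ [j])) → j ∈ J s k' :=
      fun i j _ hj hi he => (h3 i hi).2.2 j hj he
    have hrep : ∀ j, s ++ [j] ∈ T → (rep T α s j ∈ J s k' ↔ j ∈ J s k') := by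
      intro j hj
      constructor
      · intro h
        exact hcl _ _ (rep_spec hj).1 hj h (rep_spec hj).2.symm
      · intro h
        exact hcl _ _ hj (rep_spec hj).1 h (rep_spec hj).2
    refine ⟨h1.subset fun j hj => hj.2, ?_, ?_, φ, h4, ?_, ?_⟩
    · intro hk
      exact h2 ((hrep k hkT).2 hk.2)
    · rintro j ⟨hj1, hj2⟩
      refine ⟨hj1, ?_, ?_⟩
      · rintro i ⟨hi1, hi2⟩
        refine ⟨hi1, ?_⟩
        have hjr := (hrep j (hK j hj1)).2 hj2
        exact (h3 _ hjr).2.1 hi2
      · intro j' hj' e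
        refine ⟨hj', ?_⟩
        rw [hsub j hj1, hsub j' hj'] at e
        have e1 : Eqv α (sub T (s ++ [rep T α s j])) (sub T (s ++ [rep T α s j'])) := by
          have e2 := hU (s ++ [rep T α s j])
          rw [e] at e2
          exact e2.trans (hU _).symm
        have e3 : Eqv α (sub T (s ++ [j])) (sub T (s ++ [j'])) :=
          (rep_spec (hK j hj1)).2.trans (e1.trans (rep_spec (hK j' hj')).2.symm)
        exact hcl _ _ (hK j hj1) (hK j' hj') hj2 e3
    · rw [hsub k hvk]
      exact (hU _).sat h4 nil_mem_sub h5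
    · intro j hj hsat
      rw [hsub j hj] at hsat
      have h7 : Sat1 (sub T (s ++ [rep T α s j])) φ := (hU _).symm.sat h4 nil_mem_unf hsat
      have hjT := hK j hj
      rcases h6 _ (rep_spec hjT).1 h7 with h8 | h8
      · refine Or.inl ?_
        have h9 : Eqv α (sub T (s ++ [j])) (sub T (s ++ [k])) :=
          (rep_spec hjT).2.trans (h8.trans (rep_spec hkT).2.symm)
        rw [hsub j hj, hsub k hvk, rep_eq h9 hjT]
      · exact Or.inr ⟨hj, (hrep j hjT).1 h8⟩

end Pool.Agent.Lib.MP_efc3dd_lc
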