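import Pool.Agent.Lib.MP_efc3dd_lc.XDefs
import Pool.Agent.Lib.MP_efc3dd_lc.XCount
import Pool.Agent.Lib.MP_efc3dd_lc.GoodScott

set_option autoImplicit false

/-!
# Trees whose children are definable up to finitely many siblings have simple Scott sentences
-/

namespace Pool.Agent.Lib.MP_efc3dd_lc

open Set

variable {κ : Type} {T : Set (List κ)}

theorem GoodRel.extend_finite (hT : IsT T) {P : Set (List κ)} (hP : P.Finite) :
    P ⊆ T → ∀ {g : Set (List κ × List κ)}, GoodRel T g →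
      ∃ g', g ⊆ g' ∧ GoodRel T g' ∧ ∀ b ∈ P, ∃ d, (b, d) ∈ g' := by
  induction P, hP using Set.Finite.induction_on with
  | empty => intro _ g hg; exact ⟨g, subset_rfl, hg, fun b hb => hb.elim⟩
  | insert _ _ ih =>
    rename_i b P _ _
    intro hPT g hg
    obtain ⟨g1, h1, h2, h3⟩ := ih ((subset_insert _ _).trans hPT) hg
    obtain ⟨g2, h4, h5, d, hd⟩ := h2.extend hT b (hPT (mem_insert _ _))
    refine ⟨g2, h1.trans h4, h5, ?_⟩
    rintro b' (rfl | hb')
    · exact ⟨d, hd⟩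
    · obtain ⟨d', hd'⟩ := h3 b' hb'
      exact ⟨d', h4 hd'⟩

theorem lvl_gF' {θ : List κ → κ → Fm 1} {α : Ordinal.{0}} (hα : 1 < α)
    (hθ : ∀ v k, Lvl true α (θ v k)) {n m : ℕ} (a : Fin n → T) (e : Fin m → T) :
    Lvl true α (gF T θ a e) := by
  have h0 : 0 < α := zero_lt_one.trans hα
  refine Lvl.exs h0 m (.and (Lvl.fconj fun x => ?_) (.and (Lvl.fconj fun x => ?_)
    (.and (Lvl.fconj fun x => ?_) (Lvl.fconj fun x => ?_))))
  · split_ifs
    · exact .qf (.eq _ _)
    · exact .qf (.not .bot)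
  · split_ifs
    · exact .up hα (.all zero_lt_one (.qf (.le _ _)))
    · exact .qf (.not .bot)
  · split_ifs
    · exact .and (.up hα (lvl_childF zero_lt_one)) ((hθ _ _).relAt _ _)
    · exact .qf (.not .bot)
  · split_ifs
    · exact .qf (.not .bot)
    · exact .qf (.not (.eq _ _))

theorem clo_finite {n : ℕ} (a : Fin n → T) : (clo a).Finite := by
  have h1 : (⋃ i : Fin n, {l | l <+: (a i : List κ)}).Finite := by
    refine Set.finite_iUnion fun i => ?_
    refine (List.finite_toSet (a i : List κ).inits).subset ?_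
    intro l hl
    exact (List.mem_inits _ _).2 hl
  refine ((finite_singleton []).union h1).subset ?_
  rintro l (h | ⟨i, h⟩)
  · exact Or.inl h
  · refine Or.inr ?_
    rw [mem_iUnion]
    exact ⟨i, h⟩

/-- The closed set generated by a tuple and the function `J`. -/
def cloJ (J : List κ → κ → Set κ) {n : ℕ} (a : Fin n → T) : Set (List κ) :=
  clo a ∪ {l | ∃ v k j, v ++ [k] ∈ clo a ∧ j ∈ J v k ∧ l = v ++ [j]}

theorem clo_pre {n : ℕ} (a : Fin n → T) : ∀ v t, v ++ t ∈ clo a → v ∈ clo a := by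
  rintro v t (h | ⟨i, h⟩)
  · rw [List.append_eq_nil_iff] at h
    exact Or.inl h.1
  · exact Or.inr ⟨i, (List.prefix_append v t).trans h⟩

theorem clo_sub (hT : IsT T) {n : ℕ} (a : Fin n → T) : clo a ⊆ T := by
  rintro l (h | ⟨i, h⟩)
  · rw [h]; exact hT.nil
  · exact hT.of_prefix h (a i).2

theorem exists_enumJ (hT : IsT T) {J : List κ → κ → Set κ}
    (hJ1 : ∀ v k, v ++ [k] ∈ T → (J v k).Finite)
    (hJ3 : ∀ v k, v ++ [k] ∈ T → ∀ j ∈ J v k, v ++ [j] ∈ T) {n : ℕ} (a : Fin n → T) :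
    ∃ (m : ℕ) (e : Fin m → T), Function.Injective e ∧
      range (fun i => (e i : List κ)) = cloJ J a := by
  have hf : (cloJ J a).Finite := by
    refine (clo_finite a).union ?_
    have h1 : (⋃ l ∈ clo a, {x | ∃ v k j, l = v ++ [k] ∧ j ∈ J v k ∧ x = v ++ [j]}).Finite := by
      refine (clo_finite a).biUnion fun l hl => ?_
      rcases List.eq_nil_or_concat' l with rfl | ⟨v, k, rfl⟩
      · refine (finite_empty).subset ?_
        rintro x ⟨v, k, j, h, _⟩
        simp at h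
      · refine ((hJ1 v k (clo_sub hT a hl)).image fun j => v ++ [j]).subset ?_
        rintro x ⟨v', k', j, h, hj, rfl⟩
        have h2 := List.append_inj' h rfl
        simp only [List.cons.injEq, and_true] at h2
        obtain ⟨rfl, rfl⟩ := h2
        exact ⟨j, hj, rfl⟩
    refine h1.subset ?_
    rintro x ⟨v, k, j, h, hj, rfl⟩
    rw [mem_iUnion₂]
    exact ⟨v ++ [k], h, v, k, j, rfl, hj, rfl⟩
  have hs : cloJ J a ⊆ T := by
    rintro l (h | ⟨v, k, j, h, hj, rfl⟩)
    · exact clo_sub hT a h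
    · exact hJ3 v k (clo_sub hT a h) j hj
  obtain ⟨m, e, h1, h2⟩ := hf.fin_param
  refine ⟨m, fun i => ⟨e i, hs (h2 ▸ mem_range_self i)⟩, ?_, h2⟩
  intro i j h
  exact h1 (congrArg Subtype.val h)

theorem gFJ_iff (hT : IsT T) {θ : List κ → κ → Fm 1} {J : List κ → κ → Set κ}
    (hJ1 : ∀ v k, v ++ [k] ∈ T → (J v k).Finite)
    (hJ2 : ∀ v k, v ++ [k] ∈ T → k ∉ J v k)
    (hJ3 : ∀ v k, v ++ [k] ∈ T → ∀ j ∈ J v k, v ++ [j] ∈ T)
    (hJ4 : ∀ v k, v ++ [k] ∈ T → ∀ j ∈ J v k, J v j ⊆ J v k)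
    (hJ5 : ∀ v k, v ++ [k] ∈ T → ∀ j ∈ J v k, ∀ j', v ++ [j'] ∈ T →
      sub T (v ++ [j]) = sub T (v ++ [j']) → j' ∈ J v k)
    (hθ1 : ∀ v k, v ++ [k] ∈ T → Sat1 (sub T (v ++ [k])) (θ v k))
    (hθ2 : ∀ v k j, v ++ [k] ∈ T → v ++ [j] ∈ T → Sat1 (sub T (v ++ [j])) (θ v k) →
      sub T (v ++ [j]) = sub T (v ++ [k]) ∨ j ∈ J v k)
    {n m : ℕ} {a : Fin n → T} {e : Fin m → T} (he : Function.Injective e)
    (he' : range (fun i => (e i : List κ)) = cloJ J a) {c : Fin n → T} :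
    (gF T θ a e).Realize (pr T) c ↔ ∃ g, GoodRel T g ∧ ∀ i, ((a i : List κ), (c i : List κ)) ∈ g := by
  rw [realize_gF hT]
  have hmem : ∀ l, l ∈ cloJ J a → ∃ p, (e p : List κ) = l := by
    intro l hl
    rw [← he'] at hl
    exact hl
  have hclo : ∀ p, (e p : List κ) ∈ cloJ J a := fun p => he' ▸ mem_range_self p
  have hclo' : ∀ v t, v ++ t ∈ cloJ J a → v ∈ cloJ J a := by
    rintro v t (h | ⟨v', k, j, h, hj, h'⟩)
    · exact Or.inl (clo_pre a v t h)
    · rcases List.eq_nil_or_concat' t with rfl | ⟨t', x, rfl⟩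
      · rw [List.append_nil] at h'
        exact Or.inr ⟨v', k, j, h, hj, h'⟩
      · rw [← List.append_assoc] at h'
        have h2 := List.append_inj' h' rfl
        refine Or.inl (clo_pre a v (t' ++ [k]) ?_)
        rw [← List.append_assoc, h2.1]
        exact h
  have hcloJ : ∀ v k, v ++ [k] ∈ cloJ J a → ∀ j ∈ J v k, v ++ [j] ∈ cloJ J a := by
    rintro v k (h | ⟨v', k', j', h, hj', h'⟩) j hj
    · exact Or.inr ⟨v, k, j, h, hj, rfl⟩
    · have h2 := List.append_inj' h' rfl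
      simp only [List.cons.injEq, and_true] at h2
      obtain ⟨rfl, rfl⟩ := h2
      exact Or.inr ⟨v, k', j, h, hJ4 v k' (clo_sub hT a h) k hj' hj, rfl⟩
  have hcloT : cloJ J a ⊆ T := by
    intro l hl
    obtain ⟨p, hp⟩ := hmem l hl
    exact hp ▸ (e p).2
  constructor
  · rintro ⟨z, h1, h2, h3, h4⟩
    have hz0 : ∀ p, (e p : List κ) = [] → (z p : List κ) = [] := by
      intro p hp
      have := h2 p hp ⟨[], hT.nil⟩
      exact List.prefix_nil.1 this
    have hsub : ∀ (l : List κ) (p : Fin m), (e p : List κ) = l →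
        sub T (z p) = sub T (e p) := by
      intro l
      induction l using List.reverseRecOn with
      | nil => intro p hp; rw [hp, hz0 p hp]
      | append_singleton l k ih =>
        intro q hq
        obtain ⟨p, hp⟩ := hmem l (hclo' l [k] (hq ▸ hclo q))
        have h6 := ih p hp
        -- all children of the node `e p`
        have hch : ∀ k', ∃ (q' : Fin m) (j : κ), l ++ [k'] ∈ cloJ J a →
            (e q' : List κ) = l ++ [k'] ∧ (z q' : List κ) = (z p : List κ) ++ [j] ∧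
              Sat1 (sub T (z q')) (θ l k') := by
          intro k'
          by_cases hk' : l ++ [k'] ∈ cloJ J a
          · obtain ⟨q', hq'⟩ := hmem _ hk'
            obtain ⟨⟨j, hj⟩, h5⟩ := h3 p q' k' (by rw [hq', hp])
            rw [hp] at h5
            exact ⟨q', j, fun _ => ⟨hq', hj, h5⟩⟩
          · exact ⟨q, k, fun h => absurd h hk'⟩
        choose Q h hQ using hch
        have hchT : ∀ j, ((z p : List κ) ++ [j] ∈ T ↔ l ++ [j] ∈ T) ∧
            (l ++ [j] ∈ T → sub T ((z p : List κ) ++ [j]) = sub T (l ++ [j])) := by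
          intro j
          rw [hp] at h6
          have hlT : l ∈ T := hp ▸ (e p).2
          have e1 : (z p : List κ) ++ [j] ∈ T ↔ l ++ [j] ∈ T := by
            rw [← mem_sub (z p).2, ← mem_sub hlT, h6]
          refine ⟨e1, fun hj => ?_⟩
          rw [← sub_sub hT _ _ hj, ← sub_sub hT _ _ (e1.2 hj), h6]
        have hkey := count_key (N := {k' | l ++ [k'] ∈ cloJ J a}) (J := J l) (h := h)
          (E := fun i j => (l ++ [i] ∈ T ↔ l ++ [j] ∈ T) ∧ sub T (l ++ [i]) = sub T (l ++ [j]))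
          (fun _ => ⟨Iff.rfl, rfl⟩) (fun _ _ h => ⟨h.1.symm, h.2.symm⟩)
          (fun _ _ _ h h' => ⟨h.1.trans h'.1, h.2.trans h'.2⟩)
          (fun k' hk' => hJ1 l k' (hcloT hk')) (fun k' hk' => hJ2 l k' (hcloT hk'))
          (fun k' hk' j hj => ⟨hcloJ l k' hk' j hj, hJ4 l k' (hcloT hk') j hj⟩)
          (fun k' hk' j hj j' hE => hJ5 l k' (hcloT hk') j hj j'
            (hE.1.1 (hJ3 l k' (hcloT hk') j hj)) hE.2)
          (by
            intro k1 hk1 k2 hk2 hkk
            have g1 := hQ k1 hk1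
            have g2 := hQ k2 hk2
            have g3 : z (Q k1) = z (Q k2) := Subtype.ext (by rw [g1.2.1, g2.2.1, hkk])
            have g4 : Q k1 = Q k2 := by
              by_contra hne
              exact h4 _ _ hne g3
            have g5 : l ++ [k1] = l ++ [k2] := by rw [← g1.1, ← g2.1, g4]
            simpa using g5)
          (by
            intro k' hk'
            have g1 := hQ k' hk'
            have hzT : (z p : List κ) ++ [h k'] ∈ T := g1.2.1 ▸ (z (Q k')).2
            have hlT : l ++ [h k'] ∈ T := (hchT _).1.1 hzT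
            have g2 := g1.2.2
            rw [g1.2.1, (hchT _).2 hlT] at g2
            rcases hθ2 l k' (h k') (hcloT hk') hlT g2 with g3 | g3
            · exact Or.inl ⟨⟨fun _ => hcloT hk', fun _ => hlT⟩, g3⟩
            · exact Or.inr g3)
        have hkN : l ++ [k] ∈ cloJ J a := hq ▸ hclo q
        have g1 := hQ k hkN
        have g2 := hkey k hkN
        have hqQ : Q k = q := he (Subtype.ext (by rw [g1.1, hq]))
        have g3 := g1.2.1
        rw [hqQ] at g3
        have hzT : (z p : List κ) ++ [h k] ∈ T := g3 ▸ (z q).2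
        rw [g3, (hchT _).2 ((hchT _).1.1 hzT), hq]
        exact g2.2
    refine ⟨range fun p => ((e p : List κ), (z p : List κ)), ?_, ?_⟩
    · refine ⟨finite_range _, ?_, ?_, ?_, ?_, ?_, ?_⟩
      · obtain ⟨p, hp⟩ := hmem [] (Or.inl (Or.inl rfl))
        exact ⟨p, by simp only [hp, hz0 p hp]⟩
      · rintro _ ⟨p, rfl⟩
        exact ⟨(e p).2, (z p).2, (hsub _ p rfl).symm⟩
      · rintro v k w ⟨q, hq⟩
        simp only [Prod.mk.injEq] at hq
        obtain ⟨p, hp⟩ := hmem v (hclo' v [k] (hq.1 ▸ hclo q))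
        obtain ⟨⟨j, hj⟩, _⟩ := h3 p q k (by rw [hq.1, hp])
        exact ⟨z p, j, by rw [← hq.2, hj], p, by simp only [hp]⟩
      · rintro v w j ⟨q, hq⟩
        simp only [Prod.mk.injEq] at hq
        rcases List.eq_nil_or_concat' (e q : List κ) with h | ⟨v', k, h⟩
        · have := hz0 q h
          rw [hq.2] at this
          simp at this
        · obtain ⟨p, hp⟩ := hmem v' (hclo' v' [k] (h ▸ hclo q))
          obtain ⟨⟨j', hj'⟩, _⟩ := h3 p q k (by rw [h, hp])
          refine ⟨v', k, by rw [← hq.1, h], p, ?_⟩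
          simp only [Prod.mk.injEq]
          refine ⟨hp, ?_⟩
          rw [hq.2] at hj'
          exact (List.append_inj_left' hj' rfl).symm
      · rintro v w w' ⟨p, hp⟩ ⟨q, hq⟩
        simp only [Prod.mk.injEq] at hp hq
        have : p = q := he (Subtype.ext (by rw [hp.1, hq.1]))
        rw [← hp.2, ← hq.2, this]
      · rintro v v' w ⟨p, hp⟩ ⟨q, hq⟩
        simp only [Prod.mk.injEq] at hp hq
        have : p = q := by
          by_contra hne
          exact h4 p q hne (Subtype.ext (by rw [hp.2, hq.2]))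
        rw [← hp.1, ← hq.1, this]
    · intro i
      obtain ⟨p, hp⟩ := hmem (a i) (Or.inl (Or.inr ⟨i, List.prefix_rfl⟩))
      refine ⟨p, ?_⟩
      simp only [Prod.mk.injEq]
      refine ⟨hp, ?_⟩
      rw [h1 i p (Subtype.ext hp.symm)]
  · rintro ⟨g0, hg0, hac0⟩
    have hfin : (cloJ J a).Finite := by
      rw [← he']
      exact finite_range _
    obtain ⟨g, hgg, hg, hdom⟩ := GoodRel.extend_finite hT hfin hcloT hg0
    have hac : ∀ i, ((a i : List κ), (c i : List κ)) ∈ g := fun i => hgg (hac0 i)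
    have hz : ∀ p, ∃ w, ((e p : List κ), w) ∈ g := fun p => hdom _ (hclo p)
    choose z hz using hz
    refine ⟨fun p => ⟨z p, (hg.mem _ (hz p)).2.1⟩, ?_, ?_, ?_, ?_⟩
    · intro i p h
      refine Subtype.ext ?_
      have := hac i
      rw [h] at this
      exact hg.u1 _ _ _ this (hz p)
    · intro p hp x
      have := hz p
      rw [hp] at this
      change z p <+: _
      rw [hg.u1 _ _ _ this hg.nil]
      exact List.nil_prefix
    · intro p q k hq
      have h1 := hz q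
      rw [hq] at h1
      obtain ⟨w', j, h2, h3⟩ := hg.p1 _ _ _ h1
      rw [hg.u1 _ _ _ h3 (hz p)] at h2
      refine ⟨⟨j, h2⟩, ?_⟩
      have h4 := (hg.mem _ h1).2.2
      simp only at h4
      change Sat1 (sub T (z q)) _
      rw [← h4]
      exact hθ1 _ _ (hq ▸ (e q).2)
    · intro p q hne h
      have h1 : z p = z q := congrArg Subtype.val h
      have h2 := hz p
      rw [h1] at h2
      exact hne (he (Subtype.ext (hg.u2 _ _ _ h2 (hz q))))

theorem goodJ_scott {κ : Type} [Countable κ] {T : Set (List κ)} (hT : IsT T) {α : Ordinal.{0}}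
    (hα : 1 < α) (hG : GoodJ α T) :
    ∃ ψ : Fm 0, Lvl false (α + 1) ψ ∧ IsScottSentence (pr T) ψ := by
  classical
  obtain ⟨J, hJ⟩ := hG
  have h1 : ∀ v k, ∃ φ : Fm 1, Lvl true α φ ∧ (v ++ [k] ∈ T → Sat1 (sub T (v ++ [k])) φ) ∧
      ∀ j, v ++ [k] ∈ T → v ++ [j] ∈ T → Sat1 (sub T (v ++ [j])) φ →
        sub T (v ++ [j]) = sub T (v ++ [k]) ∨ j ∈ J v k := by
    intro v k
    by_cases h : v ++ [k] ∈ T
    · obtain ⟨φ, g1, g2, g3⟩ := (hJ v k h).2.2.2
      exact ⟨φ, g1, fun _ => g2, fun j _ hj hs => g3 j hj hs⟩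
    · exact ⟨.not .bot, .qf (.not .bot), fun h' => absurd h' h, fun j h' => absurd h' h⟩
  choose θ hθ0 hθ1 hθ2 using h1
  have hJ1 : ∀ v k, v ++ [k] ∈ T → (J v k).Finite := fun v k h => (hJ v k h).1
  have hJ2 : ∀ v k, v ++ [k] ∈ T → k ∉ J v k := fun v k h => (hJ v k h).2.1
  have hJ3 : ∀ v k, v ++ [k] ∈ T → ∀ j ∈ J v k, v ++ [j] ∈ T :=
    fun v k h j hj => ((hJ v k h).2.2.1 j hj).1
  have hJ4 : ∀ v k, v ++ [k] ∈ T → ∀ j ∈ J v k, J v j ⊆ J v k :=
    fun v k h j hj => ((hJ v k h).2.2.1 j hj).2.1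
  have hJ5 : ∀ v k, v ++ [k] ∈ T → ∀ j ∈ J v k, ∀ j', v ++ [j'] ∈ T →
      sub T (v ++ [j]) = sub T (v ++ [j']) → j' ∈ J v k :=
    fun v k h j hj => ((hJ v k h).2.2.1 j hj).2.2
  choose m e he he' using fun (n : ℕ) (a : Fin n → T) => exists_enumJ hT hJ1 hJ3 a
  have : Countable T := T.to_countable.to_subtype
  have hiff : ∀ (n : ℕ) (a c : Fin n → T), (gF T θ a (e n a)).Realize (pr T) c ↔
      ∃ g, GoodRel T g ∧ ∀ i, ((a i : List κ), (c i : List κ)) ∈ g :=
    fun n a c => gFJ_iff hT hJ1 hJ2 hJ3 hJ4 hJ5 hθ1 hθ2 (he n a) (he' n a)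
  have hsnoc : ∀ {n : ℕ} {a c : Fin n → T} {b d : T} {g : Set (List κ × List κ)},
      (∀ i, ((a i : List κ), (c i : List κ)) ∈ g) → ((b : List κ), (d : List κ)) ∈ g →
      ∀ i : Fin (n + 1), (((Fin.snoc a b : Fin (n + 1) → T) i : List κ),
        ((Fin.snoc c d : Fin (n + 1) → T) i : List κ)) ∈ g := by
    intro n a c b d g h1 h2 i
    refine Fin.lastCases ?_ (fun i => ?_) i
    · simpa using h2
    · simpa using h1 i
  refine exists_scott (zero_lt_one.trans hα)
    (fun n a => gF T θ a (e n a))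
    (fun n a => lvl_gF' hα hθ0 a (e n a)) ?_ ?_ ?_ ?_
  · rw [hiff]
    refine ⟨{([], [])}, ⟨finite_singleton _, rfl, ?_, ?_, ?_, ?_, ?_⟩, fun i => i.elim0⟩
    · rintro _ rfl
      exact ⟨hT.nil, hT.nil, rfl⟩
    · intro v k w h; simp at h
    · intro v w j h; simp at h
    · intro v w w' h h'
      simp only [mem_singleton_iff, Prod.mk.injEq] at h h'
      rw [h.2, h'.2]
    · intro v w w' h h'
      simp only [mem_singleton_iff, Prod.mk.injEq] at h h'
      rw [h.1, h'.1]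
  · intro n a c hc i j
    obtain ⟨g, hg, hac⟩ := (hiff n a c).1 hc
    refine ⟨hg.atom _ (hac i) _ (hac j), ?_⟩
    rw [Subtype.ext_iff, Subtype.ext_iff]
    exact hg.atom.eq_iff (hac i) (hac j)
  · intro n a c hc b
    obtain ⟨g, hg, hac⟩ := (hiff n a c).1 hc
    obtain ⟨g', h1, h2, d, hd⟩ := hg.extend hT b b.2
    refine ⟨⟨d, (h2.mem _ hd).2.1⟩, (hiff _ _ _).2 ⟨g', h2, ?_⟩⟩
    exact hsnoc (fun i => h1 (hac i)) hd
  · intro n a c hc d
    obtain ⟨g, hg, hac⟩ := (hiff n a c).1 hc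
    obtain ⟨g', h1, h2, b, hb⟩ := hg.swap.extend hT d d.2
    refine ⟨⟨b, (h2.mem _ hb).2.1⟩, (hiff _ _ _).2 ⟨sw g', h2.swap, ?_⟩⟩
    exact hsnoc (fun i => h1 (hac i)) hb

end Pool.Agent.Lib.MP_efc3dd_lc
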