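import Pool.Agent.Lib.MP_efc3dd_lc.XDefs

set_option autoImplicit false

/-!
# The selection at one node
-/

namespace Pool.Agent.Lib.MP_efc3dd_lc

open Set

section Select

/-- The limit members that are selected greedily, given the finite set `R`. -/
def selA (γ : Ordinal.{0}) (I : Set ℕ) (C : ℕ → Set (List ℕ)) (R : Set ℕ) : ℕ → Prop
  | a => a ∈ I ∧ ¬ Alg γ I C a ∧ (∀ b ∈ R, ¬ LE γ (C b) (C a)) ∧
      ∀ b, b < a → selA γ I C R b → ¬ LE γ (C b) (C a)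
termination_by a => a

theorem selA_iff {γ : Ordinal.{0}} {I : Set ℕ} {C : ℕ → Set (List ℕ)} {R : Set ℕ} {a : ℕ} :
    selA γ I C R a ↔ a ∈ I ∧ ¬ Alg γ I C a ∧ (∀ b ∈ R, ¬ LE γ (C b) (C a)) ∧
      ∀ b, b < a → selA γ I C R b → ¬ LE γ (C b) (C a) := by
  rw [selA]

/-- A minimal finite set of representatives from below. -/
theorem exists_R0 (γ : Ordinal.{0}) (C : ℕ → Set (List ℕ)) {P : Set ℕ} (hP : P.Finite)
    (hC : ∀ i ∈ P, [] ∈ C i) : ∃ R ⊆ P, (∀ p ∈ P, ∃ r ∈ R, LE (γ + 1) (C r) (C p)) ∧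
      ∀ r ∈ R, ∀ r' ∈ R, r ≠ r' → ¬ LE (γ + 1) (C r) (C r') := by
  let Q : Set (Set ℕ) := {R | R ⊆ P ∧ ∀ p ∈ P, ∃ r ∈ R, LE (γ + 1) (C r) (C p)}
  have hQf : Q.Finite := hP.finite_subsets.subset fun R hR => hR.1
  have hQn : Q.Nonempty := ⟨P, subset_rfl, fun p hp => ⟨p, hp, LE.refl (hC p hp)⟩⟩
  obtain ⟨R, hR⟩ := hQf.exists_minimal hQn
  refine ⟨R, hR.prop.1, hR.prop.2, fun r hr r' hr' hne hle => ?_⟩
  have h1 : R \ {r'} ∈ Q := by
    refine ⟨sdiff_subset.trans hR.prop.1, fun p hp => ?_⟩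
    obtain ⟨x, hx, hxp⟩ := hR.prop.2 p hp
    by_cases e : x = r'
    · subst e
      exact ⟨r, ⟨hr, hne⟩, hle.trans hxp⟩
    · exact ⟨x, ⟨hx, e⟩, hxp⟩
  have h2 := hR.le_of_le h1 sdiff_subset
  exact (h2 hr').2 rfl

/-- If every finite part of `A` extends, then `B ≤_{γ+1} A`. -/
theorem le_succ_of_ext {γ : Ordinal.{0}} {A B : Set (List ℕ)} (hA : [] ∈ A) (hB : [] ∈ B)
    (h : ∀ Y : Set (List ℕ), Y.Finite → Y ⊆ A → Ext γ A Y B) : LE (γ + 1) B A := by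
  rw [LE, BF_iff]
  refine ⟨finite_singleton _, ?_, ?_, ?_⟩
  · rintro _ rfl
    exact ⟨hB, hA⟩
  · rintro _ rfl _ rfl
    exact Iff.rfl
  · intro β hβ D hD hDf
    obtain ⟨q, h1, h2, h3⟩ := h D hDf hD
    refine ⟨sw q, ?_, ?_, ?_⟩
    · rintro _ rfl
      exact h2
    · intro d hd
      obtain ⟨z, hz⟩ := h3 d hd
      exact ⟨z, hz⟩
    · exact h1.mono (Order.lt_add_one_iff.1 hβ)

/-- Closure under prefixes. -/
def pcl (D : Set (List ℕ)) : Set (List ℕ) := insert [] {l | ∃ d ∈ D, l <+: d}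

theorem isT_pcl (D : Set (List ℕ)) : IsT (pcl D) := by
  refine ⟨mem_insert _ _, ?_⟩
  rintro l m (h | ⟨d, hd, hl⟩)
  · rw [List.append_eq_nil_iff] at h
    exact Or.inl h.1
  · exact Or.inr ⟨d, hd, (List.prefix_append l m).trans hl⟩

theorem pcl_finite {D : Set (List ℕ)} (hD : D.Finite) : (pcl D).Finite :=
  (prefix_closure_finite hD).insert _

theorem subset_pcl (D : Set (List ℕ)) : D ⊆ pcl D := fun d hd =>
  Or.inr ⟨d, hd, List.prefix_rfl⟩

theorem pcl_subset {D A : Set (List ℕ)} (hA : IsT A) (hD : D ⊆ A) : pcl D ⊆ A := by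
  refine insert_subset hA.nil ?_
  rintro l ⟨d, hd, hl⟩
  exact hA.of_prefix hl (hD hd)

end Select

theorem exists_pick (γ : Ordinal.{0}) (I : Set ℕ) (C : ℕ → Set (List ℕ))
    (hC : ∀ i ∈ I, IsT (C i)) (G : Set (List ℕ)) (hG : IsT G) (hGf : G.Finite)
    (hGs : ∀ i l, i :: l ∈ G → i ∈ I ∧ l ∈ C i) :
    ∃ (Kf Ai : Set ℕ) (ab : ℕ → ℕ) (Y : ℕ → Set (List ℕ)) (g : ℕ → ℕ)
      (η : ℕ → Set (List ℕ × List ℕ)), Pick γ I C G Kf Ai ab Y g η := by
  classical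
  -- protected limit members
  set P0 : Set ℕ := {i | [i] ∈ G ∧ ¬ Alg γ I C i} with hP0
  have hGI : ∀ i, [i] ∈ G → i ∈ I := fun i hi => (hGs i [] hi).1
  have hGpre : ∀ i l, i :: l ∈ G → [i] ∈ G := fun i l h => hG.pre [i] l h
  have hheads : {i | [i] ∈ G}.Finite := (heads_finite hGf).subset fun i hi => ⟨[], hi⟩
  have hP0f : P0.Finite := hheads.subset fun i hi => hi.1
  obtain ⟨R0, hR1, hR2, hR3⟩ := exists_R0 γ C hP0f fun i hi => (hC i (hGI i hi.1)).nil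
  have hR0f : R0.Finite := hP0f.subset hR1
  choose! r hr1 hr2 using hR2
  set InA : ℕ → Prop := selA γ I C R0 with hInA
  have hA1 : ∀ a, InA a → a ∈ I ∧ ¬ Alg γ I C a ∧ (∀ b ∈ R0, ¬ LE γ (C b) (C a)) ∧
      ∀ b, b < a → InA b → ¬ LE γ (C b) (C a) := fun a h => selA_iff.1 h
  have hA2 : ∀ a, (a ∈ I ∧ ¬ Alg γ I C a ∧ (∀ b ∈ R0, ¬ LE γ (C b) (C a)) ∧
      ∀ b, b < a → InA b → ¬ LE γ (C b) (C a)) → InA a := fun a h => selA_iff.2 h
  set Ai : Set ℕ := {a | a ∈ R0 ∨ InA a} with hAi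
  set Kf : Set ℕ := {q | q ∈ I ∧ Alg γ I C q ∧ ([q] ∈ G ∨ ((∀ b ∈ R0, ¬ LE γ (C b) (C q)) ∧
    ∀ b, b < q → InA b → ¬ LE γ (C b) (C q)))} with hKf
  have hAiI : ∀ a ∈ Ai, a ∈ I := by
    rintro a (h | h)
    · exact hGI a (hR1 h).1
    · exact (hA1 a h).1
  have hAiL : ∀ a ∈ Ai, ¬ Alg γ I C a := by
    rintro a (h | h)
    · exact (hR1 h).2
    · exact (hA1 a h).2.1
  have habs : ∀ i, ∃ a, i ∈ I → i ∉ Kf → a ∈ Ai ∧ LE γ (C a) (C i) := by
    intro i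
    by_cases hi : i ∈ I ∧ i ∉ Kf
    swap
    · exact ⟨0, fun h1 h2 => absurd ⟨h1, h2⟩ hi⟩
    obtain ⟨hiI, hiK⟩ := hi
    by_cases h1 : ∃ b ∈ R0, LE γ (C b) (C i)
    · obtain ⟨b, hb, hb2⟩ := h1
      exact ⟨b, fun _ _ => ⟨Or.inl hb, hb2⟩⟩
    by_cases h2 : ∃ b, b < i ∧ InA b ∧ LE γ (C b) (C i)
    · obtain ⟨b, hb, hb1, hb2⟩ := h2
      exact ⟨b, fun _ _ => ⟨Or.inr hb1, hb2⟩⟩
    push Not at h1 h2
    by_cases h3 : Alg γ I C i
    · exact absurd ⟨hiI, h3, Or.inr ⟨h1, h2⟩⟩ hiK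
    · exact ⟨i, fun _ _ => ⟨Or.inr (hA2 i ⟨hiI, h3, h1, h2⟩), LE.refl (hC i hiI).nil⟩⟩
  choose ab hab using habs
  -- positions for the protected limit members
  have hq : ∀ i, ∃ q : Set (List ℕ × List ℕ), i ∈ P0 →
      (([], []) : List ℕ × List ℕ) ∈ q ∧ (∀ l, i :: l ∈ G → ∃ m, (l, m) ∈ q) ∧
      BF γ (C i) (C (r i)) q := by
    intro i
    by_cases hi : i ∈ P0
    swap
    · exact ⟨∅, fun h => absurd h hi⟩
    obtain ⟨q, q1, q2, q3⟩ := BF.step (hr2 i hi) (lt_add_one γ) (D := {l | i :: l ∈ G})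
      (fun l hl => (hGs i l hl).2) (tails_finite hGf i)
    refine ⟨sw q, fun _ => ⟨q1 mem_rt, fun l hl => ?_, q3⟩⟩
    obtain ⟨a, ha⟩ := q2 l hl
    exact ⟨a, ha⟩
  choose q hq using hq
  set η : ℕ → Set (List ℕ × List ℕ) := fun i => if Alg γ I C i then idp {l | i :: l ∈ G} else
    {z | z ∈ q i ∧ i :: z.1 ∈ G} with hη
  -- separating sets
  have hZ : ∀ a a', ∃ Z : Set (List ℕ), Z.Finite ∧ (a ∈ Ai → Z ⊆ C a) ∧
      (a ∈ Ai → a' ∈ Ai → a' ≠ a → LE γ (C a) (C a') → ¬ Ext γ (C a) Z (C a')) := by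
    intro a a'
    by_cases h : a ∈ Ai ∧ a' ∈ Ai ∧ a' ≠ a ∧ LE γ (C a) (C a')
    swap
    · exact ⟨∅, finite_empty, fun _ => empty_subset _,
        fun h1 h2 h3 h4 => absurd ⟨h1, h2, h3, h4⟩ h⟩
    obtain ⟨h1, h2, h3, h4⟩ := h
    by_contra hcon
    have h5 : ∀ Y : Set (List ℕ), Y.Finite → Y ⊆ C a → Ext γ (C a) Y (C a') := by
      intro Y hY hYC
      by_contra h6
      exact hcon ⟨Y, hY, fun _ => hYC, fun _ _ _ _ => h6⟩
    have h6 := le_succ_of_ext (hC a (hAiI a h1)).nil (hC a' (hAiI a' h2)).nil h5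
    have h7 := h6.mono (le_self_add : γ ≤ γ + 1)
    rcases h1 with h1 | h1
    · rcases h2 with h2 | h2
      · exact hR3 a' h2 a h1 h3 h6
      · exact (hA1 a' h2).2.2.1 a h1 h4
    · rcases h2 with h2 | h2
      · exact (hA1 a h1).2.2.1 a' h2 h7
      · rcases lt_or_gt_of_ne h3 with h8 | h8
        · exact (hA1 a h1).2.2.2 a' h8 h2 h7
        · exact (hA1 a' h2).2.2.2 a h8 h1 h4
  choose Z hZf hZs hZn using hZ
  set B : ℕ → Set ℕ := fun a => {a' | a' ∈ Ai ∧ a' ≠ a ∧ LE γ (C a) (C a')} with hB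
  have hBf : ∀ a ∈ Ai, (B a).Finite := by
    intro a ha
    refine (hR0f.union (finite_Iic a)).subset ?_
    rintro a' ⟨h1, h2, h3⟩
    rcases h1 with h1 | h1
    · exact Or.inl h1
    · rcases ha with ha | ha
      · exact absurd h3 ((hA1 a' h1).2.2.1 a ha)
      · right
        by_contra h4
        exact (hA1 a' h1).2.2.2 a (not_le.1 h4) ha h3
  set Dm : ℕ → Set (List ℕ) := fun a => {m | ∃ i, i ∈ P0 ∧ r i = a ∧ ∃ l, (l, m) ∈ η i} with hDm
  have hηf : ∀ i ∈ P0, (η i).Finite := by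
    intro i hi
    simp only [hη]
    rw [if_neg hi.2]
    exact (hq i hi).2.2.finite.subset fun z hz => hz.1
  have hDmf : ∀ a, (Dm a).Finite := by
    intro a
    refine (hP0f.biUnion (t := fun i => Prod.snd '' η i) fun i hi =>
      (hηf i hi).image _).subset ?_
    rintro m ⟨i, hi, _, l, hl⟩
    simp only [mem_iUnion]
    exact ⟨i, hi, (l, m), hl, rfl⟩
  have hDms : ∀ a, Dm a ⊆ C a := by
    rintro a m ⟨i, hi, rfl, l, hl⟩
    simp only [hη] at hl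
    rw [if_neg hi.2] at hl
    exact ((hq i hi).2.2.mem hl.1).2
  set YA : ℕ → Set (List ℕ) := fun a => pcl ((⋃ a' ∈ B a, Z a a') ∪ Dm a) with hYA
  have hW : ∀ i, ∃ W : Set (List ℕ), W.Finite ∧ (i ∈ I → W ⊆ C i) ∧
      (Alg γ I C i → {j | j ∈ I ∧ Ext γ (C i) W (C j)}.Finite) := by
    intro i
    by_cases h : Alg γ I C i
    · obtain ⟨W, h1, h2, h3⟩ := h
      exact ⟨W, h1, fun _ => h2, fun _ => h3⟩
    · exact ⟨∅, finite_empty, fun _ => empty_subset _, fun h' => absurd h' h⟩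
  choose Wi hWf hWs hWn using hW
  set YK : ℕ → Set (List ℕ) := fun i => pcl (Wi i ∪ {l | i :: l ∈ G}) with hYK
  set Y : ℕ → Set (List ℕ) := fun k => if (Nat.unpair k).2 = 0 then YK (Nat.unpair k).1 else
    YA (Nat.unpair k).1 with hY
  set g : ℕ → ℕ := fun i => if Alg γ I C i then Nat.pair i 0 else Nat.pair (r i) (i + 1)
    with hg
  have hk0 : ∀ k ∈ kIx Kf Ai, (Nat.unpair k).2 = 0 → (Nat.unpair k).1 ∈ Kf := by
    rintro k (h | h) h0
    · exact h.2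
    · exact absurd h0 h.1
  have hk1 : ∀ k ∈ kIx Kf Ai, (Nat.unpair k).2 ≠ 0 → (Nat.unpair k).1 ∈ Ai := by
    rintro k (h | h) h0
    · exact absurd h.1 h0
    · exact h.2
  refine ⟨Kf, Ai, ab, Y, g, η, ⟨⟨fun i hi => (hC i hi).nil, fun q hq => hq.1, hAiI, hAiL,
    fun i hi hiK => hab i hi hiK⟩, ?_, ?_, ?_, ?_, ?_, ?_, ?_, ?_, ?_, ?_, ?_, ?_, ?_, ?_, ?_⟩⟩
  · -- Yt
    intro k _
    simp only [hY]
    split_ifs
    · exact isT_pcl _
    · exact isT_pcl _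
  · -- Yf
    intro k hk
    simp only [hY]
    split_ifs with h
    · exact pcl_finite ((hWf _).union (tails_finite hGf _))
    · exact pcl_finite (((hBf _ (hk1 k hk h)).biUnion fun a' _ => hZf _ _).union (hDmf _))
  · -- Ys
    intro k hk
    simp only [hY]
    split_ifs with h
    · have hkI := (hk0 k hk h).1
      exact pcl_subset (hC _ hkI) (union_subset (hWs _ hkI) fun l hl => (hGs _ l hl).2)
    · have hkA := hk1 k hk h
      refine pcl_subset (hC _ (hAiI _ hkA)) (union_subset ?_ (hDms _))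
      exact iUnion₂_subset fun a' _ => hZs _ _ hkA
  · -- Ya
    intro k _ k' _ h1 h2 h3
    simp only [hY]
    rw [if_neg h1, if_neg h2, h3]
  · -- fin0
    intro k hk h
    simp only [hY]
    rw [if_pos h]
    refine (hWn _ (hk0 k hk h).2.1).subset ?_
    rintro j ⟨hj, hE⟩
    exact ⟨hj, hE.mono (subset_union_left.trans (subset_pcl _))⟩
  · -- inf1
    intro k hk h
    have hkA := hk1 k hk h
    refine (hheads.union (finite_Iic (Nat.unpair k).1)).subset ?_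
    rintro p ⟨hp, hE⟩
    have hle := hE.le
    rcases hp.2.2 with h1 | ⟨h1, h2⟩
    · exact Or.inl h1
    · rcases hkA with h3 | h3
      · exact absurd hle (h1 _ h3)
      · right
        by_contra h4
        exact h2 _ (not_le.1 h4) h3 hle
  · -- inf2
    intro k hk h a ha hE
    have hkA := hk1 k hk h
    by_contra hne
    refine hZn _ a hkA ha hne hE.le (hE.mono ?_)
    simp only [hY]
    rw [if_neg h]
    refine subset_trans ?_ (subset_pcl _)
    refine subset_trans ?_ subset_union_left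
    exact subset_biUnion_of_mem (u := fun a' => Z (Nat.unpair k).1 a')
      (show a ∈ B (Nat.unpair k).1 from ⟨ha, hne, hE.le⟩)
  · -- gm
    intro i hi
    simp only [hg]
    split_ifs with h
    · left
      rw [Nat.unpair_pair]
      exact ⟨rfl, hGI i hi, h, Or.inl hi⟩
    · right
      rw [Nat.unpair_pair]
      exact ⟨Nat.succ_ne_zero _, Or.inl (hr1 i ⟨hi, h⟩)⟩
  · -- gi
    intro i j _ _ e
    have e' := congrArg Nat.unpair e
    simp only [hg] at e'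
    split_ifs at e' with h1 h2 h2
    · simp only [Nat.unpair_pair, Prod.mk.injEq] at e'
      exact e'.1
    · simp only [Nat.unpair_pair, Prod.mk.injEq] at e'
      omega
    · simp only [Nat.unpair_pair, Prod.mk.injEq] at e'
      omega
    · simp only [Nat.unpair_pair, Prod.mk.injEq] at e'
      omega
  · -- g1
    intro i _ hK
    simp only [hg]
    rw [if_pos hK.2.1]
  · -- g2
    intro i hi h
    simp only [hg] at h ⊢
    split_ifs at h ⊢ with h1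
    · exact ⟨⟨hGI i hi, h1, Or.inl hi⟩, rfl⟩
    · rw [Nat.unpair_pair] at h
      exact absurd h (Nat.succ_ne_zero _)
  · -- eb
    intro i hi
    simp only [hg, hη]
    split_ifs with h
    · rw [Nat.unpair_pair]
      exact BF.refl _ (fun l hl => (hGs i l hl).2) (tails_finite hGf i)
    · rw [Nat.unpair_pair]
      exact (hq i ⟨hi, h⟩).2.2.pos fun z hz => hz.1
  · -- en
    intro i hi
    simp only [hη]
    split_ifs with h
    · exact ⟨rfl, hi⟩
    · exact ⟨(hq i ⟨hi, h⟩).1, hi⟩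
  · -- ed
    intro i l hil
    simp only [hη]
    split_ifs with h
    · exact ⟨l, rfl, hil⟩
    · obtain ⟨m, hm⟩ := (hq i ⟨hGpre i l hil, h⟩).2.1 l hil
      exact ⟨m, hm, hil⟩
  · -- es
    intro i l m hi hlm
    have hlm' := hlm
    simp only [hη] at hlm
    simp only [hg, hY]
    split_ifs at hlm ⊢ with h h1 h1
    · obtain ⟨e1, e2⟩ := hlm
      simp only at e1 e2
      subst e1
      refine ⟨e2, ?_⟩
      rw [Nat.unpair_pair]
      exact subset_pcl _ (Or.inr e2)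
    · rw [Nat.unpair_pair] at h1
      exact absurd rfl h1
    · rw [Nat.unpair_pair] at h1
      exact absurd h1 (Nat.succ_ne_zero _)
    · refine ⟨hlm.2, ?_⟩
      rw [Nat.unpair_pair]
      exact subset_pcl _ (Or.inr ⟨i, ⟨hi, h⟩, rfl, l, hlm'⟩)

theorem exists_sys {T : Set (List ℕ)} (hT : IsT T) (γ : Ordinal.{0}) : Nonempty (Sys T γ) := by
  have h : ∀ s : State T, ∃ (Kf Ai : Set ℕ) (ab : ℕ → ℕ) (Y : ℕ → Set (List ℕ)) (g : ℕ → ℕ)
      (η : ℕ → Set (List ℕ × List ℕ)),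
      Pick γ (cI T s.1.1) (cC T s.1.1) s.1.2 Kf Ai ab Y g η := by
    intro s
    refine exists_pick γ _ _ (fun i _ => isT_sub hT _) _ s.2.1 s.2.2.1 ?_
    intro i l hil
    rcases s.2.2.2 hil with h | h
    · cases h
    · have h' : s.1.1 ++ [i] ++ l ∈ T := by simpa using h
      exact ⟨hT.pre _ _ h', Or.inr h'⟩
  choose Kf Ai ab Y g η hp using h
  exact ⟨⟨Kf, Ai, ab, Y, g, η, hp⟩⟩

end Pool.Agent.Lib.MP_efc3dd_lc
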