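import Pool.Agent.Lib.MP_efc3dd_lc.XFine
import Pool.Agent.Lib.MP_efc3dd_lc.XRep
import Pool.Agent.Lib.MP_efc3dd_lc.XScott
import Pool.Agent.Lib.MP_efc3dd_lc.XOne

set_option autoImplicit false

/-!
# Successor levels: the bound is not attained
-/

namespace Pool.Agent.Lib.MP_efc3dd_lc

open Set

/-- At a successor level `γ + 1`, every nonempty `Π_{γ+1}` class of countable trees has a member
with a `Π_{γ+2}` Scott sentence. -/
theorem succ_main {γ : Ordinal.{0}} {φ : Fm 0} (hφ : Lvl false (γ + 1) φ)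
    {M : Type} {r : M → M → Prop} [Countable M] (hr : IsTree r) (hM : φ.Realize r ![]) :
    ∃ (N : Type) (s : N → N → Prop), Countable N ∧ IsTree s ∧ φ.Realize s ![] ∧
      ∃ ψ : Fm 0, Lvl false (γ + 1 + 1) ψ ∧ IsScottSentence s ψ := by
  obtain ⟨T, hT, ⟨e⟩⟩ := exists_listTree hr
  have h1 : φ.Realize (pr T) ![] := by
    have h5 := (realize_iso e φ ![]).1 hM
    rwa [Subsingleton.elim (fun i => e ((![] : Fin 0 → M) i)) ![]] at h5
  rcases eq_zero_or_pos γ with h0 | h0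
  · subst h0
    rw [zero_add] at hφ ⊢
    obtain ⟨hle, hs⟩ := one_case hT
    exact ⟨({[]} : Set (List ℕ)), pr _, Set.to_countable _, isTree_pr isT_nil,
      BF.pres hle hφ (fun i => i.elim0) h1, hs⟩
  · have hγ : 1 ≤ γ := Order.one_le_iff_pos.2 h0
    have h2 : 2 ≤ γ + 1 := by
      rw [← one_add_one_eq_two]
      exact add_le_add_left hγ 1
    obtain ⟨T1, g1, g2, g3⟩ := exists_fineJ hT hγ
    obtain ⟨T2, e1, e2, e3⟩ := exists_goodJ g1 h2 g3
    exact ⟨T2, pr T2, T2.to_countable.to_subtype, isTree_pr e1,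
      BF.pres (g2.trans e2.1) hφ (fun i => i.elim0) h1,
      goodJ_scott e1 (lt_of_lt_of_le one_lt_two h2) e3⟩

end Pool.Agent.Lib.MP_efc3dd_lc
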