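import Pool.Agent.Lib.MP_efc3dd_lc.XDefs

set_option autoImplicit false

/-!
# Canonical formulas of countable levels
-/

namespace Pool.Agent.Lib.MP_efc3dd_lc

open Set

theorem canon_countable {β : Ordinal.{0}} (h : β < Ordinal.omega 1) :
    (Set.Iio β).Countable := by
  rw [Cardinal.lt_omega_iff_card_lt] at h
  have h1 : β.card ≤ Cardinal.aleph0 := by
    rw [← Cardinal.succ_aleph0] at h
    exact Order.lt_succ_iff.1 h
  rw [← Cardinal.le_aleph0_iff_set_countable, Cardinal.mk_Iio_ordinal]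
  exact Cardinal.lift_le_aleph0.2 h1

/-- The formula describing the atomic facts of a tuple. -/
noncomputable def canonAtom {T : Set (List ℕ)} {n : ℕ} (a : Fin n → T) : Fm n :=
  open Classical in
  Fm.iconj fun z : Fin n × Fin n =>
    if (a z.1 : List ℕ) <+: (a z.2 : List ℕ) then .le z.1 z.2 else .not (.le z.1 z.2)

theorem canonAtom_lvl {T : Set (List ℕ)} {n : ℕ} (a : Fin n → T) (α : Ordinal.{0}) :
    Lvl false α (canonAtom a) := by
  refine Lvl.iconj fun z => ?_
  split_ifs
  · exact .qf (.le _ _)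
  · exact .qf (.not (.le _ _))

theorem canonAtom_realize {T S : Set (List ℕ)} {n : ℕ} (a : Fin n → T) (s : Fin n → S) :
    (canonAtom a).Realize (pr S) s ↔ Atom (pos2 a s) := by
  rw [canonAtom, Fm.realize_iconj]
  constructor
  · rintro h _ ⟨i, rfl⟩ _ ⟨j, rfl⟩
    have h1 := h (i, j)
    simp only at h1
    split_ifs at h1 with h2
    · exact ⟨fun _ => h1, fun _ => h2⟩
    · exact ⟨fun h3 => absurd h3 h2, fun h3 => absurd h3 h1⟩
  · rintro h ⟨i, j⟩
    have h1 := h _ ⟨i, rfl⟩ _ ⟨j, rfl⟩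
    simp only at h1 ⊢
    split_ifs with h2
    · exact h1.1 h2
    · exact fun h3 => h2 (h1.2 h3)

theorem canon_tuple {S : Set (List ℕ)} {D : Set (List ℕ)} (hD : D ⊆ S) (hf : D.Finite) :
    ∃ m, ∃ d : Fin m → S, ∀ x ∈ D, ∃ i, (d i : List ℕ) = x := by
  obtain ⟨m, e, -, he⟩ := hf.fin_param
  refine ⟨m, fun i => ⟨e i, hD (he ▸ mem_range_self i)⟩, fun x hx => ?_⟩
  rw [← he] at hx
  exact hx

theorem pos2_append {T S : Set (List ℕ)} {n m : ℕ} (a : Fin n → T) (s : Fin n → S)
    (c : Fin m → T) (d : Fin m → S) :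
    pos2 (Fin.append a c) (Fin.append s d) = pos2 a s ∪ pos2 c d := by
  ext z
  constructor
  · rintro ⟨i, rfl⟩
    refine Fin.addCases (fun i => ?_) (fun i => ?_) i
    · left
      exact ⟨i, by simp [Fin.append_left]⟩
    · right
      exact ⟨i, by simp [Fin.append_right]⟩
  · rintro (⟨i, rfl⟩ | ⟨i, rfl⟩)
    · exact ⟨Fin.castAdd m i, by simp [Fin.append_left]⟩
    · exact ⟨Fin.natAdd n i, by simp [Fin.append_right]⟩

theorem canon_main (T : Set (List ℕ)) : ∀ β : Ordinal.{0}, β < Ordinal.omega 1 →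
    ∀ (n : ℕ) (a : Fin n → T), ∃ F G : Fm n, Lvl false (2 * β) F ∧ Lvl false (2 * β) G ∧
      (∀ (S : Set (List ℕ)) (s : Fin n → S), F.Realize (pr S) s → BF β T S (pos2 a s)) ∧
      (∀ (S : Set (List ℕ)) (s : Fin n → S), G.Realize (pr S) s → BF β S T (pos2 s a)) ∧
      (∀ c : Fin n → T, BF β T T (pos2 a c) → F.Realize (pr T) c) ∧
      (∀ c : Fin n → T, BF β T T (pos2 c a) → G.Realize (pr T) c) := by
  intro β
  induction β using WellFoundedLT.induction with
  | ind β ih =>
    intro hβ n a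
    have IH := fun γ (h : γ < β) => ih γ h (h.trans hβ)
    choose F' G' h1 h2 h3 h4 h5 h6 using IH
    obtain ⟨f, hf⟩ := (Set.countable_iff_exists_subset_range).1 (canon_countable hβ)
    have hlev : ∀ γ < β, 2 * γ + 1 < 2 * β := by
      intro γ hγ
      have h7 : γ + 1 ≤ β := Order.add_one_le_iff.2 hγ
      have h8 : 2 * (γ + 1) ≤ 2 * β := mul_le_mul_right h7 _
      rw [mul_add, mul_one] at h8
      refine lt_of_lt_of_le ?_ h8
      have : (1 : Ordinal.{0}) < 2 := one_lt_two
      exact (add_lt_add_iff_left _).2 this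
    refine ⟨.and (canonAtom a) (Fm.iconj fun z : ℕ × ℕ => open Classical in
        if h : f z.1 < β then Fm.alls z.2 (Fm.idisj fun c : Fin z.2 → T =>
          G' (f z.1) h (n + z.2) (Fin.append a c)) else .not .bot),
      .and (canonAtom a) (Fm.iconj fun z : ℕ × (Σ m : ℕ, (Fin m → T)) => open Classical in
        if h : f z.1 < β then Fm.exs z.2.1 (F' (f z.1) h (n + z.2.1) (Fin.append a z.2.2))
        else .not .bot), ?_, ?_, ?_, ?_, ?_, ?_⟩
    · refine .and (canonAtom_lvl a _) (Lvl.iconj fun z => ?_)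
      split_ifs with h
      · have h0 := hlev _ h
        refine Lvl.alls (zero_le.trans_lt h0) _ (.up h0 (Lvl.idisj fun c => ?_))
        exact .up (b := true) (lt_add_one _) (h2 _ h _ _)
      · exact .qf (.not .bot)
    · refine .and (canonAtom_lvl a _) (Lvl.iconj fun z => ?_)
      split_ifs with h
      · have h0 := hlev _ h
        refine .up h0 (Lvl.exs ?_ _ ?_)
        · exact zero_le.trans_lt (lt_add_one _)
        · exact .up (b := true) (lt_add_one _) (h1 _ h _ _)
      · exact .qf (.not .bot)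
    · rintro S s ⟨g1, g2⟩
      rw [canonAtom_realize] at g1
      rw [BF_iff]
      refine ⟨finite_range _, by rintro _ ⟨i, rfl⟩; exact ⟨(a i).2, (s i).2⟩, g1, ?_⟩
      intro γ hγ D hD hDf
      obtain ⟨k, rfl⟩ := hf hγ
      obtain ⟨m, d, hd⟩ := canon_tuple hD hDf
      rw [Fm.realize_iconj] at g2
      have g3 := g2 (k, m)
      rw [dif_pos hγ, Fm.realize_alls] at g3
      have g4 := g3 d
      rw [Fm.realize_idisj] at g4
      obtain ⟨c, hc⟩ := g4
      have g5 := h4 _ hγ _ _ S _ hc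
      refine ⟨pos2 (Fin.append a c) (Fin.append s d), ?_, ?_, ?_⟩
      · rw [pos2_append]
        exact subset_union_left
      · intro x hx
        obtain ⟨i, hi⟩ := hd x hx
        refine ⟨c i, ?_⟩
        rw [pos2_append]
        exact Or.inr ⟨i, by simp [hi]⟩
      · rw [sw_pos2]
        exact g5
    · rintro S s ⟨g1, g2⟩
      rw [canonAtom_realize] at g1
      rw [BF_iff]
      refine ⟨finite_range _, by rintro _ ⟨i, rfl⟩; exact ⟨(s i).2, (a i).2⟩, ?_, ?_⟩
      · rw [← sw_pos2]
        exact g1.sw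
      intro γ hγ D hD hDf
      obtain ⟨k, rfl⟩ := hf hγ
      obtain ⟨m, c, hc⟩ := canon_tuple hD hDf
      rw [Fm.realize_iconj] at g2
      have g3 := g2 (k, ⟨m, c⟩)
      rw [dif_pos hγ, Fm.realize_exs] at g3
      obtain ⟨d, hd⟩ := g3
      have g5 := h3 _ hγ _ _ S _ hd
      refine ⟨pos2 (Fin.append s d) (Fin.append a c), ?_, ?_, ?_⟩
      · rw [pos2_append]
        exact subset_union_left
      · intro x hx
        obtain ⟨i, hi⟩ := hc x hx
        refine ⟨d i, ?_⟩
        rw [pos2_append]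
        exact Or.inr ⟨i, by simp [hi]⟩
      · rw [sw_pos2]
        exact g5
    · intro c hc
      refine ⟨(canonAtom_realize _ _).2 hc.atom, ?_⟩
      rw [Fm.realize_iconj]
      rintro ⟨k, m⟩
      split_ifs with h
      · rw [Fm.realize_alls]
        intro d
        rw [Fm.realize_idisj]
        obtain ⟨q, q1, q2, q3⟩ := hc.step h (D := range fun i => (d i : List ℕ))
          (by rintro _ ⟨i, rfl⟩; exact (d i).2) (finite_range _)
        have q4 : ∀ i, ∃ e : T, ((e : List ℕ), (d i : List ℕ)) ∈ q := by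
          intro i
          obtain ⟨e, he⟩ := q2 _ ⟨i, rfl⟩
          exact ⟨⟨e, (q3.mem (a := ((d i : List ℕ), e)) he).2⟩, he⟩
        choose e he using q4
        refine ⟨e, h6 _ h _ _ _ ?_⟩
        refine q3.pos ?_
        rw [pos2_append, ← sw_pos2, ← sw_pos2 e d]
        rintro ⟨x, y⟩ (hz | hz)
        · exact q1 hz
        · obtain ⟨i, hi⟩ := hz
          simp only [Prod.mk.injEq] at hi
          obtain ⟨rfl, rfl⟩ := hi
          exact he i
      · exact fun h => h
    · intro c hc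
      refine ⟨(canonAtom_realize _ _).2 ?_, ?_⟩
      · rw [← sw_pos2]
        exact hc.atom.sw
      rw [Fm.realize_iconj]
      rintro ⟨k, m, e⟩
      split_ifs with h
      · rw [Fm.realize_exs]
        obtain ⟨q, q1, q2, q3⟩ := hc.step h (D := range fun i => (e i : List ℕ))
          (by rintro _ ⟨i, rfl⟩; exact (e i).2) (finite_range _)
        have q4 : ∀ i, ∃ d : T, ((d : List ℕ), (e i : List ℕ)) ∈ q := by
          intro i
          obtain ⟨d, hd⟩ := q2 _ ⟨i, rfl⟩
          exact ⟨⟨d, (q3.mem (a := ((e i : List ℕ), d)) hd).2⟩, hd⟩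
        choose d hd using q4
        refine ⟨d, h5 _ h _ _ _ ?_⟩
        refine q3.pos ?_
        rw [pos2_append, ← sw_pos2, ← sw_pos2 d e]
        rintro ⟨x, y⟩ (hz | hz)
        · exact q1 hz
        · obtain ⟨i, hi⟩ := hz
          simp only [Prod.mk.injEq] at hi
          obtain ⟨rfl, rfl⟩ := hi
          exact hd i
      · exact fun h => h

theorem exists_canon (T : Set (List ℕ)) {β : Ordinal.{0}} (hβ : β < Ordinal.omega 1) :
    ∃ φ : Fm 0, Lvl false (2 * β) φ ∧ φ.Realize (pr T) ![] ∧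
      ∀ S : Set (List ℕ), φ.Realize (pr S) ![] → BF β T S ∅ := by
  obtain ⟨F, -, h1, -, h2, -, h3, -⟩ := canon_main T β hβ 0 ![]
  refine ⟨F, h1, h3 _ ?_, fun S hS => ?_⟩
  · refine (BF.refl β (empty_subset T) finite_empty).pos ?_
    rintro _ ⟨i, -⟩
    exact i.elim0
  · exact (h2 S ![] hS).pos (empty_subset _)

end Pool.Agent.Lib.MP_efc3dd_lc
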