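import Pool.Agent.Lib.MP_efc3dd_lc.XDefs

set_option autoImplicit false

/-!
# Positions above a matched node, isomorphisms, several children at once
-/

namespace Pool.Agent.Lib.MP_efc3dd_lc

open Set

variable {ι κ : Type}

theorem BF.cone_aux : ∀ (δ : Ordinal.{0}) {ι κ : Type} {S : Set (List ι)} {T : Set (List κ)}
    {p : Set (List ι × List κ)}, BF δ S T p → ∀ {v : List ι} {w : List κ}, (v, w) ∈ p →
    BF δ (sub S v) (sub T w) {z | (v ++ z.1, w ++ z.2) ∈ p} := by
  intro δ
  induction δ using WellFoundedLT.induction with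
  | ind δ ih =>
    intro ι κ S T p h v w hvw
    rw [BF_iff]
    have hw : w ∈ T := (h.mem hvw).2
    refine ⟨?_, ?_, ?_, ?_⟩
    · refine Set.Finite.preimage (f := fun z : List ι × List κ => (v ++ z.1, w ++ z.2)) ?_
        h.finite
      rintro ⟨a, b⟩ _ ⟨a', b'⟩ _ e
      simp only [Prod.mk.injEq, List.append_cancel_left_eq] at e
      exact Prod.ext e.1 e.2
    · rintro ⟨a, b⟩ hab
      exact ⟨Or.inr (h.mem hab).1, Or.inr (h.mem hab).2⟩
    · rintro ⟨a, b⟩ hab ⟨a', b'⟩ hab'
      have := h.atom _ hab _ hab'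
      simpa only [List.prefix_append_right_inj] using this
    · intro β' hβ D hD hf
      obtain ⟨q, h1, h2, h3⟩ := h.step hβ (D := (fun d => w ++ d) '' D)
        (by
          rintro _ ⟨d, hd, rfl⟩
          exact (mem_sub hw).1 (hD hd)) (hf.image _)
      have hat : Atom q := h3.atom.sw
      refine ⟨{z | (v ++ z.1, w ++ z.2) ∈ q}, fun z hz => h1 hz, ?_, ?_⟩
      · intro d hd
        obtain ⟨a, ha⟩ := h2 _ ⟨d, hd, rfl⟩
        have hva : v <+: a := (hat _ (h1 hvw) _ ha).2 (List.prefix_append w d)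
        obtain ⟨t, rfl⟩ := hva
        exact ⟨t, ha⟩
      · exact ih β' hβ h3 (v := w) (w := v) (h1 hvw)

theorem BF.cone {δ : Ordinal.{0}} {S : Set (List ι)} {T : Set (List κ)}
    {p : Set (List ι × List κ)} (h : BF δ S T p) {v : List ι} {w : List κ} (hvw : (v, w) ∈ p) :
    BF δ (sub S v) (sub T w) {z | (v ++ z.1, w ++ z.2) ∈ p} :=
  BF.cone_aux δ h hvw

theorem BF.cone_le {δ : Ordinal.{0}} {S : Set (List ι)} {T : Set (List κ)}
    {p : Set (List ι × List κ)} (h : BF δ S T p) {v : List ι} {w : List κ} (hvw : (v, w) ∈ p) :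
    LE δ (sub S v) (sub T w) := by
  refine (h.cone hvw).pos ?_
  rintro _ rfl
  simpa using hvw

theorem BF.of_iso_aux : ∀ (β : Ordinal.{0}) {ι κ : Type} {S : Set (List ι)} {T : Set (List κ)}
    (e : pr S ≃r pr T) {F : Set S}, F.Finite →
    BF β S T ((fun x : S => ((x : List ι), (e x : List κ))) '' F) := by
  intro β
  induction β using WellFoundedLT.induction with
  | ind β ih =>
    intro ι κ S T e F hF
    rw [BF_iff]
    refine ⟨hF.image _, ?_, ?_, ?_⟩
    · rintro _ ⟨x, _, rfl⟩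
      exact ⟨x.2, (e x).2⟩
    · rintro _ ⟨x, _, rfl⟩ _ ⟨y, _, rfl⟩
      exact (e.map_rel_iff (a := x) (b := y)).symm
    · intro β' hβ D hD hf
      have hF' : {x : S | (e x : List κ) ∈ D}.Finite := by
        refine Set.Finite.preimage (f := fun x : S => (e x : List κ)) ?_ hf
        intro x _ y _ h
        exact e.injective (Subtype.ext h)
      refine ⟨(fun x : S => ((x : List ι), (e x : List κ))) '' (F ∪ {x : S | (e x : List κ) ∈ D}),
        image_mono subset_union_left, ?_, ?_⟩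
      · intro d hd
        refine ⟨(e.symm ⟨d, hD hd⟩ : S), e.symm ⟨d, hD hd⟩, Or.inr ?_, ?_⟩
        · simpa using hd
        · simp
      · have := ih β' hβ e.symm ((hF.union hF').image e)
        convert this using 1
        ext ⟨a, b⟩
        constructor
        · rintro ⟨x, hx, hxe⟩
          simp only [Prod.mk.injEq] at hxe
          refine ⟨e x, ⟨x, hx, rfl⟩, ?_⟩
          simp [hxe.1, hxe.2]
        · rintro ⟨_, ⟨x, hx, rfl⟩, hxe⟩
          simp only [RelIso.symm_apply_apply, Prod.mk.injEq] at hxe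
          refine ⟨x, hx, ?_⟩
          simp [hxe.1, hxe.2]

theorem BF.of_iso {S : Set (List ι)} {T : Set (List κ)} (e : pr S ≃r pr T) (β : Ordinal.{0})
    {F : Set S} (hF : F.Finite) :
    BF β S T ((fun x : S => ((x : List ι), (e x : List κ))) '' F) :=
  BF.of_iso_aux β e hF

/-- Several children at once. -/
theorem LE.children [Nonempty ι] {δ : Ordinal.{0}} {S : Set (List ι)} {T : Set (List κ)}
    (h : LE (δ + 1) S T) (hδ : 1 ≤ δ) (hS : IsT S) (_hT : IsT T) {J : Set κ} (hJ : J.Finite)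
    (hJT : ∀ j ∈ J, [j] ∈ T) : ∃ f : κ → ι, InjOn f J ∧
      ∀ j ∈ J, [f j] ∈ S ∧ LE δ (sub T [j]) (sub S [f j]) := by
  obtain ⟨q, h1, h2, h3⟩ := BF.step h (β' := δ) (Order.lt_add_one_iff.2 le_rfl)
    (D := (fun j => [j]) '' J)
    (by
      rintro _ ⟨j, hj, rfl⟩
      exact hJT j hj) (hJ.image _)
  have h0 : (([], []) : List κ × List ι) ∈ sw q := h1 mem_rt
  have h4 : ∀ j : κ, ∃ i : ι, j ∈ J → ([j], [i]) ∈ sw q := by
    intro j
    by_cases hj : j ∈ J
    · obtain ⟨a, ha⟩ := h2 _ ⟨j, hj, rfl⟩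
      have hlen := h3.length_eq hδ hS (a := [j]) (b := a) ha (by
        intro c hc
        rcases List.prefix_cons_iff.1 hc with rfl | ⟨t, rfl, ht⟩
        · exact ⟨[], h0⟩
        · obtain rfl : t = [] := List.prefix_nil.1 ht
          exact ⟨a, ha⟩)
      obtain ⟨i, rfl⟩ := List.length_eq_one_iff.1 hlen.symm
      exact ⟨i, fun _ => ha⟩
    · exact ⟨Classical.arbitrary ι, fun h => absurd h hj⟩
  choose f hf using h4
  refine ⟨f, ?_, fun j hj => ⟨(h3.mem (hf j hj)).2, h3.cone_le (hf j hj)⟩⟩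
  intro j hj j' hj' e
  have := (h3.atom.eq_iff (hf j hj) (hf j' hj')).2 (by simp [e])
  simpa using this

/-- From the empty position to the roots. -/
theorem LE.of_empty {δ : Ordinal.{0}} {S : Set (List ι)} {T : Set (List κ)}
    (h : BF (δ + 2) S T ∅) (hS : IsT S) (hT : IsT T) : LE δ S T := by
  have hlt : δ + 1 < δ + 2 := by
    rw [show δ + 2 = δ + 1 + 1 by rw [add_assoc, one_add_one_eq_two]]
    exact Order.lt_add_one_iff.2 le_rfl
  obtain ⟨q, _, h2, h3⟩ := h.step hlt (D := {[]}) (by simpa using hT.nil) (finite_singleton _)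
  obtain ⟨a, ha⟩ := h2 [] rfl
  have h3' : BF (δ + 1) T S (sw q) := h3
  obtain ⟨q', h1', h2', h4⟩ := h3'.step (β' := 0)
    (Order.lt_add_one_iff.2 zero_le)
    (D := {[]}) (by simpa using hS.nil) (finite_singleton _)
  obtain ⟨b, hb⟩ := h2' [] rfl
  have hat : Atom q' := h4.atom.sw
  have haq : (([] : List κ), a) ∈ q' := h1' ha
  have ha0 : a <+: [] := (hat _ haq _ hb).1 (List.nil_prefix)
  obtain rfl : a = [] := List.prefix_nil.1 ha0
  have h5 : LE (δ + 1) T S := h3'.pos (by
    rintro _ rfl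
    exact ha)
  exact h5.symm_lt (Order.lt_add_one_iff.2 le_rfl)

end Pool.Agent.Lib.MP_efc3dd_lc
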