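import Pool.Agent.Lib.MP_efc3dd_lc.YTF

set_option autoImplicit false

/-!
# Density: the trees which are close to `M0`
-/

namespace Pool.Agent.Lib.MP_efc3dd_lc

open Set

theorem exists_two_mul_le (x : Ordinal.{0}) : ∃ n : ℕ, 2 * x ≤ x + n := by
  induction x using Ordinal.limitRecOn with
  | zero => exact ⟨0, by simp⟩
  | add_one x ih =>
    obtain ⟨n, hn⟩ := ih
    refine ⟨n + 1, ?_⟩
    have e : (2 : Ordinal.{0}) * (x + 1) = 2 * x + 2 := by
      rw [mul_add, mul_one]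
    have e2 : x + 1 + ((n + 1 : ℕ) : Ordinal.{0}) = x + n + 2 := by
      rw [add_assoc, add_assoc]
      congr 1
      norm_cast
      omega
    rw [e, e2]
    gcongr
  | limit x hx ih =>
    refine ⟨0, ?_⟩
    simp only [Nat.cast_zero, add_zero]
    rw [Ordinal.mul_le_iff_of_isSuccLimit hx]
    intro y hy
    obtain ⟨n, hn⟩ := ih y hy
    refine hn.trans ?_
    have h : ∀ m : ℕ, y + m < x := by
      intro m
      induction m with
      | zero => simpa using hy
      | succ m ihm =>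
        rw [Nat.cast_succ, ← add_assoc]
        exact hx.add_one_lt ihm
    exact (h n).le

theorem LimSet.two_mul_lt {α : Ordinal.{0}} {o b : ℕ → Ordinal.{0}} (hL : LimSet α o b)
    {β : Ordinal.{0}} (hβ : β < α) : 2 * β < α := by
  obtain ⟨n, hn⟩ := exists_two_mul_le β
  exact hn.trans_lt (hL.add_nat hβ n)

theorem sub_M0 (o b : ℕ → Ordinal.{0}) (n : ℕ) :
    sub (M0 o b) [n] = TF o b (Denumerable.ofNat (Finset ℕ) (Nat.unpair n).1) :=
  ysub_node (mem_univ n) (isT_TF _ _ _).nil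

theorem isT_M0 (o b : ℕ → Ordinal.{0}) : IsT (M0 o b) :=
  isT_node fun _ _ => isT_TF _ _ _

theorem child_M0 (o b : ℕ → Ordinal.{0}) (n : ℕ) : [n] ∈ M0 o b :=
  cons_mem_node.2 ⟨mem_univ n, (isT_TF _ _ _).nil⟩

theorem Eqv.ymono {ι κ : Type} {β β' : Ordinal.{0}} {S : Set (List ι)} {T : Set (List κ)}
    (h : Eqv β S T) (hβ : β' ≤ β) : Eqv β' S T := ⟨h.1.mono hβ, h.2.mono hβ⟩

theorem LE.yeqv_lt {ι κ : Type} {β β' : Ordinal.{0}} {S : Set (List ι)} {T : Set (List κ)}
    (h : LE β S T) (hβ : β' < β) : Eqv β' S T := ⟨h.mono hβ.le, h.symm_lt hβ⟩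

theorem M0_dense {α : Ordinal.{0}} {o b : ℕ → Ordinal.{0}} (hL : LimSet α o b)
    {S : Set (List ℕ)} (hS : IsT S) (hle : ∀ β < α, LE β (M0 o b) S) :
    (∃ k0, [k0] ∈ S) ∧ ∀ k0, [k0] ∈ S → ∀ β < α,
      {k | [k] ∈ S ∧ Eqv β (sub S [k]) (sub S [k0]) ∧
        ¬ ∀ β' < α, Eqv β' (sub S [k]) (sub S [k0])}.Infinite := by
  classical
  have lt1 : ∀ x : Ordinal.{0}, x < x + 1 := fun x => Order.lt_add_one_iff.2 le_rfl
  constructor
  · have h3 : ((0 : Ordinal.{0}) + (3 : ℕ)) < α := hL.add_nat hL.pos 3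
    have h4 : LE (1 + 1) S (M0 o b) := by
      refine (hle _ h3).symm_lt ?_
      rw [zero_add]
      norm_num
    obtain ⟨f, -, hf⟩ := LE.children h4 le_rfl hS (isT_M0 o b) (J := {0}) (finite_singleton _)
      (fun j _ => child_M0 o b j)
    exact ⟨_, (hf 0 rfl).1⟩
  · intro k0 hk0 β hβ
    obtain ⟨m, hm⟩ := hL.cof β hβ
    have hδ : max β (2 * b m + 3) < α :=
      max_lt hβ (by simpa using hL.add_nat (hL.two_mul_lt (hL.lt m)) 3)
    set δ := max β (2 * b m + 3) with hδdef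
    have hδ1 : 1 ≤ δ := by
      refine le_trans ?_ (le_max_right _ _)
      calc (1 : Ordinal.{0}) ≤ 3 := by norm_num
        _ ≤ 2 * b m + 3 := le_add_self
    have d5 : LE (δ + 1 + 1 + 1 + 1) (M0 o b) S :=
      hle _ (hL.lim _ (hL.lim _ (hL.lim _ (hL.lim _ hδ))))
    -- the child of `M0` which answers `k0`
    obtain ⟨f, -, hf⟩ := LE.children d5 (hδ1.trans ((lt1 δ).le.trans ((lt1 _).le.trans (lt1 _).le)))
      (isT_M0 o b) hS (J := {k0}) (finite_singleton _) (by rintro _ rfl; exact hk0)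
    have hf1 := (hf k0 rfl).2
    rw [sub_M0] at hf1
    set F : Finset ℕ := Denumerable.ofNat (Finset ℕ) (Nat.unpair (f k0)).1 with hF
    have e0 : Eqv (δ + 1 + 1) (sub S [k0]) (TF o b F) := hf1.yeqv_lt (lt1 _)
    -- toggle `m`
    set F' : Finset ℕ := if m ∈ F then F.erase m else insert m F with hF'
    have hmF : ¬ (m ∈ F ↔ m ∈ F') := by
      rw [hF']
      by_cases h : m ∈ F <;> simp [h]
    have hkF : ∀ k, k ≠ m → (k ∈ F ↔ k ∈ F') := by
      intro k hk
      rw [hF']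
      by_cases h : m ∈ F <;> simp [h, hk]
    have hbig : ∀ k, (k ∈ F ↔ k ∈ F') ∨ β ≤ b k := by
      intro k
      by_cases hk : k = m
      · subst hk; exact Or.inr hm
      · exact Or.inl (hkF k hk)
    have e1 : Eqv β (TF o b F) (TF o b F') :=
      ⟨TF_le hL hbig, TF_le hL fun k => (hbig k).imp_left Iff.symm⟩
    have e2 : ¬ LE (2 * b m + 3) (TF o b F) (TF o b F') := fun h => hmF (TF_pin hL h)
    have d4 : LE (δ + 1 + 1 + 1) S (M0 o b) := d5.symm_lt (lt1 _)
    rw [Set.Infinite]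
    intro hfin
    set Z := {k | [k] ∈ S ∧ Eqv β (sub S [k]) (sub S [k0]) ∧
        ¬ ∀ β' < α, Eqv β' (sub S [k]) (sub S [k0])} with hZ
    set N := Z.ncard + 1 with hN
    obtain ⟨c, hc⟩ : ∃ c, Denumerable.ofNat (Finset ℕ) c = F' :=
      (Denumerable.eqv (Finset ℕ)).symm.surjective F'
    set J : Set ℕ := (fun j => Nat.pair c j) '' (Finset.range N : Set ℕ) with hJ
    have hJf : J.Finite := (Finset.finite_toSet _).image _
    obtain ⟨g, hg1, hg2⟩ := LE.children d4 (hδ1.trans ((lt1 δ).le.trans (lt1 _).le)) hS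
      (isT_M0 o b) hJf (fun j _ => child_M0 o b j)
    have hsub : g '' J ⊆ Z := by
      rintro _ ⟨j, hj, rfl⟩
      obtain ⟨g3, g4⟩ := hg2 j hj
      obtain ⟨i, -, rfl⟩ := hj
      rw [sub_M0, Nat.unpair_pair] at g4
      simp only [hc] at g4
      have e3 : Eqv (δ + 1) (TF o b F') (sub S [g (Nat.pair c i)]) :=
        g4.yeqv_lt (lt1 _)
      refine ⟨g3, ?_, ?_⟩
      · exact ((e3.symm.ymono ((le_max_left _ _).trans (lt1 _).le)).trans e1.symm).trans
          (e0.symm.ymono ((le_max_left _ _).trans ((lt1 _).le.trans (lt1 _).le)))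
      · intro hall
        have h5 := hall (2 * b m + 3) ((le_max_right _ _).trans_lt hδ)
        refine e2 (((e0.symm.ymono ?_).1.trans h5.2).trans (e3.symm.ymono ?_).1)
        · exact (le_max_right _ _).trans ((lt1 _).le.trans (lt1 _).le)
        · exact (le_max_right _ _).trans (lt1 _).le
    have hc1 : (g '' J).ncard = N := by
      rw [hg1.ncard_image, hJ, ncard_image_of_injective _ (fun x y hxy => by
        simpa using hxy), ncard_coe_finset, Finset.card_range]
    have hc2 := ncard_le_ncard hsub hfin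
    omega

end Pool.Agent.Lib.MP_efc3dd_lc
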