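import Pool.Agent.Lib.MP_efc3dd_lc.YCone

set_option autoImplicit false

/-!
# Removing one class of subtrees
-/

namespace Pool.Agent.Lib.MP_efc3dd_lc

open Set

/-- `S` without the subtrees equivalent to the one above the child `k0`. -/
def remC (α : Ordinal.{0}) (S : Set (List ℕ)) (k0 : ℕ) : Set (List ℕ) :=
  node {k | [k] ∈ S ∧ ¬ ∀ β < α, Eqv β (sub S [k]) (sub S [k0])} fun k => sub S [k]

/-- Two subfamilies which differ only by members equivalent to `A k0`, when infinitely many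
common members are equivalent to `A k0` up to each level below `α`. -/
theorem Rest_diff {α : Ordinal.{0}} (hα : ∀ β < α, β + 1 < α) {A : ℕ → Set (List ℕ)}
    (hA : ∀ k, [] ∈ A k) {k0 : ℕ} : ∀ γ : Ordinal.{0}, γ ≤ α → ∀ K1 K2 : Set ℕ,
    (∀ β < α, {c | c ∈ K1 ∧ c ∈ K2 ∧ Eqv β (A c) (A k0)}.Infinite) →
    (∀ e, e ∈ K1 → e ∉ K2 → ∀ β < α, β ≤ γ → Eqv β (A e) (A k0)) →
    (∀ e, e ∈ K2 → e ∉ K1 → ∀ β < α, β ≤ γ → Eqv β (A e) (A k0)) →
    Rest γ K1 A K2 A := by
  classical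
  intro γ
  induction γ using WellFoundedLT.induction with
  | ind γ ih =>
    intro hγ K1 K2 ha hb hb'
    rw [Rest_iff]
    intro δ hδ E hE hEf D hD
    have hδα : δ < α := hδ.trans_le hγ
    have hδ1 : δ + 1 < α := hα δ hδα
    have hδγ : δ + 1 ≤ γ := Order.add_one_le_iff.2 hδ
    obtain ⟨f, hf1, hf2⟩ := infinite_choice hEf
      (S := fun _ => {c | c ∈ K1 ∧ c ∈ K2 ∧ Eqv (δ + 1) (A c) (A k0)})
      (fun _ _ => ha _ hδ1) hEf
    have hq : ∀ e, ∃ q : Set (List ℕ × List ℕ), e ∈ E → (([], []) : List ℕ × List ℕ) ∈ q ∧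
        (∀ d ∈ D e, ∃ a, (a, d) ∈ q) ∧ BF δ (A e) (A (if e ∈ K1 then e else f e)) (sw q) := by
      intro e
      by_cases he : e ∈ E
      · by_cases heK : e ∈ K1
        · refine ⟨idp (insert [] (D e)), fun _ => ⟨mem_idp.2 (mem_insert _ _),
            fun d hd => ⟨d, mem_idp.2 (mem_insert_of_mem _ hd)⟩, ?_⟩⟩
          rw [if_pos heK, sw_idp]
          exact BF.refl δ (insert_subset (hA e) (hD e he).2) ((hD e he).1.insert _)
        · have h1 : Eqv (δ + 1) (A e) (A k0) := hb' e (hE he) heK _ hδ1 hδγ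
          have h2 : LE (δ + 1) (A (f e)) (A e) := ((hf2 e he).1.2.2.trans h1.symm).1
          obtain ⟨q, h3, h4, h5⟩ := BF.step h2 (β' := δ) (Order.lt_add_one_iff.2 le_rfl)
            (hD e he).2 (hD e he).1
          refine ⟨q, fun _ => ⟨h3 mem_rt, h4, ?_⟩⟩
          rw [if_neg heK]
          exact h5
      · exact ⟨∅, fun h => absurd h he⟩
    choose q hq using hq
    refine ⟨fun e => if e ∈ K1 then e else f e, q, ?_, ?_, hq, ?_⟩
    · intro e he e' he' h
      by_cases h1 : e ∈ K1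
      · by_cases h2 : e' ∈ K1
        · simpa only [h1, h2, if_true] using h
        · simp only [h1, h2, if_true, if_false] at h
          exact absurd (h ▸ he) (hf2 e' he').2
      · by_cases h2 : e' ∈ K1
        · simp only [h1, h2, if_true, if_false] at h
          exact absurd (h.symm ▸ he') (hf2 e he).2
        · simp only [h1, h2, if_false] at h
          exact hf1 he he' h
    · intro e he
      by_cases h1 : e ∈ K1
      · simp [h1]
      · simpa [h1] using (hf2 e he).1.1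
    · set F : Set ℕ := (fun e => if e ∈ K1 then e else f e) '' E with hF
      have hFf : F.Finite := hEf.image _
      refine ih δ hδ hδα.le (K2 \ E) (K1 \ F) ?_ ?_ ?_
      · intro β hβ
        refine ((ha β hβ).sdiff (hEf.union hFf)).mono ?_
        rintro c ⟨⟨h1, h2, h3⟩, h4⟩
        exact ⟨⟨h2, fun h => h4 (Or.inl h)⟩, ⟨h1, fun h => h4 (Or.inr h)⟩, h3⟩
      · rintro e ⟨h1, h2⟩ h3 β hβ hβδ
        by_cases h4 : e ∈ K1
        · have h5 : e ∈ F := by
            by_contra h5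
            exact h3 ⟨h4, h5⟩
          obtain ⟨e', he', h6⟩ := h5
          by_cases h7 : e' ∈ K1
          · simp only [h7, if_true] at h6
            exact absurd (h6 ▸ he') h2
          · simp only [h7, if_false] at h6
            subst h6
            have h8 := (hf2 e' he').1.2.2
            exact ⟨h8.1.mono (hβδ.trans (Order.lt_add_one_iff.2 le_rfl).le),
              h8.2.mono (hβδ.trans (Order.lt_add_one_iff.2 le_rfl).le)⟩
        · exact hb' e h1 h4 β hβ (hβδ.trans hδ.le)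
      · rintro e ⟨h1, h2⟩ h3 β hβ hβδ
        by_cases h4 : e ∈ K2
        · have h5 : e ∈ E := by
            by_contra h5
            exact h3 ⟨h4, h5⟩
          refine absurd ⟨e, h5, ?_⟩ h2
          simp [h1]
        · exact hb e h1 h4 β hβ (hβδ.trans hδ.le)

theorem remC_le {α : Ordinal.{0}} (hα : ∀ β < α, β + 1 < α) {S : Set (List ℕ)} (hS : IsT S)
    {k0 : ℕ} (hd : ∀ β < α, {k | [k] ∈ S ∧ Eqv β (sub S [k]) (sub S [k0]) ∧
        ¬ ∀ β' < α, Eqv β' (sub S [k]) (sub S [k0])}.Infinite) :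
    LE (α + 1) S (remC α S k0) := by
  have hSn : S = node {k | [k] ∈ S} fun k => sub S [k] := by
    have := sub_eq_node hS []
    rw [sub_nil hS] at this
    simpa using this
  have hR : Rest (α + 1) {k | [k] ∈ S} (fun k => sub S [k])
      {k | [k] ∈ S ∧ ¬ ∀ β < α, Eqv β (sub S [k]) (sub S [k0])} (fun k => sub S [k]) := by
    rw [Rest_iff]
    intro δ hδ E hE hEf D hD
    have hδα : δ ≤ α := Order.lt_add_one_iff.1 hδ
    refine ⟨id, fun e => idp (insert [] (D e)), injOn_id _, fun e he => (hE he).1,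
      fun e he => ⟨mem_idp.2 (mem_insert _ _),
        fun d hd => ⟨d, mem_idp.2 (mem_insert_of_mem _ hd)⟩, ?_⟩, ?_⟩
    · rw [sw_idp]
      exact BF.refl δ (insert_subset nil_mem_sub (hD e he).2) ((hD e he).1.insert _)
    · rw [image_id]
      refine Rest_diff hα (fun k => nil_mem_sub) (k0 := k0) δ hδα _ _ ?_ ?_ ?_
      · intro β hβ
        refine ((hd β hβ).sdiff hEf).mono ?_
        rintro c ⟨⟨h1, h2, h3⟩, h4⟩
        exact ⟨⟨⟨h1, h3⟩, h4⟩, ⟨h1, h4⟩, h2⟩
      · rintro e ⟨h1, h2⟩ h3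
        exact absurd ⟨h1.1, h2⟩ h3
      · rintro e ⟨h1, h2⟩ h3 β hβ _
        have h4 : ∀ β < α, Eqv β (sub S [e]) (sub S [k0]) := by
          by_contra h4
          exact h3 ⟨⟨h1, h4⟩, h2⟩
        exact h4 β hβ
  have h1 := node_BF (α + 1) (K := {k | [k] ∈ S}) (A := fun k => sub S [k])
    (L := {k | [k] ∈ S ∧ ¬ ∀ β < α, Eqv β (sub S [k]) (sub S [k0])}) (B := fun k => sub S [k])
    (m := ∅) (P := fun _ => ∅) ⟨finite_empty, by simp, by simp⟩ (by simp) (by simp)
    (by simpa using hR)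
  rw [← hSn] at h1
  exact h1.pos rt_subset_lift

theorem sub_remC {α : Ordinal.{0}} {S : Set (List ℕ)} {k0 k : ℕ} (hk : [k] ∈ remC α S k0) :
    sub (remC α S k0) [k] = sub S [k] := by
  ext l
  rw [mem_sub hk]
  have h1 := (cons_mem_node.1 hk).1
  constructor
  · intro h
    exact (cons_mem_node.1 h).2
  · intro h
    exact cons_mem_node.2 ⟨h1, h⟩

theorem remC_not_iso {α : Ordinal.{0}} {S : Set (List ℕ)} (hS : IsT S) {k0 : ℕ}
    (hk0 : [k0] ∈ S) : ¬ Nonempty (pr S ≃r pr (remC α S k0)) := by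
  rintro ⟨e⟩
  have hR : IsT (remC α S k0) := isT_node fun k _ => isT_sub hS [k]
  have hb : ∀ β : Ordinal.{0}, BF β S (remC α S k0)
      {(([] : List ℕ), (e ⟨[], hS.nil⟩ : List ℕ)), ([k0], (e ⟨[k0], hk0⟩ : List ℕ))} := by
    intro β
    have := BF.of_iso e β (F := {⟨[], hS.nil⟩, ⟨[k0], hk0⟩}) (by simp)
    rwa [image_pair] at this
  have h1 : ([k0] : List ℕ).length = (e ⟨[k0], hk0⟩ : List ℕ).length := by
    refine (hb 1).length_eq le_rfl hR (a := [k0]) (Or.inr rfl) ?_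
    intro c hc
    rcases List.prefix_cons_iff.1 hc with rfl | ⟨t, rfl, ht⟩
    · exact ⟨_, Or.inl rfl⟩
    · obtain rfl : t = [] := List.prefix_nil.1 ht
      exact ⟨_, Or.inr rfl⟩
  obtain ⟨k, hk⟩ := List.length_eq_one_iff.1 h1.symm
  have hkm : [k] ∈ remC α S k0 := hk ▸ (e ⟨[k0], hk0⟩).2
  have hc : ∀ β : Ordinal.{0}, LE β (sub S [k0]) (sub S [k]) := by
    intro β
    have := (hb β).cone_le (v := [k0]) (w := (e ⟨[k0], hk0⟩ : List ℕ)) (Or.inr rfl)
    rw [hk, sub_remC hkm] at this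
    exact this
  refine (cons_mem_node.1 hkm).1.2 fun β _ => ⟨?_, hc β⟩
  exact (hc (β + 1)).symm_lt (Order.lt_add_one_iff.2 le_rfl)

end Pool.Agent.Lib.MP_efc3dd_lc
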