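import Pool.Agent.Lib.MP_efc3dd_lc.YCone
import Pool.Agent.Lib.MP_efc3dd_lc.YCanon
import Pool.Agent.Lib.MP_efc3dd_lc.YDense
import Pool.Agent.Lib.MP_efc3dd_lc.YRest

set_option autoImplicit false

/-!
# Limit levels: the bound is attained
-/

namespace Pool.Agent.Lib.MP_efc3dd_lc

open Set

theorem omega_mul_lt {α : Ordinal.{0}} (h1 : α < Ordinal.omega 1) :
    Ordinal.omega0 * α < Ordinal.omega 1 := by
  rw [Cardinal.lt_omega_iff_card_lt] at h1 ⊢
  rw [Ordinal.card_mul, Ordinal.card_omega0]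
  exact Cardinal.mul_lt_of_lt (Cardinal.aleph0_le_aleph 1) Cardinal.aleph0_lt_aleph_one h1

theorem exists_names {ξ : Ordinal.{0}} (h1 : ξ < Ordinal.omega 1) :
    ∃ o : ℕ → Ordinal.{0}, ∀ ζ < ξ, ∃ n, o n = ζ := by
  rcases eq_zero_or_pos ξ with h0 | h0
  · exact ⟨fun _ => 0, fun ζ h => absurd h (by rw [h0]; exact not_lt.2 zero_le)⟩
  have hc : (Iio ξ).Countable := by
    rw [← Set.countable_coe_iff, ← Cardinal.mk_le_aleph0_iff, Cardinal.mk_Iio_ordinal]
    rw [Cardinal.lt_omega_iff_card_lt] at h1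
    rw [Cardinal.lift_le_aleph0, ← Order.lt_succ_iff, Cardinal.succ_aleph0]
    exact h1
  obtain ⟨o, ho⟩ := hc.exists_eq_range ⟨0, h0⟩
  refine ⟨o, fun ζ hζ => ?_⟩
  have : ζ ∈ Iio ξ := hζ
  rw [ho] at this
  exact this

theorem exists_limSet {α : Ordinal.{0}} (h0 : 0 < α) (hα : ∀ β < α, β + 1 < α)
    (h1 : α < Ordinal.omega 1) : ∃ o b : ℕ → Ordinal.{0}, LimSet α o b := by
  obtain ⟨o, ho⟩ := exists_names (omega_mul_lt h1)
  obtain ⟨e, he⟩ := exists_names h1
  let e' : ℕ → Ordinal.{0} := fun n => if e n < α then e n else 0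
  have he' : ∀ n, e' n < α := fun n => by
    simp only [e']
    split_ifs with h
    exacts [h, h0]
  let b : ℕ → Ordinal.{0} := fun n =>
    Nat.rec (e' 0) (fun n x => max (x + 1) (e' (n + 1))) n
  have hb : ∀ n, b n < α := by
    intro n
    induction n with
    | zero => exact he' 0
    | succ n ih => exact max_lt (hα _ ih) (he' (n + 1))
  have hs : ∀ n, b n < b (n + 1) := fun n =>
    lt_of_lt_of_le (lt_add_of_pos_right _ zero_lt_one) (le_max_left _ _)
  refine ⟨o, b, hα, h0, h1, ho, hb, fun m n h => strictMono_nat_of_lt_succ hs h, ?_⟩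
  intro β hβ
  obtain ⟨n, hn⟩ := he β hβ
  refine ⟨n, ?_⟩
  have h2 : e' n = β := by
    simp only [e']
    rw [if_pos (by rw [hn]; exact hβ), hn]
  rw [← h2]
  cases n with
  | zero => exact le_rfl
  | succ n => exact le_max_right _ _

theorem two_mul_lt {α β : Ordinal.{0}} (hα : ∀ β < α, β + 1 < α) (hβ : β < α) :
    2 * β < α := by
  have hnat : ∀ n : ℕ, ∀ γ < α, γ + n < α := by
    intro n
    induction n with
    | zero => intro γ h; simpa using h
    | succ n ih =>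
      intro γ h
      have := hα _ (ih γ h)
      rwa [Nat.cast_succ, ← add_assoc]
  have h1 := Ordinal.div_add_mod β Ordinal.omega0
  obtain ⟨n, hn⟩ := Ordinal.lt_omega0.1 (Ordinal.mod_lt β Ordinal.omega0_ne_zero)
  rw [hn] at h1
  have h2 : (2 : Ordinal.{0}) * Ordinal.omega0 = Ordinal.omega0 := by
    have := Ordinal.natCast_mul_omega0 (n := 2) (by norm_num)
    exact_mod_cast this
  have h3 : 2 * β = Ordinal.omega0 * (β / Ordinal.omega0) + ((2 * n : ℕ) : Ordinal.{0}) := by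
    conv_lhs => rw [← h1]
    rw [mul_add, ← mul_assoc, h2]
    push_cast
    rfl
  rw [h3]
  refine hnat _ _ (lt_of_le_of_lt ?_ hβ)
  calc Ordinal.omega0 * (β / Ordinal.omega0) ≤ Ordinal.omega0 * (β / Ordinal.omega0) + n :=
        le_add_of_nonneg_right zero_le
    _ = β := h1

/-- At a limit level the bound `α + 1` of the hierarchy is attained. -/
theorem lim_main {α : Ordinal.{0}} (h0 : 0 < α) (hα : ∀ β < α, β + 1 < α)
    (h1 : α < Ordinal.omega 1) :
    ∃ φ : Fm 0, Lvl false α φ ∧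
      (∃ (M : Type) (r : M → M → Prop), Countable M ∧ IsTree r ∧ φ.Realize r ![]) ∧
      ∀ (M : Type) (r : M → M → Prop), Countable M → IsTree r → φ.Realize r ![] →
        ∀ ψ : Fm 0, Lvl false (α + 1) ψ → ¬ IsScottSentence r ψ := by
  obtain ⟨o, b, hL⟩ := exists_limSet h0 hα h1
  have hT0 : IsT (M0 o b) := isT_node fun i _ => isT_node fun j _ => isT_RT _ _
  have hb2 : ∀ n, b n + 2 < α := fun n => by
    have := hα _ (hα _ (hL.lt n))
    rwa [add_assoc, one_add_one_eq_two] at this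
  have hc : ∀ n : ℕ, ∃ φ : Fm 0, Lvl false (2 * (b n + 2)) φ ∧
      φ.Realize (pr (M0 o b)) ![] ∧
      ∀ S : Set (List ℕ), φ.Realize (pr S) ![] → BF (b n + 2) (M0 o b) S ∅ := fun n =>
    exists_canon _ ((hb2 n).trans h1)
  choose f f1 f2 f3 using hc
  refine ⟨.conj f, .conj h0 fun n => (f1 n).mono (two_mul_lt hα (hb2 n)).le,
    ⟨M0 o b, pr _, (M0 o b).to_countable.to_subtype, isTree_pr hT0, fun n => f2 n⟩, ?_⟩
  intro M r _ hr hM ψ hψ hs
  obtain ⟨S, hS, ⟨e⟩⟩ := exists_listTree hr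
  have hMS : (Fm.conj f).Realize (pr S) ![] := by
    have h5 := (realize_iso e (Fm.conj f) ![]).1 hM
    rwa [Subsingleton.elim (fun i => e ((![] : Fin 0 → M) i)) ![]] at h5
  have hle : ∀ β < α, LE β (M0 o b) S := fun β hβ => by
    obtain ⟨n, hn⟩ := hL.cof β hβ
    exact (LE.of_empty (f3 n S (hMS n)) hT0 hS).mono hn
  obtain ⟨⟨k0, hk0⟩, hd⟩ := M0_dense hL hS hle
  have h2 := remC_le hα hS (hd k0 hk0)
  have h3 : ψ.Realize (pr S) ![] := (hs S (pr S) S.to_countable.to_subtype).2 ⟨e⟩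
  have h4 : ψ.Realize (pr (remC α S k0)) ![] := BF.pres h2 hψ (fun i => i.elim0) h3
  obtain ⟨e'⟩ := (hs _ (pr (remC α S k0)) (remC α S k0).to_countable.to_subtype).1 h4
  exact remC_not_iso hS hk0 ⟨e.symm.trans e'⟩

end Pool.Agent.Lib.MP_efc3dd_lc
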