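import Pool.Agent.Lib.MP_efc3dd_lc.XDefs

set_option autoImplicit false

/-!
# Ranked trees of small rank are distinguished
-/

namespace Pool.Agent.Lib.MP_efc3dd_lc

open Set

namespace YNeq

theorem cone : ∀ (δ : Ordinal.{0}) {ι κ : Type} {S : Set (List ι)} {T : Set (List κ)}
    {p : Set (List ι × List κ)}, BF δ S T p → ∀ {v : List ι} {w : List κ}, (v, w) ∈ p →
    BF δ (sub S v) (sub T w) {z | (v ++ z.1, w ++ z.2) ∈ p} := by
  intro δ
  induction δ using WellFoundedLT.induction with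
  | ind δ ih =>
    intro ι κ S T p h v w hvw
    rw [BF_iff]
    refine ⟨?_, ?_, ?_, ?_⟩
    · refine h.finite.preimage (f := fun z : List ι × List κ => (v ++ z.1, w ++ z.2)) ?_
      rintro ⟨a, b⟩ _ ⟨a', b'⟩ _ e
      simp only [Prod.mk.injEq, List.append_cancel_left_eq] at e
      exact Prod.ext e.1 e.2
    · intro z hz
      exact ⟨Or.inr (h.mem hz).1, Or.inr (h.mem hz).2⟩
    · intro a ha b hb
      have h1 := h.atom _ ha _ hb
      simp only [List.prefix_append_right_inj] at h1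
      exact h1
    · intro β' hβ D hD hf
      obtain ⟨q, h1, h2, h3⟩ := h.step hβ (D := (fun d => w ++ d) '' D) (by
        rintro _ ⟨d, hd, rfl⟩
        rcases hD hd with h4 | h4
        · subst h4
          simpa using (h.mem hvw).2
        · exact h4) (hf.image _)
      refine ⟨{z | (v ++ z.1, w ++ z.2) ∈ q}, fun z hz => h1 hz, ?_, ?_⟩
      · intro d hd
        obtain ⟨a, ha⟩ := h2 (w ++ d) ⟨d, hd, rfl⟩
        have hat : Atom q := h3.atom.sw
        have h4 : v <+: a := (hat _ (h1 hvw) _ ha).2 (List.prefix_append _ _)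
        obtain ⟨a', rfl⟩ := h4
        exact ⟨a', ha⟩
      · exact ih β' hβ h3 (v := w) (w := v) (h1 hvw)

theorem cone_le {δ : Ordinal.{0}} {ι κ : Type} {S : Set (List ι)} {T : Set (List κ)}
    {p : Set (List ι × List κ)} (h : BF δ S T p) {v : List ι} {w : List κ} (hvw : (v, w) ∈ p) :
    LE δ (sub S v) (sub T w) := by
  refine (cone δ h hvw).pos ?_
  rintro _ rfl
  show (v ++ [], w ++ []) ∈ p
  simpa using hvw

/-- The last rank. -/
def rk (o : ℕ → Ordinal.{0}) : Ordinal.{0} → List ℕ → Ordinal.{0}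
  | ξ, [] => ξ
  | _, n :: l => rk o (o (Nat.unpair n).1) l

theorem dec_append {o : ℕ → Ordinal.{0}} {l m : List ℕ} : ∀ {ξ : Ordinal.{0}}, dec o ξ l →
    (dec o ξ (l ++ m) ↔ dec o (rk o ξ l) m) := by
  induction l with
  | nil => intro ξ _; exact Iff.rfl
  | cons n l ih =>
    intro ξ h
    have h1 := ih h.2
    show (o (Nat.unpair n).1 < ξ ∧ dec o (o (Nat.unpair n).1) (l ++ m)) ↔ _
    rw [h1]
    exact ⟨fun h2 => h2.2, fun h2 => ⟨h.1, h2⟩⟩

theorem sub_RT {o : ℕ → Ordinal.{0}} {ξ : Ordinal.{0}} {l : List ℕ} (h : l ∈ RT o ξ) :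
    sub (RT o ξ) l = RT o (rk o ξ l) := by
  ext m
  rw [mem_sub h]
  exact dec_append h

theorem rk_add_length {o : ℕ → Ordinal.{0}} {l : List ℕ} : ∀ {ξ : Ordinal.{0}}, dec o ξ l →
    rk o ξ l + (l.length : ℕ) ≤ ξ := by
  induction l with
  | nil => intro ξ _; simp [rk]
  | cons n l ih =>
    intro ξ h
    have h1 := ih h.2
    have h2 : rk o ξ (n :: l) + ((n :: l).length : ℕ)
        = rk o (o (Nat.unpair n).1) l + (l.length : ℕ) + 1 := by
      simp only [rk, List.length_cons]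
      push_cast
      rw [add_assoc]
    rw [h2]
    exact Order.add_one_le_of_lt (h1.trans_lt h.1)

theorem exists_chain {o : ℕ → Ordinal.{0}} {β : Ordinal.{0}} : ∀ (n : ℕ) {ξ : Ordinal.{0}},
    (∀ ζ < ξ, ∃ m, o m = ζ) → Ordinal.omega0 * β + n ≤ ξ →
    ∃ c ∈ RT o ξ, c.length = n ∧ Ordinal.omega0 * β ≤ rk o ξ c := by
  intro n
  induction n with
  | zero =>
    intro ξ _ h
    refine ⟨[], trivial, rfl, ?_⟩
    simpa [rk] using h
  | succ n ih =>
    intro ξ hs h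
    have h1 : Ordinal.omega0 * β + n < ξ := by
      refine lt_of_lt_of_le ?_ h
      rw [add_lt_add_iff_left]
      exact_mod_cast Nat.lt_succ_self n
    obtain ⟨k, hk⟩ := hs _ h1
    obtain ⟨c, hc1, hc2, hc3⟩ := ih (ξ := Ordinal.omega0 * β + n)
      (fun ζ hζ => hs ζ (hζ.trans h1)) le_rfl
    refine ⟨Nat.pair k 0 :: c, ⟨?_, ?_⟩, ?_, ?_⟩
    · simpa [hk] using h1
    · have h2 : dec o (Ordinal.omega0 * β + n) c := hc1
      simpa [hk] using h2
    · simp [hc2]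
    · simpa [rk, hk] using hc3

def NE1 (o : ℕ → Ordinal.{0}) (β : Ordinal.{0}) : Prop :=
  ∀ ξ ξ' : Ordinal.{0}, (∀ ζ < ξ, ∃ m, o m = ζ) → (∀ ζ < ξ', ∃ m, o m = ζ) →
    LE (2 * β) (RT o ξ) (RT o ξ') → Ordinal.omega0 * β ≤ ξ → Ordinal.omega0 * β ≤ ξ'

theorem NE2 {o : ℕ → Ordinal.{0}} {β : Ordinal.{0}} (h1 : NE1 o β) (n : ℕ) {ξ ξ' : Ordinal.{0}}
    (hs : ∀ ζ < ξ, ∃ m, o m = ζ) (hs' : ∀ ζ < ξ', ∃ m, o m = ζ)
    (h : LE (2 * β + 1) (RT o ξ') (RT o ξ)) (hξ : Ordinal.omega0 * β + n ≤ ξ) :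
    Ordinal.omega0 * β + n ≤ ξ' := by
  obtain ⟨c, hc1, hc2, hc3⟩ := exists_chain n hs hξ
  have hfin : {d : List ℕ | d <+: c}.Finite := by
    refine (List.finite_toSet c.inits).subset ?_
    intro d hd
    exact (List.mem_inits _ _).2 hd
  obtain ⟨q, hq1, hq2, hq3⟩ := BF.step h (β' := 2 * β) (Order.lt_add_one_iff.2 le_rfl)
    (D := {d | d <+: c}) (fun d hd => (isT_RT o ξ).of_prefix hd hc1) hfin
  obtain ⟨x, hx⟩ := hq2 c List.prefix_rfl
  have hlen : c.length ≤ x.length :=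
    card_inits_le (q := sw q) hq3.atom (a := c) (b := x) hx fun c' hc' => hq2 c' hc'
  have hxT : x ∈ RT o ξ' := (hq3.mem (a := (c, x)) hx).2
  have h2 := cone_le hq3 (v := c) (w := x) hx
  rw [sub_RT hc1, sub_RT hxT] at h2
  have h3 := rk_add_length hxT
  have h3' := rk_add_length hc1
  have h4 : rk o ξ' x ≤ ξ' := (le_add_of_nonneg_right zero_le).trans h3
  have h4' : rk o ξ c ≤ ξ := (le_add_of_nonneg_right zero_le).trans h3'
  have h5 := h1 _ _ (fun ζ hζ => hs ζ (hζ.trans_le h4')) (fun ζ hζ => hs' ζ (hζ.trans_le h4))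
    h2 hc3
  refine le_trans ?_ h3
  refine add_le_add h5 ?_
  exact_mod_cast hc2 ▸ hlen

theorem NE1_all (o : ℕ → Ordinal.{0}) (β : Ordinal.{0}) : NE1 o β := by
  induction β using WellFoundedLT.induction with
  | ind β ih =>
    intro ξ ξ' hs hs' h hξ
    by_contra hc
    rw [not_le] at hc
    have hω : Ordinal.omega0 ≠ 0 := Ordinal.omega0_ne_zero
    have h1 : ξ' / Ordinal.omega0 < β := (Ordinal.lt_mul_iff_div_lt hω).1 hc
    have h2 : ξ' % Ordinal.omega0 < Ordinal.omega0 := Ordinal.mod_lt _ hω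
    obtain ⟨k, hk⟩ := Ordinal.lt_omega0.1 h2
    have h3 : Ordinal.omega0 * (ξ' / Ordinal.omega0) + k = ξ' := by
      rw [← hk]
      exact Ordinal.div_add_mod _ _
    set β' := ξ' / Ordinal.omega0 with hβ'
    have h4 : 2 * β' + 1 < 2 * β := by
      have h5 : (2 : Ordinal.{0}) * (β' + 1) ≤ 2 * β :=
        mul_le_mul_right (Order.add_one_le_of_lt h1) _
      rw [mul_add, mul_one] at h5
      refine lt_of_lt_of_le ?_ h5
      rw [add_lt_add_iff_left]
      exact_mod_cast Nat.lt_succ_self 1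
    have h6 : Ordinal.omega0 * β' + (k + 1 : ℕ) ≤ ξ := by
      have h7 : Ordinal.omega0 * (β' + 1) ≤ Ordinal.omega0 * β :=
        mul_le_mul_right (Order.add_one_le_of_lt h1) _
      rw [mul_add, mul_one] at h7
      refine le_trans (le_trans ?_ h7) hξ
      exact add_le_add le_rfl (Ordinal.natCast_lt_omega0 _).le
    have h8 := NE2 (ih β' h1) (k + 1) hs hs' (LE.symm_lt h h4) h6
    have h9 : Ordinal.omega0 * β' + k < Ordinal.omega0 * β' + (k + 1 : ℕ) := by
      rw [add_lt_add_iff_left]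
      exact_mod_cast Nat.lt_succ_self k
    rw [h3] at h9
    exact absurd h8 (not_le.2 h9)

end YNeq

theorem RT_pin {o : ℕ → Ordinal.{0}} {β ρ : Ordinal.{0}} {n : ℕ}
    (hs : ∀ ζ < Ordinal.omega0 * β + n, ∃ m, o m = ζ) (hs' : ∀ ζ < ρ, ∃ m, o m = ζ)
    (h : LE (2 * β + 2) (RT o (Ordinal.omega0 * β + n)) (RT o ρ)) :
    ρ = Ordinal.omega0 * β + n := by
  have h12 : 2 * β + 1 < 2 * β + 2 := by
    rw [add_lt_add_iff_left]
    exact_mod_cast Nat.lt_succ_self 1
  have h1 : Ordinal.omega0 * β + n ≤ ρ :=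
    YNeq.NE2 (YNeq.NE1_all o β) n hs hs' (LE.symm_lt h h12) le_rfl
  refine le_antisymm ?_ h1
  by_contra hc
  rw [not_le] at hc
  have h2 : Ordinal.omega0 * β + (n + 1 : ℕ) ≤ ρ := by
    have h3 := Order.add_one_le_of_lt hc
    push_cast
    rwa [← add_assoc]
  have h4 := YNeq.NE2 (YNeq.NE1_all o β) (n + 1) hs' hs (LE.mono h h12.le) h2
  have h9 : Ordinal.omega0 * β + n < Ordinal.omega0 * β + (n + 1 : ℕ) := by
    rw [add_lt_add_iff_left]
    exact_mod_cast Nat.lt_succ_self n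
  exact absurd h4 (not_le.2 h9)

end Pool.Agent.Lib.MP_efc3dd_lc
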