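import Pool.Agent.Lib.MP_efc3dd_lc.XDefs

set_option autoImplicit false

/-!
# Ranked trees of large rank are alike
-/

namespace Pool.Agent.Lib.MP_efc3dd_lc

open Set

namespace YRank

/-- The index set of the children of `RT o ξ`. -/
def Ix (o : ℕ → Ordinal.{0}) (ξ : Ordinal.{0}) : Set ℕ := {n | o (Nat.unpair n).1 < ξ}

/-- The subtree above the child `n`. -/
def Ch (o : ℕ → Ordinal.{0}) (n : ℕ) : Set (List ℕ) := RT o (o (Nat.unpair n).1)

theorem RT_node (o : ℕ → Ordinal.{0}) (ξ : Ordinal.{0}) : RT o ξ = node (Ix o ξ) (Ch o) :=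
  RT_eq o ξ

/-- Existence of names. -/
def Nm (o : ℕ → Ordinal.{0}) (ξ : Ordinal.{0}) : Prop := ∀ ζ < ξ, ∃ n, o n = ζ

theorem LE_node {β : Ordinal.{0}} {K L : Set ℕ} {A B : ℕ → Set (List ℕ)} (h : Rest β K A L B) :
    LE β (node K A) (node L B) := by
  have h1 := node_BF β (K := K) (A := A) (L := L) (B := B) (m := (∅ : Set (ℕ × ℕ)))
    (P := fun _ => (∅ : Set (List ℕ × List ℕ)))
    ⟨finite_empty, fun x hx => absurd hx (notMem_empty x), fun x hx => absurd hx (notMem_empty x)⟩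
    (fun x hx => absurd hx (notMem_empty x)) (fun x hx => absurd hx (notMem_empty x))
    (by simpa using h)
  refine h1.pos ?_
  rintro _ rfl
  exact nil_mem_lift

def PP (o : ℕ → Ordinal.{0}) (δ : Ordinal.{0}) : Prop :=
  ∀ ξ ξ' : Ordinal.{0}, (ξ = ξ' ∨ (Ordinal.omega0 * δ ≤ ξ ∧ Ordinal.omega0 * δ ≤ ξ')) →
    Nm o ξ → Nm o ξ' → ∀ X X' : Set ℕ, X.Finite → X'.Finite →
      Rest δ (Ix o ξ \ X) (Ch o) (Ix o ξ' \ X') (Ch o)

def QQ (o : ℕ → Ordinal.{0}) (δ : Ordinal.{0}) : Prop :=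
  ∀ (m : ℕ) (ξ ξ' : Ordinal.{0}),
    (ξ = ξ' ∨ (Ordinal.omega0 * δ + m ≤ ξ ∧ Ordinal.omega0 * δ + m ≤ ξ')) →
    Nm o ξ → Nm o ξ' → ∀ D : Set (List ℕ), D.Finite → D ⊆ RT o ξ' → (∀ d ∈ D, d.length ≤ m) →
      ∃ q : Set (List ℕ × List ℕ), (([], []) : List ℕ × List ℕ) ∈ q ∧
        (∀ d ∈ D, ∃ a, (a, d) ∈ q) ∧ BF δ (RT o ξ') (RT o ξ) (sw q)

/-- Choice of a rank below `ξ`. -/
theorem exists_rank {δ ξ ξ' t' : Ordinal.{0}} {m : ℕ}
    (h : ξ = ξ' ∨ (Ordinal.omega0 * δ + (m + 1 : ℕ) ≤ ξ ∧ Ordinal.omega0 * δ + (m + 1 : ℕ) ≤ ξ'))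
    (ht : t' < ξ') : ∃ t < ξ, t = t' ∨ (Ordinal.omega0 * δ + m ≤ t ∧ Ordinal.omega0 * δ + m ≤ t') := by
  rcases h with h | ⟨h1, _⟩
  · exact ⟨t', h ▸ ht, Or.inl rfl⟩
  · have h2 : Ordinal.omega0 * δ + m < Ordinal.omega0 * δ + (m + 1 : ℕ) := by
      rw [add_lt_add_iff_left]
      exact_mod_cast Nat.lt_succ_self m
    rcases lt_or_ge t' (Ordinal.omega0 * δ + m) with h3 | h3
    · exact ⟨t', h3.trans (h2.trans_le h1), Or.inl rfl⟩
    · exact ⟨_, h2.trans_le h1, Or.inr ⟨le_rfl, h3⟩⟩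

theorem QQ_of_PP {o : ℕ → Ordinal.{0}} {δ : Ordinal.{0}} (hP : PP o δ) : QQ o δ := by
  intro m
  induction m with
  | zero =>
    intro ξ ξ' h hn hn' D hD hDs hlen
    refine ⟨rt ℕ ℕ, mem_rt, ?_, ?_⟩
    · intro d hd
      have : d = [] := List.length_eq_zero_iff.1 (Nat.le_zero.1 (hlen d hd))
      subst this
      exact ⟨[], mem_rt⟩
    · rw [sw_rt]
      have h1 := hP ξ' ξ (by
        rcases h with h | ⟨h1, h2⟩
        · exact Or.inl h.symm
        · simp only [Nat.cast_zero, add_zero] at h1 h2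
          exact Or.inr ⟨h2, h1⟩) hn' hn ∅ ∅ finite_empty finite_empty
      simp only [sdiff_empty] at h1
      rw [RT_node, RT_node]
      exact LE_node h1
  | succ m ih =>
    intro ξ ξ' h hn hn' D hD hDs hlen
    have hE : {n | ∃ l, n :: l ∈ D}.Finite := heads_finite hD
    set E : Set ℕ := {n | ∃ l, n :: l ∈ D} with hEdef
    have hEI : E ⊆ Ix o ξ' := by
      rintro n ⟨l, hl⟩
      exact (hDs hl).1
    have hch : ∀ n : ℕ, ∃ (k : ℕ) (q : Set (List ℕ × List ℕ)), n ∈ E →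
        o k < ξ ∧ (([], []) : List ℕ × List ℕ) ∈ q ∧ (∀ d, n :: d ∈ D → ∃ a, (a, d) ∈ q) ∧
        BF δ (Ch o n) (RT o (o k)) (sw q) := by
      intro n
      by_cases hnE : n ∈ E
      · obtain ⟨t, ht, ht'⟩ := exists_rank h (hEI hnE)
        obtain ⟨k, hk⟩ := hn t ht
        obtain ⟨q, h1, h2, h3⟩ := ih t (o (Nat.unpair n).1) ht'
          (fun ζ hζ => hn ζ (hζ.trans ht)) (fun ζ hζ => hn' ζ (hζ.trans (hEI hnE)))
          {l | n :: l ∈ D} (tails_finite hD n) (fun l hl => (hDs hl).2)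
          (fun l hl => by
            have := hlen _ hl
            simp only [List.length_cons] at this
            omega)
        refine ⟨k, q, fun _ => ⟨hk ▸ ht, h1, h2, ?_⟩⟩
        rw [hk]
        exact h3
      · exact ⟨0, ∅, fun h => absurd h hnE⟩
    choose k q hkq using hch
    set f : ℕ → ℕ := fun n => Nat.pair (k n) n with hf
    have hf1 : ∀ n, (Nat.unpair (f n)).1 = k n := fun n => by simp [hf]
    have hf2 : ∀ n, (Nat.unpair (f n)).2 = n := fun n => by simp [hf]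
    have hfi : Function.Injective f := fun a b hab => by
      have := congrArg (fun x => (Nat.unpair x).2) hab
      simpa [hf] using this
    have hB := node_BF δ (K := Ix o ξ') (A := Ch o) (L := Ix o ξ) (B := Ch o)
      (m := (fun n => (n, f n)) '' E) (P := fun x => sw (q x.1)) ⟨hE.image _, ?_, ?_⟩ ?_ ?_ ?_
    · refine ⟨sw (lift ((fun n => (n, f n)) '' E) fun x => sw (q x.1)), ?_, ?_, ?_⟩
      · exact nil_mem_lift
      · intro d hd
        cases d with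
        | nil => exact ⟨[], nil_mem_lift⟩
        | cons n l =>
          have hnE : n ∈ E := ⟨l, hd⟩
          obtain ⟨a, ha⟩ := (hkq n hnE).2.2.1 l hd
          exact ⟨f n :: a, cons_mem_lift.2 ⟨⟨n, hnE, rfl⟩, ha⟩⟩
      · rw [sw_sw, RT_node, RT_node]
        exact hB
    · rintro _ ⟨n, hnE, rfl⟩
      refine ⟨hEI hnE, ?_⟩
      show o (Nat.unpair (f n)).1 < ξ
      rw [hf1]
      exact (hkq n hnE).1
    · rintro _ ⟨n, hnE, rfl⟩ _ ⟨n', hnE', rfl⟩
      exact ⟨fun h => congrArg f h, fun h => hfi h⟩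
    · rintro _ ⟨n, hnE, rfl⟩
      exact (hkq n hnE).2.1
    · rintro _ ⟨n, hnE, rfl⟩
      have := (hkq n hnE).2.2.2
      show BF δ (Ch o n) (Ch o (f n)) (sw (q n))
      unfold Ch at this ⊢
      rw [hf1]
      exact this
    · refine hP ξ' ξ ?_ hn' hn _ _ ((hE.image _).image _) ((hE.image _).image _)
      rcases h with h | ⟨h1, h2⟩
      · exact Or.inl h.symm
      · exact Or.inr ⟨(le_add_of_nonneg_right zero_le).trans h2,
          (le_add_of_nonneg_right zero_le).trans h1⟩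

theorem PP_all {o : ℕ → Ordinal.{0}} (δ : Ordinal.{0}) : PP o δ := by
  induction δ using WellFoundedLT.induction with
  | ind δ ih =>
    intro ξ ξ' h hn hn' X X' hX hX'
    rw [Rest_iff]
    intro β' hβ E hE hEf D hD
    -- a bound for the lengths
    obtain ⟨m, hm⟩ : ∃ m : ℕ, ∀ k ∈ E, ∀ d ∈ D k, d.length ≤ m := by
      have h1 : (⋃ k ∈ E, List.length '' D k).Finite :=
        hEf.biUnion fun k hk => (hD k hk).1.image _
      obtain ⟨m, hm⟩ := h1.bddAbove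
      refine ⟨m, fun k hk d hd => hm ?_⟩
      simp only [mem_iUnion]
      exact ⟨k, hk, d, hd, rfl⟩
    obtain ⟨M, hM⟩ := hX.bddAbove
    have hQ := QQ_of_PP (ih β' hβ)
    have hle : Ordinal.omega0 * β' + (m + 1 : ℕ) ≤ Ordinal.omega0 * δ := by
      have h1 : Ordinal.omega0 * (Order.succ β') ≤ Ordinal.omega0 * δ :=
        mul_le_mul_right (Order.succ_le_of_lt hβ) _
      rw [Ordinal.mul_succ] at h1
      refine le_trans ?_ h1
      exact add_le_add_right (Ordinal.natCast_lt_omega0 _).le _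
    have hcond : ξ = ξ' ∨ (Ordinal.omega0 * β' + (m + 1 : ℕ) ≤ ξ ∧
        Ordinal.omega0 * β' + (m + 1 : ℕ) ≤ ξ') := by
      rcases h with h | ⟨h1, h2⟩
      · exact Or.inl h
      · exact Or.inr ⟨hle.trans h1, hle.trans h2⟩
    have hch : ∀ n : ℕ, ∃ (k : ℕ) (q : Set (List ℕ × List ℕ)), n ∈ E →
        o k < ξ ∧ (([], []) : List ℕ × List ℕ) ∈ q ∧ (∀ d ∈ D n, ∃ a, (a, d) ∈ q) ∧
        BF β' (Ch o n) (RT o (o k)) (sw q) := by
      intro n
      by_cases hnE : n ∈ E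
      · obtain ⟨t, ht, ht'⟩ := exists_rank hcond (hE hnE).1
        obtain ⟨k, hk⟩ := hn t ht
        obtain ⟨q, h1, h2, h3⟩ := hQ m t (o (Nat.unpair n).1) ht'
          (fun ζ hζ => hn ζ (hζ.trans ht)) (fun ζ hζ => hn' ζ (hζ.trans (hE hnE).1))
          (D n) (hD n hnE).1 (hD n hnE).2 (hm n hnE)
        refine ⟨k, q, fun _ => ⟨hk ▸ ht, h1, h2, ?_⟩⟩
        rw [hk]
        exact h3
      · exact ⟨0, ∅, fun h => absurd h hnE⟩
    choose k q hkq using hch
    set f : ℕ → ℕ := fun n => Nat.pair (k n) (n + M + 1) with hf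
    have hf1 : ∀ n, (Nat.unpair (f n)).1 = k n := fun n => by simp [hf]
    have hfi : Function.Injective f := fun a b hab => by
      have := congrArg (fun x => (Nat.unpair x).2) hab
      simpa [hf] using this
    refine ⟨f, q, hfi.injOn, ?_, ?_, ?_⟩
    · intro n hnE
      refine ⟨?_, ?_⟩
      · show o (Nat.unpair (f n)).1 < ξ
        rw [hf1]
        exact (hkq n hnE).1
      · intro hx
        have h1 := hM hx
        have h2 : n + M + 1 ≤ f n := Nat.right_le_pair _ _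
        omega
    · intro n hnE
      refine ⟨(hkq n hnE).2.1, (hkq n hnE).2.2.1, ?_⟩
      have := (hkq n hnE).2.2.2
      show BF β' (Ch o n) (Ch o (f n)) (sw (q n))
      unfold Ch at this ⊢
      rw [hf1]
      exact this
    · rw [Set.sdiff_sdiff, Set.sdiff_sdiff]
      refine ih β' hβ ξ' ξ ?_ hn' hn _ _ (hX'.union hEf) (hX.union (hEf.image _))
      rcases hcond with h | ⟨h1, h2⟩
      · exact Or.inl h.symm
      · exact Or.inr ⟨(le_add_of_nonneg_right zero_le).trans h2,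
          (le_add_of_nonneg_right zero_le).trans h1⟩

end YRank

theorem RT_le {o : ℕ → Ordinal.{0}} {γ ξ ξ' : Ordinal.{0}} (hξ : Ordinal.omega0 * γ ≤ ξ)
    (hξ' : Ordinal.omega0 * γ ≤ ξ') (hs : ∀ ζ < ξ, ∃ n, o n = ζ) (hs' : ∀ ζ < ξ', ∃ n, o n = ζ) :
    LE γ (RT o ξ) (RT o ξ') := by
  have h1 := YRank.PP_all γ ξ ξ' (Or.inr ⟨hξ, hξ'⟩) hs hs' ∅ ∅ finite_empty finite_empty
  simp only [sdiff_empty] at h1
  rw [YRank.RT_node, YRank.RT_node]
  exact YRank.LE_node h1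

end Pool.Agent.Lib.MP_efc3dd_lc
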