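import Pool.Agent.Lib.MP_efc3dd_lc.YCone
import Pool.Agent.Lib.MP_efc3dd_lc.YRank
import Pool.Agent.Lib.MP_efc3dd_lc.YNeq

set_option autoImplicit false

/-!
# The trees coding finite sets
-/

namespace Pool.Agent.Lib.MP_efc3dd_lc

open Set

theorem LimSet.add_nat {α : Ordinal.{0}} {o b : ℕ → Ordinal.{0}} (hL : LimSet α o b)
    {β : Ordinal.{0}} (hβ : β < α) (n : ℕ) : β + n < α := by
  induction n with
  | zero => simpa using hβ
  | succ n ih =>
    have h := hL.lim _ ih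
    rwa [add_assoc, ← Nat.cast_succ] at h

theorem LimSet.omega_lt {α : Ordinal.{0}} {o b : ℕ → Ordinal.{0}} (hL : LimSet α o b)
    (k : ℕ) (n : ℕ) : Ordinal.omega0 * b k + n < Ordinal.omega0 * α := by
  have h1 : b k + 1 < α := hL.lim _ (hL.lt k)
  calc Ordinal.omega0 * b k + n < Ordinal.omega0 * b k + Ordinal.omega0 := by
        gcongr
        exact Ordinal.natCast_lt_omega0 n
    _ = Ordinal.omega0 * (b k + 1) := by rw [mul_add, mul_one]
    _ ≤ Ordinal.omega0 * α := by gcongr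

theorem LimSet.names {α : Ordinal.{0}} {o b : ℕ → Ordinal.{0}} (hL : LimSet α o b)
    (k : ℕ) (n : ℕ) {ζ : Ordinal.{0}} (hζ : ζ < Ordinal.omega0 * b k + n) : ∃ m, o m = ζ :=
  hL.surj _ (hζ.trans (hL.omega_lt k n))

/-- The bit of `k`. -/
noncomputable def bitF (F : Finset ℕ) (k : ℕ) : ℕ := by
  classical exact if k ∈ F then 1 else 0

theorem bitF_le (F : Finset ℕ) (k : ℕ) : bitF F k ≤ 1 := by
  unfold bitF
  split_ifs <;> simp

theorem yTF_eq (o b : ℕ → Ordinal.{0}) (F : Finset ℕ) :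
    TF o b F = node univ fun n => RT o (Ordinal.omega0 * b (Nat.unpair n).1 +
      (bitF F (Nat.unpair n).1 : ℕ)) := by
  unfold TF bitF
  congr 1
  funext n
  split_ifs <;> simp

theorem isT_TF (o b : ℕ → Ordinal.{0}) (F : Finset ℕ) : IsT (TF o b F) := by
  rw [yTF_eq]
  exact isT_node fun _ _ => isT_RT _ _

theorem ysub_node {κ : Type} {K : Set κ} {A : κ → Set (List κ)} {k : κ} (hk : k ∈ K)
    (hA : [] ∈ A k) : sub (node K A) [k] = A k := by
  ext l
  have h : [k] ∈ node K A := cons_mem_node.2 ⟨hk, hA⟩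
  rw [mem_sub h, List.singleton_append, cons_mem_node]
  exact ⟨fun h => h.2, fun h => ⟨hk, h⟩⟩

theorem sub_TF (o b : ℕ → Ordinal.{0}) (F : Finset ℕ) (n : ℕ) :
    sub (TF o b F) [n] = RT o (Ordinal.omega0 * b (Nat.unpair n).1 +
      (bitF F (Nat.unpair n).1 : ℕ)) := by
  rw [yTF_eq]
  exact ysub_node (mem_univ n) (isT_RT _ _).nil

theorem ylift_empty {ι κ : Type} (P : ι × κ → Set (List ι × List κ)) :
    lift (∅ : Set (ι × κ)) P = rt ι κ := by
  ext z
  constructor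
  · rintro (h | ⟨x, hx, _⟩)
    · exact h
    · exact absurd hx (notMem_empty x)
  · intro h
    exact Or.inl h

theorem ynode_LE {κ : Type} {β : Ordinal.{0}} {K : Set κ} {A B : κ → Set (List κ)}
    (h : ∀ k ∈ K, LE β (A k) (B k)) : LE β (node K A) (node K B) := by
  have h1 := node_same (β := β) (K := K) (F := ∅) (A := A) (B := B) (P := fun _ => ∅)
    finite_empty (empty_subset _) (fun k hk => absurd hk (notMem_empty k))
    (fun k hk => absurd hk (notMem_empty k)) (fun k hk _ => h k hk)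
  rwa [image_empty, ylift_empty] at h1

theorem TF_le {α : Ordinal.{0}} {o b : ℕ → Ordinal.{0}} (hL : LimSet α o b) {F F' : Finset ℕ}
    {γ : Ordinal.{0}} (h : ∀ k, (k ∈ F ↔ k ∈ F') ∨ γ ≤ b k) : LE γ (TF o b F) (TF o b F') := by
  rw [yTF_eq, yTF_eq]
  refine ynode_LE fun n _ => ?_
  rcases h (Nat.unpair n).1 with h1 | h1
  · have e : bitF F (Nat.unpair n).1 = bitF F' (Nat.unpair n).1 := by
      unfold bitF
      simp only [h1]
    rw [e]
    exact LE.refl (isT_RT _ _).nil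
  · have h2 : Ordinal.omega0 * γ ≤ Ordinal.omega0 * b (Nat.unpair n).1 := by gcongr
    exact RT_le (h2.trans le_self_add)
      (h2.trans le_self_add)
      (fun ζ hζ => hL.names _ _ hζ) (fun ζ hζ => hL.names _ _ hζ)

theorem yomega_eq {x y : Ordinal.{0}} {m n : ℕ}
    (h : Ordinal.omega0 * x + m = Ordinal.omega0 * y + n) : x = y ∧ m = n := by
  have h1 : ∀ (z : Ordinal.{0}) (k : ℕ), (Ordinal.omega0 * z + k) / Ordinal.omega0 = z := by
    intro z k
    rw [Ordinal.mul_add_div _ Ordinal.omega0_ne_zero,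
      Ordinal.div_eq_zero_of_lt (Ordinal.natCast_lt_omega0 k), add_zero]
  have h2 : x = y := by
    rw [← h1 x m, h, h1]
  subst h2
  refine ⟨rfl, ?_⟩
  have h3 := add_left_cancel h
  exact_mod_cast h3

theorem TF_pin {α : Ordinal.{0}} {o b : ℕ → Ordinal.{0}} (hL : LimSet α o b) {F F' : Finset ℕ}
    {k : ℕ} (h : LE (2 * b k + 3) (TF o b F) (TF o b F')) : k ∈ F ↔ k ∈ F' := by
  have e3 : (2 * b k + 3 : Ordinal.{0}) = 2 * b k + 2 + 1 := by
    rw [add_assoc]
    norm_num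
  rw [e3] at h
  have h2 : (1 : Ordinal.{0}) ≤ 2 * b k + 2 := by
    calc (1 : Ordinal.{0}) ≤ 2 := by norm_num
      _ ≤ 2 * b k + 2 := le_add_self
  obtain ⟨f, -, hf⟩ := LE.children h h2 (isT_TF o b F) (isT_TF o b F') (J := {Nat.pair k 0})
    (finite_singleton _) (by
      rintro _ rfl
      rw [yTF_eq]
      exact cons_mem_node.2 ⟨mem_univ _, (isT_RT _ _).nil⟩)
  have hf1 := (hf _ rfl).2
  rw [sub_TF, sub_TF, Nat.unpair_pair] at hf1
  have h4 := RT_pin (fun ζ hζ => hL.names _ _ hζ) (fun ζ hζ => hL.names _ _ hζ) hf1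
  obtain ⟨h5, h6⟩ := yomega_eq h4
  have h7 : (Nat.unpair (f (Nat.pair k 0))).1 = k := by
    by_contra hne
    rcases lt_or_gt_of_ne hne with h8 | h8
    · exact (hL.mono _ _ h8).ne h5
    · exact (hL.mono _ _ h8).ne h5.symm
  rw [h7] at h6
  unfold bitF at h6
  by_cases h8 : k ∈ F <;> by_cases h9 : k ∈ F' <;> simp [h8, h9] at h6 ⊢

end Pool.Agent.Lib.MP_efc3dd_lc
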